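import Pool.Agent.WU.Zone

/-!
# One backward step over a lazily chosen zone
-/

set_option autoImplicit false

namespace Pool.Agent.WU

open Function

variable {x y z K : Cfg} {a b c c' p q w w' i : ℤ} {u v : Dg} {r r' : Fin 13 × Dg} {sd : Bool}
  {j j' : Fin 13}

/-! ### Auxiliary facts (Back) -/

/-- No slot header inside the region of the class. -/
theorem Back_no_header (h : Cls a c z) (h1 : a ≤ p) (h2 : p < c) (e0 : z p = true)
    (e1 : z (p + 1) = true) (e2 : z (p + 2) = false) (e3 : z (p + 3) = true) : False := by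
  obtain ⟨⟨w1, w2, w3, w4⟩, hc, hl, hp⟩ := h
  by_cases h3 : a + 24 ≤ p
  · rcases hp p h3 h2 with h4 | h4
    · rw [e0] at h4
      exact absurd h4 (by simp)
    · rw [e1] at h4
      exact absurd h4 (by simp)
  · by_cases h4 : p < a + 10
    · have h5 := w1 (p + 2) (by omega) (by omega)
      rw [e2] at h5
      exact absurd h5 (by simp)
    · by_cases h5 : p + 1 < a + 12
      · have h6 := w2 (p + 3) (by omega) (by omega)
        rw [e3] at h6
        exact absurd h6 (by simp)
      · by_cases h6 : p + 1 < a + 24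
        · have h7 := w2 (p + 1) (by omega) (by omega)
          rw [e1] at h7
          exact absurd h7 (by simp)
        · have h7 := w2 p (by omega) (by omega)
          rw [e0] at h7
          exact absurd h7 (by simp)

theorem Back_TB_pos (h : Cls a c z) (hw : a + 4 ≤ w) (ht : TB z w u) :
    ∃ p, c ≤ p ∧ w - 156 < p ∧ p ≤ w - 144 ∧ Slot (wr z w u) p := by
  obtain ⟨p, h1, h2, hs⟩ := ht
  refine ⟨p, ?_, h1, h2, hs⟩
  by_contra hlt
  have hk : ∀ k : ℤ, p ≤ k → k < p + 4 → wr z w u k = z k := fun k _ h4 =>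
    wr_out (Or.inl (by omega))
  have e0 := hs.pre.c0
  have e1 := hs.pre.c1
  have e2 := hs.pre.c2
  have e3 := hs.pre.c3
  rw [hk p (by omega) (by omega)] at e0
  rw [hk (p + 1) (by omega) (by omega)] at e1
  rw [hk (p + 2) (by omega) (by omega)] at e2
  rw [hk (p + 3) (by omega) (by omega)] at e3
  by_cases ha : a ≤ p
  · exact Back_no_header h ha (by omega) e0 e1 e2 e3
  · have hb : Bar (wr z w u) a := by
      rw [Bar_congr (y := z) (fun i _ h4 => wr_out (Or.inl (by omega)))]
      exact h.1.bar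
    have := hb.slot hs (by omega)
    omega

theorem Back_TB_far (h : Cls a c z) (hw : a + 4 ≤ w) (ht : TB z w u) : c + 144 ≤ w := by
  obtain ⟨p, h1, h2, h3, _⟩ := Back_TB_pos h hw ht
  omega

theorem Back_TB_imp (h : Cls a c z) (he : ∀ i, c ≤ i → z i = y i)
    (hw : a + 4 ≤ w) (ht : TB z w u) : TB y w u := by
  obtain ⟨p, h1, h2, h3, hs⟩ := Back_TB_pos h hw ht
  refine ⟨p, h2, h3, ?_⟩
  rw [← Slot_congr (x := wr z w u)]
  · exact hs
  · intro i h4 h5
    by_cases h6 : w ≤ i ∧ i < w + 12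
    · rw [wr_in h6.1 h6.2, wr_in h6.1 h6.2]
    · rw [wr_out (by omega), wr_out (by omega)]
      exact he i (by omega)

theorem Back_TB_iff (h : Cls a c z) (h' : Cls a c y) (he : ∀ i, c ≤ i → z i = y i)
    (hw : a + 4 ≤ w) : TB z w u ↔ TB y w u :=
  ⟨Back_TB_imp h he hw, Back_TB_imp h' (fun i hi => (he i hi).symm) hw⟩

theorem Back_mp (w : ℤ) (sd : Bool) : w ≤ mp w sd ∧ mp w sd ≤ w + 12 := by
  unfold mp
  split_ifs <;> omega

/-! ### Layer B -/

theorem Back_actB (h : Cls a c z) (h' : Cls a c y) (he : ∀ i, c ≤ i → z i = y i)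
    (hs : sysB.Act z (w, r, sd)) (hm : a ≤ mp w sd) : sysB.Act y (w, r, sd) ∧ c ≤ w := by
  rw [actB_iff] at hs ⊢
  obtain ⟨hM, hP, hT⟩ := hs
  have h1 := h.marker hM hm
  have h2 := Back_mp w sd
  have h0 := h.2.1
  have h3 := Back_TB_far h (by omega) hT
  have h4 := el_bounds r
  refine ⟨⟨?_, ?_, ?_⟩, by omega⟩
  · exact (Mt_congr (fun i h5 _ => he i (by omega))).1 hM
  · exact (Pre_congr (fun i h5 _ => he i (by omega))).1 hP
  · exact (Back_TB_iff h h' he (by omega)).1 hT

theorem Back_swapB_lt (h : Cls a c z) (h1 : a ≤ i) (h2 : i < c) : sysB.swap z i = z i := by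
  apply Sys.swap_else
  rintro ⟨w, r, sd⟩ hs
  by_cases hm : mp w sd < a
  · right
    have h3 : w + el r ≤ a := (actB_iff.1 hs).1.bar h.1.bar hm
    show w + el r ≤ i
    omega
  · left
    have h3 := (Back_actB h h (fun _ _ => rfl) hs (by omega)).2
    show i < w
    omega

theorem Back_swapB_aux (h : Cls a c z) (h' : Cls a c y) (he : ∀ i, c ≤ i → z i = y i)
    (h1 : c ≤ i) (hex : ∃ s, sysB.Act z s ∧ s.1 ≤ i ∧ i < s.1 + sysB.len s.2.1) :
    sysB.swap z i = sysB.swap y i := by
  obtain ⟨⟨w, r, sd⟩, hs, h3, h4⟩ := hex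
  have h5 : i < w + el r := h4
  have h0 := h.2.1
  have hm : a ≤ mp w sd := by
    by_contra hlt
    have h6 : w + el r ≤ a := (actB_iff.1 hs).1.bar h.1.bar (by omega)
    omega
  have h7 := (Back_actB h h' he hs hm).1
  rw [Sys.swap_at sysB_good hs h3 h4, Sys.swap_at sysB_good h7 h3 h4]

theorem Back_swapB_ge (h : Cls a c z) (h' : Cls a c y) (he : ∀ i, c ≤ i → z i = y i)
    (h1 : c ≤ i) : sysB.swap z i = sysB.swap y i := by
  by_cases hex : ∃ s, sysB.Act z s ∧ s.1 ≤ i ∧ i < s.1 + sysB.len s.2.1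
  · exact Back_swapB_aux h h' he h1 hex
  · by_cases hex' : ∃ s, sysB.Act y s ∧ s.1 ≤ i ∧ i < s.1 + sysB.len s.2.1
    · exact (Back_swapB_aux h' h (fun i hi => (he i hi).symm) h1 hex').symm
    · rw [Sys.swap_else, Sys.swap_else, he i h1]
      · intro s hs
        by_contra hcon
        exact hex' ⟨s, hs, by omega, by omega⟩
      · intro s hs
        by_contra hcon
        exact hex ⟨s, hs, by omega, by omega⟩

/-! ### Layer A -/

theorem Back_actA (h : Cls a c z) (h' : Cls a c y) (hcc : c' ≤ c) (ha : a + 4 ≤ c')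
    (he : ∀ i, c' ≤ i → z i = y i)
    (hr : ∀ w r, Mt z w r true → w < c → c ≤ w + 12 → c' ≤ w)
    (hs : sysA.Act z (w, r, sd)) (hm : a ≤ mp w sd) : sysA.Act y (w, r, sd) ∧ c' ≤ w := by
  rw [actA_iff] at hs ⊢
  obtain ⟨hM, hP, hT⟩ := hs
  have h1 := h.marker hM hm
  have h4 := el_bounds r
  have h2 : c' ≤ w := by
    cases sd with
    | false =>
      have : mp w false = w := rfl
      omega
    | true =>
      have h3 : mp w true = w + 12 := rfl
      by_cases h5 : w < c
      · exact hr w r hM h5 (by omega)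
      · omega
  refine ⟨⟨?_, ?_, ?_⟩, h2⟩
  · exact (Mt_congr (fun i h5 _ => he i (by omega))).1 hM
  · exact (Slot_congr (fun i h5 _ => he i (by omega))).1 hP
  · intro hT'
    exact hT ((Back_TB_iff h h' (fun i hi => he i (by omega)) (by omega)).2 hT')

theorem Back_swapA_lt (h : Cls a c z) (hcc : c' ≤ c) (ha : a + 4 ≤ c')
    (hr : ∀ w r, Mt z w r true → w < c → c ≤ w + 12 → c' ≤ w)
    (h1 : a ≤ i) (h2 : i < c') : sysA.swap z i = z i := by
  apply Sys.swap_else
  rintro ⟨w, r, sd⟩ hs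
  by_cases hm : mp w sd < a
  · right
    have h3 : w + el r ≤ a := (actA_iff.1 hs).1.bar h.1.bar hm
    show w + el r ≤ i
    omega
  · left
    have h3 := (Back_actA h h hcc ha (fun _ _ => rfl) hr hs (by omega)).2
    show i < w
    omega

theorem Back_swapA_aux (h : Cls a c z) (h' : Cls a c y) (hcc : c' ≤ c) (ha : a + 4 ≤ c')
    (he : ∀ i, c' ≤ i → z i = y i)
    (hr : ∀ w r, Mt z w r true → w < c → c ≤ w + 12 → c' ≤ w)
    (h1 : c' ≤ i) (hex : ∃ s, sysA.Act z s ∧ s.1 ≤ i ∧ i < s.1 + sysA.len s.2.1) :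
    sysA.swap z i = sysA.swap y i := by
  obtain ⟨⟨w, r, sd⟩, hs, h3, h4⟩ := hex
  have h5 : i < w + el r := h4
  have hm : a ≤ mp w sd := by
    by_contra hlt
    have h6 : w + el r ≤ a := (actA_iff.1 hs).1.bar h.1.bar (by omega)
    omega
  have h7 := (Back_actA h h' hcc ha he hr hs hm).1
  rw [Sys.swap_at sysA_good hs h3 h4, Sys.swap_at sysA_good h7 h3 h4]

theorem Back_swapA_ge (h : Cls a c z) (h' : Cls a c y) (hcc : c' ≤ c) (ha : a + 4 ≤ c')
    (he : ∀ i, c' ≤ i → z i = y i)
    (hr : ∀ w r, Mt z w r true → w < c → c ≤ w + 12 → c' ≤ w)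
    (hr' : ∀ w r, Mt y w r true → w < c → c ≤ w + 12 → c' ≤ w)
    (h1 : c' ≤ i) : sysA.swap z i = sysA.swap y i := by
  by_cases hex : ∃ s, sysA.Act z s ∧ s.1 ≤ i ∧ i < s.1 + sysA.len s.2.1
  · exact Back_swapA_aux h h' hcc ha he hr h1 hex
  · by_cases hex' : ∃ s, sysA.Act y s ∧ s.1 ≤ i ∧ i < s.1 + sysA.len s.2.1
    · exact (Back_swapA_aux h' h hcc ha (fun i hi => (he i hi).symm) hr' h1 hex').symm
    · rw [Sys.swap_else, Sys.swap_else, he i h1]
      · intro s hs
        by_contra hcon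
        exact hex' ⟨s, hs, by omega, by omega⟩
      · intro s hs
        by_contra hcon
        exact hex ⟨s, hs, by omega, by omega⟩

/-! ### One step for two configurations of the class -/

theorem Back_cls_up (hz : Cls a c' z) (hK : Cls a c K) (hcc : c' ≤ c)
    (he : ∀ i, c' ≤ i → z i = K i) : Cls a c z := by
  obtain ⟨h1, h2, h3, h4⟩ := hz
  obtain ⟨g1, g2, g3, g4⟩ := hK
  refine ⟨h1, g2, ?_, ?_⟩
  · by_cases h5 : c' = c
    · rw [← h5]
      exact h3
    · rw [he (c - 1) (by omega)]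
      exact g3
  · intro i h5 h6
    by_cases h7 : i < c'
    · exact h4 i h5 h7
    · rw [he i (by omega), he (i + 1) (by omega)]
      exact g4 i h5 h6

theorem Back_key (hz : Cls a c z) (hK : Cls a c K) (hzc : Cls a c' z) (hKc : Cls a c' K)
    (hcc : c' ≤ c) (he : ∀ i, c' ≤ i → z i = K i)
    (hr1 : ∀ w r, Mt (sysB.swap z) w r true → w < c → c ≤ w + 12 → c' ≤ w)
    (hr2 : ∀ w r, Mt (sysB.swap K) w r true → w < c → c ≤ w + 12 → c' ≤ w) :
    (∀ i, c' ≤ i → FFi z i = FFi K i) ∧ (∀ i, a ≤ i → i < c' → FFi z i = z i) := by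
  have ha : a + 38 ≤ c' := hzc.2.1
  have hz1 : Cls a c (sysB.swap z) :=
    (Cls_congr (fun i h1 h2 => Back_swapB_lt hz h1 h2)).2 hz
  have hK1 : Cls a c (sysB.swap K) :=
    (Cls_congr (fun i h1 h2 => Back_swapB_lt hK h1 h2)).2 hK
  have he1 : ∀ i, c' ≤ i → sysB.swap z i = sysB.swap K i := by
    intro i h1
    by_cases h2 : c ≤ i
    · exact Back_swapB_ge hz hK (fun i hi => he i (by omega)) h2
    · rw [Back_swapB_lt hz (by omega) (by omega), Back_swapB_lt hK (by omega) (by omega), he i h1]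
  have hzl : ∀ i, a ≤ i → i < c' → sysA.swap (sysB.swap z) i = z i := by
    intro i h1 h2
    rw [Back_swapA_lt hz1 hcc (by omega) hr1 h1 h2, Back_swapB_lt hz h1 (by omega)]
  have hKl : ∀ i, a ≤ i → i < c' → sysA.swap (sysB.swap K) i = K i := by
    intro i h1 h2
    rw [Back_swapA_lt hK1 hcc (by omega) hr2 h1 h2, Back_swapB_lt hK h1 (by omega)]
  have hz2 : Cls a c' (sysA.swap (sysB.swap z)) := (Cls_congr hzl).2 hzc
  have hK2 : Cls a c' (sysA.swap (sysB.swap K)) := (Cls_congr hKl).2 hKc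
  have he2 : ∀ i, c' ≤ i → sysA.swap (sysB.swap z) i = sysA.swap (sysB.swap K) i :=
    fun i h1 => Back_swapA_ge hz1 hK1 hcc (by omega) he1 hr1 hr2 h1
  constructor
  · intro i h1
    show NNi (sysA.swap (sysB.swap z)) i = NNi (sysA.swap (sysB.swap K)) i
    exact NNi_known hz2.1.bar (by omega) hz2.noslot hK2.1.bar hK2.noslot he2 i h1
  · intro i h1 h2
    show NNi (sysA.swap (sysB.swap z)) i = z i
    rw [NNi_gap hz2.1.bar hz2.noslot h1 h2]
    exact hzl i h1 h2

/-! ### The pop window at the border -/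

/-- Everything in the pop word except the block. -/
def Back_PM (y : Cfg) (w : ℤ) (j : Fin 13) (u : Dg) : Prop :=
  Mk y (w + 12) ∧
      (((j : ℕ) : ℤ) = 0 → Zs y (w + 24) (w + 168)) ∧
      (((j : ℕ) : ℤ) ≠ 0 → Zs y (w + 24) (w + 12 + 12 * ((j : ℕ) : ℤ)) ∧
        SC y (w + 12 + 12 * ((j : ℕ) : ℤ)) BL) ∧
      SC y (w + 168 + 12 * ((j : ℕ) : ℤ)) (cE u)

theorem Back_PM_congr (he : ∀ i, w + 12 ≤ i → z i = y i) : Back_PM z w j u → Back_PM y w j u := by
  have hj : (0 : ℤ) ≤ ((j : ℕ) : ℤ) := by positivity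
  rintro ⟨h1, h2, h3, h4⟩
  refine ⟨(Mk_congr (fun i h5 _ => he i (by omega))).1 h1, ?_, ?_, ?_⟩
  · intro h5
    exact (Zs_congr (fun i h6 _ => he i (by omega))).1 (h2 h5)
  · intro h5
    exact ⟨(Zs_congr (fun i h6 _ => he i (by omega))).1 (h3 h5).1,
      (SC_congr (fun i h6 _ => he i (by omega))).1 (h3 h5).2⟩
  · exact (SC_congr (fun i h6 _ => he i (by omega))).1 h4

theorem Back_SC0 {t : Cont} (h : SC y p t) : y p = true := Slot.pre ⟨t, h⟩ |>.c0

theorem Back_cE_inj (h : cE u = cE v) : u = v := by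
  have h1 : tE u = tE v := congrArg Cont.R h
  unfold tE at h1
  simpa using h1

theorem Back_PM_j (h : Back_PM y w j u) (h' : Back_PM y w j' v) :
    ¬ ((j : ℕ) : ℤ) < ((j' : ℕ) : ℤ) := by
  intro hlt
  have hj : (0 : ℤ) ≤ ((j : ℕ) : ℤ) := by positivity
  have hj' : ((j' : ℕ) : ℤ) ≤ 12 := by
    have := j'.isLt
    omega
  obtain ⟨g1, g2⟩ := h'.2.2.1 (by omega)
  by_cases h0 : ((j : ℕ) : ℤ) = 0
  · have h3 := h.2.1 h0 (w + 12 + 12 * ((j' : ℕ) : ℤ)) (by omega) (by omega)
    rw [Back_SC0 g2] at h3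
    exact absurd h3 (by simp)
  · have h3 := Back_SC0 (h.2.2.1 h0).2
    rw [g1 (w + 12 + 12 * ((j : ℕ) : ℤ)) (by omega) (by omega)] at h3
    exact absurd h3 (by simp)

theorem Back_PM_unique (h : Back_PM y w j u) (h' : Back_PM y w' j' v) (h1 : w ≤ w')
    (h2 : w' < w + 12) : w = w' ∧ j = j' ∧ u = v := by
  have hw : w = w' := by
    by_contra hne
    by_cases h3 : w' = w + 1
    · have h4 := h'.1.c1
      rw [h.1.zero (i := w' + 12 + 1) (by omega) (by omega)] at h4
      exact absurd h4 (by simp)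
    · have h4 := h'.1.c0
      rw [h.1.zero (i := w' + 12) (by omega) (by omega)] at h4
      exact absurd h4 (by simp)
  subst hw
  have h3 := Back_PM_j h h'
  have h4 := Back_PM_j h' h
  have hj : j = j' := by
    apply Fin.ext
    omega
  subst hj
  refine ⟨rfl, rfl, ?_⟩
  exact Back_cE_inj (SC_unique h.2.2.2 h'.2.2.2)

/-- Assembly: a choice of `c'` and `K` for which no pop window reaches below `c'`. -/
theorem Back_finish (x : Cfg) (a c c' : ℤ) (K : Cfg) (h1 : c - 2 ≤ c') (h2 : c' ≤ c)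
    (hKx : ∀ i, c ≤ i → K i = x i) (hKc : Cls a c' K) (hK : Cls a c K)
    (H : ∀ z : Cfg, Cls a c' z → (∀ i, c' ≤ i → z i = K i) →
      ∀ w r, Mt (sysB.swap z) w r true → w < c → c ≤ w + 12 → c' ≤ w) :
    ∃ (c' : ℤ) (K Y : Cfg), c - 2 ≤ c' ∧ c' ≤ c ∧ (∀ i, c ≤ i → K i = x i) ∧ Cls a c' K ∧ Cls a c K ∧
      ∀ z : Cfg, Cls a c' z → (∀ i, c' ≤ i → z i = K i) →
        (∀ i, c' ≤ i → FFi z i = Y i) ∧ (∀ i, a ≤ i → i < c' → FFi z i = z i) := by
  refine ⟨c', K, FFi K, h1, h2, hKx, hKc, hK, ?_⟩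
  intro z hz he
  exact Back_key (Back_cls_up hz hK h2 he) hK hz hKc h2 he (H z hz he)
    (H K hKc (fun _ _ => rfl))

/-- Backward step.  The cells from `c` on are known (those of `x`).  There are `c' ∈ {c-2, c-1, c}`
and values `K` (equal to `x` from `c` on) such that for every configuration of the class `Cls a c'`
which agrees with `K` from `c'` on, the inverse automaton gives a known result `Y` from `c'` on and
changes nothing between the wall and `c'`. -/
theorem back_step (x : Cfg) (a c : ℤ) (hx : Cls a c x) (hc : a + 42 ≤ c) :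
    ∃ (c' : ℤ) (K Y : Cfg), c - 2 ≤ c' ∧ c' ≤ c ∧ (∀ i, c ≤ i → K i = x i) ∧ Cls a c' K ∧ Cls a c K ∧
      ∀ z : Cfg, Cls a c' z → (∀ i, c' ≤ i → z i = K i) →
        (∀ i, c' ≤ i → FFi z i = Y i) ∧ (∀ i, a ≤ i → i < c' → FFi z i = z i) := by
  -- the pop word in `z` gives the partial pop word in `sysB.swap x`
  have hPM : ∀ (c' : ℤ) (K z : Cfg), c' ≤ c → (∀ i, c ≤ i → K i = x i) → Cls a c K →
      Cls a c' z → (∀ i, c' ≤ i → z i = K i) →
      ∀ w j u, Mt (sysB.swap z) w (j, u) true → w < c → c ≤ w + 12 →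
        Back_PM (sysB.swap x) w j u ∧ (∀ i, 0 ≤ i → i < 12 → sysB.swap z (w + i) = bit u i) := by
    intro c' K z hcc hKx hK hz he w j u hM h1 h2
    have hz' : Cls a c z := Back_cls_up hz hK hcc he
    obtain ⟨g1, g2⟩ := Mt_true.1 hM
    refine ⟨?_, g1⟩
    refine Back_PM_congr (z := sysB.swap z) ?_ g2
    intro i hi
    exact Back_swapB_ge hz' hx (fun i hi => by rw [he i (by omega), hKx i hi]) (by omega)
  by_cases hex : ∃ (w : ℤ) (j : Fin 13) (u : Dg), w < c ∧ c ≤ w + 12 ∧
      Back_PM (sysB.swap x) w j u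
  swap
  · -- no pop word at the border
    refine Back_finish x a c c x (by omega) le_rfl (fun _ _ => rfl) hx hx ?_
    intro z hz he w r hM h1 h2
    exact absurd ⟨w, r.1, r.2, h1, h2, (hPM c x z le_rfl (fun _ _ => rfl) hx hz he w r.1 r.2 hM
      h1 h2).1⟩ hex
  obtain ⟨w0, j0, u0, hw1, hw2, hP0⟩ := hex
  -- every pop word at the border is this one
  have hun : ∀ (c' : ℤ) (K z : Cfg), c' ≤ c → (∀ i, c ≤ i → K i = x i) → Cls a c K →
      Cls a c' z → (∀ i, c' ≤ i → z i = K i) →
      ∀ w r, Mt (sysB.swap z) w r true → w < c → c ≤ w + 12 →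
        w = w0 ∧ (∀ i, 0 ≤ i → i < 12 → sysB.swap z (w0 + i) = bit u0 i) := by
    intro c' K z hcc hKx hK hz he w r hM h1 h2
    obtain ⟨g1, g2⟩ := hPM c' K z hcc hKx hK hz he w r.1 r.2 hM h1 h2
    have h3 : w = w0 ∧ r.2 = u0 := by
      by_cases h4 : w ≤ w0
      · obtain ⟨e1, _, e3⟩ := Back_PM_unique g1 hP0 h4 (by omega)
        exact ⟨e1, e3⟩
      · obtain ⟨e1, _, e3⟩ := Back_PM_unique hP0 g1 (by omega) (by omega)
        exact ⟨e1.symm, e3.symm⟩
    refine ⟨h3.1, ?_⟩
    rw [← h3.1, ← h3.2]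
    exact g2
  by_cases hb : bit u0 (c - 1 - w0) = true
  · -- the wanted bit at `c - 1` is one: refused
    refine Back_finish x a c c x (by omega) le_rfl (fun _ _ => rfl) hx hx ?_
    intro z hz he w r hM h1 h2
    obtain ⟨g1, g2⟩ := hun c x z le_rfl (fun _ _ => rfl) hx hz he w r hM h1 h2
    have h3 := g2 (c - 1 - w0) (by omega) (by omega)
    have e : w0 + (c - 1 - w0) = c - 1 := by ring
    rw [e, Back_swapB_lt hz (by have := hx.2.1; omega) (by omega), hz.2.2.1, hb] at h3
    exact absurd h3 (by simp)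
  have hb' : bit u0 (c - 1 - w0) = false := by simpa using hb
  obtain ⟨x1, x2, x3, x4⟩ := hx
  by_cases hw3 : w0 = c - 1
  · -- the window starts at `c - 1`: it may be active
    set K : Cfg := fun i => if i = c - 2 then false else x i with hKdef
    have hKe : ∀ i, i ≠ c - 2 → K i = x i := fun i hi => by simp [hKdef, hi]
    have hK2 : K (c - 2) = false := by simp [hKdef]
    have hW : Wall K a := by
      obtain ⟨v1, v2, v3, v4⟩ := x1
      refine ⟨?_, ?_, ?_, ?_⟩
      · intro i h1 h2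
        rw [hKe i (by omega)]
        exact v1 i h1 h2
      · intro i h1 h2
        rw [hKe i (by omega)]
        exact v2 i h1 h2
      · rw [hKe _ (by omega)]
        exact v3
      · rw [hKe _ (by omega)]
        exact v4
    have hpair : ∀ i, a + 24 ≤ i → i < c → K i = false ∨ K (i + 1) = false := by
      intro i h1 h2
      by_cases h3 : i = c - 2
      · left
        rw [h3, hK2]
      · by_cases h4 : i + 1 = c - 2
        · right
          rw [h4, hK2]
        · rw [hKe i h3, hKe (i + 1) h4]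
          exact x4 i h1 h2
    have hKc : Cls a c K := ⟨hW, x2, by rw [hKe _ (by omega)]; exact x3, hpair⟩
    have hKc' : Cls a (c - 1) K := by
      refine ⟨hW, by omega, ?_, fun i h1 h2 => hpair i h1 (by omega)⟩
      have e : c - 1 - 1 = c - 2 := by ring
      rw [e]
      exact hK2
    have hKx : ∀ i, c ≤ i → K i = x i := fun i hi => hKe i (by omega)
    refine Back_finish x a c (c - 1) K (by omega) (by omega) hKx hKc' hKc ?_
    intro z hz he w r hM h1 h2
    obtain ⟨g1, _⟩ := hun (c - 1) K z (by omega) hKx hKc hz he w r hM h1 h2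
    omega
  · -- refuse the window at `c - 2`
    set K : Cfg := fun i => if i = c - 2 then !(bit u0 (c - 2 - w0)) else
      if i = c - 3 then false else x i with hKdef
    have hKe : ∀ i, i ≠ c - 2 → i ≠ c - 3 → K i = x i := fun i hi hi' => by
      simp [hKdef, hi, hi']
    have hK2 : K (c - 2) = !(bit u0 (c - 2 - w0)) := by simp [hKdef]
    have hK3 : K (c - 3) = false := by simp [hKdef]
    have hK1 : K (c - 1) = false := by
      rw [hKe _ (by omega) (by omega)]
      exact x3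
    have hW : Wall K a := by
      obtain ⟨v1, v2, v3, v4⟩ := x1
      refine ⟨?_, ?_, ?_, ?_⟩
      · intro i h1 h2
        rw [hKe i (by omega) (by omega)]
        exact v1 i h1 h2
      · intro i h1 h2
        rw [hKe i (by omega) (by omega)]
        exact v2 i h1 h2
      · rw [hKe _ (by omega) (by omega)]
        exact v3
      · rw [hKe _ (by omega) (by omega)]
        exact v4
    have hpair : ∀ i, a + 24 ≤ i → i < c → K i = false ∨ K (i + 1) = false := by
      intro i h1 h2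
      by_cases h3 : i = c - 3
      · left
        rw [h3, hK3]
      · by_cases h4 : i + 1 = c - 3
        · right
          rw [h4, hK3]
        · by_cases h5 : i = c - 2
          · right
            have e : i + 1 = c - 1 := by omega
            rw [e, hK1]
          · by_cases h6 : i + 1 = c - 2
            · omega
            · rw [hKe i h5 h3, hKe (i + 1) h6 h4]
              exact x4 i h1 h2
    have hKc : Cls a c K := ⟨hW, x2, hK1, hpair⟩
    have hKc' : Cls a (c - 2) K := by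
      refine ⟨hW, by omega, ?_, fun i h1 h2 => hpair i h1 (by omega)⟩
      have e : c - 2 - 1 = c - 3 := by ring
      rw [e]
      exact hK3
    have hKx : ∀ i, c ≤ i → K i = x i := fun i hi => hKe i (by omega) (by omega)
    refine Back_finish x a c (c - 2) K le_rfl (by omega) hKx hKc' hKc ?_
    intro z hz he w r hM h1 h2
    obtain ⟨_, g2⟩ := hun (c - 2) K z (by omega) hKx hKc hz he w r hM h1 h2
    have hz' : Cls a c z := Back_cls_up hz hKc (by omega) he
    have h3 := g2 (c - 2 - w0) (by omega) (by omega)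
    have e : w0 + (c - 2 - w0) = c - 2 := by ring
    rw [e, Back_swapB_lt hz' (by omega) (by omega), he (c - 2) le_rfl, hK2] at h3
    cases hh : bit u0 (c - 2 - w0)
    · rw [hh] at h3
      exact absurd h3 (by simp)
    · rw [hh] at h3
      exact absurd h3 (by simp)

end Pool.Agent.WU
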