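import Mathlib

/-!
# Frame: definitions used in the statement, locality and shift invariance

`IsCA`, `Appears`, `IsWUPG` are the definitions of the statement (any state set).
`Loc4 R G` : the value of `G x` at `i` depends on the cells at distance at most `R` from `i` only.
`Shc4 G` : `G` commutes with all shifts.
-/

namespace Pool.Agent.WU

/-- `F` is a one-dimensional cellular automaton over the state set `S`: it is given by a local rule
`f` on a finite neighbourhood `r 0 < r 1 < ... < r (k-1)` of integers. -/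
def IsCA {S : Type} (F : (ℤ → S) → (ℤ → S)) : Prop :=
  ∃ (k : ℕ) (r : Fin k → ℤ) (f : (Fin k → S) → S),
    StrictMono r ∧ ∀ x i, F x i = f (fun j => x (i + r j))

/-- The finite word `w` appears in the configuration `y`. -/
def Appears {S : Type} (w : List S) (y : ℤ → S) : Prop :=
  ∃ j : ℤ, ∀ (l : ℕ) (h : l < w.length), y (j + 1 + l) = w[l]

/-- `(F, x)` is a weak universal pattern generator over the state set `S` with quiescent state
`z`: `F` is a cellular automaton for which `z` is quiescent, `x` is a finite configuration and every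
finite word over `S` appears in `F^n(x)` for some `n`. -/
def IsWUPG {S : Type} (z : S) (F : (ℤ → S) → (ℤ → S)) (x : ℤ → S) : Prop :=
  IsCA F ∧ F (fun _ => z) = (fun _ => z) ∧ {i | x i ≠ z}.Finite ∧
    ∀ w : List S, ∃ n : ℕ, Appears w (F^[n] x)

/-- `G x i` depends only on the cells at distance at most `R` from `i`. -/
def Loc4 (R : ℕ) (G : (ℤ → Bool) → (ℤ → Bool)) : Prop :=
  ∀ (x y : ℤ → Bool) (i : ℤ), (∀ j : ℤ, i - R ≤ j → j ≤ i + R → x j = y j) → G x i = G y i

/-- `G` commutes with the shifts. -/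
def Shc4 (G : (ℤ → Bool) → (ℤ → Bool)) : Prop :=
  ∀ (k : ℤ) (x : ℤ → Bool) (i : ℤ), G (fun j => x (j + k)) i = G x (i + k)

theorem Loc4.mono {R R' : ℕ} {G : (ℤ → Bool) → (ℤ → Bool)} (h : Loc4 R G) (hR : R ≤ R') :
    Loc4 R' G := by
  intro x y i hxy
  apply h
  intro j h1 h2
  apply hxy <;> omega

theorem Loc4.comp {R R' : ℕ} {G G' : (ℤ → Bool) → (ℤ → Bool)} (h : Loc4 R G) (h' : Loc4 R' G') :
    Loc4 (R + R') (G ∘ G') := by
  intro x y i hxy
  apply h
  intro j h1 h2
  apply h'
  intro l h3 h4
  apply hxy <;> push_cast <;> omega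

theorem Shc4.comp {G G' : (ℤ → Bool) → (ℤ → Bool)} (h : Shc4 G) (h' : Shc4 G') :
    Shc4 (G ∘ G') := by
  intro k x i
  show G (G' (fun j => x (j + k))) i = G (G' x) (i + k)
  have e : G' (fun j => x (j + k)) = fun j => G' x (j + k) := by
    funext j
    exact h' k x j
  rw [e]
  exact h k (G' x) i

theorem loc4_id : Loc4 0 (id : (ℤ → Bool) → (ℤ → Bool)) := by
  intro x y i h
  exact h i (by simp) (by simp)

theorem shc4_id : Shc4 (id : (ℤ → Bool) → (ℤ → Bool)) := fun _ _ _ => rfl

/-- A map given by a rule `g` which is read off at the shifted configuration and which is local at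
`0` is local and commutes with the shifts. -/
theorem loc4_of_rule {R : ℕ} {G : (ℤ → Bool) → (ℤ → Bool)} (g : (ℤ → Bool) → Bool)
    (hG : ∀ x i, G x i = g (fun k => x (i + k)))
    (hg : ∀ x y : ℤ → Bool, (∀ j : ℤ, -(R : ℤ) ≤ j → j ≤ R → x j = y j) → g x = g y) :
    Loc4 R G ∧ Shc4 G := by
  constructor
  · intro x y i h
    rw [hG, hG]
    apply hg
    intro j h1 h2
    apply h <;> omega
  · intro k x i
    rw [hG, hG]
    congr 1
    funext j
    show x (i + j + k) = x (i + k + j)
    congr 1
    ring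

/-- Locality at the origin is enough for a map which commutes with the shifts. -/
theorem Shc4.loc {R : ℕ} {G : (ℤ → Bool) → (ℤ → Bool)} (hs : Shc4 G)
    (h0 : ∀ x y : ℤ → Bool, (∀ j : ℤ, -(R : ℤ) ≤ j → j ≤ R → x j = y j) → G x 0 = G y 0) :
    Loc4 R G := by
  intro x y i h
  have e1 := hs i x 0
  have e2 := hs i y 0
  rw [zero_add] at e1 e2
  rw [← e1, ← e2]
  apply h0
  intro j h1 h2
  apply h <;> omega

/-- A local map which commutes with the shifts is a cellular automaton. -/
theorem isCA_of_loc4 {R : ℕ} {G : (ℤ → Bool) → (ℤ → Bool)} (hl : Loc4 R G) (hs : Shc4 G) :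
    IsCA G := by
  refine ⟨2 * R + 1, fun j => (j : ℤ) - R,
    fun v => G (fun j => if h : 0 ≤ j + R ∧ j + R < 2 * R + 1 then v ⟨(j + R).toNat, by omega⟩
      else false) 0, ?_, ?_⟩
  · intro a b hab
    have : (a : ℕ) < (b : ℕ) := hab
    show ((a : ℕ) : ℤ) - R < ((b : ℕ) : ℤ) - R
    omega
  · intro x i
    have e := hs i x 0
    rw [zero_add] at e
    rw [← e]
    apply hl
    intro j h1 h2
    have h3 : 0 ≤ j + R ∧ j + R < 2 * R + 1 := by omega
    simp only [h3, dite_true, and_self]
    congr 1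
    have : (((j + R).toNat : ℕ) : ℤ) = j + R := by omega
    rw [this]
    ring

/-- A shift commuting map fixes a constant configuration or sends it to a constant one. -/
theorem Shc4.const {G : (ℤ → Bool) → (ℤ → Bool)} (hs : Shc4 G) (b : Bool) (i : ℤ) :
    G (fun _ => b) i = G (fun _ => b) 0 := by
  have e := hs i (fun _ => b) 0
  rw [zero_add] at e
  exact e.symm

/-- Assembly of the final statement. -/
theorem isWUPG_of {R : ℕ} {F : (ℤ → Bool) → (ℤ → Bool)} {x : ℤ → Bool}
    (hl : Loc4 R F) (hs : Shc4 F) (h0 : F (fun _ => false) = fun _ => false)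
    (hx : ∃ a b : ℤ, ∀ i, i < a ∨ b < i → x i = false)
    (hw : ∀ w : List Bool, ∃ (n : ℕ) (p : ℤ),
      ∀ (l : ℕ) (h : l < w.length), (F^[n] x) (p + l) = w[l]) :
    IsWUPG false F x := by
  refine ⟨isCA_of_loc4 hl hs, h0, ?_, ?_⟩
  · obtain ⟨a, b, hab⟩ := hx
    apply (Set.finite_Icc a b).subset
    intro i hi
    by_contra hc
    apply hi
    apply hab
    simp only [Set.mem_Icc, not_and_or, not_le] at hc
    exact hc
  · intro w
    obtain ⟨n, p, hp⟩ := hw w
    refine ⟨n, p - 1, ?_⟩
    intro l hl'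
    have e : p - 1 + 1 + (l : ℤ) = p + l := by ring
    rw [e]
    exact hp l hl'

end Pool.Agent.WU
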