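import Pool.Agent.WU.Zone
import Pool.Agent.WU.Frame4

/-!
# The automaton is a cellular automaton
-/

set_option autoImplicit false

namespace Pool.Agent.WU

open Function

/-- Shift of configurations. -/
def sh (a : ℤ) (x : Cfg) : Cfg := fun i => x (i + a)

theorem sh_apply (a : ℤ) (x : Cfg) (i : ℤ) : sh a x i = x (i + a) := rfl

variable {x y : Cfg} {p q a b i w : ℤ} {c : Cont} {u : Dg} {r : Fin 13 × Dg} {sd : Bool}

/-! ### Shifts of the basic predicates -/

theorem SC_sh : SC (sh a x) p c ↔ SC x (p + a) c := by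
  constructor
  · intro h i h1 h2
    rw [← h i h1 h2, sh_apply]
    congr 1
    ring
  · intro h i h1 h2
    rw [← h i h1 h2, sh_apply]
    congr 1
    ring

theorem Slot_sh : Slot (sh a x) p ↔ Slot x (p + a) := by
  unfold Slot
  simp only [SC_sh]

theorem Pre_sh : Pre (sh a x) p ↔ Pre x (p + a) := by
  unfold Pre
  constructor
  · rintro ⟨c, h⟩
    refine ⟨c, fun i h1 h2 => ?_⟩
    rw [← h i h1 h2, sh_apply]
    congr 1
    ring
  · rintro ⟨c, h⟩
    refine ⟨c, fun i h1 h2 => ?_⟩
    rw [← h i h1 h2, sh_apply]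
    congr 1
    ring

theorem nbr_sh : nbr (sh a x) p = nbr x (p + a) := by
  rcases h : nbr x (p + a) with _ | c
  · rw [nbr_eq_none, Slot_sh]
    exact nbr_eq_none.1 h
  · rw [nbr_eq_some, SC_sh]
    exact nbr_eq_some.1 h

theorem wr_sh : wr (sh a x) w u = sh a (wr x (w + a) u) := by
  funext i
  rw [sh_apply]
  by_cases h : w ≤ i ∧ i < w + 12
  · rw [wr_in h.1 h.2, wr_in (by omega) (by omega)]
    congr 1
    ring
  · rw [wr_out (by omega), wr_out (by omega), sh_apply]

theorem TB_sh : TB (sh a x) w u ↔ TB x (w + a) u := by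
  unfold TB
  constructor
  · rintro ⟨p, h1, h2, h3⟩
    rw [wr_sh, Slot_sh] at h3
    exact ⟨p + a, by omega, by omega, h3⟩
  · rintro ⟨p, h1, h2, h3⟩
    refine ⟨p - a, by omega, by omega, ?_⟩
    rw [wr_sh, Slot_sh, sub_add_cancel]
    exact h3

theorem Mk_sh : Mk (sh a x) p ↔ Mk x (p + a) := by
  constructor
  · intro h i h1 h2
    rw [← h i h1 h2, sh_apply]
    congr 1
    ring
  · intro h i h1 h2
    rw [← h i h1 h2, sh_apply]
    congr 1
    ring

theorem Mt_sh : Mt (sh a x) w r sd ↔ Mt x (w + a) r sd := by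
  constructor
  · intro h i h1 h2
    rw [← h i h1 h2, sh_apply]
    congr 1
    ring
  · intro h i h1 h2
    rw [← h i h1 h2, sh_apply]
    congr 1
    ring

theorem Bar_sh : Bar (sh a x) b ↔ Bar x (b + a) := by
  unfold Bar
  simp only [sh_apply]
  have e1 : b + 1 + a = b + a + 1 := by ring
  have e2 : b + 2 + a = b + a + 2 := by ring
  have e3 : b + 3 + a = b + a + 3 := by ring
  rw [e1, e2, e3]

theorem mp_sh : mp (w + a) sd = mp w sd + a := by
  unfold mp
  split
  · ring
  · rfl

theorem sh_sh (a b : ℤ) (x : Cfg) : sh a (sh b x) = sh (a + b) x := by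
  funext i
  simp only [sh_apply]
  congr 1
  ring

theorem sh_zero (x : Cfg) : sh 0 x = x := by
  funext i
  simp only [sh_apply, add_zero]

/-! ### Slot maps -/

theorem smap_sh (Φ : Option Cont → Cont → Option Cont → Cont) (a : ℤ) (x : Cfg) :
    smap Φ (sh a x) = sh a (smap Φ x) := by
  funext i
  rw [sh_apply]
  by_cases h : ∃ p : ℤ, Slot x p ∧ p ≤ i + a ∧ i + a < p + 156
  · obtain ⟨p, ⟨c, hc⟩, h1, h2⟩ := h
    have h3 := smap_SC (Φ := Φ) hc (i + a - p) (by omega) (by omega)
    have e1 : p + (i + a - p) = i + a := by ring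
    rw [e1] at h3
    have hc' : SC (sh a x) (p - a) c := by
      rw [SC_sh, sub_add_cancel]
      exact hc
    have h4 := smap_SC (Φ := Φ) hc' (i + a - p) (by omega) (by omega)
    have e2 : p - a + (i + a - p) = i := by ring
    rw [e2] at h4
    rw [h3, h4, nbr_sh, nbr_sh]
    have e3 : p - a - 156 + a = p - 156 := by ring
    have e4 : p - a + 156 + a = p + 156 := by ring
    rw [e3, e4]
  · rw [smap_else (x := x), smap_else, sh_apply]
    · intro p hp
      rw [Slot_sh] at hp
      by_contra hc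
      apply h
      refine ⟨p + a, hp, ?_, ?_⟩ <;> omega
    · intro p hp
      by_contra hc
      apply h
      refine ⟨p, hp, ?_, ?_⟩ <;> omega

theorem smap_loc (Φ : Option Cont → Cont → Option Cont → Cont) : Loc4 468 (smap Φ) := by
  intro x y i hxy
  by_cases h : ∃ p : ℤ, Slot x p ∧ p ≤ i ∧ i < p + 156
  · obtain ⟨p, ⟨c, hc⟩, h1, h2⟩ := h
    have hc' : SC y p c := by
      rw [← SC_congr (x := x) (y := y)]
      · exact hc
      · intro j h3 h4
        apply hxy <;> push_cast <;> omega
    have h3 := smap_SC (Φ := Φ) hc (i - p) (by omega) (by omega)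
    have h4 := smap_SC (Φ := Φ) hc' (i - p) (by omega) (by omega)
    have e1 : p + (i - p) = i := by ring
    rw [e1] at h3 h4
    rw [h3, h4]
    have e2 : nbr x (p - 156) = nbr y (p - 156) := by
      apply nbr_congr
      intro j h3 h4
      apply hxy <;> push_cast <;> omega
    have e3 : nbr x (p + 156) = nbr y (p + 156) := by
      apply nbr_congr
      intro j h3 h4
      apply hxy <;> push_cast <;> omega
    rw [e2, e3]
  · rw [smap_else (x := x), smap_else]
    · apply hxy <;> push_cast <;> omega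
    · intro p hp
      by_contra hc
      apply h
      refine ⟨p, ?_, by omega, by omega⟩
      rw [Slot_congr (y := y)]
      · exact hp
      · intro j h3 h4
        apply hxy <;> push_cast <;> omega
    · intro p hp
      by_contra hc
      apply h
      exact ⟨p, hp, by omega, by omega⟩

/-! ### Exchange layers -/

theorem Sys.Act_sh {S : Sys} (hctx : ∀ (x : Cfg) (a w : ℤ) r, S.ctx (sh a x) w r ↔
    S.ctx x (w + a) r) (x : Cfg) (a w : ℤ) (r : S.ι) (sd : Bool) :
    S.Act (sh a x) (w, r, sd) ↔ S.Act x (w + a, r, sd) := by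
  unfold Sys.Act
  simp only [hctx]
  apply and_congr_left
  intro _
  constructor
  · intro h i h1 h2
    rw [← h i h1 h2, sh_apply]
    congr 1
    ring
  · intro h i h1 h2
    rw [← h i h1 h2, sh_apply]
    congr 1
    ring

theorem Sys.swap_sh {S : Sys} (hS : S.Good) (hctx : ∀ (x : Cfg) (a w : ℤ) r,
    S.ctx (sh a x) w r ↔ S.ctx x (w + a) r) (a : ℤ) (x : Cfg) :
    S.swap (sh a x) = sh a (S.swap x) := by
  funext i
  rw [sh_apply]
  by_cases h : ∃ s, S.Act x s ∧ s.1 ≤ i + a ∧ i + a < s.1 + S.len s.2.1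
  · obtain ⟨⟨w, r, sd⟩, h1, h2, h3⟩ := h
    simp only at h2 h3
    have h4 : S.Act (sh a x) (w - a, r, sd) := by
      rw [Sys.Act_sh hctx, sub_add_cancel]
      exact h1
    rw [Sys.swap_at hS h1 h2 h3, Sys.swap_at hS h4 (by simp only; omega) (by simp only; omega)]
    simp only
    congr 1
    ring
  · rw [Sys.swap_else (x := x), Sys.swap_else, sh_apply]
    · rintro ⟨w, r, sd⟩ h1
      rw [Sys.Act_sh hctx] at h1
      by_contra hc
      apply h
      simp only at hc
      refine ⟨_, h1, ?_, ?_⟩ <;> simp only <;> omega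
    · intro s h1
      by_contra hc
      apply h
      refine ⟨s, h1, ?_, ?_⟩ <;> omega

theorem Sys.swap_loc {S : Sys} (hS : S.Good) {R N : ℕ} (hlen : ∀ r, S.len r ≤ N)
    (hctx : ∀ (x y : Cfg) (w : ℤ) r, (∀ k, w - R ≤ k → k ≤ w + R → x k = y k) → S.ctx x w r →
      S.ctx y w r) : Loc4 (R + 2 * N) S.swap := by
  have hact : ∀ (x y : Cfg) (w : ℤ) r sd,
      (∀ k, w - R - N ≤ k → k ≤ w + R + N → x k = y k) → S.Act x (w, r, sd) →
      S.Act y (w, r, sd) := by
    rintro x y w r sd hxy ⟨h1, h2⟩
    refine ⟨?_, ?_⟩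
    · intro i hi1 hi2
      have := hlen r
      rw [← h1 i hi1 hi2]
      symm
      simp only at hi2 ⊢
      apply hxy <;> omega
    · refine hctx x y w r ?_ h2
      intro k hk1 hk2
      apply hxy <;> omega
  intro x y i hxy
  by_cases h : ∃ s, S.Act x s ∧ s.1 ≤ i ∧ i < s.1 + S.len s.2.1
  · obtain ⟨⟨w, r, sd⟩, h1, h2, h3⟩ := h
    simp only at h2 h3
    have := hlen r
    have h4 : S.Act y (w, r, sd) := by
      apply hact x y w r sd _ h1
      intro k hk1 hk2
      apply hxy <;> push_cast <;> omega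
    rw [Sys.swap_at hS h1 h2 h3, Sys.swap_at hS h4 h2 h3]
  · rw [Sys.swap_else (x := x), Sys.swap_else]
    · apply hxy <;> push_cast <;> omega
    · rintro ⟨w, r, sd⟩ h1
      by_contra hc
      apply h
      simp only at hc
      have := hlen r
      refine ⟨(w, r, sd), hact y x w r sd ?_ h1, ?_, ?_⟩
      · intro k hk1 hk2
        symm
        apply hxy <;> push_cast <;> omega
      · simp only
        omega
      · simp only
        omega
    · intro s h1
      by_contra hc
      apply h
      refine ⟨s, h1, ?_, ?_⟩ <;> omega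

theorem swapH_sh (a : ℤ) (x : Cfg) : sysH.swap (sh a x) = sh a (sysH.swap x) :=
  Sys.swap_sh sysH_good (fun _ _ _ _ => Iff.rfl) a x

theorem swapA_sh (a : ℤ) (x : Cfg) : sysA.swap (sh a x) = sh a (sysA.swap x) := by
  apply Sys.swap_sh sysA_good
  intro x a w r
  show Slot (sh a x) (w + el r) ∧ ¬ TB (sh a x) w r.2 ↔ Slot x (w + a + el r) ∧ ¬ TB x (w + a) r.2
  rw [Slot_sh, TB_sh]
  have e : w + el r + a = w + a + el r := by ring
  rw [e]

theorem swapB_sh (a : ℤ) (x : Cfg) : sysB.swap (sh a x) = sh a (sysB.swap x) := by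
  apply Sys.swap_sh sysB_good
  intro x a w r
  show Pre (sh a x) (w + el r) ∧ TB (sh a x) w r.2 ↔ Pre x (w + a + el r) ∧ TB x (w + a) r.2
  rw [Pre_sh, TB_sh]
  have e : w + el r + a = w + a + el r := by ring
  rw [e]

theorem swapH_loc : Loc4 (0 + 2 * 312) sysH.swap := by
  apply Sys.swap_loc sysH_good
  · intro r
    show (312 : ℤ) ≤ ((312 : ℕ) : ℤ)
    norm_num
  · intro x y w r _ _
    exact trivial

theorem swapA_loc : Loc4 (1000 + 2 * 468) sysA.swap := by
  apply Sys.swap_loc sysA_good
  · intro r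
    show el r ≤ ((468 : ℕ) : ℤ)
    have := (el_bounds r).2
    push_cast
    omega
  · intro x y w r hxy h
    have hb := el_bounds r
    push_cast at hxy
    have h' : Slot x (w + el r) ∧ ¬ TB x w r.2 := h
    show Slot y (w + el r) ∧ ¬ TB y w r.2
    rw [← Slot_congr (x := x) (y := y), ← TB_congr (x := x) (y := y)]
    · exact h'
    · intro i h1 h2
      apply hxy <;> omega
    · intro i h1 h2
      apply hxy <;> omega

theorem swapB_loc : Loc4 (1000 + 2 * 468) sysB.swap := by
  apply Sys.swap_loc sysB_good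
  · intro r
    show el r ≤ ((468 : ℕ) : ℤ)
    have := (el_bounds r).2
    push_cast
    omega
  · intro x y w r hxy h
    have hb := el_bounds r
    push_cast at hxy
    have h' : Pre x (w + el r) ∧ TB x w r.2 := h
    show Pre y (w + el r) ∧ TB y w r.2
    rw [← Pre_congr (x := x) (y := y), ← TB_congr (x := x) (y := y)]
    · exact h'
    · intro i h1 h2
      apply hxy <;> omega
    · intro i h1 h2
      apply hxy <;> omega

/-! ### The automaton -/

theorem NN_sh (a : ℤ) (x : Cfg) : NN (sh a x) = sh a (NN x) := by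
  unfold NN
  rw [swapH_sh, smap_sh, smap_sh, smap_sh]

theorem FF_sh (a : ℤ) (x : Cfg) : FF (sh a x) = sh a (FF x) := by
  unfold FF
  rw [NN_sh, swapA_sh, swapB_sh]

theorem FF_iter_sh (n : ℕ) (a : ℤ) (x : Cfg) : FF^[n] (sh a x) = sh a (FF^[n] x) := by
  induction n with
  | zero => rfl
  | succ n ih => rw [Function.iterate_succ_apply', Function.iterate_succ_apply', ih, FF_sh]

theorem FF_loc4 : ∃ R : ℕ, Loc4 R FF := by
  have h := (((swapB_loc.comp swapA_loc).comp (smap_loc cv)).comp
    ((smap_loc g2).comp (smap_loc gG))).comp swapH_loc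
  exact ⟨_, h⟩

theorem FF_shc4 : Shc4 FF := by
  intro k x i
  have := FF_sh k x
  exact congrFun this i

/-- Locality: radius `R`. -/
theorem FF_local : ∃ R : ℤ, ∀ (x y : Cfg) (i : ℤ), (∀ k, i - R ≤ k → k ≤ i + R → x k = y k) →
    FF x i = FF y i := by
  obtain ⟨R, hR⟩ := FF_loc4
  exact ⟨R, hR⟩

theorem zero_no_slot : ¬ Slot (fun _ => false) p := by
  intro h
  have := h.pre.c0
  simp at this

theorem zero_no_mk : ¬ Mk (fun _ => false) p := by
  intro h
  have := h.c0
  simp at this

theorem smap_zero (Φ : Option Cont → Cont → Option Cont → Cont) :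
    smap Φ (fun _ => false) = fun _ => false := by
  funext i
  rw [smap_else]
  intro p hp
  exact absurd hp zero_no_slot

theorem swapH_zero : sysH.swap (fun _ => false) = fun _ => false := by
  funext i
  rw [Sys.swap_else]
  rintro ⟨w, r, sd⟩ h
  exfalso
  cases sd with
  | true =>
    have h' := sysH_act_true.1 h
    exact zero_no_slot ⟨_, h'.1⟩
  | false =>
    have h' := sysH_act_false.1 h
    exact zero_no_slot ⟨_, h'.1⟩

theorem FF_zero : FF (fun _ => false) = fun _ => false := by
  have h : NN (fun _ => false) = fun _ => false := by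
    unfold NN
    rw [swapH_zero, smap_zero, smap_zero, smap_zero]
  unfold FF
  rw [h]
  have hA : sysA.swap (fun _ => false) = fun _ => false := by
    funext i
    rw [Sys.swap_else]
    rintro ⟨w, r, sd⟩ h
    exact absurd (actA_iff.1 h).1.tokSlot zero_no_slot
  rw [hA]
  funext i
  rw [Sys.swap_else]
  rintro ⟨w, r, sd⟩ h
  exact absurd (actB_iff.1 h).1.tokSlot zero_no_slot

theorem isCA_FF : IsCA FF := by
  obtain ⟨R, hR⟩ := FF_loc4
  exact isCA_of_loc4 hR FF_shc4

theorem bijective_FF : Bijective FF :=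
  ⟨fun x y h => by rw [← FFi_FF x, h, FFi_FF], fun y => ⟨FFi y, FF_FFi y⟩⟩

/-! ### Shifts of the ready conditions -/

theorem RN_sh {a b : ℤ} {x : Cfg} (h : RN b x) : RN (b - a) (sh a x) := by
  obtain ⟨h1, h2⟩ := h
  refine ⟨?_, ?_⟩
  · rw [Bar_sh, sub_add_cancel]
    exact h1
  · intro z w r sd hz hm
    have h3 : Mt (sh (-a) z) (w + a) r sd := by
      rw [Mt_sh]
      have e : w + a + -a = w := by ring
      rw [e]
      exact hm
    have h4 := h2 (sh (-a) z) (w + a) r sd ?_ h3
    · rw [mp_sh] at h4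
      omega
    · intro i hi
      have := hz (i - a) (by omega)
      rw [NN_sh, sh_apply] at this
      rw [sh_apply]
      have e : i + -a = i - a := by ring
      rw [e, this]
      congr 1
      ring

theorem RP_sh {a b : ℤ} {u : Dg} {x : Cfg} (h : RP u b x) : RP u (b - a) (sh a x) := by
  obtain ⟨h1, r, h2, h3, h4, h5, h6⟩ := h
  refine ⟨?_, r, h2, ?_, ?_, ?_, ?_⟩
  · rw [Bar_sh, sub_add_cancel]
    exact h1
  · rw [NN_sh, Mt_sh, sub_add_cancel]
    exact h3
  · rw [NN_sh, Slot_sh]
    have e : b - a + el r + a = b + el r := by ring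
    rw [e]
    exact h4
  · intro z w r' sd hz hm hb
    have h7 : Mt (sh (-a) z) (w + a) r' sd := by
      rw [Mt_sh]
      have e : w + a + -a = w := by ring
      rw [e]
      exact hm
    have h8 := h5 (sh (-a) z) (w + a) r' sd ?_ h7 (by rw [mp_sh]; omega)
    · obtain ⟨h9, h10, h11⟩ := h8
      exact ⟨by omega, h10, h11⟩
    · intro i hi
      have := hz (i - a) (by omega)
      rw [NN_sh, sh_apply] at this
      rw [sh_apply]
      have e : i + -a = i - a := by ring
      rw [e, this]
      congr 1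
      ring
  · intro z w r' sd hz1 hz2 hm hb
    have h7 : Mt (sh (-a) z) (w + a) r' sd := by
      rw [Mt_sh]
      have e : w + a + -a = w := by ring
      rw [e]
      exact hm
    have h8 := h6 (sh (-a) z) (w + a) r' sd ?_ ?_ h7 (by rw [mp_sh]; omega)
    · obtain ⟨h9, h10, h11⟩ := h8
      exact ⟨by omega, h10, h11⟩
    · intro i hi1 hi2
      have := hz1 (i - a) (by omega) (by omega)
      rw [sh_apply]
      have e : i + -a = i - a := by ring
      rw [e, this]
      congr 1
      ring
    · intro i hi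
      have := hz2 (i - a) (by omega)
      rw [NN_sh, sh_apply] at this
      rw [sh_apply]
      have e : i + -a = i - a := by ring
      rw [e, this]
      congr 1
      ring

end Pool.Agent.WU
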