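import Pool.Agent.WU.Zone

/-!
# Standard right parts
-/

set_option autoImplicit false

namespace Pool.Agent.WU

open Function

variable {x y z : Cfg} {p q a b c i w w' : ℤ} {u v : Dg} {j : Fin 13} {r r' : Fin 13 × Dg}
  {sd sd' : Bool}

theorem ZoneC_bar (h : Ones b x) (hi : b ≤ i) : Bar x i :=
  ⟨h i hi, h (i + 1) (by omega), Or.inl (h (i + 2) (by omega))⟩

theorem ZoneC_no_mk (h : Ones b x) (hq : b ≤ q) : ¬ Mk x q := by
  intro hM
  have h1 := hM.zero (i := q + 2) (by omega) (by omega)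
  rw [h (q + 2) (by omega)] at h1
  exact absurd h1 (by decide)

theorem ZoneC_ones_NN (h : Ones b x) : Ones b (NN x) := by
  intro i hi
  rw [NN_bar (ZoneC_bar h hi) (by omega) (by omega), h i hi]

theorem ZoneC_ones_NNi (h : Ones b x) : Ones b (NNi x) := by
  intro i hi
  rw [NNi_bar (ZoneC_bar h hi) (by omega) (by omega), h i hi]

theorem ones_RN (h : Ones b x) : RN b x := by
  refine ⟨ZoneC_bar h le_rfl, ?_⟩
  intro z w r sd hz hM
  by_contra hcon
  push Not at hcon
  have h1 : Ones b z := fun i hi => by rw [hz i hi]; exact ZoneC_ones_NN h i hi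
  exact ZoneC_no_mk h1 hcon hM.mk

/-- No window reaches into the ones. -/
theorem ZoneC_end (h : Ones b x) (hM : Mt x w r sd) : w + el r ≤ b := by
  by_contra hcon
  push Not at hcon
  have h1 := hM.tokSlot.last (i := w + el r - 1) (by omega) (by omega)
  rw [h (w + el r - 1) (by omega)] at h1
  exact absurd h1 (by decide)

theorem ZoneC_swapA (h : Ones b x) : Ones b (sysA.swap x) := by
  intro i hi
  rw [Sys.swap_else, h i hi]
  rintro ⟨w, r, sd⟩ hs
  right
  have h1 := ZoneC_end h (actA_iff.mp hs).1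
  show w + el r ≤ i
  omega

theorem ZoneC_swapB (h : Ones b x) : Ones b (sysB.swap x) := by
  intro i hi
  rw [Sys.swap_else, h i hi]
  rintro ⟨w, r, sd⟩ hs
  right
  have h1 := ZoneC_end h (actB_iff.mp hs).1
  show w + el r ≤ i
  omega

theorem ones_FFi (h : Ones b x) : Ones b (FFi x) :=
  ZoneC_ones_NNi (ZoneC_swapA (ZoneC_swapB h))

theorem ZoneC_el (u : Dg) : el ((1 : Fin 13), u) = 336 := by
  show (324 : ℤ) + 12 * (((1 : Fin 13) : ℕ) : ℤ) = 336
  norm_num

theorem ZoneC_false (h : Mt x b ((1 : Fin 13), u) false) :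
    Mk x b ∧ Zs x (b + 12) (b + 24) ∧ SC x (b + 24) BL ∧ SC x (b + 180) (cD u) := by
  have h1 := Mt_false.mp h
  have h2 : (((1 : Fin 13) : ℕ) : ℤ) = 1 := by norm_num
  rw [h2] at h1
  rw [show b + 12 + 12 * (1 : ℤ) = b + 24 by ring, show b + 168 + 12 * (1 : ℤ) = b + 180 by ring] at h1
  exact h1

theorem ZoneC_true (h : Mt x b ((1 : Fin 13), u) true) :
    Mk x (b + 12) ∧ SC x (b + 24) BL ∧ SC x (b + 180) (cE u) := by
  have h1 := Mt_true.mp h
  have h2 : (((1 : Fin 13) : ℕ) : ℤ) = 1 := by norm_num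
  rw [h2] at h1
  rw [show b + 12 + 12 * (1 : ℤ) = b + 24 by ring, show b + 168 + 12 * (1 : ℤ) = b + 180 by ring] at h1
  exact ⟨h1.2.1, (h1.2.2.2.1 (by norm_num)).2, h1.2.2.2.2⟩

/-- The marker of the window at `b` is the last one. -/
theorem ZoneC_marker (h : Mt x b ((1 : Fin 13), u) sd) (hs : Slot x (b + 336)) (ho : Ones (b + 492) x) :
    ∀ q, mp b sd ≤ q → Mk x q → q = mp b sd := by
  have h4 : ∀ q, b + 24 + 156 * ((3 : ℕ) : ℤ) ≤ q → ¬ Mk x q := by
    intro q hq
    exact ZoneC_no_mk ho (by push_cast at hq; omega)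
  cases sd
  · obtain ⟨h1, h2, h3, h5⟩ := ZoneC_false h
    refine mk_only (n := 3) (p := b + 24) h1 h2 ?_ h4 (by show b + 12 ≤ b + 24; omega)
    intro k hk
    interval_cases k
    · rw [show b + 24 + 156 * ((0 : ℕ) : ℤ) = b + 24 by push_cast; ring]
      exact ⟨_, h3⟩
    · rw [show b + 24 + 156 * ((1 : ℕ) : ℤ) = b + 180 by push_cast; ring]
      exact ⟨_, h5⟩
    · rw [show b + 24 + 156 * ((2 : ℕ) : ℤ) = b + 336 by push_cast; ring]
      exact hs
  · obtain ⟨h1, h3, h5⟩ := ZoneC_true h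
    show ∀ q, b + 12 ≤ q → Mk x q → q = b + 12
    refine mk_only (n := 3) (p := b + 24) h1 ?_ ?_ h4 (by omega)
    · intro i hi hi'
      omega
    intro k hk
    interval_cases k
    · rw [show b + 24 + 156 * ((0 : ℕ) : ℤ) = b + 24 by push_cast; ring]
      exact ⟨_, h3⟩
    · rw [show b + 24 + 156 * ((1 : ℕ) : ℤ) = b + 180 by push_cast; ring]
      exact ⟨_, h5⟩
    · rw [show b + 24 + 156 * ((2 : ℕ) : ℤ) = b + 336 by push_cast; ring]
      exact hs

theorem ZoneC_window (h : Mt x b ((1 : Fin 13), u) sd) (hs : Slot x (b + 336)) (ho : Ones (b + 492) x)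
    (h' : Mt x w r' sd') :
    w + el r' ≤ mp b sd ∨ (w = b ∧ r' = ((1 : Fin 13), u) ∧ sd' = sd) := by
  rcases lt_trichotomy (mp w sd') (mp b sd) with hlt | heq | hgt
  · exact Or.inl (Mt_next h' h hlt)
  · exact Or.inr (Mt_unique h' h heq)
  · have := ZoneC_marker h hs ho _ hgt.le h'.mk
    omega

theorem ZoneC_mp_le (b : ℤ) (sd : Bool) : mp b sd ≤ b + 12 := by
  cases sd
  · show b ≤ b + 12
    omega
  · exact le_rfl

theorem ZoneC_keepA (h : Mt x b ((1 : Fin 13), u) sd) (hs : Slot x (b + 336)) (ho : Ones (b + 492) x)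
    (hi : b + 336 ≤ i) : sysA.swap x i = x i := by
  apply Sys.swap_else
  rintro ⟨w, r, sd'⟩ hact
  right
  show w + el r ≤ i
  rcases ZoneC_window h hs ho (actA_iff.mp hact).1 with h1 | ⟨h1, h2, h3⟩
  · have := ZoneC_mp_le b sd
    omega
  · rw [h1, h2, ZoneC_el]
    exact hi

theorem ZoneC_keepB (h : Mt x b ((1 : Fin 13), u) sd) (hs : Slot x (b + 336)) (ho : Ones (b + 492) x)
    (hi : b + 336 ≤ i) : sysB.swap x i = x i := by
  apply Sys.swap_else
  rintro ⟨w, r, sd'⟩ hact
  right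
  show w + el r ≤ i
  rcases ZoneC_window h hs ho (actB_iff.mp hact).1 with h1 | ⟨h1, h2, h3⟩
  · have := ZoneC_mp_le b sd
    omega
  · rw [h1, h2, ZoneC_el]
    exact hi

theorem cp_RP (h : CP u b x) : RP u b (FFi x) := by
  obtain ⟨h1, h2, h3, h4, h5, h6⟩ := h
  have hM : Mt x b ((1 : Fin 13), u) true := by
    rw [Mt_true]
    have e2 : (((1 : Fin 13) : ℕ) : ℤ) = 1 := by norm_num
    rw [e2]
    rw [show b + 12 + 12 * (1 : ℤ) = b + 24 by ring, show b + 168 + 12 * (1 : ℤ) = b + 180 by ring]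
    refine ⟨?_, h2, fun h => absurd h (by norm_num), fun _ => ⟨?_, h3⟩, h4⟩
    · intro i h0 h12
      rw [h1 (b + i) (by omega) (by omega), show b + i - b = i by ring]
    · intro i hi hi'
      omega
  have hs : Slot x (b + 336) := ⟨BL, h5⟩
  have hel := ZoneC_el u
  have hsB := siteB hM (by rw [hel]; exact hs.pre)
  set x₁ := sysB.swap x with hx₁
  have hk₁ : ∀ i, b + 336 ≤ i → x₁ i = x i := fun i hi => ZoneC_keepB hM hs h6 hi
  have hs₁ : Slot x₁ (b + 336) := (Slot_congr fun i hi _ => hk₁ i hi).mpr hs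
  have ho₁ : Ones (b + 492) x₁ := fun i hi => by rw [hk₁ i (by omega)]; exact h6 i hi
  obtain ⟨hB1, hB2, hB3, hB4⟩ := hsB
  -- after the layer A the window has the other side
  have hfin : Mt (sysA.swap x₁) b ((1 : Fin 13), u) false ∧
      ∀ i, b + 336 ≤ i → sysA.swap x₁ i = x₁ i := by
    by_cases hT : TB x b u
    · have hM₁ := hB4 hT
      have hM₁' : Mt x₁ b ((1 : Fin 13), u) false := hM₁
      have hA := siteA hM₁' (by rw [hel]; exact hs₁)
      exact ⟨hA.2.2.1 (hB2.mpr hT), fun i hi => ZoneC_keepA hM₁' hs₁ ho₁ hi⟩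
    · have hM₁ := hB3 hT
      have hA := siteA hM₁ (by rw [hel]; exact hs₁)
      refine ⟨?_, fun i hi => ZoneC_keepA hM₁ hs₁ ho₁ hi⟩
      exact hA.2.2.2 fun hT' => hT (hB2.mp hT')
  obtain ⟨hF, hk₂⟩ := hfin
  set y := sysA.swap x₁ with hy
  have hky : ∀ i, b + 336 ≤ i → y i = x i := fun i hi => (hk₂ i hi).trans (hk₁ i hi)
  have hsy : Slot y (b + 336) := (Slot_congr fun i hi _ => hky i hi).mpr hs
  have hoy : Ones (b + 492) y := fun i hi => by rw [hky i (by omega)]; exact h6 i hi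
  have hNN : NN (FFi x) = y := NN_NNi y
  refine ⟨?_, ((1 : Fin 13), u), rfl, ?_, ?_, ?_, ?_⟩
  · show Bar (NNi y) b
    exact Bar_NNi (ZoneC_false hF).1.bar
  · rw [hNN]
    exact hF
  · rw [hNN, hel]
    exact hsy
  · intro z w r' sd hz hMz hb
    rw [hNN] at hz
    have hMb : Mt z b ((1 : Fin 13), u) false := (Mt_congr fun i hi _ => hz i hi).mpr hF
    have hsz : Slot z (b + 336) := (Slot_congr fun i hi _ => hz i (by omega)).mpr hsy
    have hoz : Ones (b + 492) z := fun i hi => by rw [hz i (by omega)]; exact hoy i hi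
    rcases ZoneC_window hMb hsz hoz hMz with hw | hw
    · exfalso
      have h7 := hMz.long
      have h8 : mp b false = b := rfl
      omega
    · exact hw
  · intro z w r' sd hz hz' hMz hb
    rw [hNN] at hz'
    rw [hel] at hz hz'
    have hMb : Mt z b ((1 : Fin 13), u) true := by
      intro i h0 hi
      rw [hel] at hi
      rw [hz (b + i) (by omega) (by omega), show b + i - b = i by ring]
    have hsz : Slot z (b + 336) := (Slot_congr fun i hi _ => hz' i hi).mpr hsy
    have hoz : Ones (b + 492) z := fun i hi => by rw [hz' i (by omega)]; exact hoy i hi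
    rcases ZoneC_window hMb hsz hoz hMz with hw | hw
    · exfalso
      have h7 := hMz.long
      have h8 : mp b true = b + 12 := rfl
      omega
    · exact hw

end Pool.Agent.WU
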