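import Pool.Agent.WU.Zone

/-!
# Steps with and without push: right parts, independence of the zone
-/

set_option autoImplicit false

namespace Pool.Agent.WU

open Function

variable {x y z : Cfg} {p q a b c i w w' : ℤ} {u v : Dg} {j : Fin 13} {r r' : Fin 13 × Dg}
  {sd sd' : Bool}

theorem zrA_else {k : ℤ} (h : ∀ w r sd, Mt x w r sd → Slot x (w + el r) → ¬ TB x w r.2 →
    k < w ∨ w + el r ≤ k) : sysA.swap x k = x k := by
  apply Sys.swap_else
  rintro ⟨w, r, sd⟩ hs
  exact h w r sd hs.1 hs.2.1 hs.2.2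

theorem zrB_else {k : ℤ} (h : ∀ w r sd, Mt x w r sd → Pre x (w + el r) → TB x w r.2 →
    k < w ∨ w + el r ≤ k) : sysB.swap x k = x k := by
  apply Sys.swap_else
  rintro ⟨w, r, sd⟩ hs
  exact h w r sd hs.1 hs.2.1 hs.2.2

theorem zr_mp (w : ℤ) (sd : Bool) : w ≤ mp w sd ∧ mp w sd ≤ w + 12 := by
  unfold mp; split <;> constructor <;> omega

/-- Layer A behind `b`, no window there. -/
theorem zr_rnA (h : RN b x) : ∀ i, b ≤ i → sysA.swap (NN x) i = NN x i := by
  intro i hi
  apply zrA_else
  intro w r sd hM _ _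
  have h1 := h.2 (NN x) w r sd (fun _ _ => rfl) hM
  have h2 := hM.bar (Bar_NN h.1) h1
  right; omega

theorem zr_barA (h : RN b x) : Bar (sysA.swap (NN x)) b :=
  (Bar_congr (fun i hi _ => zr_rnA h i hi)).2 (Bar_NN h.1)

theorem rn_right (h : RN b x) : ∀ i, b ≤ i → FF x i = NN x i := by
  intro i hi
  have hA := zr_rnA h
  have hB : FF x i = sysA.swap (NN x) i := by
    apply zrB_else
    intro w r sd hM _ _
    have h1 := h.2 (sysA.swap (NN x)) w r sd hA hM
    have h2 := hM.bar (zr_barA h) h1
    right; omega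
  rw [hB, hA i hi]

/-- Data of a push, with layer A. -/
theorem zr_rpA (hb : Bar x b) (hM : Mt (NN x) b r false) (hs : Slot (NN x) (b + el r))
    (hu : ∀ z w r' sd, (∀ i, b ≤ i → z i = NN x i) → Mt z w r' sd → b ≤ mp w sd →
      w = b ∧ r' = r ∧ sd = false) :
    (TB (NN x) b r.2 → ∀ i, b ≤ i → sysA.swap (NN x) i = NN x i) ∧
    (¬ TB (NN x) b r.2 → (∀ i, b ≤ i → i < b + el r → sysA.swap (NN x) i = ew r true (i - b)) ∧
      (∀ i, b + el r ≤ i → sysA.swap (NN x) i = NN x i)) := by
  have hbn := Bar_NN hb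
  have hel := el_bounds r
  refine ⟨fun hT i hi => ?_, fun hT => ⟨fun i h1 h2 => ?_, fun i hi => ?_⟩⟩
  · apply zrA_else
    intro w r' sd hM' _ hT'
    rcases lt_or_ge (mp w sd) b with h1 | h1
    · have h2 := hM'.bar hbn h1
      right; omega
    · obtain ⟨rfl, rfl, rfl⟩ := hu (NN x) w r' sd (fun _ _ => rfl) hM' h1
      exact absurd hT hT'
  · have h3 := (siteA hM hs).2.2.2 hT
    have h4 := h3 (i - b) (by omega) (by omega)
    have h5 : b + (i - b) = i := by ring
    rw [h5] at h4
    simpa using h4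
  · apply zrA_else
    intro w r' sd hM' _ _
    rcases lt_or_ge (mp w sd) b with h1 | h1
    · have h2 := hM'.bar hbn h1
      right; omega
    · obtain ⟨rfl, rfl, rfl⟩ := hu (NN x) w r' sd (fun _ _ => rfl) hM' h1
      right; omega

/-- In layer B, after an exchange at `b` in layer A, no other window reaches over `b`. -/
theorem zr_rpB (hM : Mt y b r true) (hT : ¬ TB y b r.2) (hM' : Mt y w r' sd)
    (hm : mp w sd < b + 12) : w + el r' ≤ b := by
  have h1 : mp w sd < mp b true := by simpa [mp] using hm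
  have h2 := Mt_next hM' hM h1
  have h3 : mp b true = b + 12 := by simp [mp]
  rw [h3] at h2
  by_contra h4
  apply hT
  rw [TB_true hM]
  exact ⟨w + el r' - 156, by omega, by omega, hM'.tokSlot⟩

theorem rp_right (h : RP u b x) : ∃ r : Fin 13 × Dg, r.2 = u ∧ Mt (NN x) b r false ∧
    (∀ i, b ≤ i → i < b + el r → FF x i = ew r true (i - b)) ∧
    (∀ i, b + el r ≤ i → FF x i = NN x i) := by
  obtain ⟨hb, r, hru, hM, hs, hu1, hu2⟩ := h
  have hbn := Bar_NN hb
  have hel := el_bounds r
  obtain ⟨hA1, hA2⟩ := zr_rpA hb hM hs hu1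
  refine ⟨r, hru, hM, ?_⟩
  obtain ⟨hS, hTT, hMk, hMs⟩ := siteA hM hs
  by_cases hT : TB (NN x) b r.2
  · have hA := hA1 hT
    have hM1 := hMk hT
    have hbA : Bar (sysA.swap (NN x)) b := (Bar_congr (fun i hi _ => hA i hi)).2 hbn
    obtain ⟨-, -, -, hB⟩ := siteB hM1 hS.pre
    have hB' := hB (hTT.2 hT)
    refine ⟨fun i h1 h2 => ?_, fun i hi => ?_⟩
    · have h4 := hB' (i - b) (by omega) (by omega)
      have h5 : b + (i - b) = i := by ring
      rw [h5] at h4
      change sysB.swap (sysA.swap (NN x)) i = _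
      simpa using h4
    · have hBe : FF x i = sysA.swap (NN x) i := by
        apply zrB_else
        intro w r' sd hM' _ _
        rcases lt_or_ge (mp w sd) b with h1 | h1
        · have h2 := hM'.bar hbA h1
          right; omega
        · obtain ⟨rfl, rfl, rfl⟩ := hu1 _ w r' sd hA hM' h1
          right; omega
      rw [hBe, hA i (by omega)]
  · obtain ⟨hA3, hA4⟩ := hA2 hT
    have hM1 : Mt (sysA.swap (NN x)) b r true := by simpa using hMs hT
    have hT1 : ¬ TB (sysA.swap (NN x)) b r.2 := fun h => hT (hTT.1 h)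
    have hBe : ∀ i, b ≤ i → FF x i = sysA.swap (NN x) i := by
      intro i hi
      apply zrB_else
      intro w r' sd hM' _ hT'
      rcases lt_or_ge (mp w sd) (b + 12) with h1 | h1
      · have h2 := zr_rpB hM1 hT1 hM' h1
        right; omega
      · obtain ⟨rfl, rfl, rfl⟩ := hu2 _ w r' sd hA3 hA4 hM' h1
        exact absurd hT' hT1
    exact ⟨fun i h1 h2 => by rw [hBe i h1, hA3 i h1 h2], fun i hi => by
      rw [hBe i (by omega), hA4 i hi]⟩

theorem zr_ew_block (r : Fin 13 × Dg) {i : ℤ} (h : i < 12) : ew r true i = bit r.2 i := by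
  simp [ew, h]

theorem rp_block (h : RP u b x) : ∀ i, b ≤ i → i < b + 12 → FF x i = bit u (i - b) := by
  intro i h1 h2
  obtain ⟨r, hru, -, h3, -⟩ := rp_right h
  have hel := el_bounds r
  rw [h3 i h1 (by omega), zr_ew_block r (by omega), hru]

/-! ### Zone independence -/

/-- Layer A does not change the wall. -/
theorem zr_wall (h : Cls a c x) : ∀ i, a ≤ i → i < a + 26 → sysA.swap x i = x i := by
  intro i h1 h2
  apply zrA_else
  intro w r sd hM _ _
  have hm := zr_mp w sd
  have hc := h.2.1
  rcases lt_or_ge (mp w sd) a with h3 | h3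
  · have h4 := hM.bar h.1.bar h3
    right; omega
  · have h4 := h.marker hM h3
    left; omega

theorem zr_wallA (h : Cls a c x) : Wall (sysA.swap x) a := by
  have hw := zr_wall h
  obtain ⟨h1, h2, h3, h4⟩ := h.1
  refine ⟨fun i hi hi' => ?_, fun i hi hi' => ?_, ?_, ?_⟩
  · rw [hw i hi (by omega), h1 i hi hi']
  · rw [hw i (by omega) (by omega), h2 i hi hi']
  · rw [hw _ (by omega) (by omega), h3]
  · rw [hw _ (by omega) (by omega), h4]

theorem zr_w2 (h : Cls a c x) : ∀ w r sd, Mt x w r sd → a ≤ mp w sd → a + 2 ≤ w := by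
  intro w r sd hM h1
  have hm := zr_mp w sd
  have hc := h.2.1
  have h4 := h.marker hM h1
  omega

theorem zr_w2' (h : Wall x a) : ∀ w r sd, Mt x w r sd → a ≤ mp w sd → a + 2 ≤ w := by
  intro w r sd hM h1
  have hm := zr_mp w sd
  have h4 := h.marker hM h1
  omega

theorem zi_none (hx : Cls a c x) (hy : Cls a c y) (hcb : c ≤ b) (hbx : RN b x) (hby : RN b y)
    (h : ∀ i, a ≤ i → i < b → x i = y i) : ∀ i, a ≤ i → i < b → FF x i = FF y i := by
  have h1 := NN_zone hx.1.bar hbx.1 hy.1.bar hby.1 h
  have hnx := hx.NN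
  have hny := hy.NN
  have h2 := swapA_zone hnx.1.bar (Bar_NN hbx.1) hny.1.bar (Bar_NN hby.1) h1
    (fun w r sd hM h3 _ => zr_w2 hnx w r sd hM h3)
    (fun w r sd hM h3 _ => zr_w2 hny w r sd hM h3)
    (fun w r hA hw => by
      have h4 := hbx.2 (NN x) w r true (fun _ _ => rfl) hA.1
      simp only [mp, if_true] at h4
      omega)
    (fun w r hA hw => by
      have h4 := hby.2 (NN y) w r true (fun _ _ => rfl) hA.1
      simp only [mp, if_true] at h4
      omega)
  have hwx := zr_wallA hnx
  have hwy := zr_wallA hny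
  exact swapB_zone hwx.bar (zr_barA hbx) hwy.bar (zr_barA hby) h2
    (fun w r sd hM h3 _ => zr_w2' hwx w r sd hM h3)
    (fun w r sd hM h3 _ => zr_w2' hwy w r sd hM h3)
    (fun w r hA hw => by
      have h4 := hbx.2 _ w r true (zr_rnA hbx) hA.1
      simp only [mp, if_true] at h4
      omega)
    (fun w r hA hw => by
      have h4 := hby.2 _ w r true (zr_rnA hby) hA.1
      simp only [mp, if_true] at h4
      omega)

theorem zi_push (hx : Cls a c x) (hy : Cls a c y) (hcb : c ≤ b) (hbx : RP u b x)
    (hby : RP u b y) (h : ∀ i, a ≤ i → i < b → x i = y i) :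
    ∀ i, a ≤ i → i < b + 12 → FF x i = FF y i := by
  have hbl := rp_block hbx
  have hbl' := rp_block hby
  obtain ⟨hb, r, hru, hM, hs, hu1, hu2⟩ := hbx
  obtain ⟨hb', r', hru', hM', hs', hu1', hu2'⟩ := hby
  have h1 := NN_zone hx.1.bar hb hy.1.bar hb' h
  have hnx := hx.NN
  have hny := hy.NN
  have hac := hx.2.1
  have h2 := swapA_zone hnx.1.bar (Bar_NN hb) hny.1.bar (Bar_NN hb') h1
    (fun w r sd hM h3 _ => zr_w2 hnx w r sd hM h3)
    (fun w r sd hM h3 _ => zr_w2 hny w r sd hM h3)
    (fun w r'' hA hw => by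
      have h4 := hu1 (NN x) w r'' true (fun _ _ => rfl) hA.1 (by simpa [mp] using hw)
      exact absurd h4.2.2 (by simp))
    (fun w r'' hA hw => by
      have h4 := hu1' (NN y) w r'' true (fun _ _ => rfl) hA.1 (by simpa [mp] using hw)
      exact absurd h4.2.2 (by simp))
  have hwx := zr_wallA hnx
  have hwy := zr_wallA hny
  obtain ⟨hA1, hA2⟩ := zr_rpA hb hM hs hu1
  obtain ⟨hA1', hA2'⟩ := zr_rpA hb' hM' hs' hu1'
  have hTT : TB (NN x) b u ↔ TB (NN y) b u :=
    TB_zone hnx.1.bar hny.1.bar (by omega) (fun i hi hi' => h1 i hi hi')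
  by_cases hT : TB (NN x) b u
  · have hT1 : TB (NN x) b r.2 := by rw [hru]; exact hT
    have hT1' : TB (NN y) b r'.2 := by rw [hru']; exact hTT.1 hT
    have hA := hA1 hT1
    have hA' := hA1' hT1'
    have hB := swapB_zone hwx.bar ((Bar_congr (fun i hi _ => hA i hi)).2 (Bar_NN hb)) hwy.bar
      ((Bar_congr (fun i hi _ => hA' i hi)).2 (Bar_NN hb')) h2
      (fun w r sd hM h3 _ => zr_w2' hwx w r sd hM h3)
      (fun w r sd hM h3 _ => zr_w2' hwy w r sd hM h3)
      (fun w r'' hAc hw => by
        have h4 := hu1 _ w r'' true hA hAc.1 (by simpa [mp] using hw)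
        exact absurd h4.2.2 (by simp))
      (fun w r'' hAc hw => by
        have h4 := hu1' _ w r'' true hA' hAc.1 (by simpa [mp] using hw)
        exact absurd h4.2.2 (by simp))
    intro i hi hi'
    rcases lt_or_ge i b with h5 | h5
    · exact hB i hi h5
    · rw [hbl i h5 hi', hbl' i h5 hi']
  · have hT1 : ¬ TB (NN x) b r.2 := by rw [hru]; exact hT
    have hT1' : ¬ TB (NN y) b r'.2 := by rw [hru']; exact fun h => hT (hTT.2 h)
    obtain ⟨hA3, hA4⟩ := hA2 hT1
    obtain ⟨hA3', hA4'⟩ := hA2' hT1'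
    obtain ⟨-, hTT1, -, hMs⟩ := siteA hM hs
    obtain ⟨-, hTT1', -, hMs'⟩ := siteA hM' hs'
    have hM1 : Mt (sysA.swap (NN x)) b r true := by simpa using hMs hT1
    have hM1' : Mt (sysA.swap (NN y)) b r' true := by simpa using hMs' hT1'
    have hT2 : ¬ TB (sysA.swap (NN x)) b r.2 := fun h => hT1 (hTT1.1 h)
    have hT2' : ¬ TB (sysA.swap (NN y)) b r'.2 := fun h => hT1' (hTT1'.1 h)
    have hel := el_bounds r
    have hel' := el_bounds r'
    have h6 : ∀ i, a ≤ i → i < b + 12 → sysA.swap (NN x) i = sysA.swap (NN y) i := by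
      intro i hi hi'
      rcases lt_or_ge i b with h5 | h5
      · exact h2 i hi h5
      · rw [hA3 i h5 (by omega), hA3' i h5 (by omega), zr_ew_block r (by omega),
          zr_ew_block r' (by omega), hru, hru']
    have hm1 : Bar (sysA.swap (NN x)) (b + 12) := by
      have := hM1.mk
      simp only [mp, if_true] at this
      exact this.bar
    have hm1' : Bar (sysA.swap (NN y)) (b + 12) := by
      have := hM1'.mk
      simp only [mp, if_true] at this
      exact this.bar
    exact swapB_zone hwx.bar hm1 hwy.bar hm1' h6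
      (fun w r sd hM h3 _ => zr_w2' hwx w r sd hM h3)
      (fun w r sd hM h3 _ => zr_w2' hwy w r sd hM h3)
      (fun w r'' hAc hw => by
        obtain ⟨h7, h8, -⟩ := hu2 _ w r'' true hA3 hA4 hAc.1 (by simpa [mp] using hw)
        subst h7; subst h8
        exact absurd hAc.2.2 hT2)
      (fun w r'' hAc hw => by
        obtain ⟨h7, h8, -⟩ := hu2' _ w r'' true hA3' hA4' hAc.1 (by simpa [mp] using hw)
        subst h7; subst h8
        exact absurd hAc.2.2 hT2')

/-- No slot starts in a short zone. -/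
theorem zr_static (ha : Bar x a) (hbb : Bar x b) (hb : b < a + 156) :
    ∀ i, a ≤ i → i < b → NN x i = x i := by
  intro i h1 h2
  refine NN_gap ha (b := b) (fun p hp hp' hS => ?_) h1 h2
  have := hbb.slot hS (by omega)
  omega

/-- Zones shorter than a slot do not change. -/
theorem static_none (ha : Bar x a) (hab : a ≤ b) (hb : b < a + 156) (h : RN b x) :
    ∀ i, a ≤ i → i < b → FF x i = x i := by
  have h0 := zr_static ha h.1 hb
  have hbA := zr_barA h
  have haN := Bar_NN ha
  have hAr := zr_rnA h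
  have hA : ∀ i, a ≤ i → sysA.swap (NN x) i = NN x i := by
    intro i hi
    rcases lt_or_ge i b with h5 | h5
    · apply zrA_else
      intro w r sd hM _ _
      have hel := el_bounds r
      have hm := zr_mp w sd
      have h1 := h.2 (NN x) w r sd (fun _ _ => rfl) hM
      have h2 := hM.bar (Bar_NN h.1) h1
      rcases lt_or_ge (mp w sd) a with h3 | h3
      · have h4 := hM.bar haN h3
        right; omega
      · omega
    · exact hAr i h5
  have haA : Bar (sysA.swap (NN x)) a := (Bar_congr (fun i hi _ => hA i hi)).2 haN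
  intro i hi hi'
  have hB : FF x i = sysA.swap (NN x) i := by
    apply zrB_else
    intro w r sd hM _ _
    have hel := el_bounds r
    have hm := zr_mp w sd
    have h1 := h.2 _ w r sd hAr hM
    have h2 := hM.bar hbA h1
    rcases lt_or_ge (mp w sd) a with h3 | h3
    · have h4 := hM.bar haA h3
      right; omega
    · omega
  rw [hB, hA i hi, h0 i hi hi']

theorem static_push (ha : Bar x a) (hab : a ≤ b) (hb : b + 12 < a + 156) (h : RP u b x) :
    ∀ i, a ≤ i → i < b → FF x i = x i := by
  obtain ⟨hbb, r, hru, hM, hs, hu1, hu2⟩ := h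
  have h0 := zr_static ha hbb (by omega)
  have haN := Bar_NN ha
  have hbN := Bar_NN hbb
  have hel := el_bounds r
  obtain ⟨hA1, hA2⟩ := zr_rpA hbb hM hs hu1
  obtain ⟨-, hTT, -, hMs⟩ := siteA hM hs
  have hA : ∀ i, a ≤ i → i < b → sysA.swap (NN x) i = NN x i := by
    intro i hi hi'
    apply zrA_else
    intro w r' sd hM' _ _
    have hel' := el_bounds r'
    have hm := zr_mp w sd
    rcases lt_or_ge (mp w sd) b with h1 | h1
    · have h2 := hM'.bar hbN h1
      rcases lt_or_ge (mp w sd) a with h3 | h3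
      · have h4 := hM'.bar haN h3
        right; omega
      · omega
    · obtain ⟨rfl, -, -⟩ := hu1 _ w r' sd (fun _ _ => rfl) hM' h1
      left; exact hi'
  intro i hi hi'
  have hB : FF x i = sysA.swap (NN x) i := by
    apply zrB_else
    intro w r' sd hM' _ _
    have hel' := el_bounds r'
    have hm := zr_mp w sd
    by_cases hT : TB (NN x) b r.2
    · have hAr := hA1 hT
      have hAa : ∀ i, a ≤ i → sysA.swap (NN x) i = NN x i := by
        intro i hi
        rcases lt_or_ge i b with h5 | h5
        · exact hA i hi h5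
        · exact hAr i h5
      have haA : Bar (sysA.swap (NN x)) a := (Bar_congr (fun i hi _ => hAa i hi)).2 haN
      have hbA : Bar (sysA.swap (NN x)) b := (Bar_congr (fun i hi _ => hAr i hi)).2 hbN
      rcases lt_or_ge (mp w sd) b with h1 | h1
      · have h2 := hM'.bar hbA h1
        rcases lt_or_ge (mp w sd) a with h3 | h3
        · have h4 := hM'.bar haA h3
          right; omega
        · omega
      · obtain ⟨rfl, -, -⟩ := hu1 _ w r' sd hAr hM' h1
        left; exact hi'
    · obtain ⟨hA3, hA4⟩ := hA2 hT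
      have hM1 : Mt (sysA.swap (NN x)) b r true := by simpa using hMs hT
      have hT1 : ¬ TB (sysA.swap (NN x)) b r.2 := fun h => hT (hTT.1 h)
      rcases lt_or_ge (mp w sd) (b + 12) with h1 | h1
      · have h2 := zr_rpB hM1 hT1 hM' h1
        rcases lt_or_ge (mp w sd) a with h3 | h3
        · right
          by_contra h4
          have hS := hM'.tokSlot
          have e1 : sysA.swap (NN x) a = true := by
            rw [hA a le_rfl (by omega)]; exact haN.1
          by_cases h5 : a + 1 < b
          · have e2 : sysA.swap (NN x) (a + 1) = true := by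
              rw [hA (a + 1) (by omega) h5]; exact haN.2.1
            have := hS.after e1 e2 (by omega)
            omega
          · have := hS.last (i := a) (by omega) (by omega)
            rw [e1] at this
            exact absurd this (by simp)
        · omega
      · obtain ⟨rfl, -, -⟩ := hu2 _ w r' sd hA3 hA4 hM' h1
        left; exact hi'
  rw [hB, hA i hi hi', h0 i hi hi']

end Pool.Agent.WU
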