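import Pool.Agent.WU.Back
import Pool.Agent.WU.ZoneR
import Pool.Agent.WU.ZoneC

/-!
# Control of the stack

Every word can be brought to the top of the stack by pushing suitable blocks, whatever stands below
the wall.
-/

set_option autoImplicit false

namespace Pool.Agent.WU

open Function

/-- Number of time steps between push number `i` and push number `i + 1`. -/
def gap (i : ℕ) : ℕ := if i % 13 = 12 then 3 else 4

/-- One forward step of the zone `[a, b)`, without push or with the push of a block. -/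
def StepOK (a : ℤ) (o : Option Dg) (b : ℤ) (Z Z' : Cfg) : Prop :=
  match o with
  | none => ∀ x : Cfg, (∀ i, a ≤ i → i < b → x i = Z i) → RN b x →
      ∀ i, a ≤ i → i < b → FF x i = Z' i
  | some u => ∀ x : Cfg, (∀ i, a ≤ i → i < b → x i = Z i) → RP u b x →
      ∀ i, a ≤ i → i < b + 12 → FF x i = Z' i

/-- `Chain a l b Z`: starting from the block of ones at `a` the steps `l` (last step first) lead to
the zone `Z` on `[a, b)`. -/
inductive Chain (a : ℤ) : List (Option Dg) → ℤ → Cfg → Prop
  | start (Z : Cfg) (hZ : ∀ i, a ≤ i → i < a + 12 → Z i = true) : Chain a [] (a + 12) Z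
  | none {l : List (Option Dg)} {b : ℤ} {Z Z' : Cfg} (h : Chain a l b Z)
      (hs : StepOK a Option.none b Z Z') : Chain a (Option.none :: l) b Z'
  | push {l : List (Option Dg)} {b : ℤ} {Z Z' : Cfg} (u : Dg) (h : Chain a l b Z)
      (hs : StepOK a (some u) b Z Z') : Chain a (some u :: l) (b + 12) Z'

/-- The steps after push number `0` up to push number `n`, last step first. -/
def sched (X : ℕ → Dg) : ℕ → List (Option Dg)
  | 0 => []
  | n + 1 => some (X (n + 1)) :: (List.replicate (gap n - 1) none ++ sched X n)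

theorem step_none_back {a b c : ℤ} {z : Cfg} (hz : Cls a c z) (hy : Cls a c (FFi z)) (hcb : c ≤ b)
    (ho : Ones b z) : StepOK a none b (FFi z) z := by
  have _ := hz
  intro x hx hb i h1 h2
  have hxc : Cls a c x := (Cls_congr fun i h1 h2 => hx i h1 (by omega)).mpr hy
  have h := zi_none hxc hy hcb hb (ones_RN (ones_FFi ho)) hx i h1 h2
  rw [h, FF_FFi]

theorem step_push_back {a b c : ℤ} {z : Cfg} {u : Dg} (hy : Cls a c (FFi z))
    (hcb : c ≤ b) (ho : CP u b z) : StepOK a (some u) b (FFi z) z := by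
  intro x hx hb i h1 h2
  have hxc : Cls a c x := (Cls_congr fun i h1 h2 => hx i h1 (by omega)).mpr hy
  have h := zi_push hxc hy hcb hb (cp_RP ho) hx i h1 h2
  rw [h, FF_FFi]

/-- The result of a step depends on the zone only through its values. -/
theorem StepOK_congr {a b : ℤ} {o : Option Dg} {Y Z Z' : Cfg} (h : StepOK a o b Y Z')
    (hYZ : ∀ i, a ≤ i → i < b → Y i = Z i) : StepOK a o b Z Z' := by
  cases o with
  | none => exact fun x hx hb => h x (fun i h1 h2 => (hx i h1 h2).trans (hYZ i h1 h2).symm) hb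
  | some u => exact fun x hx hb => h x (fun i h1 h2 => (hx i h1 h2).trans (hYZ i h1 h2).symm) hb

/-- Glueing of two members of the class. -/
theorem Cls_glue {a c c' : ℤ} {Z K z : Cfg} (hc : c' ≤ c) (h1 : Cls a c' Z)
    (h2 : Cls a c K) (hz1 : ∀ i, a ≤ i → i < c' → z i = Z i) (hz2 : ∀ i, c' ≤ i → z i = K i) :
    Cls a c' z ∧ Cls a c z := by
  have hc1 : Cls a c' z := (Cls_congr hz1).mpr h1
  refine ⟨hc1, hc1.1, ?_, ?_, ?_⟩
  · have := h2.2.1
    omega
  · rcases lt_or_ge (c - 1) c' with h | h
    · have he : c = c' := by omega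
      rw [he]
      exact hc1.2.2.1
    · rw [hz2 _ h]
      exact h2.2.2.1
  · intro i hi1 hi2
    rcases lt_or_ge i c' with h | h
    · exact hc1.2.2.2 i hi1 h
    · rw [hz2 i h, hz2 (i + 1) (by omega)]
      exact h2.2.2.2 i hi1 hi2

/-- Backward over one step without push: if every target with the new data can be reached, then the
old target can be reached. -/
theorem none_target {a b c : ℤ} {K : Cfg} (hK : Cls a c K) (hc : a + 42 ≤ c) (hcb : c ≤ b) :
    ∃ (c' : ℤ) (K' : Cfg), c - 2 ≤ c' ∧ c' ≤ c ∧ Cls a c' K' ∧ ∀ l Z, Chain a l b Z →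
      Cls a c' Z → (∀ i, c' ≤ i → i < b → Z i = K' i) →
      ∃ Z', Chain a (none :: l) b Z' ∧ Cls a c Z' ∧ (∀ i, c ≤ i → i < b → Z' i = K i) := by
  set k0 : Cfg := fun i => if i < b then K i else true with hk0
  have hk0c : Cls a c k0 := (Cls_congr fun i h1 h2 => by
    simp only [hk0]; rw [if_pos (by omega)]).mpr hK
  obtain ⟨c', K1, Y, h1, h2, h3, h4, h5, h6⟩ := back_step k0 a c hk0c hc
  have hK1 := h6 K1 h4 (fun i _ => rfl)
  refine ⟨c', FFi K1, h1, h2, (Cls_congr hK1.2).mpr h4, ?_⟩
  intro l Z hl hZ hZK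
  set z : Cfg := fun i => if i < c' then Z i else K1 i with hz
  have hz1 : ∀ i, a ≤ i → i < c' → z i = Z i := fun i _ h => by
    simp only [hz]; rw [if_pos h]
  have hz2 : ∀ i, c' ≤ i → z i = K1 i := fun i h => by
    simp only [hz]; rw [if_neg (by omega)]
  obtain ⟨hzc', hzc⟩ := Cls_glue h2 hZ h5 hz1 hz2
  have hz3 := h6 z hzc' hz2
  have hones : Ones b z := by
    intro i hi
    rw [hz2 i (by omega), h3 i (by omega)]
    simp only [hk0]
    rw [if_neg (by omega)]
  have hstep := step_none_back hzc' ((Cls_congr hz3.2).mpr hzc') (by omega) hones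
  refine ⟨z, Chain.none hl (StepOK_congr hstep ?_), hzc, ?_⟩
  · intro i hi1 hi2
    rcases lt_or_ge i c' with h | h
    · rw [hz3.2 i hi1 h, hz1 i hi1 h]
    · rw [hz3.1 i h, hZK i h hi2, hK1.1 i h]
  · intro i hi1 hi2
    rw [hz2 i (by omega), h3 i hi1]
    simp only [hk0]
    rw [if_pos hi2]

/-- Backward over a push. -/
theorem push_target {a b c : ℤ} {K : Cfg} (hK : Cls a c K) (hc : a + 42 ≤ c) (hb : a + 42 ≤ b)
    (hcb : c ≤ b + 12) :
    ∃ (c' : ℤ) (K' : Cfg) (u : Dg), min c b - 2 ≤ c' ∧ c' ≤ min c b ∧ Cls a c' K' ∧ ∀ l Z,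
      Chain a l b Z → Cls a c' Z → (∀ i, c' ≤ i → i < b → Z i = K' i) →
      ∃ Z', Chain a (some u :: l) (b + 12) Z' ∧ Cls a c Z' ∧
        (∀ i, c ≤ i → i < b + 12 → Z' i = K i) := by
  -- make the cell before the popped block zero if it is not known
  set K2 : Cfg := fun i => if i = b - 1 ∧ b < c then false else K i with hK2
  have hK2e : ∀ i, c ≤ i → K2 i = K i := by
    intro i hi
    simp only [hK2]
    rw [if_neg (by omega)]
  have hK2c : Cls a c K2 := by
    obtain ⟨hw, h38, hl, hp⟩ := hK
    have hle : ∀ i, K i = false → K2 i = false := by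
      intro i hi
      simp only [hK2]
      split_ifs
      · rfl
      · exact hi
    refine ⟨?_, h38, ?_, ?_⟩
    · obtain ⟨w1, w2, w3, w4⟩ := hw
      refine ⟨?_, ?_, ?_, hle _ w4⟩
      · intro i h1 h2
        simp only [hK2]
        rw [if_neg (by omega)]
        exact w1 i h1 h2
      · intro i h1 h2
        exact hle _ (w2 i h1 h2)
      · simp only [hK2]
        rw [if_neg (by omega)]
        exact w3
    · exact hle _ hl
    · intro i h1 h2
      rcases hp i h1 h2 with h | h
      · exact Or.inl (hle _ h)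
      · exact Or.inr (hle _ h)
  obtain ⟨u, hu⟩ := exists_bit (fun i => K2 (b + i))
  set k0 : Cfg := fun i =>
    if i < b + 12 then K2 i
    else if i < b + 24 then Mw (i - (b + 12))
    else if i < b + 180 then code BL (i - (b + 24))
    else if i < b + 336 then code (cE u) (i - (b + 180))
    else if i < b + 492 then code BL (i - (b + 336))
    else true with hk0
  have hk0K : ∀ i, i < b + 12 → k0 i = K2 i := by
    intro i hi
    simp only [hk0]
    rw [if_pos hi]
  have hCP : CP u b k0 := by
    refine ⟨?_, ?_, ?_, ?_, ?_, ?_⟩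
    · intro i h1 h2
      rw [hk0K i h2, hu (i - b) (by omega) (by omega)]
      congr 1
      omega
    · intro i h1 h2
      simp only [hk0]
      rw [if_neg (by omega), if_pos (by omega)]
      congr 1
      omega
    · intro i h1 h2
      simp only [hk0]
      rw [if_neg (by omega), if_neg (by omega), if_pos (by omega)]
      congr 1
      omega
    · intro i h1 h2
      simp only [hk0]
      rw [if_neg (by omega), if_neg (by omega), if_neg (by omega), if_pos (by omega)]
      congr 1
      omega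
    · intro i h1 h2
      simp only [hk0]
      rw [if_neg (by omega), if_neg (by omega), if_neg (by omega), if_neg (by omega),
        if_pos (by omega)]
      congr 1
      omega
    · intro i h1
      simp only [hk0]
      rw [if_neg (by omega), if_neg (by omega), if_neg (by omega), if_neg (by omega),
        if_neg (by omega)]
  set d : ℤ := min c b with hd
  have hdc : d ≤ c := min_le_left _ _
  have hdb : d ≤ b := min_le_right _ _
  have hd42 : a + 42 ≤ d := le_min hc hb
  have hk0d : Cls a d k0 := by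
    refine (Cls_congr (y := K2) fun i h1 h2 => hk0K i (by omega)).mpr ?_
    rcases le_or_gt c b with h | h
    · have : d = c := min_eq_left h
      rw [this]
      exact hK2c
    · have hdb' : d = b := min_eq_right h.le
      rw [hdb']
      refine hK2c.mono (by omega) h.le ?_
      simp only [hK2]
      rw [if_pos ⟨trivial, h⟩]
  obtain ⟨c', K1, Y, h1, h2, h3, h4, h5, h6⟩ := back_step k0 a d hk0d hd42
  have hK1 := h6 K1 h4 (fun i _ => rfl)
  refine ⟨c', FFi K1, u, h1, h2, (Cls_congr hK1.2).mpr h4, ?_⟩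
  intro l Z hl hZ hZK
  set z : Cfg := fun i => if i < c' then Z i else K1 i with hz
  have hz1 : ∀ i, a ≤ i → i < c' → z i = Z i := fun i _ h => by
    simp only [hz]; rw [if_pos h]
  have hz2 : ∀ i, c' ≤ i → z i = K1 i := fun i h => by
    simp only [hz]; rw [if_neg (by omega)]
  obtain ⟨hzc', hzd⟩ := Cls_glue h2 hZ h5 hz1 hz2
  have hz3 := h6 z hzc' hz2
  have hz4 : ∀ i, d ≤ i → z i = k0 i := fun i hi => by rw [hz2 i (by omega), h3 i hi]
  have hCPz : CP u b z := by
    obtain ⟨p1, p2, p3, p4, p5, p6⟩ := hCP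
    refine ⟨?_, ?_, ?_, ?_, ?_, ?_⟩
    · intro i q1 q2
      rw [hz4 i (by omega)]
      exact p1 i q1 q2
    · intro i q1 q2
      rw [hz4 _ (by omega)]
      exact p2 i q1 q2
    · intro i q1 q2
      rw [hz4 _ (by omega)]
      exact p3 i q1 q2
    · intro i q1 q2
      rw [hz4 _ (by omega)]
      exact p4 i q1 q2
    · intro i q1 q2
      rw [hz4 _ (by omega)]
      exact p5 i q1 q2
    · intro i q1
      rw [hz4 _ (by omega)]
      exact p6 i q1
  have hstep := step_push_back ((Cls_congr hz3.2).mpr hzc') (by omega) hCPz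
  refine ⟨z, Chain.push u hl (StepOK_congr hstep ?_), ?_, ?_⟩
  · intro i hi1 hi2
    rcases lt_or_ge i c' with h | h
    · rw [hz3.2 i hi1 h, hz1 i hi1 h]
    · rw [hz3.1 i h, hZK i h hi2, hK1.1 i h]
  · rcases le_or_gt c b with h | h
    · have hdc' : d = c := min_eq_left h
      rw [← hdc']
      exact hzd
    · have hdb' : d = b := min_eq_right h.le
      have hzb : Cls a b z := by rw [← hdb']; exact hzd
      have hg := (Cls_glue (Z := z) (K := K2) (z := fun i => if i < b + 12 then z i else K2 i) h.le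
        hzb hK2c (fun i _ q2 => if_pos (by omega)) (fun i q1 => by
          split_ifs with q2
          · rw [hz4 i (by omega), hk0K i q2]
          · rfl)).2
      exact (Cls_congr fun i q1 q2 => (if_pos (by omega)).symm).mpr hg
  · intro i hi1 hi2
    rw [hz4 i (by omega), hk0K i hi2, hK2e i hi1]

/-- Backward over several steps without push. -/
theorem nones_target {a b : ℤ} (m : ℕ) : ∀ {c : ℤ} {K : Cfg}, Cls a c K →
    (m ≠ 0 → a + 42 + 2 * ((m : ℤ) - 1) ≤ c) → c ≤ b →
    ∃ (c' : ℤ) (K' : Cfg), c - 2 * (m : ℤ) ≤ c' ∧ c' ≤ c ∧ Cls a c' K' ∧ ∀ l Z, Chain a l b Z →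
      Cls a c' Z → (∀ i, c' ≤ i → i < b → Z i = K' i) →
      ∃ Z', Chain a (List.replicate m none ++ l) b Z' ∧ Cls a c Z' ∧
        (∀ i, c ≤ i → i < b → Z' i = K i) := by
  induction m with
  | zero =>
    intro c K hK _ hcb
    exact ⟨c, K, by simp, le_rfl, hK, fun l Z hl hZ hZK => ⟨Z, by simpa using hl, hZ, hZK⟩⟩
  | succ m ih =>
    intro c K hK hc hcb
    have hc' := hc (Nat.succ_ne_zero m)
    push_cast at hc'
    obtain ⟨c1, K1, h1, h2, h3, h4⟩ := none_target hK (by omega) hcb
    obtain ⟨c2, K2, g1, g2, g3, g4⟩ := ih h3 (fun _ => by omega) (by omega)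
    refine ⟨c2, K2, by push_cast; omega, by omega, g3, ?_⟩
    intro l Z hl hZ hZK
    obtain ⟨Z1, p1, p2, p3⟩ := g4 l Z hl hZ hZK
    obtain ⟨Z2, q1, q2, q3⟩ := h4 _ Z1 p1 p2 p3
    refine ⟨Z2, ?_, q2, q3⟩
    rw [List.replicate_succ, List.cons_append]
    exact q1

/-- `sched` depends only on the first values. -/
theorem sched_congr {X X' : ℕ → Dg} (n : ℕ) (h : ∀ i ≤ n, X i = X' i) :
    sched X n = sched X' n := by
  induction n with
  | zero => rfl
  | succ n ih =>
    rw [sched, sched, h (n + 1) le_rfl, ih fun i hi => h i (by omega)]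

/-- The static stack with blocks `X`. -/
noncomputable def stk (X : ℕ → Dg) (i : ℤ) : Bool := bit (X (i / 12).toNat) (i % 12)

/-- Short zones do not change. -/
theorem static_nones {X : ℕ → Dg} {b : ℤ} {l : List (Option Dg)}
    (h0 : ∀ i, 0 ≤ i → i < 12 → bit (X 0) i = true) (hb0 : 12 ≤ b) (hb : b < 156) (m : ℕ)
    (h : Chain 0 l b (stk X)) : Chain 0 (List.replicate m none ++ l) b (stk X) := by
  induction m with
  | zero => simpa using h
  | succ m ih =>
    rw [List.replicate_succ, List.cons_append]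
    refine Chain.none ih ?_
    intro x hx hR i h1 h2
    have hs : ∀ i, 0 ≤ i → i < 12 → stk X i = true := by
      intro i q1 q2
      rw [stk, Int.ediv_eq_zero_of_lt q1 q2, Int.emod_eq_of_lt q1 q2]
      exact h0 i q1 q2
    have hbar : Bar x 0 := by
      refine ⟨?_, ?_, Or.inl ?_⟩
      · rw [hx 0 (by omega) (by omega)]; exact hs 0 (by omega) (by omega)
      · rw [hx (0 + 1) (by omega) (by omega)]; exact hs _ (by omega) (by omega)
      · rw [hx (0 + 2) (by omega) (by omega)]; exact hs _ (by omega) (by omega)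
    rw [static_none hbar (by omega) (by omega) hR i h1 h2, hx i h1 h2]

/-- Short stacks are static. -/
theorem static_chain {X : ℕ → Dg} (h0 : ∀ i, 0 ≤ i → i < 12 → bit (X 0) i = true) (n : ℕ)
    (hn : n ≤ 11) : Chain 0 (sched X n) (12 + 12 * (n : ℤ)) (stk X) := by
  have hs : ∀ i, 0 ≤ i → i < 12 → stk X i = true := by
    intro i q1 q2
    rw [stk, Int.ediv_eq_zero_of_lt q1 q2, Int.emod_eq_of_lt q1 q2]
    exact h0 i q1 q2
  induction n with
  | zero =>
    have h := Chain.start (a := 0) (stk X) (by simpa using hs)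
    simpa [sched] using h
  | succ n ih =>
    have h1 := static_nones h0 (by omega) (by omega) (gap n - 1) (ih (by omega))
    have h2 : (12 + 12 * ((n + 1 : ℕ) : ℤ)) = (12 + 12 * (n : ℤ)) + 12 := by push_cast; ring
    rw [h2, sched]
    refine Chain.push _ h1 ?_
    intro x hx hR i q1 q2
    have hbar : Bar x 0 := by
      refine ⟨?_, ?_, Or.inl ?_⟩
      · rw [hx 0 (by omega) (by omega)]; exact hs 0 (by omega) (by omega)
      · rw [hx (0 + 1) (by omega) (by omega)]; exact hs _ (by omega) (by omega)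
      · rw [hx (0 + 2) (by omega) (by omega)]; exact hs _ (by omega) (by omega)
    rcases lt_or_ge i (12 + 12 * (n : ℤ)) with h | h
    · rw [static_push hbar (by omega) (by omega) hR i q1 h, hx i q1 h]
    · rw [rp_block hR i h q2, stk]
      have e1 : i / 12 = (n : ℤ) + 1 := by omega
      have e2 : i % 12 = i - (12 + 12 * (n : ℤ)) := by omega
      rw [e1, e2]
      congr 1

/-- Standard filling: wall, zeros, then a given word from `c` on. -/
def fill (c : ℤ) (K : Cfg) : Cfg := fun i =>
  if i < 12 then true else if i = 24 then true else if i < c then false else K i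

theorem Cls_fill {c : ℤ} (K : Cfg) (hc : 38 ≤ c) : Cls 0 c (fill c K) := by
  refine ⟨⟨?_, ?_, ?_, ?_⟩, by omega, ?_, ?_⟩
  · intro i h1 h2
    simp only [fill]
    rw [if_pos (by omega)]
  · intro i h1 h2
    simp only [fill]
    rw [if_neg (by omega), if_neg (by omega), if_pos (by omega)]
  · simp only [fill]
    rw [if_neg (by omega), if_pos (by omega)]
  · simp only [fill]
    rw [if_neg (by omega), if_neg (by omega), if_pos (by omega)]
  · simp only [fill]
    rw [if_neg (by omega), if_neg (by omega), if_pos (by omega)]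
  · intro i h1 h2
    rcases eq_or_ne i 24 with h | h
    · right
      simp only [fill]
      rw [if_neg (by omega), if_neg (by omega), if_pos (by omega)]
    · left
      simp only [fill]
      rw [if_neg (by omega), if_neg h, if_pos h2]

/-- Targets on a short stack are reached. -/
theorem base_target {c : ℤ} {K : Cfg} (hc : 38 ≤ c) (hc' : c ≤ 48) :
    ∃ (X : ℕ → Dg) (Z : Cfg), (∀ i, 0 ≤ i → i < 12 → bit (X 0) i = true) ∧
      Chain 0 (sched X 3) (12 + 12 * ((3 : ℕ) : ℤ)) Z ∧ Cls 0 c Z ∧
      ∀ i, c ≤ i → i < 12 + 12 * ((3 : ℕ) : ℤ) → Z i = K i := by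
  choose X hX using fun n : ℕ => exists_bit (fun i => fill c K (12 * (n : ℤ) + i))
  have hst : ∀ i, 0 ≤ i → stk X i = fill c K i := by
    intro i hi
    rw [stk, hX _ _ (Int.emod_nonneg _ (by norm_num)) (Int.emod_lt_of_pos _ (by norm_num))]
    congr 1
    rw [Int.toNat_of_nonneg (by omega)]
    omega
  have h0 : ∀ i, 0 ≤ i → i < 12 → bit (X 0) i = true := by
    intro i h1 h2
    rw [hX 0 i h1 h2]
    simp only [fill]
    rw [if_pos (by push_cast; omega)]
  refine ⟨X, stk X, h0, static_chain h0 3 (by norm_num), ?_, ?_⟩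
  · exact (Cls_congr fun i h1 _ => hst i h1).mpr (Cls_fill K hc)
  · intro i h1 _
    rw [hst i (by omega)]
    simp only [fill]
    rw [if_neg (by omega), if_neg (by omega), if_neg (by omega)]

theorem gap_bounds (n : ℕ) : 3 ≤ gap n ∧ gap n ≤ 4 := by
  unfold gap
  split_ifs <;> omega

/-- Every target whose known part is not too long is reached. -/
theorem reach (n : ℕ) : ∀ {c : ℤ} {K : Cfg}, Cls 0 c K → c ≤ 12 + 12 * ((n + 3 : ℕ) : ℤ) →
    12 + 12 * ((n + 3 : ℕ) : ℤ) - c ≤ 4 * (n : ℤ) + 8 →
    ∃ (X : ℕ → Dg) (Z : Cfg), (∀ i, 0 ≤ i → i < 12 → bit (X 0) i = true) ∧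
      Chain 0 (sched X (n + 3)) (12 + 12 * ((n + 3 : ℕ) : ℤ)) Z ∧ Cls 0 c Z ∧
      ∀ i, c ≤ i → i < 12 + 12 * ((n + 3 : ℕ) : ℤ) → Z i = K i := by
  induction n with
  | zero =>
    intro c K hK h1 h2
    have := hK.2.1
    push_cast at h1 h2
    exact base_target (by omega) (by omega)
  | succ n ih =>
    intro c K hK h1 h2
    push_cast at h1 h2
    obtain ⟨c1, K1, u, p1, p2, p3, p4⟩ := push_target (b := 12 + 12 * ((n + 3 : ℕ) : ℤ)) hK
      (by omega) (by push_cast; omega) (by push_cast; omega)
    push_cast at p1 p2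
    have hg := gap_bounds (n + 3)
    obtain ⟨c2, K2, q1, q2, q3, q4⟩ := nones_target (b := 12 + 12 * ((n + 3 : ℕ) : ℤ))
      (gap (n + 3) - 1) p3 (fun _ => by push_cast [Nat.cast_sub (by omega : 1 ≤ gap (n + 3))]; omega)
      (by push_cast; omega)
    push_cast [Nat.cast_sub (by omega : 1 ≤ gap (n + 3))] at q1
    obtain ⟨X, Z, r1, r2, r3, r4⟩ := ih q3 (by push_cast; omega) (by push_cast; omega)
    obtain ⟨Z1, s1, s2, s3⟩ := q4 _ Z r2 r3 r4
    obtain ⟨Z2, t1, t2, t3⟩ := p4 _ Z1 s1 s2 s3
    refine ⟨fun i => if i = n + 4 then u else X i, Z2, ?_, ?_, t2, ?_⟩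
    · intro i g1 g2
      have e0 : (fun i => if i = n + 4 then u else X i) 0 = X 0 := if_neg (by omega)
      rw [e0]
      exact r1 i g1 g2
    · have e : sched (fun i => if i = n + 4 then u else X i) (n + 3) = sched X (n + 3) :=
        sched_congr _ fun i hi => by rw [if_neg (by omega)]
      have e2 : sched (fun i => if i = n + 4 then u else X i) (n + 1 + 3) =
          some u :: (List.replicate (gap (n + 3) - 1) none ++ sched X (n + 3)) := by
        rw [show n + 1 + 3 = (n + 3) + 1 by ring, sched, e, if_pos (by ring)]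
      rw [e2]
      convert t1 using 1
      push_cast
      ring
    · intro i g1 g2
      refine t3 i g1 ?_
      push_cast at g2 ⊢
      omega

theorem control (w : List Bool) : ∃ (n : ℕ) (X : ℕ → Dg) (Z : Cfg),
    (∀ i, 0 ≤ i → i < 12 → bit (X 0) i = true) ∧ Chain 0 (sched X n) (12 + 12 * (n : ℤ)) Z ∧
      (w.length : ℤ) ≤ 12 + 12 * (n : ℤ) ∧
      ∀ (l : ℕ) (h : l < w.length), Z (12 + 12 * (n : ℤ) - w.length + l) = w[l] := by
  set m := w.length with hm
  set c : ℤ := 12 + 12 * ((m + 3 : ℕ) : ℤ) - m with hc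
  have hc38 : 38 ≤ c := by push_cast at hc; omega
  set K : Cfg := fun i => (w[(i - c).toNat]?).getD false with hKdef
  obtain ⟨X, Z, h1, h2, h3, h4⟩ := reach m (Cls_fill K hc38) (by omega) (by omega)
  refine ⟨m + 3, X, Z, h1, h2, by push_cast; omega, ?_⟩
  intro l hl
  rw [h4 _ (by omega) (by omega)]
  simp only [fill]
  rw [if_neg (by omega), if_neg (by omega), if_neg (by omega)]
  simp only [hKdef]
  have e : (12 + 12 * ((m + 3 : ℕ) : ℤ) - (m : ℤ) + (l : ℤ) - c).toNat = l := by omega
  rw [e, List.getElem?_eq_getElem (by omega)]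
  rfl

end Pool.Agent.WU
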