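import Mathlib

/-!
# A reversible binary cellular automaton with a weakly universal finite seed: definitions

Cells are indexed by `ℤ`.  Slots are code words of length 156, blocks are words of length 12.
-/

set_option autoImplicit false

namespace Pool.Agent.WU

open Function

/-- Binary configurations. -/
abbrev Cfg := ℤ → Bool

/-- Digits and block names. -/
abbrev Dg := Fin 4096

/-- Tokens: blank, `D u`, `E u`, `K`, `N`. -/
abbrev Tok := Option (Dg ⊕ Dg ⊕ Bool)

/-- Digit fields: blank, `T`, digit. -/
abbrev Dig := Option (Option Dg)

/-- Contents of a slot. -/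
@[ext] structure Cont where
  L : Tok
  R : Tok
  S0 : Dig
  S1 : Dig
  Q : Dig
  h : Fin 3
deriving DecidableEq

/-- Token `D u`. -/
def tD (u : Dg) : Tok := some (Sum.inl u)
/-- Token `E u`. -/
def tE (u : Dg) : Tok := some (Sum.inr (Sum.inl u))
/-- Head with carry. -/
def tK : Tok := some (Sum.inr (Sum.inr true))
/-- Head without carry. -/
def tN : Tok := some (Sum.inr (Sum.inr false))
/-- End of the array. -/
def dT : Dig := some none
/-- A digit. -/
def dd (x : Dg) : Dig := some (some x)

/-- Blank slot. -/
def BL : Cont := ⟨none, none, none, none, none, 0⟩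
/-- Growth head, first state. -/
def H0 : Cont := ⟨none, none, none, none, none, 1⟩
/-- Growth head, second state. -/
def H1 : Cont := ⟨none, none, none, none, none, 2⟩
/-- Only the token `D u` on the left track. -/
def cD (u : Dg) : Cont := ⟨tD u, none, none, none, none, 0⟩
/-- Only the token `E u` on the right track. -/
def cE (u : Dg) : Cont := ⟨none, tE u, none, none, none, 0⟩
/-- Head `N` meets the end mark. -/
def t1 : Cont := ⟨none, tN, dT, none, none, 0⟩
/-- Head `N` going back, new digit `0`. -/
def t2 : Cont := ⟨tN, none, dd 0, none, none, 0⟩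
/-- The end mark alone. -/
def t3 : Cont := ⟨none, none, dT, none, none, 0⟩

/-- Exchange of `K` and `N`. -/
def tau (t : Tok) : Tok := if t = tK then tN else if t = tN then tK else t

/-- The content involution. -/
def gam (c : Cont) : Cont :=
  if c = H0 then H1 else if c = H1 then H0 else
  match c.L, c.R, c.S0 with
  | none, some (Sum.inr (Sum.inr true)), some (some x) =>
      if x = 4095 then { c with L := tD x, S0 := dd 0 }
      else { c with L := tD x, R := tN, S0 := dd (x + 1) }
  | none, some (Sum.inr (Sum.inr false)), some (some x) => { c with L := tD x }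
  | some (Sum.inl y), some (Sum.inr (Sum.inr true)), some (some x) =>
      if y = 4095 ∧ x = 0 then { c with L := none, S0 := dd y } else c
  | some (Sum.inl y), some (Sum.inr (Sum.inr false)), some (some x) =>
      if x = y then { c with L := none }
      else if y ≠ 4095 ∧ x = y + 1 then { c with L := none, R := tK, S0 := dd y } else c
  | _, _, _ => c

/-- The content map of `Gam`. -/
def gG (_ : Option Cont) (c : Cont) (_ : Option Cont) : Cont := gam c

/-- The content map of the turning of the head at the end mark. -/
def g2 (l : Option Cont) (c : Cont) (r : Option Cont) : Cont :=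
  if c = t1 ∧ r = some BL then t2
  else if c = t2 ∧ r = some t3 then t1
  else if c = BL ∧ l = some t1 then t3
  else if c = t3 ∧ l = some t2 then BL
  else c

/-- The conveyor. -/
def cv (l : Option Cont) (c : Cont) (r : Option Cont) : Cont :=
  { L := match r with | some d => d.L | none => c.R
    R := match l with | some d => d.R | none => tau c.L
    S0 := match l with | some d => d.S1 | none => c.Q
    S1 := c.S0
    Q := match r with | some d => d.Q | none => c.S1
    h := c.h }

/-- The inverse conveyor. -/
def cvi (l : Option Cont) (c : Cont) (r : Option Cont) : Cont :=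
  { L := match l with | some d => d.L | none => tau c.R
    R := match r with | some d => d.R | none => c.L
    S0 := c.S1
    S1 := match r with | some d => d.S0 | none => c.Q
    Q := match l with | some d => d.Q | none => c.S0
    h := c.h }

/-- There is an injective binary coding of contents by 69 bits. -/
theorem exists_enc : ∃ f : Cont → (Fin 69 → Bool), Injective f := by
  let g : Cont → Tok × Tok × Dig × Dig × Dig × Fin 3 := fun c => (c.L, c.R, c.S0, c.S1, c.Q, c.h)
  have hg : Injective g := by
    intro a b h
    simp only [g, Prod.mk.injEq] at h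
    ext1 <;> simp_all
  have hc : Fintype.card (Tok × Tok × Dig × Dig × Dig × Fin 3) ≤ Fintype.card (Fin 69 → Bool) := by
    simp only [Fintype.card_prod, Fintype.card_option, Fintype.card_sum, Fintype.card_fin,
      Fintype.card_bool, Fintype.card_pi_const]
    norm_num
  obtain ⟨e⟩ := Function.Embedding.nonempty_of_card_le hc
  exact ⟨fun c => e (g c), e.injective.comp hg⟩

/-- Binary coding of contents. -/
noncomputable def enc : Cont → (Fin 69 → Bool) := Classical.choose exists_enc

theorem enc_injective : Injective enc := Classical.choose_spec exists_enc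

/-- Names of blocks. -/
theorem exists_bl : Nonempty (Dg ≃ (Fin 12 → Bool)) := by
  refine ⟨Fintype.equivOfCardEq ?_⟩
  simp

/-- The block with a given name. -/
noncomputable def bl : Dg ≃ (Fin 12 → Bool) := Classical.choice exists_bl

/-- Cells of a block. -/
noncomputable def bit (u : Dg) (i : ℤ) : Bool :=
  if h : 0 ≤ i ∧ i < 12 then bl u ⟨i.toNat, by omega⟩ else false

/-- Cell `i` of the code word of a content. -/
noncomputable def code (c : Cont) (i : ℤ) : Bool :=
  if i = 0 ∨ i = 1 ∨ i = 3 then true
  else if h : i % 2 = 1 ∧ 5 ≤ i ∧ i ≤ 141 then enc c ⟨((i - 5) / 2).toNat, by omega⟩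
  else false

/-- The slot at `p` has content `c`. -/
def SC (x : Cfg) (p : ℤ) (c : Cont) : Prop := ∀ i : ℤ, 0 ≤ i → i < 156 → x (p + i) = code c i

/-- There is a slot at `p`. -/
def Slot (x : Cfg) (p : ℤ) : Prop := ∃ c, SC x p c

/-- The first 144 cells from `p` are those of a code word. -/
def Pre (x : Cfg) (p : ℤ) : Prop := ∃ c, ∀ i : ℤ, 0 ≤ i → i < 144 → x (p + i) = code c i

/-- The marker word. -/
def Mw (i : ℤ) : Bool := decide (i = 0 ∨ i = 1)

/-- Marker at `p`. -/
def Mk (x : Cfg) (p : ℤ) : Prop := ∀ i : ℤ, 0 ≤ i → i < 12 → x (p + i) = Mw i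

/-- Zeros on `[a, b)`. -/
def Zs (x : Cfg) (a b : ℤ) : Prop := ∀ i : ℤ, a ≤ i → i < b → x i = false

open Classical in
/-- The content of the slot at `p`, if there is one. -/
noncomputable def nbr (x : Cfg) (p : ℤ) : Option Cont :=
  if h : ∃ c, SC x p c then some h.choose else none

open Classical in
/-- Change of all slot contents by a map which sees the two neighbours. -/
noncomputable def smap (Φ : Option Cont → Cont → Option Cont → Cont) (x : Cfg) : Cfg := fun i =>
  if h : ∃ p : ℤ, Slot x p ∧ p ≤ i ∧ i < p + 156 then
    code (Φ (nbr x (h.choose - 156)) h.choose_spec.1.choose (nbr x (h.choose + 156)))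
      (i - h.choose)
  else x i

/-! ### Simultaneous exchange of words -/

/-- A family of word pairs of equal length with a context condition. -/
structure Sys where
  ι : Type
  len : ι → ℤ
  word : ι → Bool → ℤ → Bool
  ctx : Cfg → ℤ → ι → Prop

/-- The word pair `r`, side `sd`, is active at the position `w`. -/
def Sys.Act (S : Sys) (x : Cfg) (s : ℤ × S.ι × Bool) : Prop :=
  (∀ i : ℤ, 0 ≤ i → i < S.len s.2.1 → x (s.1 + i) = S.word s.2.1 s.2.2 i) ∧ S.ctx x s.1 s.2.1

open Classical in
/-- Exchange of the words at the sites of `T`. -/
noncomputable def Sys.flip (S : Sys) (T : Set (ℤ × S.ι × Bool)) (x : Cfg) : Cfg := fun k =>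
  if h : ∃ s ∈ T, s.1 ≤ k ∧ k < s.1 + S.len s.2.1 then
    S.word h.choose.2.1 (!h.choose.2.2) (k - h.choose.1)
  else x k

/-- Exchange of all active words. -/
noncomputable def Sys.swap (S : Sys) (x : Cfg) : Cfg := S.flip {s | S.Act x s} x

/-- Growth. -/
noncomputable def sysH : Sys where
  ι := Unit
  len := fun _ => 312
  word := fun _ sd i =>
    if sd then (if i < 156 then code BL i else code H1 (i - 156))
    else (if i < 156 then code H0 i else false)
  ctx := fun _ _ _ => True

/-- The block `u` written at `w`. -/
noncomputable def wr (x : Cfg) (w : ℤ) (u : Dg) : Cfg := fun i =>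
  if w ≤ i ∧ i < w + 12 then bit u (i - w) else x i

/-- Writing the block `u` at `w` completes a slot. -/
def TB (x : Cfg) (w : ℤ) (u : Dg) : Prop :=
  ∃ p : ℤ, w - 156 < p ∧ p ≤ w - 144 ∧ Slot (wr x w u) p

/-- The push and pop words. -/
noncomputable def ew (r : Fin 13 × Dg) (sd : Bool) (i : ℤ) : Bool :=
  let j : ℤ := (r.1 : ℕ)
  if sd then
    (if i < 12 then bit r.2 i
     else if i < 24 then Mw (i - 12)
     else if i < 12 + 12 * j then false
     else if i < 168 + 12 * j then (if j = 0 then false else code BL (i - 12 - 12 * j))
     else code (cE r.2) (i - 168 - 12 * j))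
  else
    (if i < 12 then Mw i
     else if i < 12 + 12 * j then false
     else if i < 168 + 12 * j then code BL (i - 12 - 12 * j)
     else code (cD r.2) (i - 168 - 12 * j))

/-- Length of the push and pop words. -/
def el (r : Fin 13 × Dg) : ℤ := 324 + 12 * ((r.1 : ℕ) : ℤ)

/-- Push and pop, events which do not complete or destroy a slot. -/
noncomputable def sysA : Sys where
  ι := Fin 13 × Dg
  len := el
  word := ew
  ctx := fun x w r => Slot x (w + el r) ∧ ¬ TB x w r.2

/-- Push and pop, events which complete or destroy a slot. -/
noncomputable def sysB : Sys where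
  ι := Fin 13 × Dg
  len := el
  word := ew
  ctx := fun x w r => Pre x (w + el r) ∧ TB x w r.2

/-- The part of the automaton before push and pop. -/
noncomputable def NN (x : Cfg) : Cfg := smap cv (smap g2 (smap gG (sysH.swap x)))

/-- Its inverse. -/
noncomputable def NNi (x : Cfg) : Cfg := sysH.swap (smap gG (smap g2 (smap cvi x)))

/-- The automaton. -/
noncomputable def FF (x : Cfg) : Cfg := sysB.swap (sysA.swap (NN x))

/-- The inverse automaton. -/
noncomputable def FFi (x : Cfg) : Cfg := NNi (sysA.swap (sysB.swap x))

end Pool.Agent.WU
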