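import Pool.Agent.WU.Swap50

/-!
# P11: the two push / pop layers are involutions (helper50)

Abstract slot system: a code of length 156 in which two consecutive ones occur only at offset 0.
-/

set_option autoImplicit false

namespace Pool.Agent.WU

/-- the data of the code: contents, their words, blocks -/
structure Sys50 where
  C : Type
  D : Type
  wd : C → ℕ → Bool
  BL : C
  cD : D → C
  cE : D → C
  bl : D → ℕ → Bool
  wd0 : ∀ c, wd c 0 = true
  wd1 : ∀ c, wd c 1 = true
  wd3 : ∀ c, wd c 3 = true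
  no11 : ∀ c i, 1 ≤ i → i < 155 → ¬ (wd c i = true ∧ wd c (i + 1) = true)
  tail : ∀ c i, 142 ≤ i → i < 156 → wd c i = false
  inj : ∀ c c', (∀ i < 156, wd c i = wd c' i) → c = c'
  BL_D : ∀ u, BL ≠ cD u
  BL_E : ∀ u, BL ≠ cE u
  D_E : ∀ u v, cD u ≠ cE v
  D_inj : ∀ u v, cD u = cD v → u = v
  E_inj : ∀ u v, cE u = cE v → u = v

namespace Sys50

variable (Y : Sys50)

/-- the cells `p, ..., p + 155` carry the word of `c` -/
def HasC (x : ℤ → Bool) (p : ℤ) (c : Y.C) : Prop := ∀ i : ℕ, i < 156 → x (p + i) = Y.wd c i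

/-- a slot starts at `p` -/
def IsSlot (x : ℤ → Bool) (p : ℤ) : Prop := ∃ c, Y.HasC x p c

/-- the first 144 cells from `p` are as in a slot -/
def Pre (x : ℤ → Bool) (p : ℤ) : Prop := ∃ c, ∀ i : ℕ, i < 144 → x (p + i) = Y.wd c i

/-- `x` with `bl u` written at `w` -/
def wr (x : ℤ → Bool) (w : ℤ) (u : Y.D) : ℤ → Bool := fun i =>
  if w ≤ i ∧ i < w + 12 then Y.bl u (i - w).toNat else x i

/-- after writing `bl u` at `w`, some slot ends in `(w, w + 12]` -/
def TB (x : ℤ → Bool) (w : ℤ) (u : Y.D) : Prop :=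
  ∃ p, w - 156 < p ∧ p ≤ w - 144 ∧ Y.IsSlot (Y.wr x w u) p

/-- kinds of windows: `(true, j, u)` is `W1 (j, u)`, `(false, j, u)` is `W2 (j, u)` -/
abbrev EK : Type := Bool × Fin 13 × Y.D

/-- the marker `1 1 0 ... 0` -/
def mrk (i : ℕ) : Bool := decide (i < 2)

/-- the word of a window -/
def eword (k : Y.EK) (i : ℕ) : Bool :=
  let j : ℕ := k.2.1.val
  if k.1 = true then
    if i < 12 then mrk i
    else if i < 12 + 12 * j then false
    else if i < 168 + 12 * j then Y.wd Y.BL (i - (12 + 12 * j))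
    else Y.wd (Y.cD k.2.2) (i - (168 + 12 * j))
  else
    if i < 12 then Y.bl k.2.2 i
    else if i < 24 then mrk (i - 12)
    else if j = 0 then
      if i < 168 then false else Y.wd (Y.cE k.2.2) (i - 168)
    else if i < 12 + 12 * j then false
    else if i < 168 + 12 * j then Y.wd Y.BL (i - (12 + 12 * j))
    else Y.wd (Y.cE k.2.2) (i - (168 + 12 * j))

/-- length of a window -/
def elen (k : Y.EK) : ℕ := 324 + 12 * k.2.1.val

/-- the end of the window -/
def en (v : ℤ × Y.EK) : ℤ := v.1 + (324 + 12 * (v.2.2.1.val : ℤ))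

/-- the position of the marker -/
def mkr (v : ℤ × Y.EK) : ℤ := if v.2.1 = true then v.1 else v.1 + 12

/-- the swap layer with an activity condition depending on the context -/
def lay (ctx : (ℤ → Bool) → ℤ × Y.EK → Prop) : Swap50 where
  K := Y.EK
  len := Y.elen
  pos := fun k => by unfold elen; omega
  word := Y.eword
  bar := fun k => (!k.1, k.2)
  bar_bar := fun k => by simp
  len_bar := fun k => rfl
  act := fun x v => (∀ i : ℤ, v.1 ≤ i → i < v.1 + (Y.elen v.2 : ℤ) →
    x i = Y.eword v.2 (i - v.1).toNat) ∧ ctx x v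

/-- the context condition of the layer `E_A` -/
def ctxA (x : ℤ → Bool) (v : ℤ × Y.EK) : Prop :=
  Y.IsSlot x (Y.en v) ∧ ¬ Y.TB x v.1 v.2.2.2

/-- the context condition of the layer `E_B` -/
def ctxB (x : ℤ → Bool) (v : ℤ × Y.EK) : Prop :=
  Y.Pre x (Y.en v) ∧ Y.TB x v.1 v.2.2.2

/-- the layer `E_A` -/
noncomputable def EA (x : ℤ → Bool) : ℤ → Bool := (Y.lay Y.ctxA).map x

/-- the layer `E_B` -/
noncomputable def EB (x : ℤ → Bool) : ℤ → Bool := (Y.lay Y.ctxB).map x

/-- the window `v` carries its word -/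
def Mat (x : ℤ → Bool) (v : ℤ × Y.EK) : Prop :=
  ∀ i : ℤ, v.1 ≤ i → i < v.1 + (Y.elen v.2 : ℤ) → x i = Y.eword v.2 (i - v.1).toNat

variable {Y}

/-! ### Slots -/

theorem HasC.at0 {x : ℤ → Bool} {p : ℤ} {c : Y.C} (h : Y.HasC x p c) : x p = true := by
  have := h 0 (by norm_num)
  simpa [Y.wd0] using this

theorem HasC.at1 {x : ℤ → Bool} {p : ℤ} {c : Y.C} (h : Y.HasC x p c) : x (p + 1) = true := by
  have := h 1 (by norm_num)
  simpa [Y.wd1] using this

theorem HasC.at3 {x : ℤ → Bool} {p : ℤ} {c : Y.C} (h : Y.HasC x p c) : x (p + 3) = true := by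
  have := h 3 (by norm_num)
  simpa [Y.wd3] using this

theorem HasC.cell {x : ℤ → Bool} {p : ℤ} {c : Y.C} (h : Y.HasC x p c) {i : ℤ} (h1 : p ≤ i)
    (h2 : i < p + 156) : x i = Y.wd c (i - p).toNat := by
  have := h (i - p).toNat (by omega)
  rwa [show p + ((i - p).toNat : ℤ) = i by omega] at this

theorem HasC.not11 {x : ℤ → Bool} {p : ℤ} {c : Y.C} (h : Y.HasC x p c) {i : ℤ} (h1 : p < i)
    (h2 : i < p + 156) : ¬ (x i = true ∧ x (i + 1) = true) := by
  rintro ⟨h3, h4⟩
  rcases eq_or_ne i (p + 155) with h5 | h5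
  · rw [h.cell (by omega) h2, Y.tail c _ (by omega) (by omega)] at h3
    exact absurd h3 (by simp)
  · refine Y.no11 c (i - p).toNat (by omega) (by omega) ⟨?_, ?_⟩
    · rw [← h.cell (by omega) h2]; exact h3
    · rw [h.cell (by omega) (by omega)] at h4
      rw [show (i - p).toNat + 1 = (i + 1 - p).toNat by omega]
      exact h4

theorem HasC.last {x : ℤ → Bool} {p : ℤ} {c : Y.C} (h : Y.HasC x p c) {i : ℤ} (h1 : p + 142 ≤ i)
    (h2 : i < p + 156) : x i = false := by
  rw [h.cell (by omega) h2, Y.tail c _ (by omega) (by omega)]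

theorem HasC.unique {x : ℤ → Bool} {p : ℤ} {c c' : Y.C} (h : Y.HasC x p c)
    (h' : Y.HasC x p c') : c = c' :=
  Y.inj c c' fun i hi => by rw [← h i hi, ← h' i hi]

/-- different slots are disjoint -/
theorem IsSlot.sep {x : ℤ → Bool} {p q : ℤ} (hp : Y.IsSlot x p) (hq : Y.IsSlot x q)
    (h : p < q) : p + 156 ≤ q := by
  obtain ⟨c, hc⟩ := hp
  obtain ⟨d, hd⟩ := hq
  by_contra hcon
  exact hc.not11 h (by omega) ⟨hd.at0, hd.at1⟩

theorem Pre.not11 {x : ℤ → Bool} {p : ℤ} (h : Y.Pre x p) {i : ℤ} (h1 : p < i)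
    (h2 : i < p + 144) : ¬ (x i = true ∧ x (i + 1) = true) := by
  obtain ⟨c, hc⟩ := h
  have cell : ∀ j : ℤ, p ≤ j → j < p + 144 → x j = Y.wd c (j - p).toNat := by
    intro j h1 h2
    have := hc (j - p).toNat (by omega)
    rwa [show p + ((j - p).toNat : ℤ) = j by omega] at this
  rintro ⟨h3, h4⟩
  rcases eq_or_ne i (p + 143) with h5 | h5
  · rw [cell i (by omega) h2, Y.tail c _ (by omega) (by omega)] at h3
    exact absurd h3 (by simp)
  · refine Y.no11 c (i - p).toNat (by omega) (by omega) ⟨?_, ?_⟩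
    · rw [← cell i (by omega) h2]; exact h3
    · rw [cell (i + 1) (by omega) (by omega)] at h4
      rw [show (i - p).toNat + 1 = (i + 1 - p).toNat by omega]
      exact h4

theorem Pre.at3 {x : ℤ → Bool} {p : ℤ} (h : Y.Pre x p) : x (p + 3) = true := by
  obtain ⟨c, hc⟩ := h
  have := hc 3 (by norm_num)
  simpa [Y.wd3] using this

theorem IsSlot.pre {x : ℤ → Bool} {p : ℤ} (h : Y.IsSlot x p) : Y.Pre x p := by
  obtain ⟨c, hc⟩ := h
  exact ⟨c, fun i hi => hc i (by omega)⟩

theorem HasC.congr {x x' : ℤ → Bool} {p : ℤ} {c : Y.C} (h : Y.HasC x p c)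
    (he : ∀ i, p ≤ i → i < p + 156 → x i = x' i) : Y.HasC x' p c := fun i hi => by
  rw [← he _ (by omega) (by omega)]
  exact h i hi

theorem IsSlot.congr {x x' : ℤ → Bool} {p : ℤ} (h : Y.IsSlot x p)
    (he : ∀ i, p ≤ i → i < p + 156 → x i = x' i) : Y.IsSlot x' p := by
  obtain ⟨c, hc⟩ := h
  exact ⟨c, hc.congr he⟩

theorem Pre.congr {x x' : ℤ → Bool} {p : ℤ} (h : Y.Pre x p)
    (he : ∀ i, p ≤ i → i < p + 144 → x i = x' i) : Y.Pre x' p := by
  obtain ⟨c, hc⟩ := h
  exact ⟨c, fun i hi => by rw [← he _ (by omega) (by omega)]; exact hc i hi⟩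

/-! ### What a matching window contains -/

section facts

variable {x : ℤ → Bool} {v : ℤ × Y.EK}

theorem Mat.cell (h : Y.Mat x v) (i : ℕ) (hi : i < 324 + 12 * v.2.2.1.val) :
    x (v.1 + i) = Y.eword v.2 i := by
  have := h (v.1 + i) (by omega) (by unfold elen; push_cast; omega)
  rwa [show (v.1 + (i : ℤ) - v.1).toNat = i by omega] at this

/-- the token slot at the end of the window -/
theorem Mat.tok (h : Y.Mat x v) :
    Y.HasC x (Y.en v - 156) (if v.2.1 = true then Y.cD v.2.2.2 else Y.cE v.2.2.2) := by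
  intro i hi
  have h1 := h.cell (168 + 12 * v.2.2.1.val + i) (by omega)
  rw [show Y.en v - 156 + (i : ℤ) = v.1 + ((168 + 12 * v.2.2.1.val + i : ℕ) : ℤ) by
    unfold en; push_cast; ring, h1]
  unfold eword
  rcases v with ⟨w, t, j, u⟩
  rcases t with _ | _
  · by_cases hj : (j.val : ℕ) = 0
    · simp [hj, show ¬ (168 + i < 12) by omega, show ¬ (168 + i < 24) by omega,
        show ¬ (168 + i < 168) by omega]
    · simp [hj, show ¬ (168 + 12 * j.val + i < 12) by omega,
        show ¬ (168 + 12 * j.val + i < 24) by omega,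
        show ¬ (168 + 12 * j.val + i < 12 + 12 * j.val) by omega,
        show ¬ (168 + 12 * j.val + i < 168 + 12 * j.val) by omega]
  · simp [show ¬ (168 + 12 * j.val + i < 12) by omega,
        show ¬ (168 + 12 * j.val + i < 12 + 12 * j.val) by omega,
        show ¬ (168 + 12 * j.val + i < 168 + 12 * j.val) by omega]

theorem Mat.mk0 (h : Y.Mat x v) : x (Y.mkr v) = true := by
  rcases v with ⟨w, t, j, u⟩
  rcases t with _ | _
  · have h1 := h.cell 12 (by omega)
    simpa [mkr, eword, mrk] using h1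
  · have h1 := h.cell 0 (by omega)
    simpa [mkr, eword, mrk] using h1

theorem Mat.mk1 (h : Y.Mat x v) : x (Y.mkr v + 1) = true := by
  rcases v with ⟨w, t, j, u⟩
  rcases t with _ | _
  · have h1 := h.cell 13 (by omega)
    simp [mkr, eword, mrk] at h1 ⊢
    rw [← h1]
    congr 1
    ring
  · have h1 := h.cell 1 (by omega)
    simpa [mkr, eword, mrk] using h1

theorem Mat.mk3 (h : Y.Mat x v) : x (Y.mkr v + 3) = false := by
  rcases v with ⟨w, t, j, u⟩
  rcases t with _ | _
  · have h1 := h.cell 15 (by omega)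
    simp [mkr, eword, mrk] at h1 ⊢
    rw [← h1]
    congr 1
    ring
  · have h1 := h.cell 3 (by omega)
    simpa [mkr, eword, mrk] using h1

/-- the start of the first slot after the marker -/
def fs (v : ℤ × Y.EK) : ℤ := if v.2.1 = false ∧ v.2.2.1.val = 0 then Y.en v - 156 else Y.en v - 312

theorem Mat.zeros (h : Y.Mat x v) {i : ℤ} (h1 : Y.mkr v + 2 ≤ i) (h2 : i < fs v) : x i = false := by
  rcases v with ⟨w, t, j, u⟩
  have hle : w ≤ i := by
    rcases t with _ | _ <;> simp [mkr] at h1 <;> omega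
  have hlt : (i - w).toNat < 324 + 12 * j.val := by
    unfold fs en at h2
    simp only at h2
    split_ifs at h2 <;> omega
  have h3 := h.cell (i - w).toNat hlt
  simp only at h3
  rw [show w + ((i - w).toNat : ℤ) = i by omega] at h3
  rw [h3]
  unfold fs en at h2
  rcases t with _ | _
  · simp only [mkr, Bool.false_eq_true, if_false] at h1
    simp only [true_and] at h2
    unfold eword mrk
    simp only [Bool.false_eq_true, if_false]
    rw [if_neg (by omega)]
    split_ifs at h2 with h4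
    · rw [if_pos h4]
      split_ifs <;> first | rfl | (simp; omega) | omega
    · rw [if_neg h4]
      split_ifs <;> first | rfl | (simp; omega) | omega
  · simp only [mkr, if_true] at h1
    simp only [Bool.true_eq_false, false_and, if_false] at h2
    unfold eword mrk
    simp only [if_true]
    split_ifs <;> first | rfl | (simp; omega) | omega

/-- the first slot after the marker -/
theorem Mat.first (h : Y.Mat x v) :
    Y.HasC x (fs v) (if v.2.1 = false ∧ v.2.2.1.val = 0 then Y.cE v.2.2.2 else Y.BL) := by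
  by_cases hc : v.2.1 = false ∧ v.2.2.1.val = 0
  · have h1 := h.tok
    unfold fs
    rw [if_pos hc, if_pos hc]
    rwa [if_neg (by simp [hc.1])] at h1
  · unfold fs
    rw [if_neg hc, if_neg hc]
    intro i hi
    have h1 := h.cell (12 + 12 * v.2.2.1.val + i) (by omega)
    rw [show Y.en v - 312 + (i : ℤ) = v.1 + ((12 + 12 * v.2.2.1.val + i : ℕ) : ℤ) by
      unfold en; push_cast; ring, h1]
    unfold eword
    rcases v with ⟨w, t, j, u⟩
    rcases t with _ | _
    · have hj : ¬ (j.val = 0) := fun hj => hc ⟨rfl, hj⟩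
      simp only [Bool.false_eq_true, if_false]
      rw [if_neg (by omega), if_neg (by omega), if_neg hj, if_neg (by omega), if_pos (by omega)]
      congr 1
      omega
    · simp only [if_true]
      rw [if_neg (by omega), if_neg (by omega), if_pos (by omega)]
      congr 1
      omega

theorem Mat.at11 (h : Y.Mat x v) {i : ℤ} (h1 : Y.mkr v ≤ i) (h2 : i < Y.en v) (h3 : x i = true)
    (h4 : x (i + 1) = true) : i = Y.mkr v ∨ Y.IsSlot x i := by
  rcases eq_or_lt_of_le h1 with h5 | h5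
  · exact Or.inl h5.symm
  right
  have hfs : fs v = Y.en v - 156 ∨ fs v = Y.en v - 312 := by
    unfold fs; split_ifs <;> simp
  by_cases h6 : i < fs v
  · exfalso
    rcases eq_or_lt_of_le (Int.add_one_le_iff.2 h5) with h7 | h7
    · have h8 : x (i + 1) = false := by
        by_cases h9 : i + 1 < fs v
        · exact h.zeros (by omega) h9
        · -- the marker ends before the first slot
          exfalso
          rcases v with ⟨w, t, j, u⟩
          unfold fs en at h9
          unfold mkr at h7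
          simp only at h9 h7
          split_ifs at h9 <;> rcases t with _ | _ <;> simp at * <;> omega
      rw [h8] at h4
      exact absurd h4 (by simp)
    · rw [h.zeros (by omega) h6] at h3
      exact absurd h3 (by simp)
  · by_cases h7 : i = fs v
    · rw [h7]
      exact ⟨_, h.first⟩
    by_cases h8 : i < fs v + 156
    · exact absurd ⟨h3, h4⟩ (h.first.not11 (by omega) h8)
    · by_cases h9 : i = Y.en v - 156
      · rw [h9]
        exact ⟨_, h.tok⟩
      · exact absurd ⟨h3, h4⟩ (h.tok.not11 (by omega) (by omega))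

theorem Mat.not_pre (h : Y.Mat x v) : ¬ Y.Pre x (Y.mkr v) := by
  intro h1
  have := h1.at3
  rw [h.mk3] at this
  exact absurd this (by simp)

end facts

/-! ### Separation of windows -/

theorem mkr_le (v : ℤ × Y.EK) : v.1 ≤ Y.mkr v ∧ Y.mkr v ≤ v.1 + 12 := by
  unfold mkr
  split_ifs <;> omega

theorem mkr_lt_fs (v : ℤ × Y.EK) : Y.mkr v + 12 ≤ fs v := by
  rcases v with ⟨w, t, j, u⟩
  unfold mkr fs en
  rcases t with _ | _
  · simp only [Bool.false_eq_true, if_false, true_and]
    split_ifs with h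
    · omega
    · omega
  · simp only [if_true, Bool.true_eq_false, false_and, if_false]
    omega

theorem mkr_lt_en (v : ℤ × Y.EK) : Y.mkr v + 12 + 156 ≤ Y.en v := by
  have h := mkr_lt_fs v
  unfold fs at h
  split_ifs at h <;> omega

theorem Mat.en_le {x : ℤ → Bool} {v v' : ℤ × Y.EK} (h : Y.Mat x v) (h' : Y.Mat x v')
    (hlt : Y.mkr v < Y.mkr v') : Y.en v ≤ Y.mkr v' := by
  by_contra hc
  rcases h.at11 hlt.le (by omega) h'.mk0 h'.mk1 with h1 | h1
  · omega
  · exact h'.not_pre h1.pre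

theorem Mat.eq_of_mkr {x : ℤ → Bool} {v v' : ℤ × Y.EK} (h : Y.Mat x v) (h' : Y.Mat x v')
    (he : Y.mkr v = Y.mkr v') : v = v' := by
  have hfs : fs v = fs v' := by
    have h1 := mkr_lt_fs v
    have h2 := mkr_lt_fs v'
    rcases lt_trichotomy (fs v) (fs v') with h3 | h3 | h3
    · have h4 := h'.zeros (i := fs v) (by omega) h3
      rw [h.first.at0] at h4
      exact absurd h4 (by simp)
    · exact h3
    · have h4 := h.zeros (i := fs v') (by omega) h3
      rw [h'.first.at0] at h4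
      exact absurd h4 (by simp)
  have h1 := h.first
  rw [hfs] at h1
  have h2 := h1.unique h'.first
  rcases v with ⟨w, t, j, u⟩
  rcases v' with ⟨w', t', j', u'⟩
  by_cases hc : t = false ∧ j.val = 0
  · by_cases hc' : t' = false ∧ j'.val = 0
    · simp only [if_pos hc, if_pos hc'] at h2
      have h3 := Y.E_inj _ _ h2
      obtain ⟨rfl, hj⟩ := hc
      obtain ⟨rfl, hj'⟩ := hc'
      have h4 : j = j' := Fin.ext (by omega)
      subst h3 h4
      have h5 : w = w' := by
        unfold mkr at he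
        simp only [Bool.false_eq_true, if_false] at he
        omega
      rw [h5]
    · simp only [if_pos hc, if_neg hc'] at h2
      exact absurd h2.symm (Y.BL_E u)
  · by_cases hc' : t' = false ∧ j'.val = 0
    · simp only [if_neg hc, if_pos hc'] at h2
      exact absurd h2 (Y.BL_E u')
    · have hen : Y.en (w, t, j, u) = Y.en (w', t', j', u') := by
        unfold fs at hfs
        rw [if_neg hc, if_neg hc'] at hfs
        omega
      have h3 := h.tok
      rw [hen] at h3
      have h4 := h3.unique h'.tok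
      unfold mkr at he
      unfold en at hen
      rcases t with _ | _ <;> rcases t' with _ | _
      · simp only [Bool.false_eq_true, if_false] at h4 he hen
        have h5 := Y.E_inj _ _ h4
        have h6 : j = j' := Fin.ext (by omega)
        subst h5 h6
        have h7 : w = w' := by omega
        rw [h7]
      · simp only [Bool.false_eq_true, if_false, if_true] at h4
        exact absurd h4.symm (Y.D_E _ _)
      · simp only [Bool.false_eq_true, if_false, if_true] at h4
        exact absurd h4 (Y.D_E _ _)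
      · simp only [if_true] at h4 he hen
        have h5 := Y.D_inj _ _ h4
        have h6 : j = j' := Fin.ext (by omega)
        subst h5 h6
        have h7 : w = w' := by omega
        rw [h7]

theorem Mat.wr_self {x : ℤ → Bool} {v : ℤ × Y.EK} (h : Y.Mat x v) (ht : v.2.1 = false) :
    Y.wr x v.1 v.2.2.2 = x := by
  funext i
  unfold wr
  split_ifs with h1
  · have h2 := h.cell (i - v.1).toNat (by omega)
    rw [show v.1 + ((i - v.1).toNat : ℤ) = i by omega] at h2
    rw [h2]
    unfold eword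
    rw [if_neg (by rw [ht]; simp), if_pos (by omega)]
  · rfl

theorem wr_lt (x : ℤ → Bool) (w : ℤ) (u : Y.D) {i : ℤ} (h : i < w) : Y.wr x w u i = x i := by
  unfold wr
  rw [if_neg (by omega)]

/-- the gap between two active windows of a layer is at least `d` -/
def Sep (ctx : (ℤ → Bool) → ℤ × Y.EK → Prop) (d : ℤ) : Prop :=
  ∀ x v v', Y.Mat x v → Y.Mat x v' → ctx x v → ctx x v' → Y.mkr v < Y.mkr v' →
    Y.en v + d ≤ v'.1

theorem sepA : Sep Y.ctxA 156 := by
  intro x v v' h h' hc hc' hlt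
  have h1 := h.en_le h' hlt
  have h2 : Y.en v + 156 ≤ Y.mkr v' := by
    by_contra h3
    rcases eq_or_lt_of_le h1 with h4 | h4
    · have h5 := hc.1.pre
      rw [h4] at h5
      exact h'.not_pre h5
    · obtain ⟨c, hcc⟩ := hc.1
      exact hcc.not11 h4 (by omega) ⟨h'.mk0, h'.mk1⟩
  by_contra h3
  have h4 := mkr_le v'
  have ht : v'.2.1 = false := by
    by_contra ht
    have ht' : v'.2.1 = true := by simpa using ht
    unfold mkr at h2
    rw [if_pos ht'] at h2
    omega
  refine hc'.2 ⟨Y.en v, by omega, by omega, ?_⟩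
  rw [h'.wr_self ht]
  exact hc.1

theorem sepB : Sep Y.ctxB 144 := by
  intro x v v' h h' hc hc' hlt
  have h1 := h.en_le h' hlt
  have h2 : Y.en v + 144 ≤ Y.mkr v' := by
    by_contra h3
    rcases eq_or_lt_of_le h1 with h4 | h4
    · have h5 := hc.1
      rw [h4] at h5
      exact h'.not_pre h5
    · exact hc.1.not11 h4 (by omega) ⟨h'.mk0, h'.mk1⟩
  have h4 := mkr_le v'
  obtain ⟨p, h5, h6, h7⟩ := hc'.2
  have h8 : Y.IsSlot (Y.wr x v'.1 v'.2.2.2) (Y.en v - 156) :=
    IsSlot.congr ⟨_, h.tok⟩ fun i _ hi => (wr_lt x _ _ (by omega)).symm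
  have h9 : Y.en v ≤ p := by
    have := h8.sep h7 (by omega)
    omega
  rcases eq_or_lt_of_le h9 with h10 | h10
  · omega
  · obtain ⟨c, hcc⟩ := h7
    have h11 := hcc.at0
    have h12 := hcc.at1
    rw [wr_lt _ _ _ (by omega)] at h11 h12
    by_contra h13
    exact hc.1.not11 h10 (by omega) ⟨h11, h12⟩

/-- writing the block and the slots which end in it do not see changes behind a slot -/
theorem TB.mono {x x' : ℤ → Bool} {w : ℤ} {u : Y.D}
    (h : ∀ i < w, x i ≠ x' i → ∃ e, i < e ∧ e ≤ w ∧ Y.IsSlot x (e - 156)) (ht : Y.TB x w u) :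
    Y.TB x' w u := by
  obtain ⟨p, h1, h2, h3⟩ := ht
  refine ⟨p, h1, h2, h3.congr ?_⟩
  intro i h4 h5
  unfold wr
  split_ifs with h6
  · rfl
  · by_contra h7
    obtain ⟨e, h8, h9, h10⟩ := h i (by omega) h7
    have h11 : Y.IsSlot (Y.wr x w u) (e - 156) :=
      h10.congr fun k _ hk => (wr_lt x _ _ (by omega)).symm
    have := h11.sep h3 (by omega)
    omega

section layer

variable {ctx : (ℤ → Bool) → ℤ × Y.EK → Prop} {d : ℤ}

theorem act_iff {x : ℤ → Bool} {v : ℤ × Y.EK} :
    (Y.lay ctx).act x v ↔ Y.Mat x v ∧ ctx x v := Iff.rfl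

theorem mem_iff {v : ℤ × Y.EK} {i : ℤ} : (Y.lay ctx).Mem v i ↔ v.1 ≤ i ∧ i < Y.en v := by
  show v.1 ≤ i ∧ i < v.1 + (Y.elen v.2 : ℤ) ↔ _
  unfold elen en
  push_cast
  exact Iff.rfl

theorem en_brr (v : ℤ × Y.EK) : Y.en ((Y.lay ctx).brr v) = Y.en v := rfl

theorem act_disj (hsep : Sep ctx d) (hd : 0 ≤ d) (x : ℤ → Bool) :
    (Y.lay ctx).Disj ((Y.lay ctx).Act x) := by
  intro v hv v' hv' i hi hi'
  rw [mem_iff] at hi hi'
  rcases lt_trichotomy (Y.mkr v) (Y.mkr v') with h | h | h
  · have := hsep x v v' hv.1 hv'.1 hv.2 hv'.2 h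
    omega
  · exact Mat.eq_of_mkr hv.1 hv'.1 h
  · have := hsep x v' v hv'.1 hv.1 hv'.2 hv.2 h
    omega

/-- cells behind an active window are not touched by any active window -/
theorem sw_behind (hsep : Sep ctx d) {x : ℤ → Bool} {S : Set (ℤ × Y.EK)}
    (hS : S ⊆ (Y.lay ctx).Act x) {v : ℤ × Y.EK} (hv : (Y.lay ctx).act x v) {i : ℤ}
    (h1 : Y.en v ≤ i) (h2 : i < Y.en v + d) : (Y.lay ctx).sw S x i = x i := by
  refine Swap50.sw_not_mem _ _ fun v' hv' hm => ?_
  rw [mem_iff] at hm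
  have hv1 := hS hv'
  rcases lt_trichotomy (Y.mkr v) (Y.mkr v') with h | h | h
  · have := hsep x v v' hv.1 hv1.1 hv.2 hv1.2 h
    omega
  · have := Mat.eq_of_mkr hv.1 hv1.1 h
    subst this
    omega
  · have := hsep x v' v hv1.1 hv.1 hv1.2 hv.2 h
    have h3 := mkr_lt_en v
    have h4 := mkr_le v
    omega

theorem sw_mat_mem (hsep : Sep ctx d) (hd : 0 ≤ d) {x : ℤ → Bool} {S : Set (ℤ × Y.EK)}
    (hS : S ⊆ (Y.lay ctx).Act x) {v : ℤ × Y.EK} (hv : v ∈ S) :
    Y.Mat ((Y.lay ctx).sw S x) ((Y.lay ctx).brr v) := by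
  intro i h1 h2
  have hdj : (Y.lay ctx).Disj S := fun a ha b hb => act_disj hsep hd x a (hS ha) b (hS hb)
  rw [Swap50.sw_mem _ hdj x hv (i := i) ⟨h1, h2⟩]
  rfl

theorem sw_mat_not_mem (hsep : Sep ctx d) (hd : 0 ≤ d) {x : ℤ → Bool} {S : Set (ℤ × Y.EK)}
    (hS : S ⊆ (Y.lay ctx).Act x) {v : ℤ × Y.EK} (hv : (Y.lay ctx).act x v) (hvS : v ∉ S) :
    Y.Mat ((Y.lay ctx).sw S x) v := by
  intro i h1 h2
  rw [Swap50.sw_not_mem]
  · exact hv.1 i h1 h2
  · intro v' hv' hm
    have := act_disj hsep hd x v hv v' (hS hv') i ⟨h1, h2⟩ hm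
    subst this
    exact hvS hv'

/-- **TB is not disturbed** by swaps of active windows which lie behind the place. -/
theorem TB_sw (hsep : Sep ctx d) (hd : 0 ≤ d) {x : ℤ → Bool} {S : Set (ℤ × Y.EK)}
    (hS : S ⊆ (Y.lay ctx).Act x) {w : ℤ} {u : Y.D} (h : ∀ v ∈ S, v.1 < w → Y.en v ≤ w) :
    Y.TB ((Y.lay ctx).sw S x) w u ↔ Y.TB x w u := by
  have key : ∀ i < w, (Y.lay ctx).sw S x i ≠ x i → ∃ e, i < e ∧ e ≤ w ∧
      Y.IsSlot x (e - 156) ∧ Y.IsSlot ((Y.lay ctx).sw S x) (e - 156) := by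
    intro i hi hne
    by_cases hc : ∃ v ∈ S, (Y.lay ctx).Mem v i
    · obtain ⟨v, hv, hm⟩ := hc
      rw [mem_iff] at hm
      refine ⟨Y.en v, hm.2, h v hv (by omega), ⟨_, Mat.tok (x := x) (v := v) (hS hv).1⟩, ?_⟩
      have h3 := (sw_mat_mem hsep hd hS hv).tok
      rw [en_brr] at h3
      exact ⟨_, h3⟩
    · exfalso
      apply hne
      exact Swap50.sw_not_mem _ _ fun v hv hm => hc ⟨v, hv, hm⟩
  constructor
  · intro ht
    refine TB.mono (fun i hi hne => ?_) ht
    obtain ⟨e, h1, h2, _, h4⟩ := key i hi hne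
    exact ⟨e, h1, h2, h4⟩
  · intro ht
    refine TB.mono (fun i hi hne => ?_) ht
    obtain ⟨e, h1, h2, h3, _⟩ := key i hi (Ne.symm hne)
    exact ⟨e, h1, h2, h3⟩

theorem TB_sw_act (hsep : Sep ctx d) (hd : 0 ≤ d) {x : ℤ → Bool} {S : Set (ℤ × Y.EK)}
    (hS : S ⊆ (Y.lay ctx).Act x) {v : ℤ × Y.EK} (hv : (Y.lay ctx).act x v) :
    Y.TB ((Y.lay ctx).sw S x) v.1 v.2.2.2 ↔ Y.TB x v.1 v.2.2.2 := by
  refine TB_sw hsep hd hS fun v' hv' hlt => ?_
  have hv1 := hS hv'
  rcases lt_trichotomy (Y.mkr v) (Y.mkr v') with h | h | h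
  · have := hsep x v v' hv.1 hv1.1 hv.2 hv1.2 h
    have h3 := mkr_lt_en v
    have h4 := mkr_le v
    omega
  · have := Mat.eq_of_mkr hv.1 hv1.1 h
    subst this
    omega
  · have := hsep x v' v hv1.1 hv.1 hv1.2 hv.2 h
    omega

end layer

/-- **`E_A` is an involution.** -/
theorem EA_EA (x : ℤ → Bool) : Y.EA (Y.EA x) = x := by
  refine Swap50.map_map (Y.lay Y.ctxA) (fun x v h i hi => h.1 i hi.1 hi.2) (act_disj sepA (by norm_num)) ?_ x
  intro x S hS v hv
  have hctx : Y.ctxA ((Y.lay Y.ctxA).sw S x) v := by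
    refine ⟨hv.2.1.congr fun i h1 h2 => (sw_behind sepA hS hv h1 h2).symm, ?_⟩
    rw [TB_sw_act sepA (by norm_num) hS hv]
    exact hv.2.2
  refine ⟨fun h => ⟨sw_mat_mem sepA (by norm_num) hS h, ?_⟩,
    fun h => ⟨sw_mat_not_mem sepA (by norm_num) hS hv h, hctx⟩⟩
  exact hctx

/-- **`E_B` is an involution.** -/
theorem EB_EB (x : ℤ → Bool) : Y.EB (Y.EB x) = x := by
  refine Swap50.map_map (Y.lay Y.ctxB) (fun x v h i hi => h.1 i hi.1 hi.2) (act_disj sepB (by norm_num)) ?_ x
  intro x S hS v hv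
  have hctx : Y.ctxB ((Y.lay Y.ctxB).sw S x) v := by
    refine ⟨hv.2.1.congr fun i h1 h2 => (sw_behind sepB hS hv h1 h2).symm, ?_⟩
    rw [TB_sw_act sepB (by norm_num) hS hv]
    exact hv.2.2
  refine ⟨fun h => ⟨sw_mat_mem sepB (by norm_num) hS h, ?_⟩,
    fun h => ⟨sw_mat_not_mem sepB (by norm_num) hS hv h, hctx⟩⟩
  exact hctx

end Sys50

end Pool.Agent.WU
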