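import Pool.Agent.WU.MainOrbit
import Pool.Agent.WU.CAprop

/-!
# Assembly
-/

set_option autoImplicit false

namespace Pool.Agent.WU

open Function

theorem Final_digits_add (v m n i : ℕ) (h : i < n) :
    (v + 4096 ^ n * m) / 4096 ^ i % 4096 = v / 4096 ^ i % 4096 := by
  obtain ⟨d, rfl⟩ := Nat.exists_eq_add_of_lt h
  have e : 4096 ^ (i + d + 1) * m = 4096 ^ i * (4096 * (4096 ^ d * m)) := by ring
  rw [e, Nat.add_mul_div_left _ _ (pow_pos (by norm_num) _), Nat.add_mul_mod_self_left]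

theorem Final_digits (n : ℕ) : ∀ X : ℕ → Dg, ∃ v : ℕ, ∀ i < n, v / 4096 ^ i % 4096 = (X i : ℕ) := by
  induction n with
  | zero => intro X; exact ⟨0, fun i hi => absurd hi (Nat.not_lt_zero i)⟩
  | succ n ih =>
    intro X
    obtain ⟨v, hv⟩ := ih (fun i => X (i + 1))
    refine ⟨(X 0 : ℕ) + 4096 * v, ?_⟩
    intro i hi
    have hX0 : (X 0 : ℕ) < 4096 := (X 0).isLt
    cases i with
    | zero =>
      rw [pow_zero, Nat.div_one, Nat.add_mul_mod_self_left, Nat.mod_eq_of_lt hX0]
    | succ i =>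
      rw [pow_succ', ← Nat.div_div_eq_div_mul, Nat.add_mul_div_left _ _ (by norm_num : 0 < 4096),
        Nat.div_eq_of_lt hX0, zero_add]
      exact hv i (by omega)

/-- A number with given digits, divisible by 13, and large. -/
theorem exists_digits (X : ℕ → Dg) (n : ℕ) : ∃ k : ℕ, k % 13 = 0 ∧ n ≤ k ∧
    ∀ i ≤ n, dig k i = X i := by
  obtain ⟨v, hv⟩ := Final_digits (n + 1) X
  have hco : Nat.Coprime (4096 ^ (n + 1)) 13 := Nat.Coprime.pow_left _ (by norm_num)
  obtain ⟨k, hk1, hk2⟩ := Nat.chineseRemainder hco v 0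
  have hpow : n < 4096 ^ (n + 1) := lt_trans (Nat.lt_succ_self n)
    (Nat.lt_pow_self (by norm_num : 1 < 4096))
  have h0 : k % 13 = 0 := by
    have := hk2
    simpa [Nat.ModEq] using this
  -- enlarge `k`
  refine ⟨k + 4096 ^ (n + 1) * (13 * (v + 1)), ?_, ?_, ?_⟩
  · have e : 4096 ^ (n + 1) * (13 * (v + 1)) = 13 * (4096 ^ (n + 1) * (v + 1)) := by ring
    rw [e, Nat.add_mul_mod_self_left]
    exact h0
  · have : 4096 ^ (n + 1) * 1 ≤ 4096 ^ (n + 1) * (13 * (v + 1)) :=
      Nat.mul_le_mul_left _ (by omega)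
    omega
  · intro i hi
    apply Fin.ext
    show (k + 4096 ^ (n + 1) * (13 * (v + 1))) / 4096 ^ i % 4096 = (X i : ℕ)
    rw [Final_digits_add _ _ _ _ (by omega : i < n + 1), ← hv i (by omega)]
    have hk3 : k % 4096 ^ (n + 1) = v % 4096 ^ (n + 1) := hk1
    have e1 : k = k % 4096 ^ (n + 1) + 4096 ^ (n + 1) * (k / 4096 ^ (n + 1)) :=
      (Nat.mod_add_div _ _).symm
    have e2 : v = v % 4096 ^ (n + 1) + 4096 ^ (n + 1) * (v / 4096 ^ (n + 1)) :=
      (Nat.mod_add_div _ _).symm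
    rw [e1, Final_digits_add _ _ _ _ (by omega : i < n + 1), hk3]
    conv_rhs => rw [e2, Final_digits_add _ _ _ _ (by omega : i < n + 1)]

theorem Final_gap_pos (i : ℕ) : 1 ≤ gap i := by
  unfold gap; split_ifs <;> omega

theorem Final_iter (x0 : Cfg) (t : ℕ) (b : ℤ) :
    FF (sh b (FF^[t] x0)) = sh b (FF^[t + 1] x0) := by
  rw [FF_sh, Function.iterate_succ_apply']

theorem Final_none_inv {a b : ℤ} {l : List (Option Dg)} {Z' : Cfg}
    (h : Chain a (none :: l) b Z') : ∃ Z, Chain a l b Z ∧ StepOK a none b Z Z' := by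
  cases h with
  | none h hs => exact ⟨_, h, hs⟩

theorem Final_push_inv {a b : ℤ} {u : Dg} {l : List (Option Dg)} {Z' : Cfg}
    (h : Chain a (some u :: l) b Z') :
    ∃ Z b', b = b' + 12 ∧ Chain a l b' Z ∧ StepOK a (some u) b' Z Z' := by
  cases h with
  | push u h hs => exact ⟨_, _, rfl, h, hs⟩

theorem Final_nil_inv {a b : ℤ} {Z : Cfg} (h : Chain a [] b Z) :
    b = a + 12 ∧ ∀ i, a ≤ i → i < a + 12 → Z i = true := by
  cases h with
  | start Z hZ => exact ⟨rfl, hZ⟩

/-- The chain is followed by every orbit with the right events. -/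
theorem chain_run (X : ℕ → Dg) (hX : ∀ i, 0 ≤ i → i < 12 → bit (X 0) i = true)
    (x0 : Cfg) (T : ℕ) (b : ℤ) (n : ℕ)
    (h1 : ∀ i : ℕ, i ≤ n → RP (X i) (b + 12 * (i : ℤ)) (FF^[T + tt i] x0))
    (h2 : ∀ i s : ℕ, i < n → s + 1 < gap i →
      RN (b + 12 * ((i : ℤ) + 1)) (FF^[T + tt i + 1 + s] x0))
    (Z : Cfg) (hZ : Chain 0 (sched X n) (12 + 12 * (n : ℤ)) Z) :
    ∀ i, 0 ≤ i → i < 12 + 12 * (n : ℤ) → FF^[T + tt n + 1] x0 (i + b) = Z i := by
  induction n generalizing Z with
  | zero =>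
    intro i hi0 hi1
    have hz := Final_nil_inv hZ
    have hr := h1 0 le_rfl
    have hb : b + 12 * ((0 : ℕ) : ℤ) = b := by simp
    rw [hb] at hr
    have e := rp_block hr (i + b) (by omega) (by push_cast at hi1; omega)
    rw [← Function.iterate_succ_apply' FF] at e
    have e2 : (i + b - b) = i := by ring
    rw [e2, hX i hi0 (by push_cast at hi1; omega)] at e
    rw [hz.2 i hi0 (by push_cast at hi1; omega)]
    exact e
  | succ n ih =>
    have IH := ih (fun i hi => h1 i (by omega)) (fun i s hi hs => h2 i s (by omega) hs)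
    have key : ∀ m : ℕ, m + 1 ≤ gap n → ∀ Z : Cfg,
        Chain 0 (List.replicate m none ++ sched X n) (12 + 12 * (n : ℤ)) Z →
        ∀ i, 0 ≤ i → i < 12 + 12 * (n : ℤ) → FF^[T + tt n + 1 + m] x0 (i + b) = Z i := by
      intro m
      induction m with
      | zero =>
        intro _ Z hZ i hi0 hi1
        exact IH Z (by simpa using hZ) i hi0 hi1
      | succ m ihm =>
        intro hm Z hZ i hi0 hi1
        have hZ' : Chain 0 (none :: (List.replicate m none ++ sched X n)) (12 + 12 * (n : ℤ)) Z := by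
          simpa [List.replicate_succ] using hZ
        obtain ⟨Z1, hc, hs⟩ := Final_none_inv hZ'
        have e1 := ihm (by omega) Z1 hc
        have hr := RN_sh (a := b) (h2 n m (by omega) (by omega))
        have hb : b + 12 * ((n : ℤ) + 1) - b = 12 + 12 * (n : ℤ) := by ring
        rw [hb] at hr
        have := hs (sh b (FF^[T + tt n + 1 + m] x0)) (fun i h0 h1 => e1 i h0 h1) hr i hi0 hi1
        rw [Final_iter] at this
        exact this
    intro i hi0 hi1
    obtain ⟨Z1, b', hb', hc, hs⟩ := Final_push_inv hZ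
    have hb'' : b' = 12 + 12 * (n : ℤ) := by push_cast at hb'; omega
    subst hb''
    have hg := Final_gap_pos n
    have e1 := key (gap n - 1) (by omega) Z1 hc
    have et : T + tt n + 1 + (gap n - 1) = T + tt (n + 1) := by
      simp only [tt]; omega
    rw [et] at e1
    have hr := RP_sh (a := b) (h1 (n + 1) le_rfl)
    have hb : b + 12 * ((n + 1 : ℕ) : ℤ) - b = 12 + 12 * (n : ℤ) := by push_cast; ring
    rw [hb] at hr
    have := hs (sh b (FF^[T + tt (n + 1)] x0)) (fun i h0 h1 => e1 i h0 h1) hr i hi0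
      (by push_cast at hi1; omega)
    rw [Final_iter] at this
    exact this

/-- There is a reversible binary cellular automaton with a weakly universal finite seed. -/
theorem main : ∃ (F : (ℤ → Bool) → (ℤ → Bool)) (x : ℤ → Bool),
    IsWUPG false F x ∧ Bijective F := by
  obtain ⟨x0, hfin, horb⟩ := main_orbit
  refine ⟨FF, x0, ⟨isCA_FF, FF_zero, hfin, ?_⟩, bijective_FF⟩
  intro w
  obtain ⟨n, X, Z, hX, hZ, hlen, hw⟩ := control w
  obtain ⟨k, hk13, hnk, hdig⟩ := exists_digits X n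
  obtain ⟨T, b, hP, hN⟩ := horb k hk13
  have hrun := chain_run X hX x0 T b n
    (fun i hi => by rw [← hdig i hi]; exact hP i (by omega))
    (fun i s hi hs => hN i s (by omega) hs) Z hZ
  refine ⟨T + tt n + 1, 12 + 12 * (n : ℤ) - w.length + b - 1, ?_⟩
  intro l hl
  rw [← hw l hl, ← hrun (12 + 12 * (n : ℤ) - w.length + l) (by omega) (by omega)]
  have e : 12 + 12 * (n : ℤ) - w.length + b - 1 + 1 + l = 12 + 12 * (n : ℤ) - w.length + l + b := by
    ring
  rw [e]

end Pool.Agent.WU
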