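import Pool.Agent.WU.SysE

/-!
# The push and pop layers are involutions
-/

set_option autoImplicit false

namespace Pool.Agent.WU

open Function

variable {x y z : Cfg} {p q a b c i w w' : ℤ} {u v : Dg} {j : Fin 13} {r r' : Fin 13 × Dg}
  {sd sd' : Bool} {T : Set (ℤ × (Fin 13 × Dg) × Bool)}

theorem GoodE_mp (w : ℤ) (sd : Bool) : w ≤ mp w sd ∧ mp w sd ≤ w + 12 := by
  unfold mp
  split <;> constructor <;> omega

/-- `TB` is decided by cells which do not change. -/
theorem GoodE_TB {T : Set (ℤ × (Fin 13 × Dg) × Bool)}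
    (hl : ∀ s ∈ T, s.1 + el s.2.1 ≤ w - 132 ∨ w ≤ s.1)
    (hx : ∀ s ∈ T, Slot x (s.1 + el s.2.1 - 156))
    (hy : ∀ s ∈ T, Slot y (s.1 + el s.2.1 - 156))
    (hxy : ∀ k, (∀ s ∈ T, k < s.1 ∨ s.1 + el s.2.1 ≤ k) → y k = x k) :
    TB y w u ↔ TB x w u := by
  have key : ∀ (x y : Cfg), (∀ s ∈ T, Slot x (s.1 + el s.2.1 - 156)) →
      (∀ k, (∀ s ∈ T, k < s.1 ∨ s.1 + el s.2.1 ≤ k) → y k = x k) → TB x w u → TB y w u := by
    intro x y hx hxy h
    obtain ⟨p, h1, h2, h3⟩ := h
    refine ⟨p, h1, h2, ?_⟩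
    have h4 : ∀ s ∈ T, s.1 + el s.2.1 ≤ p ∨ w ≤ s.1 := by
      intro s hs
      rcases hl s hs with h | h
      · left
        have h5 : Slot (wr x w u) (s.1 + el s.2.1 - 156) := by
          rw [Slot_congr (y := x)]
          · exact hx s hs
          · intro i _ hi2
            exact wr_out (Or.inl (by omega))
        rcases Slot.disj' h5 h3 with h6 | h6 | h6
        · omega
        · omega
        · omega
      · right; exact h
    rw [Slot_congr (y := wr x w u)]
    · exact h3
    · intro i hi1 hi2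
      by_cases hw : i < w
      · rw [wr_out (Or.inl hw), wr_out (Or.inl hw)]
        apply hxy
        intro s hs
        rcases h4 s hs with h | h
        · right; omega
        · left; omega
      · rw [wr_in (by omega) (by omega), wr_in (by omega) (by omega)]
  exact ⟨key y x hy fun k hk => (hxy k hk).symm, key x y hx hxy⟩

/-- Layer A: places of the other active windows. -/
theorem GoodE_sepA (hT : sysA.Act x (w', r', sd')) (h : Mt x w r sd) (hs : Slot x (w + el r)) :
    (w', r', sd') = (w, r, sd) ∨ w' + el r' ≤ w - 144 ∨ w + el r + 156 ≤ w' := by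
  obtain ⟨h1, h2, h3⟩ := actA_iff.1 hT
  have e1 := GoodE_mp w sd
  have e2 := GoodE_mp w' sd'
  rcases lt_trichotomy (mp w sd) (mp w' sd') with hm | hm | hm
  · right; right
    have h4 := Mt_next h h1 hm
    have h5 : w + el r ≠ mp w' sd' := by
      intro he
      rw [he] at hs
      exact Mk.not_pre h1.mk hs.pre
    have h6 := Slot.after hs h1.mk.c0 h1.mk.c1 (lt_of_le_of_ne h4 h5)
    cases sd' with
    | false =>
      have : mp w' false = w' := rfl
      omega
    | true =>
      have h7 : mp w' true = w' + 12 := rfl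
      by_contra hc
      exact h3 (TB_of_slot h1 hs (by omega) (by omega))
  · left
    obtain ⟨a1, a2, a3⟩ := Mt_unique h h1 hm
    rw [a1, a2, a3]
  · right; left
    have h4 := Mt_next h1 h hm
    have h5 : w' + el r' ≠ mp w sd := by
      intro he
      rw [he] at h2
      exact Mk.not_pre h.mk h2.pre
    have h6 := Slot.after h2 h.mk.c0 h.mk.c1 (lt_of_le_of_ne h4 h5)
    omega

/-- Layer B: places of the other active windows. -/
theorem GoodE_sepB (hT : sysB.Act x (w', r', sd')) (h : Mt x w r sd) (hs : Pre x (w + el r)) :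
    (w', r', sd') = (w, r, sd) ∨ w' + el r' ≤ w - 132 ∨ w + el r + 144 ≤ w' := by
  obtain ⟨h1, h2, h3⟩ := actB_iff.1 hT
  have e1 := GoodE_mp w sd
  have e2 := GoodE_mp w' sd'
  rcases lt_trichotomy (mp w sd) (mp w' sd') with hm | hm | hm
  · right; right
    have h4 := Mt_next h h1 hm
    have h5 : w + el r ≠ mp w' sd' := by
      intro he
      rw [he] at hs
      exact Mk.not_pre h1.mk hs
    have h6 := Pre.after hs h1.mk.c0 h1.mk.c1 (lt_of_le_of_ne h4 h5)
    cases sd' with
    | false =>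
      have : mp w' false = w' := rfl
      omega
    | true =>
      have h7 : mp w' true = w' + 12 := rfl
      obtain ⟨p, h8, h9, h10⟩ := (TB_true h1).1 h3
      rcases Slot.disj' h.tokSlot h10 with h11 | h11 | h11
      · omega
      · rcases eq_or_lt_of_le (show w + el r ≤ p by omega) with h12 | h12
        · omega
        · have h13 := Pre.after hs h10.pre.c0 h10.pre.c1 h12
          omega
      · omega
  · left
    obtain ⟨a1, a2, a3⟩ := Mt_unique h h1 hm
    rw [a1, a2, a3]
  · right; left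
    have h4 := Mt_next h1 h hm
    have h5 : w' + el r' ≠ mp w sd := by
      intro he
      rw [he] at h2
      exact Mk.not_pre h.mk h2
    have h6 := Pre.after h2 h.mk.c0 h.mk.c1 (lt_of_le_of_ne h4 h5)
    omega

theorem GoodE_disjA (x : Cfg) (s s' : ℤ × sysA.ι × Bool) (h : sysA.Act x s)
    (h' : sysA.Act x s') : s = s' ∨ s.1 + sysA.len s.2.1 ≤ s'.1 ∨ s'.1 + sysA.len s'.2.1 ≤ s.1 := by
  obtain ⟨w, r, sd⟩ := s
  obtain ⟨w', r', sd'⟩ := s'
  obtain ⟨h1, h2, h3⟩ := actA_iff.1 h
  rcases GoodE_sepA h' h1 h2 with h4 | h4 | h4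
  · left; exact h4.symm
  · right; right
    show w' + el r' ≤ w
    omega
  · right; left
    show w + el r ≤ w'
    omega

theorem GoodE_disjB (x : Cfg) (s s' : ℤ × sysB.ι × Bool) (h : sysB.Act x s)
    (h' : sysB.Act x s') : s = s' ∨ s.1 + sysB.len s.2.1 ≤ s'.1 ∨ s'.1 + sysB.len s'.2.1 ≤ s.1 := by
  obtain ⟨w, r, sd⟩ := s
  obtain ⟨w', r', sd'⟩ := s'
  obtain ⟨h1, h2, h3⟩ := actB_iff.1 h
  rcases GoodE_sepB h' h1 h2 with h4 | h4 | h4
  · left; exact h4.symm
  · right; right
    show w' + el r' ≤ w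
    omega
  · right; left
    show w + el r ≤ w'
    omega

theorem GoodE_flipA (hT : ∀ s ∈ T, sysA.Act x s) {s : ℤ × (Fin 13 × Dg) × Bool} (hs : s ∈ T) :
    Mt (sysA.flip T x) s.1 s.2.1 (!s.2.2) := by
  intro i h0 h1
  have h2 := Sys.flip_at (S := sysA) (x := x) (T := T) (s := s) (k := s.1 + i) GoodE_disjA hT hs
    (by omega) (by show s.1 + i < s.1 + el s.2.1; omega)
  rw [h2]
  show ew s.2.1 (!s.2.2) (s.1 + i - s.1) = _
  congr 1
  omega

theorem GoodE_flipB (hT : ∀ s ∈ T, sysB.Act x s) {s : ℤ × (Fin 13 × Dg) × Bool} (hs : s ∈ T) :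
    Mt (sysB.flip T x) s.1 s.2.1 (!s.2.2) := by
  intro i h0 h1
  have h2 := Sys.flip_at (S := sysB) (x := x) (T := T) (s := s) (k := s.1 + i) GoodE_disjB hT hs
    (by omega) (by show s.1 + i < s.1 + el s.2.1; omega)
  rw [h2]
  show ew s.2.1 (!s.2.2) (s.1 + i - s.1) = _
  congr 1
  omega

/-- Layer A: a window with a full slot behind it is not touched by the other active windows, nor is
this slot, nor the property `TB` (the window itself need not be active). -/
theorem ctxA (hT : ∀ s ∈ T, sysA.Act x s) (h : Mt x w r sd) (hs : Slot x (w + el r)) :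
    (∀ s ∈ T, s ≠ (w, r, sd) → s.1 + el s.2.1 ≤ w ∨ w + el r + 156 ≤ s.1) ∧
    Slot (sysA.flip T x) (w + el r) ∧ (TB (sysA.flip T x) w r.2 ↔ TB x w r.2) := by
  have hb := el_bounds r
  have h0 : ∀ s ∈ T, s = (w, r, sd) ∨ s.1 + el s.2.1 ≤ w - 144 ∨ w + el r + 156 ≤ s.1 :=
    fun s hs' => GoodE_sepA (hT s hs') h hs
  refine ⟨?_, ?_, ?_⟩
  · intro s hs' hne
    rcases h0 s hs' with h1 | h1 | h1
    · exact absurd h1 hne
    · left; omega
    · right; exact h1
  · rw [Slot_congr (y := x)]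
    · exact hs
    · intro i hi1 hi2
      refine Sys.flip_else (S := sysA) fun s hs' => ?_
      show i < s.1 ∨ s.1 + el s.2.1 ≤ i
      rcases h0 s hs' with h1 | h1 | h1
      · rw [h1]; right; exact hi1
      · right; omega
      · left; omega
  · refine GoodE_TB (T := T) ?_ ?_ ?_ ?_
    · intro s hs'
      rcases h0 s hs' with h1 | h1 | h1
      · rw [h1]; right; exact le_rfl
      · left; omega
      · right; omega
    · exact fun s hs' => (actA_iff.1 (hT s hs')).1.tokSlot
    · exact fun s hs' => (GoodE_flipA hT hs').tokSlot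
    · exact fun k hk => Sys.flip_else (S := sysA) hk

/-- Layer B: the same with `Pre`. -/
theorem ctxB (hT : ∀ s ∈ T, sysB.Act x s) (h : Mt x w r sd) (hs : Pre x (w + el r)) :
    (∀ s ∈ T, s ≠ (w, r, sd) → s.1 + el s.2.1 ≤ w ∨ w + el r + 144 ≤ s.1) ∧
    Pre (sysB.flip T x) (w + el r) ∧ (TB (sysB.flip T x) w r.2 ↔ TB x w r.2) := by
  have hb := el_bounds r
  have h0 : ∀ s ∈ T, s = (w, r, sd) ∨ s.1 + el s.2.1 ≤ w - 132 ∨ w + el r + 144 ≤ s.1 :=
    fun s hs' => GoodE_sepB (hT s hs') h hs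
  refine ⟨?_, ?_, ?_⟩
  · intro s hs' hne
    rcases h0 s hs' with h1 | h1 | h1
    · exact absurd h1 hne
    · left; omega
    · right; exact h1
  · rw [Pre_congr (y := x)]
    · exact hs
    · intro i hi1 hi2
      refine Sys.flip_else (S := sysB) fun s hs' => ?_
      show i < s.1 ∨ s.1 + el s.2.1 ≤ i
      rcases h0 s hs' with h1 | h1 | h1
      · rw [h1]; right; exact hi1
      · right; omega
      · left; omega
  · refine GoodE_TB (T := T) ?_ ?_ ?_ ?_
    · intro s hs'
      rcases h0 s hs' with h1 | h1 | h1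
      · rw [h1]; right; exact le_rfl
      · left; omega
      · right; omega
    · exact fun s hs' => (actB_iff.1 (hT s hs')).1.tokSlot
    · exact fun s hs' => (GoodE_flipB hT hs').tokSlot
    · exact fun k hk => Sys.flip_else (S := sysB) hk

theorem sysA_good : sysA.Good where
  pos := fun r => by
    have := el_bounds r
    show 0 < el r
    omega
  disj := GoodE_disjA
  ctx := by
    rintro x T hT ⟨w, r, sd⟩ hs
    obtain ⟨h1, h2, h3⟩ := actA_iff.1 hs
    obtain ⟨_, h4, h5⟩ := ctxA hT h1 h2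
    exact ⟨h4, fun h => h3 (h5.1 h)⟩

theorem sysB_good : sysB.Good where
  pos := fun r => by
    have := el_bounds r
    show 0 < el r
    omega
  disj := GoodE_disjB
  ctx := by
    rintro x T hT ⟨w, r, sd⟩ hs
    obtain ⟨h1, h2, h3⟩ := actB_iff.1 hs
    obtain ⟨_, h4, h5⟩ := ctxB hT h1 h2
    exact ⟨h4, h5.2 h3⟩

theorem swapA_swapA (x : Cfg) : sysA.swap (sysA.swap x) = x := Sys.swap_swap sysA_good x

theorem swapB_swapB (x : Cfg) : sysB.swap (sysB.swap x) = x := Sys.swap_swap sysB_good x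

/-- What layer A does at a window with a full slot behind it. -/
theorem siteA (h : Mt x w r sd) (hs : Slot x (w + el r)) :
    Slot (sysA.swap x) (w + el r) ∧ (TB (sysA.swap x) w r.2 ↔ TB x w r.2) ∧
    (TB x w r.2 → Mt (sysA.swap x) w r sd) ∧ (¬ TB x w r.2 → Mt (sysA.swap x) w r (!sd)) := by
  have hT : ∀ s ∈ {s | sysA.Act x s}, sysA.Act x s := fun s hs' => hs'
  obtain ⟨h1, h2, h3⟩ := ctxA hT h hs
  refine ⟨h2, h3, ?_, ?_⟩
  · intro hTB
    rw [Mt_congr (y := x)]
    · exact h
    · intro i hi1 hi2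
      refine Sys.swap_else (S := sysA) fun s hs' => ?_
      have hne : s ≠ (w, r, sd) := by
        rintro rfl
        exact (actA_iff.1 hs').2.2 hTB
      show i < s.1 ∨ s.1 + el s.2.1 ≤ i
      rcases h1 s hs' hne with h4 | h4
      · right; omega
      · left; omega
  · intro hTB
    have h4 : sysA.Act x (w, r, sd) := actA_iff.2 ⟨h, hs, hTB⟩
    exact (actA_iff.1 (Sys.Act_swap sysA_good h4)).1

/-- What layer B does at a window with a `Pre` behind it. -/
theorem siteB (h : Mt x w r sd) (hs : Pre x (w + el r)) :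
    Pre (sysB.swap x) (w + el r) ∧ (TB (sysB.swap x) w r.2 ↔ TB x w r.2) ∧
    (¬ TB x w r.2 → Mt (sysB.swap x) w r sd) ∧ (TB x w r.2 → Mt (sysB.swap x) w r (!sd)) := by
  have hT : ∀ s ∈ {s | sysB.Act x s}, sysB.Act x s := fun s hs' => hs'
  obtain ⟨h1, h2, h3⟩ := ctxB hT h hs
  refine ⟨h2, h3, ?_, ?_⟩
  · intro hTB
    rw [Mt_congr (y := x)]
    · exact h
    · intro i hi1 hi2
      refine Sys.swap_else (S := sysB) fun s hs' => ?_
      have hne : s ≠ (w, r, sd) := by
        rintro rfl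
        exact hTB (actB_iff.1 hs').2.2
      show i < s.1 ∨ s.1 + el s.2.1 ≤ i
      rcases h1 s hs' hne with h4 | h4
      · right; omega
      · left; omega
  · intro hTB
    have h4 : sysB.Act x (w, r, sd) := actB_iff.2 ⟨h, hs, hTB⟩
    exact (actB_iff.1 (Sys.Act_swap sysB_good h4)).1

end Pool.Agent.WU
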