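import Pool.Agent.WU.MainRun
import Pool.Agent.WU.Control
set_option autoImplicit false
namespace Pool.Agent.WU
open Function

/-- Digit `i` of `k` in base 4096. -/
def dig (k i : ℕ) : Dg := ⟨k / 4096 ^ i % 4096, Nat.mod_lt _ (by norm_num)⟩

/-- The carry reaches digit `c`. -/
def cry (k : ℕ) (c : ℤ) : Prop := ∀ i : ℕ, (i : ℤ) < c → dig k i = 4095

open Classical in
/-- The head after `c` digits. -/
noncomputable def kind (k : ℕ) (c : ℤ) : Tok := if cry k c then tK else tN

theorem cry_iff (k j : ℕ) : cry k j ↔ 4096 ^ j ∣ k + 1 := by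
  induction j with
  | zero => simp [cry]
  | succ j ih =>
    have h1 : cry k ((j + 1 : ℕ) : ℤ) ↔ cry k j ∧ dig k j = 4095 := by
      constructor
      · intro h
        exact ⟨fun i hi => h i (by push_cast; omega), h j (by push_cast; omega)⟩
      · rintro ⟨h1, h2⟩ i hi
        rcases Nat.lt_or_ge i j with h | h
        · exact h1 i (by exact_mod_cast h)
        · have : i = j := by push_cast at hi; omega
          rw [this]; exact h2
    rw [h1, ih]
    constructor
    · rintro ⟨⟨q, hq⟩, h2⟩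
      have h3 : k / 4096 ^ j % 4096 = 4095 := congrArg Fin.val h2
      have hpos : 0 < 4096 ^ j := by positivity
      have hqpos : 0 < q := by
        rcases Nat.eq_zero_or_pos q with h | h
        · subst h; simp at hq
        · exact h
      have h4 : k / 4096 ^ j = q - 1 := by
        have : k = 4096 ^ j * (q - 1) + (4096 ^ j - 1) := by
          obtain ⟨r, rfl⟩ : ∃ r, q = r + 1 := ⟨q - 1, by omega⟩
          have : 4096 ^ j * (r + 1) = 4096 ^ j * r + 4096 ^ j := by ring
          simp only [Nat.add_sub_cancel]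
          omega
        rw [this, Nat.mul_add_div hpos, Nat.div_eq_of_lt (by omega)]
        rfl
      rw [h4] at h3
      obtain ⟨r, hr⟩ : ∃ r, q = 4096 * r := ⟨q / 4096, by omega⟩
      exact ⟨r, by rw [hq, hr, pow_succ]; ring⟩
    · rintro ⟨q, hq⟩
      have h5 : 4096 ^ j ∣ k + 1 := ⟨4096 * q, by rw [hq, pow_succ]; ring⟩
      refine ⟨h5, ?_⟩
      have hpos : 0 < 4096 ^ j := by positivity
      have hqpos : 0 < q := by
        rcases Nat.eq_zero_or_pos q with h | h
        · subst h; simp at hq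
        · exact h
      have h4 : k / 4096 ^ j = 4096 * q - 1 := by
        obtain ⟨r, rfl⟩ : ∃ r, q = r + 1 := ⟨q - 1, by omega⟩
        have : k = 4096 ^ j * (4096 * (r + 1) - 1) + (4096 ^ j - 1) := by
          have h6 : 4096 ^ (j + 1) * (r + 1) = 4096 ^ j * (4096 * r + 4095) + 4096 ^ j := by
            rw [pow_succ]; ring
          have h7 : 4096 * (r + 1) - 1 = 4096 * r + 4095 := by omega
          rw [h7]; omega
        rw [this, Nat.mul_add_div hpos, Nat.div_eq_of_lt (by omega)]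
        rfl
      apply Fin.ext
      show k / 4096 ^ j % 4096 = 4095
      rw [h4]; omega

theorem dig_succ (k j : ℕ) [Decidable (cry k j)] :
    dig (k + 1) j = if cry k j then dig k j + 1 else dig k j := by
  have hs : (k + 1) / 4096 ^ j = k / 4096 ^ j + if 4096 ^ j ∣ k + 1 then 1 else 0 := Nat.succ_div
  split_ifs with h
  · have h' := (cry_iff k j).1 h
    rw [if_pos h'] at hs
    apply Fin.ext
    show (k + 1) / 4096 ^ j % 4096 = _
    rw [hs, Fin.val_add]
    show _ = (k / 4096 ^ j % 4096 + 1 % 4096) % 4096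
    omega
  · have h' : ¬ 4096 ^ j ∣ k + 1 := fun h2 => h ((cry_iff k j).2 h2)
    rw [if_neg h'] at hs
    apply Fin.ext
    show (k + 1) / 4096 ^ j % 4096 = k / 4096 ^ j % 4096
    rw [hs, Nat.add_zero]

theorem not_cry (k : ℕ) : ¬ cry k ((k : ℤ) + 1) := by
  intro h
  have h1 : cry k ((k + 1 : ℕ) : ℤ) := by push_cast; exact h
  have h2 := Nat.le_of_dvd (by omega) ((cry_iff k (k + 1)).1 h1)
  have h3 : k + 1 < 4096 ^ (k + 1) := Nat.lt_pow_self (by norm_num)
  omega

theorem dig_top (k : ℕ) : dig (k + 1) (k + 1) = 0 := by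
  apply Fin.ext
  show (k + 1) / 4096 ^ (k + 1) % 4096 = 0
  have h3 : k + 1 < 4096 ^ (k + 1) := Nat.lt_pow_self (by norm_num)
  rw [Nat.div_eq_of_lt h3]


theorem cry_succ (k : ℕ) (j : ℕ) : cry k ((j : ℤ) + 1) ↔ cry k j ∧ dig k j = 4095 := by
  constructor
  · intro h
    exact ⟨fun i hi => h i (by omega), h j (by omega)⟩
  · rintro ⟨h1, h2⟩ i hi
    rcases Nat.lt_or_ge i j with h | h
    · exact h1 i (by exact_mod_cast h)
    · have : i = j := by omega
      rw [this]; exact h2

theorem gam_meet (k j : ℕ) : gam ⟨none, kind k j, dd (dig k j), none, none, 0⟩ =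
    ⟨tD (dig k j), kind k ((j : ℤ) + 1), dd (dig (k + 1) j), none, none, 0⟩ := by
  classical
  rw [dig_succ]
  unfold kind
  by_cases h1 : cry k j
  · by_cases h2 : dig k j = 4095
    · have h3 : cry k ((j : ℤ) + 1) := (cry_succ k j).2 ⟨h1, h2⟩
      rw [if_pos h1, if_pos h3, if_pos h1, h2]
      simp [gam, tK, dd, H0, H1, tD]
    · have h3 : ¬ cry k ((j : ℤ) + 1) := fun h => h2 ((cry_succ k j).1 h).2
      rw [if_pos h1, if_neg h3, if_pos h1]
      simp [gam, tK, tN, dd, H0, H1, tD, h2]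
  · have h3 : ¬ cry k ((j : ℤ) + 1) := fun h => h1 ((cry_succ k j).1 h).1
    rw [if_neg h1, if_neg h3, if_neg h1]
    simp [gam, tN, dd, H0, H1, tD]

theorem gam_id (c : Cont) (hR : c.R = none ∨ ∃ u, c.R = tE u) (h : c.h = 0) : gam c = c := by
  obtain ⟨L, R, S0, S1, Q, hh⟩ := c
  simp only at hR h
  subst h
  rcases hR with rfl | ⟨u, rfl⟩
  · simp only [gam, H0, H1]
    rw [if_neg (by simp), if_neg (by simp)]
  · simp only [gam, H0, H1, tE]
    rw [if_neg (by simp), if_neg (by simp)]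

theorem gam_id2 (c : Cont) (hS : c.S0 = none ∨ c.S0 = dT) (h : c.h = 0) : gam c = c := by
  obtain ⟨L, R, S0, S1, Q, hh⟩ := c
  simp only at hS h
  subst h
  rcases hS with rfl | rfl
  · simp only [gam, H0, H1]
    rw [if_neg (by simp), if_neg (by simp)]
  · simp only [gam, H0, H1, dT]
    rw [if_neg (by simp), if_neg (by simp)]


/-! ### The state of the main zone -/

/-- The digit array: `c` digits have been passed by the head of the present cycle. -/
def arr (k : ℕ) (c j : ℤ) : Dig :=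
  if j < 0 then none
  else if j ≤ k then (if j < c then dd (dig (k + 1) j.toNat) else dd (dig k j.toNat))
  else if j = k + 1 then (if (k : ℤ) + 1 < c then dd 0 else dT)
  else if j = k + 2 ∧ (k : ℤ) + 1 < c then dT else none

/-- The left track at time `t` on the line `y + t = e`; the tokens before number `j0` are gone. -/
def Lc (k : ℕ) (α j0 e t : ℤ) : Tok :=
  if e = 4 * (k + 1) + 3 * α ∧ 2 * (k + 1 + α) < t then tN
  else if (e - 3 * α) % 4 = 0 ∧ j0 ≤ (e - 3 * α) / 4 ∧ 0 ≤ (e - 3 * α) / 4 ∧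
    (e - 3 * α) / 4 ≤ k ∧ 2 * ((e - 3 * α) / 4 + α) < t then tD (dig k ((e - 3 * α) / 4).toNat)
  else none

/-- Content in terms of the tracks. -/
def cnt (k : ℕ) (α j0 t c : ℤ) (tl : ℤ) (R : ℤ → Tok) (y : ℤ) : Cont :=
  ⟨Lc k α j0 (y + t) tl, R y, if t % 2 = 0 then arr k c (y - t / 2) else none,
    if t % 2 = 0 then none else arr k c (y - t / 2), none, 0⟩

theorem kind_neg (k : ℕ) {c : ℤ} (h : c ≤ 0) : kind k c = tK := by
  unfold kind
  rw [if_pos]
  intro i hi
  omega

theorem kind_cases (k : ℕ) (c : ℤ) : kind k c = tK ∨ kind k c = tN := by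
  unfold kind
  split_ifs
  · exact Or.inl rfl
  · exact Or.inr rfl

theorem kind_top (k : ℕ) : kind k ((k : ℤ) + 1) = tN := by
  unfold kind
  rw [if_neg (not_cry k)]

theorem arr_neg (k : ℕ) {c j : ℤ} (h : j < 0) : arr k c j = none := by
  unfold arr
  rw [if_pos h]

theorem arr_big (k : ℕ) {c j : ℤ} (h : (k : ℤ) + 2 < j) : arr k c j = none := by
  unfold arr
  rw [if_neg (by omega), if_neg (by omega), if_neg (by omega), if_neg (by omega)]

theorem arr_T (k : ℕ) {c j : ℤ} (h : arr k c j = dT) :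
    (j = k + 1 ∧ c ≤ k + 1) ∨ (j = k + 2 ∧ (k : ℤ) + 1 < c) := by
  unfold arr at h
  split_ifs at h with h1 h2 h3 h4 h5 h6
  all_goals first
    | omega
    | (exact absurd h (by simp [dT, dd]))

theorem arr_congr (k : ℕ) {c c' j : ℤ} (h : 0 ≤ j → j ≤ k → (j < c ↔ j < c'))
    (h' : (k : ℤ) + 1 ≤ j → j ≤ k + 2 → ((k : ℤ) + 1 < c ↔ (k : ℤ) + 1 < c')) :
    arr k c j = arr k c' j := by
  by_cases h0 : j < 0
  · rw [arr_neg k h0, arr_neg k h0]
  · by_cases hb : (k : ℤ) + 2 < j
    · rw [arr_big k hb, arr_big k hb]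
    unfold arr
    rw [if_neg h0, if_neg h0]
    by_cases h1 : j ≤ k
    · rw [if_pos h1, if_pos h1]
      by_cases h2 : j < c
      · rw [if_pos h2, if_pos ((h (by omega) h1).1 h2)]
      · rw [if_neg h2, if_neg (fun h3 => h2 ((h (by omega) h1).2 h3))]
    · rw [if_neg h1, if_neg h1]
      have h3 := h' (by omega) (by omega)
      by_cases h4 : (k : ℤ) + 1 < c
      · simp [h4, h3.1 h4]
      · have h5 : ¬ (k : ℤ) + 1 < c' := fun h6 => h4 (h3.2 h6)
        simp [h4, h5]

theorem Lc_none (k : ℕ) {α j0 e t : ℤ} (h1 : ¬ (e = 4 * (k + 1) + 3 * α ∧ 2 * (k + 1 + α) < t))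
    (h2 : ∀ j : ℤ, j0 ≤ j → 0 ≤ j → j ≤ k → e = 4 * j + 3 * α → ¬ 2 * (j + α) < t) :
    Lc k α j0 e t = none := by
  unfold Lc
  rw [if_neg h1, if_neg]
  rintro ⟨h3, h4, h5, h6, h7⟩
  exact h2 _ h4 h5 h6 (by omega) h7

theorem Lc_D (k : ℕ) {α j0 e t j : ℤ} (h0 : j0 ≤ j) (h1 : 0 ≤ j) (h2 : j ≤ k)
    (h3 : e = 4 * j + 3 * α) (h4 : 2 * (j + α) < t) : Lc k α j0 e t = tD (dig k j.toNat) := by
  unfold Lc
  have h5 : (e - 3 * α) / 4 = j := by omega
  rw [if_neg (by omega), if_pos (by rw [h5]; exact ⟨by omega, h0, h1, h2, h4⟩), h5]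

theorem Lc_N (k : ℕ) {α j0 e t : ℤ} (h1 : e = 4 * (k + 1) + 3 * α) (h2 : 2 * (k + 1 + α) < t) :
    Lc k α j0 e t = tN := by
  unfold Lc
  rw [if_pos ⟨h1, h2⟩]

theorem Lc_congr (k : ℕ) {α j0 e t t' : ℤ}
    (h1 : e = 4 * (k + 1) + 3 * α → (2 * ((k : ℤ) + 1 + α) < t ↔ 2 * ((k : ℤ) + 1 + α) < t'))
    (h2 : ∀ j : ℤ, 0 ≤ j → j ≤ k → e = 4 * j + 3 * α → (2 * (j + α) < t ↔ 2 * (j + α) < t')) :
    Lc k α j0 e t = Lc k α j0 e t' := by
  by_cases h3 : e = 4 * (k + 1) + 3 * α ∧ 2 * ((k : ℤ) + 1 + α) < t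
  · rw [Lc_N k h3.1 h3.2, Lc_N k h3.1 ((h1 h3.1).1 h3.2)]
  · by_cases h4 : ∃ j : ℤ, j0 ≤ j ∧ 0 ≤ j ∧ j ≤ k ∧ e = 4 * j + 3 * α ∧ 2 * (j + α) < t
    · obtain ⟨j, h5, h6, h7, h8, h9⟩ := h4
      rw [Lc_D k h5 h6 h7 h8 h9, Lc_D k h5 h6 h7 h8 ((h2 j h6 h7 h8).1 h9)]
    · rw [Lc_none k h3 (fun j h5 h6 h7 h8 h9 => h4 ⟨j, h5, h6, h7, h8, h9⟩),
        Lc_none k (fun h => h3 ⟨h.1, (h1 h.1).2 h.2⟩)
          (fun j h5 h6 h7 h8 h9 => h4 ⟨j, h5, h6, h7, h8, (h2 j h6 h7 h8).2 h9⟩)]

theorem Lc_eq_N (k : ℕ) {α j0 e t : ℤ} (h : Lc k α j0 e t = tN) :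
    e = 4 * (k + 1) + 3 * α ∧ 2 * (k + 1 + α) < t := by
  unfold Lc at h
  split_ifs at h with h1 h2
  · exact h1
  · exact absurd h (by simp [tN, tD])
  · exact absurd h (by simp [tN])

theorem Lc_cases (k : ℕ) (α j0 e t : ℤ) : Lc k α j0 e t = none ∨ (∃ u, Lc k α j0 e t = tD u) ∨
    Lc k α j0 e t = tN := by
  unfold Lc
  split_ifs
  · exact Or.inr (Or.inr rfl)
  · exact Or.inr (Or.inl ⟨_, rfl⟩)
  · exact Or.inl rfl

theorem g2_keep {l r : Option Cont} {c : Cont} (h1 : ¬ (c = t1 ∧ r = some BL))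
    (h2 : ¬ (c = t2 ∧ r = some t3)) (h3 : ¬ (c = BL ∧ l = some t1))
    (h4 : ¬ (c = t3 ∧ l = some t2)) : g2 l c r = c := by
  unfold g2
  rw [if_neg h1, if_neg h2, if_neg h3, if_neg h4]


/-- The state of the main zone at time `t` in the cycle number `k`. -/
structure St (k : ℕ) (α j0 t f h : ℤ) (A : ℤ → Cont) (R : ℤ → Tok) : Prop where
  body : ∀ y, f ≤ y → y < h → A y = cnt k α j0 t ((t + 1) / 2 - α) t R y
  top : A h = H0
  head : t ≤ 2 * ((k : ℤ) + 1 + α) → R (t - α) = kind k ((t + 1) / 2 - α) ∧ R (t - α + 1) = none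
  echo : ∀ y, f ≤ y → y < h → (y ≠ t - α ∨ 2 * ((k : ℤ) + 1 + α) < t) →
    R y = none ∨ ∃ u, R y = tE u
  hf : f ≤ t - α
  hh : h = t + 5
  hj : 2 * (j0 - 1 + α) < t ∨ j0 = 0
  hj0 : 0 ≤ j0
  ha : 4 * (k : ℤ) + 4 + f ≤ α
  hf0 : 0 ≤ f

/-- The right track after the gates. -/
noncomputable def R2 (k : ℕ) (α t : ℤ) (R : ℤ → Tok) (y : ℤ) : Tok :=
  if y = t - α ∧ t ≤ 2 * ((k : ℤ) + 1 + α) then
    (if t = 2 * ((k : ℤ) + 1 + α) then none else kind k ((t + 2) / 2 - α))
  else R y

variable {k : ℕ} {α j0 t f h : ℤ} {A : ℤ → Cont} {R : ℤ → Tok}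

theorem Lc_self (k : ℕ) (α j0 t : ℤ) : Lc k α j0 (t - α + t) t = none := by
  apply Lc_none
  · omega
  · intro j h1 h2 h3 h4
    omega

theorem Lc_keep (k : ℕ) (α j0 : ℤ) {y t : ℤ} (h : y ≠ t - α) :
    Lc k α j0 (y + t) t = Lc k α j0 (y + t) (t + 1) := by
  apply Lc_congr
  · intro h1; omega
  · intro j h1 h2 h3; omega

theorem A1_meet (hS : St k α j0 t f h A R) (ht : t % 2 = 0) (hc : 0 ≤ t / 2 - α)
    (hc' : t / 2 - α ≤ k) : A1 h A (t - α) =
      ⟨tD (dig k (t / 2 - α).toNat), kind k ((t + 2) / 2 - α), dd (dig (k + 1) (t / 2 - α).toNat),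
        none, none, 0⟩ := by
  obtain ⟨j, hj⟩ : ∃ j : ℕ, (j : ℤ) = t / 2 - α := ⟨(t / 2 - α).toNat, by omega⟩
  have h1 := hS.head (by omega)
  have hh := hS.hh
  have ha := hS.ha
  have hf0 := hS.hf0
  unfold A1
  rw [if_neg (by omega), if_neg (by omega), hS.body _ hS.hf (by omega)]
  unfold cnt
  rw [if_pos ht, if_pos ht, Lc_self, h1.1]
  have e1 : (t + 1) / 2 - α = (j : ℤ) := by omega
  have e2 : (t + 2) / 2 - α = (j : ℤ) + 1 := by omega
  have e3 : t - α - t / 2 = (j : ℤ) := by omega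
  rw [e1, e2, e3, ← hj]
  have e4 : arr k (j : ℤ) (j : ℤ) = dd (dig k j) := by
    unfold arr
    rw [if_neg (by omega), if_pos (by omega), if_neg (by omega), Int.toNat_natCast]
  rw [e4, Int.toNat_natCast]
  exact gam_meet k j

theorem A1_else (hS : St k α j0 t f h A R) {y : ℤ} (h1 : f ≤ y) (h2 : y < h)
    (hn : ¬ (t % 2 = 0 ∧ y = t - α ∧ 0 ≤ t / 2 - α ∧ t / 2 - α ≤ k)) : A1 h A y = A y := by
  unfold A1
  rw [if_neg (by omega), if_neg (by omega)]
  by_cases h3 : y = t - α ∧ t ≤ 2 * ((k : ℤ) + 1 + α)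
  · apply gam_id2
    · rw [hS.body y h1 h2]
      show (if t % 2 = 0 then arr k ((t + 1) / 2 - α) (y - t / 2) else none) = none ∨
        (if t % 2 = 0 then arr k ((t + 1) / 2 - α) (y - t / 2) else none) = dT
      by_cases ht : t % 2 = 0
      · rw [if_pos ht]
        by_cases h4 : t / 2 - α < 0
        · left
          rw [arr_neg k (by omega)]
        · right
          have h5 : t / 2 - α = k + 1 := by
            have := hn
            omega
          unfold arr
          rw [if_neg (by omega), if_neg (by omega), if_pos (by omega), if_neg (by omega)]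
      · rw [if_neg ht]
        exact Or.inl rfl
    · rw [hS.body y h1 h2]; rfl
  · apply gam_id
    · rw [hS.body y h1 h2]
      exact hS.echo y h1 h2 (by omega)
    · rw [hS.body y h1 h2]; rfl

theorem t1_site (hS : St k α j0 t f h A R) {y : ℤ} (h1 : f ≤ y) (h2 : y < h)
    (he : A1 h A y = t1) : y = t - α ∧ t = 2 * ((k : ℤ) + 1 + α) := by
  by_cases hn : t % 2 = 0 ∧ y = t - α ∧ 0 ≤ t / 2 - α ∧ t / 2 - α ≤ k
  · obtain ⟨h3, h4, h5, h6⟩ := hn
    rw [h4, A1_meet hS h3 h5 h6] at he
    exact absurd (congrArg Cont.L he) (by simp [t1, tD])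
  · rw [A1_else hS h1 h2 hn, hS.body y h1 h2] at he
    have hR : R y = tN := congrArg Cont.R he
    have hS0 : (if t % 2 = 0 then arr k ((t + 1) / 2 - α) (y - t / 2) else none) = dT :=
      congrArg Cont.S0 he
    have h3 : y = t - α ∧ t ≤ 2 * ((k : ℤ) + 1 + α) := by
      by_contra h4
      rcases hS.echo y h1 h2 (by omega) with h5 | ⟨u, h5⟩
      · rw [h5] at hR; exact absurd hR (by simp [tN])
      · rw [h5] at hR; exact absurd hR (by simp [tN, tE])
    by_cases ht : t % 2 = 0
    · rw [if_pos ht] at hS0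
      rcases arr_T k hS0 with h5 | h5
      · omega
      · omega
    · rw [if_neg ht] at hS0
      exact absurd hS0 (by simp [dT])

theorem t23_site (hS : St k α j0 t f h A R) {y : ℤ} (h1 : f ≤ y) (h2 : y + 1 < h)
    (he : A1 h A y = t2) (he' : A1 h A (y + 1) = t3) : False := by
  have hL : (A1 h A y).L = tN := by rw [he]; rfl
  have hS0 : (A1 h A (y + 1)).S0 = dT := by rw [he']; rfl
  have hn : ¬ (t % 2 = 0 ∧ y = t - α ∧ 0 ≤ t / 2 - α ∧ t / 2 - α ≤ k) := by
    rintro ⟨h3, h4, h5, h6⟩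
    rw [h4, A1_meet hS h3 h5 h6] at hL
    exact absurd hL (by simp [tN, tD])
  have hn' : ¬ (t % 2 = 0 ∧ y + 1 = t - α ∧ 0 ≤ t / 2 - α ∧ t / 2 - α ≤ k) := by
    rintro ⟨h3, h4, h5, h6⟩
    rw [h4, A1_meet hS h3 h5 h6] at hS0
    exact absurd hS0 (by simp [dT, dd])
  rw [A1_else hS h1 (by omega) hn, hS.body y h1 (by omega)] at hL
  rw [A1_else hS (by omega) h2 hn', hS.body (y + 1) (by omega) h2] at hS0
  have h3 := Lc_eq_N k hL
  have h4 : (if t % 2 = 0 then arr k ((t + 1) / 2 - α) (y + 1 - t / 2) else none) = dT := hS0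
  by_cases ht : t % 2 = 0
  · rw [if_pos ht] at h4
    rcases arr_T k h4 with h5 | h5
    · omega
    · omega
  · rw [if_neg ht] at h4
    exact absurd h4 (by simp [dT])

theorem t3_no_dd {c : Cont} (x : Dg) (h : c.S0 = dd x) : c ≠ t3 := by
  rintro rfl
  exact absurd h (by simp [t3, dT, dd])


theorem nb_some {f h : ℤ} {A : ℤ → Cont} {y : ℤ} {c : Cont} (h1 : nb f h A y = some c) :
    f ≤ y ∧ y ≤ h ∧ A y = c := by
  unfold nb at h1
  split_ifs at h1 with h2
  · exact ⟨h2.1, h2.2, Option.some.inj h1⟩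

theorem nb_in {f h : ℤ} {A : ℤ → Cont} {y : ℤ} (h1 : f ≤ y) (h2 : y ≤ h) :
    nb f h A y = some (A y) := by
  unfold nb
  rw [if_pos ⟨h1, h2⟩]

theorem nb_out {f h : ℤ} {A : ℤ → Cont} {y : ℤ} (h1 : y < f ∨ h < y) :
    nb f h A y = none := by
  unfold nb
  rw [if_neg (by omega)]

theorem A1_h (h : ℤ) (A : ℤ → Cont) : A1 h A h = BL := by
  unfold A1; rw [if_pos rfl]

theorem A1_h1 (h : ℤ) (A : ℤ → Cont) : A1 h A (h + 1) = H0 := by
  unfold A1; rw [if_neg (by omega), if_pos rfl]

theorem A1_cnt (hS : St k α j0 t f h A R) {y : ℤ} (h1 : f ≤ y) (h2 : y < h)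
    (hn : ¬ (y = t - α ∧ t = 2 * ((k : ℤ) + 1 + α)))
    (hn' : ¬ (y = t - α + 1 ∧ t = 2 * ((k : ℤ) + 1 + α))) :
    A1 h A y = cnt k α j0 t ((t + 2) / 2 - α) (t + 1) (R2 k α t R) y := by
  have hh := hS.hh
  have ha := hS.ha
  have hf0 := hS.hf0
  have hf := hS.hf
  by_cases hm : t % 2 = 0 ∧ y = t - α ∧ 0 ≤ t / 2 - α ∧ t / 2 - α ≤ k
  · obtain ⟨h3, h4, h5, h6⟩ := hm
    subst h4
    rw [A1_meet hS h3 h5 h6]
    have hj := hS.hj
    have hj0 := hS.hj0
    obtain ⟨j, hj'⟩ : ∃ j : ℕ, (j : ℤ) = t / 2 - α := ⟨(t / 2 - α).toNat, by omega⟩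
    unfold cnt R2
    rw [if_pos h3, if_pos h3, if_pos ⟨rfl, by omega⟩, if_neg (by omega),
      Lc_D k (j := t / 2 - α) (by omega) h5 h6 (by omega) (by omega)]
    have e3 : t - α - t / 2 = (j : ℤ) := by omega
    have e4 : arr k ((t + 2) / 2 - α) (t - α - t / 2) = dd (dig (k + 1) (t / 2 - α).toNat) := by
      rw [e3, ← hj', Int.toNat_natCast]
      unfold arr
      rw [if_neg (by omega), if_pos (by omega), if_pos (by omega), Int.toNat_natCast]
    rw [e4]
  · rw [A1_else hS h1 h2 hm, hS.body y h1 h2]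
    unfold cnt
    have eL : Lc k α j0 (y + t) t = Lc k α j0 (y + t) (t + 1) := by
      by_cases h3 : y = t - α
      · subst h3
        rw [Lc_self]
        symm
        apply Lc_none
        · omega
        · intro j g1 g2 g3 g4; omega
      · exact Lc_keep k α j0 h3
    have eR : R y = R2 k α t R y := by
      unfold R2
      split_ifs with h3 h4
      · omega
      · rw [h3.1, (hS.head h3.2).1]
        by_cases ht : t % 2 = 0
        · rw [kind_neg k (by omega), kind_neg k (by omega)]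
        · have : (t + 1) / 2 = (t + 2) / 2 := by omega
          rw [this]
      · rfl
    have eA : ∀ j, t % 2 = 0 → j = y - t / 2 →
        arr k ((t + 1) / 2 - α) j = arr k ((t + 2) / 2 - α) j := by
      intro j ht hj
      by_cases h3 : y = t - α
      · apply arr_congr
        · intro h4 h5; omega
        · intro h4 h5; omega
      · apply arr_congr
        · intro h4 h5; omega
        · intro h4 h6
          by_cases h5 : t = 2 * ((k : ℤ) + 1 + α)
          · omega
          · omega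
    have eB : t % 2 ≠ 0 → (t + 1) / 2 = (t + 2) / 2 := by omega
    rw [eL, eR]
    by_cases ht : t % 2 = 0
    · rw [if_pos ht, if_pos ht, if_pos ht, if_pos ht, eA _ ht rfl]
    · rw [if_neg ht, if_neg ht, if_neg ht, if_neg ht, eB ht]


theorem cnt_even {c tl y : ℤ} (ht : t % 2 = 0) : cnt k α j0 t c tl R y =
    ⟨Lc k α j0 (y + t) tl, R y, arr k c (y - t / 2), none, none, 0⟩ := by
  unfold cnt
  rw [if_pos ht, if_pos ht]

theorem cnt_odd {c tl y : ℤ} (ht : t % 2 ≠ 0) : cnt k α j0 t c tl R y =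
    ⟨Lc k α j0 (y + t) tl, R y, none, arr k c (y - t / 2), none, 0⟩ := by
  unfold cnt
  rw [if_neg ht, if_neg ht]

theorem A2_body (hS : St k α j0 t f h A R) {y : ℤ} (h1 : f ≤ y) (h2 : y < h) :
    A2 f h A y = cnt k α j0 t ((t + 2) / 2 - α) (t + 1) (R2 k α t R) y := by
  have hh := hS.hh
  have ha := hS.ha
  have hf0 := hS.hf0
  have hf := hS.hf
  by_cases ht : t = 2 * ((k : ℤ) + 1 + α)
  · -- the head is at the end mark
    have hhd := hS.head (by omega)
    have e1 : (t + 1) / 2 - α = (k : ℤ) + 1 := by omega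
    have e2 : (t + 2) / 2 - α = (k : ℤ) + 2 := by omega
    have hA : A1 h A (t - α) = t1 := by
      rw [A1_else hS hf (by omega) (by omega), hS.body _ hf (by omega)]
      unfold cnt
      rw [if_pos (by omega), if_pos (by omega), Lc_self, hhd.1, e1, kind_top]
      have : arr k ((k : ℤ) + 1) (t - α - t / 2) = dT := by
        unfold arr
        rw [if_neg (by omega), if_neg (by omega), if_pos (by omega), if_neg (by omega)]
      rw [this]; rfl
    have hB : A1 h A (t - α + 1) = BL := by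
      rw [A1_else hS (by omega) (by omega) (by omega), hS.body _ (by omega) (by omega)]
      unfold cnt
      rw [if_pos (by omega), if_pos (by omega), hhd.2, e1]
      have : arr k ((k : ℤ) + 1) (t - α + 1 - t / 2) = none := by
        unfold arr
        rw [if_neg (by omega), if_neg (by omega), if_neg (by omega), if_neg (by omega)]
      rw [this]
      rw [Lc_none k (by omega) (by intro j g1 g2 g3 g4; omega)]; rfl
    by_cases h3 : y = t - α
    · subst h3
      unfold A2
      rw [hA, nb_in (y := t - α + 1) (by omega) (by omega), hB]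
      have : g2 (nb f (h + 1) (A1 h A) (t - α - 1)) t1 (some BL) = t2 := by
        unfold g2; rw [if_pos ⟨rfl, rfl⟩]
      rw [this, cnt_even (by omega), Lc_N k (by omega) (by omega)]
      unfold R2
      rw [if_pos ⟨rfl, by omega⟩, if_pos ht]
      have : arr k ((t + 2) / 2 - α) (t - α - t / 2) = dd 0 := by
        unfold arr
        rw [if_neg (by omega), if_neg (by omega), if_pos (by omega), if_pos (by omega)]
      rw [this]; rfl
    · by_cases h4 : y = t - α + 1
      · subst h4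
        unfold A2
        rw [hB, nb_in (y := t - α + 1 - 1) (by omega) (by omega)]
        have e3 : t - α + 1 - 1 = t - α := by omega
        rw [e3, hA]
        have : g2 (some t1) BL (nb f (h + 1) (A1 h A) (t - α + 1 + 1)) = t3 := by
          unfold g2
          rw [if_neg (by simp [BL, t1, tN]), if_neg (by simp [BL, t2, tN]), if_pos ⟨rfl, rfl⟩]
        rw [this, cnt_even (by omega)]
        unfold R2
        rw [if_neg (by omega), hhd.2]
        have : arr k ((t + 2) / 2 - α) (t - α + 1 - t / 2) = dT := by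
          unfold arr
          rw [if_neg (by omega), if_neg (by omega), if_neg (by omega), if_pos (by omega)]
        rw [this, Lc_none k (by omega) (by intro j g1 g2 g3 g4; omega)]; rfl
      · rw [← A1_cnt hS h1 h2 (by omega) (by omega)]
        unfold A2
        apply g2_keep
        · rintro ⟨g1, -⟩
          exact h3 (t1_site hS h1 h2 g1).1
        · rintro ⟨g1, g2⟩
          obtain ⟨g3, g4, g5⟩ := nb_some g2
          rcases lt_or_ge (y + 1) h with g6 | g6
          · exact t23_site hS h1 g6 g1 g5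
          · have : y + 1 = h := by omega
            rw [this, A1_h] at g5
            exact absurd g5 (by simp [BL, t3, dT])
        · rintro ⟨-, g2⟩
          obtain ⟨g3, g4, g5⟩ := nb_some g2
          have := t1_site hS g3 (by omega) g5
          omega
        · rintro ⟨g1, g2⟩
          obtain ⟨g3, g4, g5⟩ := nb_some g2
          have e3 : y - 1 + 1 = y := by omega
          exact t23_site hS g3 (by omega) g5 (by rw [e3]; exact g1)
  · rw [← A1_cnt hS h1 h2 (by omega) (by omega)]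
    unfold A2
    apply g2_keep
    · rintro ⟨g1, -⟩
      exact ht (t1_site hS h1 h2 g1).2
    · rintro ⟨g1, g2⟩
      obtain ⟨g3, g4, g5⟩ := nb_some g2
      rcases lt_or_ge (y + 1) h with g6 | g6
      · exact t23_site hS h1 g6 g1 g5
      · have : y + 1 = h := by omega
        rw [this, A1_h] at g5
        exact absurd g5 (by simp [BL, t3, dT])
    · rintro ⟨-, g2⟩
      obtain ⟨g3, g4, g5⟩ := nb_some g2
      exact ht (t1_site hS g3 (by omega) g5).2
    · rintro ⟨g1, g2⟩
      obtain ⟨g3, g4, g5⟩ := nb_some g2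
      have e3 : y - 1 + 1 = y := by omega
      exact t23_site hS g3 (by omega) g5 (by rw [e3]; exact g1)

theorem A2_h (hS : St k α j0 t f h A R) : A2 f h A h = BL := by
  have hh := hS.hh
  have hf := hS.hf
  have ha := hS.ha
  have hf0 := hS.hf0
  unfold A2
  rw [A1_h, nb_in (y := h + 1) (by omega) (by omega), A1_h1]
  apply g2_keep
  · rintro ⟨g1, -⟩; exact absurd g1 (by simp [BL, t1, tN])
  · rintro ⟨g1, -⟩; exact absurd g1 (by simp [BL, t2, tN])
  · rintro ⟨-, g2⟩
    obtain ⟨g3, g4, g5⟩ := nb_some g2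
    have := t1_site hS g3 (by omega) g5
    omega
  · rintro ⟨g1, -⟩; exact absurd g1 (by simp [BL, t3, dT])

theorem A2_h1 (f h : ℤ) (A : ℤ → Cont) : A2 f h A (h + 1) = H0 := by
  unfold A2
  rw [A1_h1]
  apply g2_keep
  · rintro ⟨g1, -⟩; exact absurd g1 (by simp [H0, t1, tN])
  · rintro ⟨g1, -⟩; exact absurd g1 (by simp [H0, t2, tN])
  · rintro ⟨g1, -⟩; exact absurd g1 (by simp [H0, BL])
  · rintro ⟨g1, -⟩; exact absurd g1 (by simp [H0, t3, dT])


/-- The right track after the conveyor. -/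
noncomputable def R3 (k : ℕ) (α j0 t f : ℤ) (R : ℤ → Tok) (y : ℤ) : Tok :=
  if y = f then tau (Lc k α j0 (f + t) (t + 1)) else R2 k α t R (y - 1)

theorem A3_body (hS : St k α j0 t f h A R) {y : ℤ} (h1 : f ≤ y) (h2 : y < h + 1) :
    A3 f h A y = cnt k α j0 (t + 1) ((t + 1 + 1) / 2 - α) (t + 1) (R3 k α j0 t f R) y := by
  have hh := hS.hh
  have hf := hS.hf
  have ha := hS.ha
  have hf0 := hS.hf0
  have e0 : (t + 1 + 1) / 2 = (t + 2) / 2 := by omega
  rw [e0]
  -- tracks after the gates, also at `h`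
  have B : ∀ y, f ≤ y → y < h + 1 → A2 f h A y =
      ⟨if y < h then Lc k α j0 (y + t) (t + 1) else none, if y < h then R2 k α t R y else none,
        if y < h then (if t % 2 = 0 then arr k ((t + 2) / 2 - α) (y - t / 2) else none) else none,
        if y < h then (if t % 2 = 0 then none else arr k ((t + 2) / 2 - α) (y - t / 2)) else none,
        none, 0⟩ := by
    intro y g1 g2
    by_cases g3 : y < h
    · rw [A2_body hS g1 g3]
      simp only [g3, if_true]
      rfl
    · have : y = h := by omega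
      subst this
      rw [A2_h hS]
      simp only [g3, if_false]
      rfl
  have hL : (match nb f (h + 1) (A2 f h A) (y + 1) with
      | some d => d.L | none => (A2 f h A y).R) = Lc k α j0 (y + (t + 1)) (t + 1) := by
    rw [nb_in (by omega) (by omega)]
    show (A2 f h A (y + 1)).L = _
    by_cases g : y + 1 < h + 1
    · rw [B (y + 1) (by omega) g]
      show (if y + 1 < h then Lc k α j0 (y + 1 + t) (t + 1) else none) = _
      split_ifs with g2
      · have : y + 1 + t = y + (t + 1) := by ring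
        rw [this]
      · rw [Lc_none k (by omega) (by intro j _ _ _ _; omega)]
    · have : y = h := by omega
      rw [this, A2_h1]
      rw [Lc_none k (by omega) (by intro j _ _ _ _; omega)]
      rfl
  have hQ : (match nb f (h + 1) (A2 f h A) (y + 1) with
      | some d => d.Q | none => (A2 f h A y).S1) = none := by
    rw [nb_in (by omega) (by omega)]
    show (A2 f h A (y + 1)).Q = _
    by_cases g : y + 1 < h + 1
    · rw [B (y + 1) (by omega) g]
    · have : y = h := by omega
      rw [this, A2_h1]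
      rfl
  have hR : (match nb f (h + 1) (A2 f h A) (y - 1) with
      | some d => d.R | none => tau (A2 f h A y).L) = R3 k α j0 t f R y := by
    by_cases g : y = f
    · subst g
      rw [nb_out (by omega), B y (by omega) (by omega)]
      show tau (if y < h then Lc k α j0 (y + t) (t + 1) else none) = _
      rw [if_pos (by omega)]
      unfold R3
      rw [if_pos rfl]
    · rw [nb_in (by omega) (by omega), B (y - 1) (by omega) (by omega)]
      show (if y - 1 < h then R2 k α t R (y - 1) else none) = _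
      rw [if_pos (by omega)]
      unfold R3
      rw [if_neg g]
  have hS0 : (match nb f (h + 1) (A2 f h A) (y - 1) with
      | some d => d.S1 | none => (A2 f h A y).Q) =
      if (t + 1) % 2 = 0 then arr k ((t + 2) / 2 - α) (y - (t + 1) / 2) else none := by
    by_cases g : y = f
    · subst g
      rw [nb_out (by omega), B y (by omega) (by omega)]
      show none = _
      rw [arr_neg k (by omega)]
      simp
    · rw [nb_in (by omega) (by omega), B (y - 1) (by omega) (by omega)]
      show (if y - 1 < h then (if t % 2 = 0 then none else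
        arr k ((t + 2) / 2 - α) (y - 1 - t / 2)) else none) = _
      rw [if_pos (by omega)]
      by_cases ht : t % 2 = 0
      · rw [if_pos ht, if_neg (by omega)]
      · rw [if_neg ht, if_pos (by omega)]
        have : y - 1 - t / 2 = y - (t + 1) / 2 := by omega
        rw [this]
  have hS1 : (A2 f h A y).S0 =
      if (t + 1) % 2 = 0 then none else arr k ((t + 2) / 2 - α) (y - (t + 1) / 2) := by
    rw [B y h1 h2]
    show (if y < h then (if t % 2 = 0 then arr k ((t + 2) / 2 - α) (y - t / 2) else none)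
      else none) = _
    by_cases ht : t % 2 = 0
    · rw [if_pos ht, if_neg (show ¬ (t + 1) % 2 = 0 by omega)]
      have : (t + 1) / 2 = t / 2 := by omega
      rw [this]
      split_ifs with g
      · rfl
      · rw [arr_big k (by omega)]
    · rw [if_neg ht, if_pos (show (t + 1) % 2 = 0 by omega)]
      simp
  have hh0 : (A2 f h A y).h = 0 := by rw [B y h1 h2]
  exact Cont.ext hL hR hS0 hS1 hQ hh0

theorem A3_top (hS : St k α j0 t f h A R) : A3 f h A (h + 1) = H0 := by
  have hh := hS.hh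
  have hf := hS.hf
  have ha := hS.ha
  have hf0 := hS.hf0
  unfold A3
  have e : h + 1 - 1 = h := by ring
  rw [e, A2_h1, nb_out (y := h + 1 + 1) (by omega), nb_in (y := h) (by omega) (by omega), A2_h hS]
  rfl

/-- One step without turning of the head at the left end. -/
theorem St_step (hS : St k α j0 t f h A R) (hL : Lc k α j0 (f + t) (t + 1) = none) :
    St k α j0 (t + 1) f (h + 1) (A3 f h A) (R3 k α j0 t f R) := by
  have hh := hS.hh
  have hf := hS.hf
  have ha := hS.ha
  have hf0 := hS.hf0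
  refine ⟨fun y h1 h2 => A3_body hS h1 h2, A3_top hS, ?_, ?_, by omega, by omega, ?_, hS.hj0, ha,
    hf0⟩
  · intro ht
    have h1 := hS.head (by omega)
    unfold R3 R2
    rw [if_neg (by omega), if_pos (by omega), if_neg (by omega), if_neg (by omega),
      if_neg (by omega)]
    constructor
    · have : (t + 1 + 1) / 2 = (t + 2) / 2 := by omega
      rw [this]
    · have : t + 1 - α + 1 - 1 = t - α + 1 := by ring
      rw [this]; exact h1.2
  · intro y h1 h2 h3
    unfold R3 R2
    split_ifs with g1 g2 g3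
    · left; rw [hL]; rfl
    · exact Or.inl rfl
    · omega
    · exact hS.echo (y - 1) (by omega) (by omega) (by omega)
  · have := hS.hj
    omega


/-- Pushes before the cycle number `k`. -/
def pk : ℕ → ℤ
  | 0 => 0
  | k + 1 => pk k + (k + 1)

theorem pk_nonneg (k : ℕ) : 0 ≤ pk k := by
  induction k with
  | zero => exact le_refl _
  | succ k ih => unfold pk; omega

theorem pk_two (k : ℕ) : 2 * pk k = k * (k + 1) := by
  induction k with
  | zero => rfl
  | succ k ih => unfold pk; push_cast; linarith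

theorem pk_mod (k : ℕ) (h : k % 13 = 0) : pk k % 13 = 0 := by
  obtain ⟨r, rfl⟩ : ∃ r, k = 13 * r := ⟨k / 13, by omega⟩
  have h1 := pk_two (13 * r)
  have h2 : 2 * pk (13 * r) = 13 * ((r : ℤ) * (13 * r + 1)) := by rw [h1]; push_cast; ring
  omega

theorem Lc_next (k : ℕ) {α j0 e t : ℤ} (h : e ≠ 4 * j0 + 3 * α) :
    Lc k α j0 e t = Lc k α (j0 + 1) e t := by
  by_cases h3 : e = 4 * (k + 1) + 3 * α ∧ 2 * ((k : ℤ) + 1 + α) < t
  · rw [Lc_N k h3.1 h3.2, Lc_N k h3.1 h3.2]
  · by_cases h4 : ∃ j : ℤ, j0 ≤ j ∧ 0 ≤ j ∧ j ≤ k ∧ e = 4 * j + 3 * α ∧ 2 * (j + α) < t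
    · obtain ⟨j, h5, h6, h7, h8, h9⟩ := h4
      have h10 : j ≠ j0 := by rintro rfl; exact h h8
      rw [Lc_D k h5 h6 h7 h8 h9, Lc_D k (by omega) h6 h7 h8 h9]
    · rw [Lc_none k h3 (fun j h5 h6 h7 h8 h9 => h4 ⟨j, h5, h6, h7, h8, h9⟩),
        Lc_none k h3 (fun j h5 h6 h7 h8 h9 => h4 ⟨j, by omega, h6, h7, h8, h9⟩)]

/-- Everything about the main zone at time `t` in the cycle `k`, after `P` pushes. -/
structure Full (k : ℕ) (α t P : ℤ) (x : Cfg) (A : ℤ → Cont) (R : ℤ → Tok) : Prop where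
  st : St k α (P - pk k) t (P / 13) (t + 5) A R
  mz : MZ x P (t + 5) A
  p1 : pk k ≤ P
  p2 : P ≤ pk k + k + 1
  bd : 5 * (k : ℤ) + 5 + pk k ≤ α
  pos : P - pk k ≤ k → P / 13 + 2 ≤ 4 * (P - pk k) + 3 * α - t
  pos' : P / 13 ≤ 4 * (P - pk k) + 3 * α - t
  ech : (∃ u, R (P / 13) = tE u) → P % 13 = 0 ∧ P / 13 + 4 ≤ 4 * (P - pk k) + 3 * α - t

variable {P : ℤ} {x : Cfg}

theorem Full.body_h (hF : Full k α t P x A R) {y : ℤ} (h1 : P / 13 ≤ y) (h2 : y < t + 5) :
    (A y).h = 0 := by
  rw [hF.st.body y h1 h2]; rfl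

theorem Full.mzNN (hF : Full k α t P x A R) :
    MZ (NN x) P (t + 5 + 1) (A3 (P / 13) (t + 5) A) := by
  apply MZ_NN hF.mz hF.st.top
  intro y h1 h2
  have h3 := hF.body_h h1 h2
  constructor
  · intro h; rw [h] at h3; exact absurd h3 (by simp [H0])
  · intro h; rw [h] at h3; exact absurd h3 (by simp [H1])

theorem cnt_L (k : ℕ) (α j0 t c tl : ℤ) (R : ℤ → Tok) (y : ℤ) :
    (cnt k α j0 t c tl R y).L = Lc k α j0 (y + t) tl := rfl

theorem cnt_R (k : ℕ) (α j0 t c tl : ℤ) (R : ℤ → Tok) (y : ℤ) :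
    (cnt k α j0 t c tl R y).R = R y := rfl

/-- Contents near the left end. -/
theorem cnt_left (k : ℕ) {α j0 t c tl : ℤ} (R : ℤ → Tok) {y : ℤ} (h : y < t / 2) :
    cnt k α j0 t c tl R y = ⟨Lc k α j0 (y + t) tl, R y, none, none, none, 0⟩ := by
  unfold cnt
  rw [arr_neg k (by omega)]
  simp

theorem Full.none_step (hF : Full k α t P x A R)
    (hL : ∀ u, Lc k α (P - pk k) (P / 13 + 1 + (t + 1)) (t + 1) ≠ tD u) :
    RN (12 * P - 156) x ∧ MZ (FF x) P (t + 5 + 1) (A3 (P / 13) (t + 5) A) := by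
  have hS := hF.st
  have hf := hS.hf
  have hf0 := hS.hf0
  have ha := hS.ha
  have e0 : A3 (P / 13) (t + 5) A (P / 13) = _ := A3_body hS (le_refl _) (by omega)
  have e1 : A3 (P / 13) (t + 5) A (P / 13 + 1) = _ := A3_body hS (by omega) (by omega)
  have g1 : R3 k α (P - pk k) t (P / 13) R (P / 13 + 1) = R2 k α t R (P / 13) := by
    unfold R3
    rw [if_neg (by omega)]
    congr 1
    omega
  apply MZ_none hF.mz.mark hF.mzNN
  · rintro u ⟨-, h2⟩
    rw [e1] at h2
    exact hL u (congrArg Cont.L h2)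
  · rintro hP u ⟨-, h2⟩
    rw [e1] at h2
    have h3 : R3 k α (P - pk k) t (P / 13) R (P / 13 + 1) = tE u := congrArg Cont.R h2
    rw [g1] at h3
    unfold R2 at h3
    split_ifs at h3 with h4 h5
    · exact absurd h3 (by simp [tE])
    · rcases kind_cases k ((t + 2) / 2 - α) with h6 | h6
      · rw [h6] at h3; exact absurd h3 (by simp [tE, tK])
      · rw [h6] at h3; exact absurd h3 (by simp [tE, tN])
    · exact hP (hF.ech ⟨u, h3⟩).1
  · rintro - u h2
    rw [e0] at h2
    have h3 : R3 k α (P - pk k) t (P / 13) R (P / 13) = tE u := congrArg Cont.R h2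
    unfold R3 at h3
    rw [if_pos rfl] at h3
    rcases Lc_cases k α (P - pk k) (P / 13 + t) (t + 1) with h4 | ⟨v, h4⟩ | h4
    · rw [h4] at h3; exact absurd h3 (by simp [tE, tau, tK, tN])
    · -- a token `D` in the first slot is impossible
      exfalso
      have h5 : ∃ j : ℤ, P - pk k ≤ j ∧ 0 ≤ j ∧ j ≤ k ∧ P / 13 + t = 4 * j + 3 * α := by
        by_contra h6
        rw [Lc_none k ?_ ?_] at h4
        · exact absurd h4 (by simp [tD])
        · intro h7
          rw [Lc_N k h7.1 h7.2] at h4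
          exact absurd h4 (by simp [tD, tN])
        · intro j g3 g4 g5 g6
          exact absurd ⟨j, g3, g4, g5, g6⟩ h6
      obtain ⟨j, g3, g4, g5, g6⟩ := h5
      have := hF.pos (by omega)
      omega
    · rw [h4] at h3; exact absurd h3 (by simp [tE, tau, tK, tN])


/-- A step without event. -/
theorem Full.step1 (hF : Full k α t P x A R) (h1 : P / 13 < 4 * (P - pk k) + 3 * α - t)
    (h2 : P - pk k ≤ k → P / 13 + 2 < 4 * (P - pk k) + 3 * α - t) :
    RN (12 * P - 156) x ∧ ∃ A' R', Full k α (t + 1) P (FF x) A' R' := by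
  have hS := hF.st
  have hp1 := hF.p1
  have hp2 := hF.p2
  have hL : Lc k α (P - pk k) (P / 13 + t) (t + 1) = none := by
    apply Lc_none
    · intro h3; omega
    · intro j g1 g2 g3 g4; omega
  have hn : ∀ u, Lc k α (P - pk k) (P / 13 + 1 + (t + 1)) (t + 1) ≠ tD u := by
    intro u h3
    have h5 : ∃ j : ℤ, P - pk k ≤ j ∧ 0 ≤ j ∧ j ≤ k ∧ P / 13 + 1 + (t + 1) = 4 * j + 3 * α := by
      by_contra h6
      rw [Lc_none k ?_ ?_] at h3
      · exact absurd h3 (by simp [tD])
      · intro h7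
        rw [Lc_N k h7.1 h7.2] at h3
        exact absurd h3 (by simp [tD, tN])
      · intro j g3 g4 g5 g6
        exact absurd ⟨j, g3, g4, g5, g6⟩ h6
    obtain ⟨j, g3, g4, g5, g6⟩ := h5
    have := h2 (by omega)
    omega
  obtain ⟨hr, hm⟩ := hF.none_step hn
  refine ⟨hr, A3 (P / 13) (t + 5) A, R3 k α (P - pk k) t (P / 13) R, ?_⟩
  have e5 : t + 5 + 1 = t + 1 + 5 := by ring
  have hSt := St_step hS hL
  rw [e5] at hm hSt
  refine ⟨hSt, hm, hp1, hp2, hF.bd, ?_, ?_, ?_⟩
  · intro h3
    have := h2 h3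
    omega
  · omega
  · rintro ⟨u, h3⟩
    exfalso
    unfold R3 at h3
    rw [if_pos rfl, hL] at h3
    exact absurd h3 (by simp [tE, tau, tK, tN])

/-- A push. -/
theorem Full.step2 (hF : Full k α t P x A R) (hk : P - pk k ≤ k)
    (h1 : P / 13 + 2 = 4 * (P - pk k) + 3 * α - t) :
    RP (dig k (P - pk k).toNat) (12 * P - 156) x ∧
      ∃ A' R', Full k α (t + 1) (P + 1) (FF x) A' R' := by
  have hS := hF.st
  have hp1 := hF.p1
  have hp2 := hF.p2
  have hf := hS.hf
  have hf0 := hS.hf0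
  have ha := hS.ha
  have hb := hF.bd
  have hpn := pk_nonneg k
  have hL : Lc k α (P - pk k) (P / 13 + t) (t + 1) = none := by
    apply Lc_none
    · intro h3; omega
    · intro j g1 g2 g3 g4; omega
  have hL1 : Lc k α (P - pk k) (P / 13 + (t + 1)) (t + 1) = none := by
    apply Lc_none
    · intro h3; omega
    · intro j g1 g2 g3 g4; omega
  have hL2 : Lc k α (P - pk k) (P / 13 + 1 + (t + 1)) (t + 1) = tD (dig k (P - pk k).toNat) :=
    Lc_D k (le_refl _) (by omega) hk (by omega) (by omega)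
  have hRf : R (P / 13) = none := by
    rcases hS.echo (P / 13) (le_refl _) (by omega) (by omega) with h3 | h3
    · exact h3
    · have := (hF.ech h3).2
      omega
  have hR3f : R3 k α (P - pk k) t (P / 13) R (P / 13) = none := by
    unfold R3
    rw [if_pos rfl, hL]
    rfl
  have hR3f1 : R3 k α (P - pk k) t (P / 13) R (P / 13 + 1) = none := by
    unfold R3 R2
    rw [if_neg (by omega), if_neg (by omega)]
    have : P / 13 + 1 - 1 = P / 13 := by ring
    rw [this, hRf]
  have e0 : A3 (P / 13) (t + 5) A (P / 13) = BL := by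
    rw [A3_body hS (le_refl _) (by omega), cnt_left k _ (by omega), hL1, hR3f]
    rfl
  have e1 : A3 (P / 13) (t + 5) A (P / 13 + 1) = cD (dig k (P - pk k).toNat) := by
    rw [A3_body hS (by omega) (by omega), cnt_left k _ (by omega), hL2, hR3f1]
    rfl
  obtain ⟨hr, hm⟩ := MZ_push hF.mz.mark hF.mzNN e0 e1 (by omega)
  refine ⟨hr, (fun y => if y = P / 13 + 1 then cE (dig k (P - pk k).toNat)
    else A3 (P / 13) (t + 5) A y), (fun y => if y = P / 13 + 1 then tE (dig k (P - pk k).toNat)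
    else R3 k α (P - pk k) t (P / 13) R y), ?_⟩
  have hSt := St_step hS hL
  have e5 : t + 5 + 1 = t + 1 + 5 := by ring
  rw [e5] at hm hSt
  have hf1 : P / 13 ≤ (P + 1) / 13 := by omega
  refine ⟨⟨?_, ?_, ?_, ?_, by omega, rfl, by omega, by omega, by omega, by omega⟩,
    hm, by omega, by omega, hF.bd, by omega, by omega, ?_⟩
  · intro y g1 g2
    show (if y = P / 13 + 1 then cE (dig k (P - pk k).toNat) else A3 (P / 13) (t + 5) A y) = _
    have ej : P + 1 - pk k = P - pk k + 1 := by ring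
    rw [ej]
    by_cases hy : y = P / 13 + 1
    · rw [if_pos hy, cnt_left k _ (by omega), if_pos hy, Lc_none k (by omega) (by
        intro j g3 g4 g5 g6; omega)]
      rfl
    · rw [if_neg hy, hSt.body y (by omega) g2]
      unfold cnt
      rw [Lc_next k (by omega)]
      beta_reduce
      rw [if_neg hy]
  · show (if t + 1 + 5 = P / 13 + 1 then cE (dig k (P - pk k).toNat)
      else A3 (P / 13) (t + 5) A (t + 1 + 5)) = H0
    rw [if_neg (by omega)]
    exact hSt.top
  · intro h3
    have := hSt.head h3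
    constructor
    · show (if t + 1 - α = P / 13 + 1 then tE (dig k (P - pk k).toNat)
        else R3 k α (P - pk k) t (P / 13) R (t + 1 - α)) = _
      rw [if_neg (by omega)]
      exact this.1
    · show (if t + 1 - α + 1 = P / 13 + 1 then tE (dig k (P - pk k).toNat)
        else R3 k α (P - pk k) t (P / 13) R (t + 1 - α + 1)) = _
      rw [if_neg (by omega)]
      exact this.2
  · intro y g1 g2 g3
    show (if y = P / 13 + 1 then tE (dig k (P - pk k).toNat)
        else R3 k α (P - pk k) t (P / 13) R y) = none ∨ ∃ u,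
      (if y = P / 13 + 1 then tE (dig k (P - pk k).toNat)
        else R3 k α (P - pk k) t (P / 13) R y) = tE u
    by_cases hy : y = P / 13 + 1
    · right
      rw [if_pos hy]
      exact ⟨_, rfl⟩
    · rw [if_neg hy]
      exact hSt.echo y (by omega) g2 g3
  · rintro ⟨u, h3⟩
    by_cases hy : (P + 1) / 13 = P / 13 + 1
    · constructor
      · omega
      · omega
    · exfalso
      have h4 : (if (P + 1) / 13 = P / 13 + 1 then tE (dig k (P - pk k).toNat)
        else R3 k α (P - pk k) t (P / 13) R ((P + 1) / 13)) = tE u := h3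
      rw [if_neg hy] at h4
      have h5 : (P + 1) / 13 = P / 13 := by omega
      rw [h5, hR3f] at h4
      exact absurd h4 (by simp [tE])

/-- The head turns at the left end, a new cycle begins. -/
theorem Full.step3 (hF : Full k α t P x A R) (hk : P - pk k = k + 1)
    (h1 : P / 13 = 4 * (P - pk k) + 3 * α - t) :
    ∃ A' R', Full (k + 1) (t + 1 - P / 13) (t + 1) P (FF x) A' R' := by
  have hS := hF.st
  have hp1 := hF.p1
  have hp2 := hF.p2
  have hf := hS.hf
  have hf0 := hS.hf0
  have ha := hS.ha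
  have hb := hF.bd
  have hpk : pk (k + 1) = pk k + k + 1 := by
    show pk k + ((k : ℤ) + 1) = _
    ring
  have hL : Lc k α (P - pk k) (P / 13 + t) (t + 1) = tN := by
    apply Lc_N
    · omega
    · omega
  have hn : ∀ u, Lc k α (P - pk k) (P / 13 + 1 + (t + 1)) (t + 1) ≠ tD u := by
    intro u h3
    rw [Lc_none k (by omega) (by intro j g1 g2 g3 g4; omega)] at h3
    exact absurd h3 (by simp [tD])
  obtain ⟨-, hm⟩ := hF.none_step hn
  have hR3f : R3 k α (P - pk k) t (P / 13) R (P / 13) = tK := by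
    unfold R3
    rw [if_pos rfl, hL]
    simp [tau, tN, tK]
  have hRf : R (P / 13) = none := by
    rcases hS.echo (P / 13) (le_refl _) (by omega) (by omega) with h3 | h3
    · exact h3
    · have := (hF.ech h3).2
      omega
  refine ⟨A3 (P / 13) (t + 5) A, R3 k α (P - pk k) t (P / 13) R, ?_⟩
  have e5 : t + 5 + 1 = t + 1 + 5 := by ring
  have hb3 : ∀ y, P / 13 ≤ y → y < t + 5 + 1 → _ := fun y g1 g2 => A3_body hS g1 g2
  have htop := A3_top hS
  rw [e5] at hm hb3 htop
  have hj0 : P - pk (k + 1) = 0 := by omega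
  have hdc : (t + 1) / 2 * 2 ≤ t + 1 := by omega
  refine ⟨⟨?_, htop, ?_, ?_, by omega, rfl, Or.inr hj0, by omega, by push_cast; omega, hf0⟩,
    hm, by omega, by push_cast; omega, by push_cast; omega, by intro _; omega, by omega, ?_⟩
  · intro y g1 g2
    rw [hb3 y g1 g2]
    unfold cnt
    rw [Lc_none k (by omega) (by intro j g3 g4 g5 g6; omega),
      Lc_none (k + 1) (by push_cast; omega) (by push_cast; intro j g3 g4 g5 g6; omega)]
    have ea : arr k ((t + 1 + 1) / 2 - α) (y - (t + 1) / 2) =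
        arr (k + 1) ((t + 1 + 1) / 2 - (t + 1 - P / 13)) (y - (t + 1) / 2) := by
      have hc : (k : ℤ) + 1 < (t + 1 + 1) / 2 - α := by omega
      have hc' : (t + 1 + 1) / 2 - (t + 1 - P / 13) ≤ 0 := by omega
      generalize (t + 1 + 1) / 2 - α = c at hc
      generalize (t + 1 + 1) / 2 - (t + 1 - P / 13) = c' at hc'
      generalize y - (t + 1) / 2 = j
      unfold arr
      by_cases q0 : j < 0
      · rw [if_pos q0, if_pos q0]
      · rw [if_neg q0, if_neg q0]
        by_cases q1 : j ≤ k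
        · rw [if_pos q1, if_pos (by omega), if_pos (by push_cast; omega), if_neg (by omega)]
        · rw [if_neg q1]
          by_cases q2 : j = k + 1
          · rw [if_pos q2, if_pos hc, if_pos (by push_cast; omega), if_neg (by omega)]
            have : j.toNat = k + 1 := by omega
            rw [this, dig_top]
          · rw [if_neg q2]
            rw [if_neg (show ¬ j ≤ ((k + 1 : ℕ) : ℤ) by push_cast; omega)]
            by_cases q3 : j = k + 2
            · rw [if_pos ⟨q3, hc⟩, if_pos (by push_cast; omega), if_neg (by push_cast; omega)]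
            · rw [if_neg (by omega), if_neg (by push_cast; omega), if_neg (by push_cast; omega)]
    rw [ea]
  · intro _
    have e1 : t + 1 - (t + 1 - P / 13) = P / 13 := by ring
    rw [e1, hR3f]
    constructor
    · rw [kind_neg]; omega
    · unfold R3 R2
      rw [if_neg (by omega), if_neg (by omega)]
      have : P / 13 + 1 - 1 = P / 13 := by ring
      rw [this, hRf]
  · intro y g1 g2 g3
    have hy : y ≠ P / 13 := by
      rcases g3 with g3 | g3
      · intro h; apply g3; rw [h]; ring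
      · push_cast at g3; omega
    unfold R3 R2
    rw [if_neg hy, if_neg (by omega)]
    exact hS.echo (y - 1) (by omega) (by omega) (by omega)
  · rintro ⟨u, h3⟩
    rw [hR3f] at h3
    exact absurd h3 (by simp [tE, tK])


/-- Waiting. -/
theorem Full.adv (hF : Full k α t P x A R) (s : ℕ)
    (h1 : P / 13 + s ≤ 4 * (P - pk k) + 3 * α - t)
    (h2 : P - pk k ≤ k → P / 13 + 2 + s ≤ 4 * (P - pk k) + 3 * α - t) :
    (∀ i, i < s → RN (12 * P - 156) (FF^[i] x)) ∧
      ∃ A' R', Full k α (t + s) P (FF^[s] x) A' R' := by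
  induction s with
  | zero =>
    refine ⟨fun i hi => absurd hi (by omega), A, R, ?_⟩
    simpa using hF
  | succ s ih =>
    push_cast at h1 h2
    obtain ⟨h3, A', R', h4⟩ := ih (by omega) (by intro h; have := h2 h; omega)
    obtain ⟨h5, A'', R'', h6⟩ := h4.step1 (by omega) (by intro h; have := h2 h; omega)
    refine ⟨?_, A'', R'', ?_⟩
    · intro i hi
      rcases Nat.lt_or_ge i s with h | h
      · exact h3 i h
      · have : i = s := by omega
        rw [this]; exact h5
    · rw [Function.iterate_succ_apply']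
      have : t + ((s + 1 : ℕ) : ℤ) = t + s + 1 := by push_cast; ring
      rw [this]
      exact h6

/-- Time of push number `i` of a burst, counted from push number `0`. -/
def tt : ℕ → ℕ
  | 0 => 0
  | i + 1 => tt i + gap i

/-! ### The seed -/

/-- The right track of the seed. -/
def R0 (y : ℤ) : Tok := if y = 0 then tK else none

/-- Contents of the seed. -/
def A0 (y : ℤ) : Cont := if y = 11 then H0 else cnt 0 6 0 6 (-3) 6 R0 y

/-- The seed. -/
noncomputable def seed (i : ℤ) : Bool :=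
  if -156 ≤ i ∧ i < -144 then Mw (i + 156)
  else if 0 ≤ i ∧ i < 1872 then code (A0 (i / 156)) (i % 156) else false

theorem seed_finite : {i | seed i ≠ false}.Finite := by
  apply (Set.finite_Icc (-156 : ℤ) 1872).subset
  intro i hi
  by_contra h
  apply hi
  unfold seed
  rw [if_neg, if_neg]
  · rintro ⟨h1, h2⟩
    exact h ⟨by omega, by omega⟩
  · rintro ⟨h1, h2⟩
    exact h ⟨by omega, by omega⟩

theorem seed_full : Full 0 6 6 0 seed A0 R0 := by
  have hK : kind 0 (-3) = tK := kind_neg 0 (by norm_num)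
  refine ⟨⟨?_, ?_, ?_, ?_, ?_, ?_, Or.inr ?_, ?_, ?_, ?_⟩, ⟨?_, ?_, ?_, ?_, ?_⟩, ?_, ?_, ?_, ?_,
    ?_, ?_⟩
  · intro y h1 h2
    unfold A0
    rw [if_neg (by omega)]
    rfl
  · rfl
  · intro _
    constructor
    · show R0 0 = kind 0 (-3)
      rw [hK]; rfl
    · rfl
  · intro y h1 h2 h3
    rcases h3 with h3 | h3
    · left
      unfold R0
      rw [if_neg (by omega)]
    · omega
  · norm_num
  · norm_num
  · rfl
  · exact le_refl _
  · norm_num
  · norm_num
  · intro i h1 h2
    show seed (12 * 0 - 156 + i) = Mw i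
    unfold seed
    rw [if_pos (by omega)]
    congr 1
    omega
  · intro i h1 h2
    unfold seed
    rw [if_neg (by omega), if_neg (by omega)]
  · intro y h1 h2 i h3 h4
    unfold seed
    rw [if_neg (by omega), if_pos (by omega)]
    have e1 : (156 * y + i) / 156 = y := by omega
    have e2 : (156 * y + i) % 156 = i := by omega
    rw [e1, e2]
  · intro i h1
    unfold seed
    rw [if_neg (by omega), if_neg (by omega)]
  · norm_num
  · exact le_refl _
  · show (0 : ℤ) ≤ 0 + ((0 : ℕ) : ℤ) + 1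
    norm_num
  · show 5 * ((0 : ℕ) : ℤ) + 5 + 0 ≤ 6
    norm_num
  · intro _
    show (0 : ℤ) / 13 + 2 ≤ 4 * (0 - 0) + 3 * 6 - 6
    norm_num
  · show (0 : ℤ) / 13 ≤ 4 * (0 - 0) + 3 * 6 - 6
    norm_num
  · rintro ⟨u, h⟩
    exfalso
    exact absurd h (by simp [R0, tE, tK])

/-- Waiting for the first push of the cycle `k`. -/
theorem to_ready {x0 : Cfg} {T : ℕ} (hF : Full k α t (pk k) (FF^[T] x0) A R) :
    ∃ (T' : ℕ) (t' : ℤ) (A' : ℤ → Cont) (R' : ℤ → Tok),
      Full k α t' (pk k) (FF^[T'] x0) A' R' ∧ pk k / 13 + 2 = 3 * α - t' := by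
  have h1 := hF.pos (by omega)
  obtain ⟨s, hs⟩ : ∃ s : ℕ, (s : ℤ) = 3 * α - t - 2 - pk k / 13 :=
    ⟨(3 * α - t - 2 - pk k / 13).toNat, by omega⟩
  obtain ⟨-, A', R', h2⟩ := hF.adv s (by omega) (by intro _; omega)
  refine ⟨s + T, t + s, A', R', ?_, by omega⟩
  rw [Function.iterate_add_apply]
  exact h2

/-- The pushes of the cycle `k`. -/
theorem burst {x0 : Cfg} {T : ℕ} (hF : Full k α t (pk k) (FF^[T] x0) A R)
    (h1 : pk k / 13 + 2 = 3 * α - t) (i : ℕ) (hi : i ≤ k) :
    ∃ (m : ℕ) (A' : ℤ → Cont) (R' : ℤ → Tok), (m : ℤ) = 4 * i - ((pk k + i) / 13 - pk k / 13) ∧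
      Full k α (t + m) (pk k + i) (FF^[m + T] x0) A' R' := by
  induction i with
  | zero =>
    refine ⟨0, A, R, by simp, ?_⟩
    simpa using hF
  | succ i ih =>
    obtain ⟨m, A1, R1, hm, h2⟩ := ih (by omega)
    obtain ⟨-, A2, R2, h3⟩ := h2.step2 (by omega) (by omega)
    obtain ⟨s, hs⟩ : ∃ s : ℕ, (s : ℤ) = 3 - ((pk k + i + 1) / 13 - (pk k + i) / 13) :=
      ⟨(3 - ((pk k + i + 1) / 13 - (pk k + i) / 13)).toNat, by omega⟩
    obtain ⟨-, A3, R3, h4⟩ := h3.adv s (by omega) (by intro _; omega)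
    refine ⟨s + (m + 1), A3, R3, ?_, ?_⟩
    · push_cast
      have : pk k + ((i : ℤ) + 1) = pk k + i + 1 := by ring
      rw [this]
      omega
    · have e1 : t + ((s + (m + 1) : ℕ) : ℤ) = t + m + 1 + s := by push_cast; ring
      have e2 : pk k + ((i + 1 : ℕ) : ℤ) = pk k + i + 1 := by push_cast; ring
      have e3 : FF^[s + (m + 1) + T] x0 = FF^[s] (FF (FF^[m + T] x0)) := by
        rw [← Function.iterate_succ_apply' FF (m + T), ← Function.iterate_add_apply]
        congr 1
        omega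
      rw [e1, e2, e3]
      exact h4

/-- All cycles. -/
theorem cycles (k : ℕ) : ∃ (T : ℕ) (α t : ℤ) (A : ℤ → Cont) (R : ℤ → Tok),
    Full k α t (pk k) (FF^[T] seed) A R ∧ pk k / 13 + 2 = 3 * α - t := by
  induction k with
  | zero =>
    have h : Full 0 6 6 (pk 0) (FF^[0] seed) A0 R0 := seed_full
    obtain ⟨T, t, A, R, h1, h2⟩ := to_ready h
    exact ⟨T, 6, t, A, R, h1, h2⟩
  | succ k ih =>
    obtain ⟨T, α, t, A, R, h1, h2⟩ := ih
    obtain ⟨m, A1, R1, hm, h3⟩ := burst h1 h2 k (le_refl _)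
    obtain ⟨-, A2, R2, h4⟩ := h3.step2 (by omega) (by omega)
    obtain ⟨s, hs⟩ : ∃ s : ℕ, (s : ℤ) = 5 - ((pk k + k + 1) / 13 - (pk k + k) / 13) :=
      ⟨(5 - ((pk k + k + 1) / 13 - (pk k + k) / 13)).toNat, by omega⟩
    obtain ⟨-, A3, R3, h5⟩ := h4.adv s (by omega) (by intro _; omega)
    obtain ⟨A4, R4, h6⟩ := h5.step3 (by omega) (by omega)
    have e1 : pk k + (k : ℤ) + 1 = pk (k + 1) := by
      show _ = pk k + ((k : ℤ) + 1)
      ring
    rw [e1] at h6
    have e2 : FF (FF^[s] (FF (FF^[m + T] seed))) = FF^[s + 1 + (m + T + 1)] seed := by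
      rw [← Function.iterate_succ_apply' FF (m + T), ← Function.iterate_succ_apply' FF s,
        ← Function.iterate_add_apply]
    rw [e2] at h6
    obtain ⟨T', t', A', R', h7, h8⟩ := to_ready h6
    exact ⟨T', _, t', A', R', h7, h8⟩

theorem tt_eq (i : ℕ) : (tt i : ℤ) = 4 * i - i / 13 := by
  induction i with
  | zero => rfl
  | succ i ih =>
    have : tt (i + 1) = tt i + gap i := rfl
    rw [this]
    push_cast
    rw [ih]
    unfold gap
    split_ifs with h
    · push_cast; omega
    · push_cast; omega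

/-- The seed: in the bursts number `k`, `13 ∣ k`, the digits of `k` are pushed at the times
`T + tt i` (that is, in the step from `T + tt i` to `T + tt i + 1`); in between there is no event. -/
theorem main_orbit : ∃ x0 : Cfg, {i | x0 i ≠ false}.Finite ∧ ∀ k : ℕ, k % 13 = 0 →
    ∃ (T : ℕ) (b : ℤ), (∀ i : ℕ, i ≤ k → RP (dig k i) (b + 12 * (i : ℤ)) (FF^[T + tt i] x0)) ∧
      (∀ i s : ℕ, i < k → s + 1 < gap i →
        RN (b + 12 * ((i : ℤ) + 1)) (FF^[T + tt i + 1 + s] x0)) := by
  refine ⟨seed, seed_finite, ?_⟩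
  intro k hk
  obtain ⟨T, α, t, A, R, h1, h2⟩ := cycles k
  have hpm := pk_mod k hk
  have key : ∀ i : ℕ, i ≤ k → ∃ A' R', Full k α (t + tt i) (pk k + i) (FF^[T + tt i] seed) A' R' := by
    intro i hi
    obtain ⟨m, A1, R1, hm, h3⟩ := burst h1 h2 i hi
    have h4 := tt_eq i
    have h5 : m = tt i := by omega
    rw [h5, Nat.add_comm] at h3
    exact ⟨A1, R1, h3⟩
  refine ⟨T, 12 * pk k - 156, ?_, ?_⟩
  · intro i hi
    obtain ⟨A1, R1, h3⟩ := key i hi
    have h4 := tt_eq i
    obtain ⟨h5, -⟩ := h3.step2 (by omega) (by omega)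
    have e1 : (pk k + (i : ℤ) - pk k).toNat = i := by omega
    have e2 : 12 * (pk k + (i : ℤ)) - 156 = 12 * pk k - 156 + 12 * i := by ring
    rw [e1, e2] at h5
    exact h5
  · intro i s hi hs
    obtain ⟨A1, R1, h3⟩ := key i (by omega)
    have h4 := tt_eq i
    obtain ⟨-, A2, R2, h6⟩ := h3.step2 (by omega) (by omega)
    have hg : (gap i : ℤ) = 4 - ((pk k + i + 1) / 13 - (pk k + i) / 13) := by
      unfold gap
      split_ifs with h
      · push_cast; omega
      · push_cast; omega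
    obtain ⟨h7, -⟩ := h6.adv (s + 1) (by push_cast; omega) (by intro _; push_cast; omega)
    have h8 := h7 s (by omega)
    have e2 : 12 * (pk k + (i : ℤ) + 1) - 156 = 12 * pk k - 156 + 12 * ((i : ℤ) + 1) := by ring
    have e3 : FF^[T + tt i + 1 + s] seed = FF^[s] (FF (FF^[T + tt i] seed)) := by
      rw [← Function.iterate_succ_apply' FF (T + tt i), ← Function.iterate_add_apply]
      congr 1
      omega
    rw [e3, ← e2]
    exact h8

end Pool.Agent.WU
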