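import Pool.Agent.WU.ZoneR

/-!
# One step of the automaton on the main zone
-/

set_option autoImplicit false

namespace Pool.Agent.WU

open Function

/-- The main zone after `P` pushes: marker at `12 P - 156`, zeros up to the slot `P / 13`, slots with
contents `A y` at `156 y` for `P / 13 ≤ y ≤ h`, zeros behind. -/
structure MZ (x : Cfg) (P h : ℤ) (A : ℤ → Cont) : Prop where
  mark : Mk x (12 * P - 156)
  zs : Zs x (12 * P - 144) (156 * (P / 13))
  sl : ∀ y, P / 13 ≤ y → y ≤ h → SC x (156 * y) (A y)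
  tail : ∀ i, 156 * (h + 1) ≤ i → x i = false
  len : P / 13 + 2 ≤ h

/-- Content of a slot of the run `[f, h]`. -/
def nb (f h : ℤ) (A : ℤ → Cont) (y : ℤ) : Option Cont := if f ≤ y ∧ y ≤ h then some (A y) else none

/-- Contents after growth and `Gam`. -/
def A1 (h : ℤ) (A : ℤ → Cont) (y : ℤ) : Cont :=
  if y = h then BL else if y = h + 1 then H0 else gam (A y)

/-- Contents after the turning of the head. -/
def A2 (f h : ℤ) (A : ℤ → Cont) (y : ℤ) : Cont :=
  g2 (nb f (h + 1) (A1 h A) (y - 1)) (A1 h A y) (nb f (h + 1) (A1 h A) (y + 1))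

/-- Contents after the conveyor. -/
def A3 (f h : ℤ) (A : ℤ → Cont) (y : ℤ) : Cont :=
  cv (nb f (h + 1) (A2 f h A) (y - 1)) (A2 f h A y) (nb f (h + 1) (A2 f h A) (y + 1))

variable {x z : Cfg} {P h : ℤ} {A : ℤ → Cont} {u : Dg}

/-- The only pair of ones in the front part is the marker. -/
theorem MZ_pair (hM : MZ x P h A) {q : ℤ} (h1 : 12 * P - 156 ≤ q) (h2 : q < 156 * (P / 13))
    (hq : x q = true) (hq' : x (q + 1) = true) : q = 12 * P - 156 := by
  by_contra hne
  have hz : ∀ i, 12 * P - 156 + 2 ≤ i → i < 156 * (P / 13) → x i = false := by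
    intro i hi1 hi2
    by_cases hi : i < 12 * P - 156 + 12
    · exact hM.mark.zero hi1 hi
    · exact hM.zs i (by omega) hi2
  by_cases hq2 : q = 12 * P - 156 + 1
  · have h3 : x (q + 1) = false := by
      refine hM.mark.zero (by omega) (by omega)
    rw [h3] at hq'
    exact absurd hq' (by decide)
  · have h3 := hz q (by omega) h2
    rw [h3] at hq
    exact absurd hq (by decide)

theorem MZ_noslot (hM : MZ x P h A) : ∀ p, 12 * P - 156 ≤ p → p < 156 * (P / 13) → ¬ Slot x p := by
  intro p h1 h2 hp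
  have h3 := MZ_pair hM h1 h2 hp.pre.c0 hp.pre.c1
  rw [h3] at hp
  exact hM.mark.bar.not_slot hp

theorem MZ_slot (hM : MZ x P h A) {y : ℤ} (h1 : P / 13 ≤ y) (h2 : y ≤ h) : Slot x (156 * y) :=
  ⟨_, hM.sl y h1 h2⟩

/-- No slot starts behind the slot `h`. -/
theorem MZ_slot_le (hM : MZ x P h A) {p : ℤ} (hp : Slot x p) : p ≤ 156 * h := by
  by_contra hlt
  have h1 : p < 156 * (h + 1) := by
    by_contra h2
    have h3 := hM.tail p (by omega)
    have h4 := hp.pre.c0
    rw [h3] at h4
    exact absurd h4 (by decide)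
  have h5 := MZ_slot hM (y := h) (by have := hM.len; omega) le_rfl
  rcases hp.disj' h5 with h6 | h6 | h6 <;> omega

theorem MZ.nbr (hM : MZ x P h A) (y : ℤ) (hy : P / 13 - 1 ≤ y) (hy' : y ≤ h + 1) :
    nbr x (156 * y) = nb (P / 13) h A y := by
  unfold nb
  split_ifs with hc
  · exact nbr_eq_some.2 (hM.sl y hc.1 hc.2)
  · rw [nbr_eq_none]
    intro hs
    by_cases h1 : y = h + 1
    · have := MZ_slot_le hM hs
      omega
    · have h2 : y = P / 13 - 1 := by omega
      have h3 := hM.mark.bar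
      by_cases h4 : 156 * y = 12 * P - 156
      · rw [h4] at hs
        exact h3.not_slot hs
      · have := h3.slot hs (by omega)
        omega

theorem MZ_smap (hM : MZ x P h A) (Φ : Option Cont → Cont → Option Cont → Cont) :
    MZ (smap Φ x) P h
      (fun y => Φ (nb (P / 13) h A (y - 1)) (A y) (nb (P / 13) h A (y + 1))) := by
  have hgap : ∀ i, 12 * P - 156 ≤ i → i < 156 * (P / 13) → smap Φ x i = x i := fun i h1 h2 =>
    smap_gap hM.mark.bar (MZ_noslot hM) h1 h2
  refine ⟨?_, ?_, ?_, ?_, hM.len⟩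
  · exact (Mk_congr fun i h1 h2 => hgap i h1 (by omega)).2 hM.mark
  · exact (Zs_congr fun i h1 h2 => hgap i (by omega) h2).2 hM.zs
  · intro y h1 h2
    have h3 := smap_SC (Φ := Φ) (hM.sl y h1 h2)
    have e1 : 156 * y - 156 = 156 * (y - 1) := by ring
    have e2 : 156 * y + 156 = 156 * (y + 1) := by ring
    rw [e1, e2, MZ.nbr hM (y - 1) (by omega) (by omega), MZ.nbr hM (y + 1) (by omega) (by omega)] at h3
    exact h3
  · intro i hi
    rw [smap_else, hM.tail i hi]
    intro p hp
    have := MZ_slot_le hM hp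
    right
    omega

theorem MZ_swapH (hM : MZ x P h A) (hh : A h = H0)
    (hno : ∀ y, P / 13 ≤ y → y < h → A y ≠ H0 ∧ A y ≠ H1) :
    MZ (sysH.swap x) P (h + 1) (fun y => if y = h then BL else if y = h + 1 then H1 else A y) := by
  have hlen := hM.len
  have hgap : ∀ i, 12 * P - 156 ≤ i → i < 156 * (P / 13) → sysH.swap x i = x i := fun i h1 h2 =>
    swapH_gap hM.mark.bar (MZ_noslot hM) h1 h2
  have hH : SC x (156 * h) H0 := by
    have := hM.sl h (by omega) le_rfl
    rwa [hh] at this
  have hz : Zs x (156 * h + 156) (156 * h + 312) := fun i h1 _ => hM.tail i (by omega)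
  have hg := swapH_grow hH hz
  refine ⟨?_, ?_, ?_, ?_, by omega⟩
  · exact (Mk_congr fun i h1 h2 => hgap i h1 (by omega)).2 hM.mark
  · exact (Zs_congr fun i h1 h2 => hgap i (by omega) h2).2 hM.zs
  · intro y h1 h2
    by_cases e1 : y = h
    · subst e1
      simp only [if_true]
      exact hg.1
    · by_cases e2 : y = h + 1
      · subst e2
        rw [if_neg e1, if_pos rfl]
        have e3 : 156 * (h + 1) = 156 * h + 156 := by ring
        rw [e3]
        exact hg.2
      · rw [if_neg e1, if_neg e2]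
        have hlt : y < h := by omega
        refine swapH_SC (hM.sl y h1 (by omega)) (hno y h1 hlt).1 (hno y h1 hlt).2 fun _ h3 => ?_
        have e3 : 156 * y + 156 = 156 * (y + 1) := by ring
        rw [e3] at h3
        have h4 := SC_unique h3 (hM.sl (y + 1) (by omega) (by omega))
        by_cases e4 : y + 1 = h
        · rw [e4, hh] at h4
          exact absurd h4 (by decide)
        · exact (hno (y + 1) (by omega) (by omega)).2 h4.symm
  · intro i hi
    rw [swapH_else, hM.tail i (by omega)]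
    · intro p hp _
      have := MZ_slot_le hM ⟨_, hp⟩
      right
      omega
    · intro p _ hp
      have := MZ_slot_le hM ⟨_, hp⟩
      right
      omega

theorem MZ_NN (hM : MZ x P h A) (hh : A h = H0)
    (hno : ∀ y, P / 13 ≤ y → y < h → A y ≠ H0 ∧ A y ≠ H1) :
    MZ (NN x) P (h + 1) (A3 (P / 13) h A) := by
  have s1 := MZ_swapH hM hh hno
  have s2 := MZ_smap s1 gG
  have e2 : (fun y => gG (nb (P / 13) (h + 1)
        (fun y => if y = h then BL else if y = h + 1 then H1 else A y) (y - 1))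
      ((fun y => if y = h then BL else if y = h + 1 then H1 else A y) y)
      (nb (P / 13) (h + 1) (fun y => if y = h then BL else if y = h + 1 then H1 else A y) (y + 1)))
      = A1 h A := by
    funext y
    unfold gG A1
    by_cases c1 : y = h
    · simp only [c1, if_true]
      decide
    · by_cases c2 : y = h + 1
      · simp only [c2, if_true]
        have : ¬ (h + 1 = h) := by omega
        simp only [if_neg this]
        decide
      · simp only [if_neg c1, if_neg c2]
  rw [e2] at s2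
  exact MZ_smap (MZ_smap s2 g2) cv

/-- The cells in front of the marker do not matter. -/
theorem MZ_congr (hM : MZ x P h A) (hz : ∀ i, 12 * P - 156 ≤ i → z i = x i) : MZ z P h A := by
  refine ⟨?_, ?_, ?_, ?_, hM.len⟩
  · exact (Mk_congr fun i h1 _ => hz i h1).2 hM.mark
  · exact (Zs_congr fun i h1 _ => hz i (by omega)).2 hM.zs
  · intro y h1 h2
    exact (SC_congr fun i h3 _ => hz i (by omega)).2 (hM.sl y h1 h2)
  · intro i hi
    have := hM.len
    rw [hz i (by omega), hM.tail i hi]

/-- The only marker. -/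
theorem MZ_mk (hM : MZ x P h A) : ∀ q, 12 * P - 156 ≤ q → Mk x q → q = 12 * P - 156 := by
  have hlen := hM.len
  refine mk_only (n := (h + 1 - P / 13).toNat) (p := 156 * (P / 13)) hM.mark ?_ ?_ ?_ (by omega)
  · have e : 12 * P - 156 + 12 = 12 * P - 144 := by ring
    rw [e]
    exact hM.zs
  · intro k hk
    have e : 156 * (P / 13) + 156 * (k : ℤ) = 156 * (P / 13 + (k : ℤ)) := by ring
    rw [e]
    exact MZ_slot hM (by omega) (by omega)
  · intro q hq hm
    have h1 := hM.tail q (by omega)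
    have h2 := hm.c0
    rw [h1] at h2
    exact absurd h2 (by decide)

/-- Zeros from the marker to a slot: it is the first slot. -/
theorem MZ_first (hM : MZ x P h A) {q : ℤ} (hq : 12 * P - 144 ≤ q) (hs : Slot x q)
    (hz : Zs x (12 * P - 144) q) : q = 156 * (P / 13) := by
  rcases lt_trichotomy q (156 * (P / 13)) with h1 | h1 | h1
  · have h2 := hM.zs q hq h1
    have h3 := hs.pre.c0
    rw [h2] at h3
    exact absurd h3 (by decide)
  · exact h1
  · have hlen := hM.len
    have h2 := hz (156 * (P / 13)) (by omega) h1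
    have h3 := (MZ_slot hM (y := P / 13) le_rfl (by omega)).pre.c0
    rw [h2] at h3
    exact absurd h3 (by decide)

theorem MZ_eq0 (hM : MZ x P h A) {c : Cont} (hc : SC x (156 * (P / 13)) c) : A (P / 13) = c :=
  SC_unique (hM.sl _ le_rfl (by have := hM.len; omega)) hc

theorem MZ_eq1 (hM : MZ x P h A) {c : Cont} (hc : SC x (156 * (P / 13) + 156) c) :
    A (P / 13 + 1) = c := by
  have e : 156 * (P / 13) + 156 = 156 * (P / 13 + 1) := by ring
  rw [e] at hc
  exact SC_unique (hM.sl _ (by omega) (by have := hM.len; omega)) hc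

/-- No event at the marker. -/
theorem MZ_none (hx : Mk x (12 * P - 156)) (hM : MZ (NN x) P h A)
    (h1 : ∀ u, ¬ (A (P / 13) = BL ∧ A (P / 13 + 1) = cD u))
    (h2 : P % 13 ≠ 0 → ∀ u, ¬ (A (P / 13) = BL ∧ A (P / 13 + 1) = cE u))
    (h3 : P % 13 = 0 → ∀ u, A (P / 13) ≠ cE u) :
    RN (12 * P - 156) x ∧ MZ (FF x) P h A := by
  have hrn : RN (12 * P - 156) x := by
    refine ⟨hx.bar, fun z w r sd hz hm => ?_⟩
    by_contra hlt
    have hZ : MZ z P h A := MZ_congr hM hz
    have hmp := MZ_mk hZ _ (by omega) hm.mk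
    obtain ⟨j, v⟩ := r
    have hj := j.isLt
    cases sd with
    | false =>
      have hw : w = 12 * P - 156 := hmp
      subst hw
      obtain ⟨-, m2, m3, m4⟩ := Mt_false.1 hm
      have e1 : 12 * P - 156 + 12 = 12 * P - 144 := by ring
      rw [e1] at m2 m3
      have hq := MZ_first hZ (by omega) ⟨_, m3⟩ m2
      refine h1 v ⟨MZ_eq0 hZ (by rwa [hq] at m3), MZ_eq1 hZ ?_⟩
      have e2 : 12 * P - 156 + 168 + 12 * ((j : ℕ) : ℤ) = 156 * (P / 13) + 156 := by omega
      rwa [e2] at m4
    | true =>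
      have hw : w = 12 * P - 168 := by
        have : w + 12 = 12 * P - 156 := hmp
        omega
      subst hw
      obtain ⟨-, -, m2, m3, m4⟩ := Mt_true.1 hm
      by_cases hj0 : ((j : ℕ) : ℤ) = 0
      · have m5 := m2 hj0
        have e1 : 12 * P - 168 + 24 = 12 * P - 144 := by ring
        have e2 : 12 * P - 168 + 168 + 12 * ((j : ℕ) : ℤ) = 12 * P := by omega
        have e3 : 12 * P - 168 + 168 = 12 * P := by ring
        rw [e1, e3] at m5
        rw [e2] at m4
        have hq := MZ_first hZ (by omega) ⟨_, m4⟩ m5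
        exact h3 (by omega) v (MZ_eq0 hZ (by rwa [hq] at m4))
      · obtain ⟨m5, m6⟩ := m3 hj0
        have e1 : 12 * P - 168 + 24 = 12 * P - 144 := by ring
        rw [e1] at m5
        have hq := MZ_first hZ (by omega) ⟨_, m6⟩ m5
        refine h2 (by omega) v ⟨MZ_eq0 hZ (by rwa [hq] at m6), MZ_eq1 hZ ?_⟩
        have e2 : 12 * P - 168 + 168 + 12 * ((j : ℕ) : ℤ) = 156 * (P / 13) + 156 := by omega
        rwa [e2] at m4
  exact ⟨hrn, MZ_congr hM (rn_right hrn)⟩

/-- The zone after the exchange of the window at the marker. -/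
theorem MZ_after (hM : MZ x P h A) (h1 : A (P / 13) = BL) (h3 : P / 13 + 3 ≤ h) {j : Fin 13}
    (hj : 12 * P - 144 + 12 * ((j : ℕ) : ℤ) = 156 * (P / 13))
    (hz : Mt z (12 * P - 156) (j, u) true)
    (hz' : ∀ i, 12 * P - 156 + el (j, u) ≤ i → z i = x i) :
    MZ z (P + 1) h (fun y => if y = P / 13 + 1 then cE u else A y) := by
  have hjl := j.isLt
  obtain ⟨-, m1, m2, m3, m4⟩ := Mt_true.1 hz
  have hel : 12 * P - 156 + el (j, u) = 156 * (P / 13 + 2) := by
    have he : el (j, u) = 324 + 12 * ((j : ℕ) : ℤ) := rfl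
    omega
  rw [hel] at hz'
  have e4 : 12 * P - 156 + 168 + 12 * ((j : ℕ) : ℤ) = 156 * (P / 13 + 1) := by omega
  rw [e4] at m4
  have e5 : 12 * P - 156 + 24 = 12 * (P + 1) - 144 := by ring
  rw [e5] at m2 m3
  refine ⟨?_, ?_, ?_, ?_, by omega⟩
  · have e1 : 12 * (P + 1) - 156 = 12 * P - 156 + 12 := by ring
    rw [e1]
    exact m1
  · by_cases hj0 : ((j : ℕ) : ℤ) = 0
    · have e6 : 12 * P - 156 + 168 = 156 * ((P + 1) / 13) := by omega
      rw [← e6]
      exact m2 hj0
    · have e6 : 12 * P - 156 + 12 + 12 * ((j : ℕ) : ℤ) = 156 * ((P + 1) / 13) := by omega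
      rw [← e6]
      exact (m3 hj0).1
  · intro y hy1 hy2
    by_cases c1 : y = P / 13 + 1
    · subst c1
      simp only [if_true]
      exact m4
    · rw [if_neg c1]
      by_cases c2 : y = P / 13
      · have hj0 : ((j : ℕ) : ℤ) ≠ 0 := by omega
        have e6 : 12 * P - 156 + 12 + 12 * ((j : ℕ) : ℤ) = 156 * (P / 13) := by omega
        have m5 := (m3 hj0).2
        rw [e6] at m5
        rw [c2, h1]
        exact m5
      · refine (SC_congr fun i h4 _ => hz' i (by omega)).2 (hM.sl y (by omega) hy2)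
  · intro i hi
    rw [hz' i (by omega), hM.tail i hi]

/-- Push at the marker. -/
theorem MZ_push (hx : Mk x (12 * P - 156)) (hM : MZ (NN x) P h A)
    (h1 : A (P / 13) = BL) (h2 : A (P / 13 + 1) = cD u) (h3 : P / 13 + 3 ≤ h) :
    RP u (12 * P - 156) x ∧
      MZ (FF x) (P + 1) h (fun y => if y = P / 13 + 1 then cE u else A y) := by
  obtain ⟨j, hj⟩ : ∃ j : Fin 13, 12 * P - 144 + 12 * ((j : ℕ) : ℤ) = 156 * (P / 13) := by
    refine ⟨⟨(12 - P % 13).toNat, by omega⟩, ?_⟩
    show 12 * P - 144 + 12 * (((12 - P % 13).toNat : ℕ) : ℤ) = 156 * (P / 13)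
    omega
  have hjl := j.isLt
  have hmt : Mt (NN x) (12 * P - 156) (j, u) false := by
    refine Mt_false.2 ⟨hM.mark, ?_, ?_, ?_⟩
    · have e1 : 12 * P - 156 + 12 = 12 * P - 144 := by ring
      rw [e1, hj]
      exact hM.zs
    · have e1 : 12 * P - 156 + 12 + 12 * ((j : ℕ) : ℤ) = 156 * (P / 13) := by omega
      rw [e1, ← h1]
      exact hM.sl _ le_rfl (by omega)
    · have e1 : 12 * P - 156 + 168 + 12 * ((j : ℕ) : ℤ) = 156 * (P / 13 + 1) := by omega
      rw [e1, ← h2]
      exact hM.sl _ (by omega) (by omega)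
  have hel : 12 * P - 156 + el (j, u) = 156 * (P / 13 + 2) := by
    have he : el (j, u) = 324 + 12 * ((j : ℕ) : ℤ) := rfl
    omega
  have hrp : RP u (12 * P - 156) x := by
    refine ⟨hx.bar, (j, u), rfl, hmt, ?_, ?_, ?_⟩
    · rw [hel]
      exact MZ_slot hM (by omega) (by omega)
    · intro z w r' sd hz hm hmp
      have hZ : MZ z P h A := MZ_congr hM hz
      have h4 := MZ_mk hZ _ hmp hm.mk
      have h5 : Mt z (12 * P - 156) (j, u) false := (Mt_congr fun i h6 _ => hz i h6).2 hmt
      have h6 := Mt_unique hm h5 h4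
      exact h6
    · intro z w r' sd hz hz' hm hmp
      have h5 : Mt z (12 * P - 156) (j, u) true := by
        intro i hi1 hi2
        rw [hz _ (by omega) (by omega)]
        congr 1
        ring
      have hZ := MZ_after hM h1 h3 hj h5 hz'
      have h4 := MZ_mk hZ _ (by omega) hm.mk
      exact Mt_unique hm h5 (by rw [h4]; show 12 * (P + 1) - 156 = 12 * P - 156 + 12; ring)
  refine ⟨hrp, ?_⟩
  obtain ⟨r, -, hr2, hr3, hr4⟩ := rp_right hrp
  obtain ⟨-, hr5, -⟩ := Mt_unique hr2 hmt rfl
  subst hr5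
  refine MZ_after hM h1 h3 hj ?_ hr4
  intro i hi1 hi2
  rw [hr3 _ (by omega) (by omega)]
  congr 1
  ring

end Pool.Agent.WU
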