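import Pool.Agent.WU.Defs

/-!
# Elementary facts on code words, slots and markers
-/

set_option autoImplicit false

namespace Pool.Agent.WU

open Function

variable {x y : Cfg} {p q a b i w : ℤ} {c c' : Cont} {u v : Dg}

theorem code_0 (c : Cont) : code c 0 = true := by
  unfold code
  rw [if_pos (Or.inl rfl)]

theorem code_1 (c : Cont) : code c 1 = true := by
  unfold code
  rw [if_pos (Or.inr (Or.inl rfl))]

theorem code_2 (c : Cont) : code c 2 = false := by
  unfold code
  rw [if_neg (by omega), dif_neg (by omega)]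

theorem code_3 (c : Cont) : code c 3 = true := by
  unfold code
  rw [if_pos (Or.inr (Or.inr rfl))]

theorem code_4 (c : Cont) : code c 4 = false := by
  unfold code
  rw [if_neg (by omega), dif_neg (by omega)]

/-- The last 14 cells are zero. -/
theorem code_tail (c : Cont) (i : ℤ) (h : 142 ≤ i) : code c i = false := by
  unfold code
  rw [if_neg (by omega), dif_neg (by omega)]

theorem Slots_code_even (c : Cont) (i : ℤ) (h : 2 ≤ i) (h2 : i % 2 = 0) : code c i = false := by
  unfold code
  rw [if_neg (by omega), dif_neg (by omega)]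

/-- Two consecutive ones occur only at offset 0. -/
theorem code_pair (c : Cont) (i : ℤ) (h : 1 ≤ i) : code c i = false ∨ code c (i + 1) = false := by
  by_cases h2 : i % 2 = 0
  · exact Or.inl (Slots_code_even c i (by omega) h2)
  · exact Or.inr (Slots_code_even c (i + 1) (by omega) (by omega))

theorem code_inj (c c' : Cont) (h : ∀ i : ℤ, 0 ≤ i → i < 144 → code c i = code c' i) : c = c' := by
  apply enc_injective
  funext k
  have hk := k.isLt
  have h1 := h (5 + 2 * ((k : ℕ) : ℤ)) (by omega) (by omega)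
  unfold code at h1
  have e : (((5 + 2 * ((k : ℕ) : ℤ)) - 5) / 2).toNat = (k : ℕ) := by omega
  rw [if_neg (by omega), if_neg (by omega), dif_pos (by omega), dif_pos (by omega)] at h1
  have e2 : (⟨(((5 + 2 * ((k : ℕ) : ℤ)) - 5) / 2).toNat, by omega⟩ : Fin 69) = k := by
    apply Fin.ext
    exact e
  rwa [e2] at h1

theorem SC_unique (h : SC x p c) (h' : SC x p c') : c = c' := by
  apply code_inj
  intro i h0 h1
  rw [← h i h0 (by omega), ← h' i h0 (by omega)]

theorem nbr_eq_some : nbr x p = some c ↔ SC x p c := by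
  unfold nbr
  by_cases h : ∃ c, SC x p c
  · rw [dif_pos h]
    constructor
    · intro h1
      have h2 := Option.some.inj h1
      rw [← h2]
      exact h.choose_spec
    · intro h1
      rw [SC_unique h1 h.choose_spec]
  · rw [dif_neg h]
    constructor
    · intro h1
      exact absurd h1 (by simp)
    · intro h1
      exact absurd ⟨c, h1⟩ h

theorem nbr_eq_none : nbr x p = none ↔ ¬ Slot x p := by
  unfold nbr Slot
  by_cases h : ∃ c, SC x p c
  · rw [dif_pos h]
    simp [h]
  · rw [dif_neg h]
    simp only [h, not_false_eq_true]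

theorem Slot.pre (h : Slot x p) : Pre x p := by
  obtain ⟨c, hc⟩ := h
  exact ⟨c, fun i h0 h1 => hc i h0 (by omega)⟩

theorem Pre.c0 (h : Pre x p) : x p = true := by
  obtain ⟨c, hc⟩ := h
  have := hc 0 (by omega) (by omega)
  rwa [add_zero, code_0] at this

theorem Pre.c1 (h : Pre x p) : x (p + 1) = true := by
  obtain ⟨c, hc⟩ := h
  rw [hc 1 (by omega) (by omega), code_1]

theorem Pre.c2 (h : Pre x p) : x (p + 2) = false := by
  obtain ⟨c, hc⟩ := h
  rw [hc 2 (by omega) (by omega), code_2]

theorem Pre.c3 (h : Pre x p) : x (p + 3) = true := by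
  obtain ⟨c, hc⟩ := h
  rw [hc 3 (by omega) (by omega), code_3]

theorem Pre.last (h : Pre x p) : x (p + 143) = false := by
  obtain ⟨c, hc⟩ := h
  rw [hc 143 (by omega) (by omega), code_tail c 143 (by omega)]

theorem Slot.last (h : Slot x p) (h1 : p + 142 ≤ i) (h2 : i < p + 156) : x i = false := by
  obtain ⟨c, hc⟩ := h
  have h3 := hc (i - p) (by omega) (by omega)
  have e : p + (i - p) = i := by omega
  rwa [e, code_tail c (i - p) (by omega)] at h3

/-- A pair of ones after the start of a `Pre` lies behind it. -/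
theorem Pre.after (h : Pre x p) (h1 : x q = true) (h2 : x (q + 1) = true) (hpq : p < q) :
    p + 144 ≤ q := by
  obtain ⟨c, hc⟩ := h
  by_contra hlt
  by_cases h143 : q = p + 143
  · subst h143
    rw [hc 143 (by omega) (by omega), code_tail c 143 (by omega)] at h1
    exact absurd h1 (by simp)
  · have e1 := hc (q - p) (by omega) (by omega)
    have e2 := hc (q - p + 1) (by omega) (by omega)
    have e3 : p + (q - p) = q := by omega
    have e4 : p + (q - p + 1) = q + 1 := by omega
    rw [e3, h1] at e1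
    rw [e4, h2] at e2
    rcases code_pair c (q - p) (by omega) with h5 | h5
    · rw [h5] at e1
      exact absurd e1 (by simp)
    · rw [h5] at e2
      exact absurd e2 (by simp)

/-- A pair of ones after the start of a slot lies behind it. -/
theorem Slot.after (h : Slot x p) (h1 : x q = true) (h2 : x (q + 1) = true) (hpq : p < q) :
    p + 156 ≤ q := by
  have h3 := h.pre.after h1 h2 hpq
  by_contra hlt
  have h4 := h.last (i := q) (by omega) (by omega)
  rw [h1] at h4
  exact absurd h4 (by simp)

theorem Slot.disj (h : Slot x p) (h' : Slot x q) (hpq : p < q) : p + 156 ≤ q :=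
  h.after h'.pre.c0 h'.pre.c1 hpq

theorem Slot.disj' (h : Slot x p) (h' : Slot x q) : p = q ∨ p + 156 ≤ q ∨ q + 156 ≤ p := by
  rcases lt_trichotomy p q with h1 | h1 | h1
  · exact Or.inr (Or.inl (h.disj h' h1))
  · exact Or.inl h1
  · exact Or.inr (Or.inr (h'.disj h h1))

theorem SC_congr (h : ∀ i : ℤ, p ≤ i → i < p + 156 → x i = y i) : SC x p c ↔ SC y p c := by
  constructor
  · intro h1 i h0 h2
    rw [← h (p + i) (by omega) (by omega)]
    exact h1 i h0 h2
  · intro h1 i h0 h2
    rw [h (p + i) (by omega) (by omega)]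
    exact h1 i h0 h2

theorem Slot_congr (h : ∀ i : ℤ, p ≤ i → i < p + 156 → x i = y i) : Slot x p ↔ Slot y p :=
  exists_congr fun _ => SC_congr h

theorem Pre_congr (h : ∀ i : ℤ, p ≤ i → i < p + 144 → x i = y i) : Pre x p ↔ Pre y p := by
  refine exists_congr fun c => ?_
  constructor
  · intro h1 i h0 h2
    rw [← h (p + i) (by omega) (by omega)]
    exact h1 i h0 h2
  · intro h1 i h0 h2
    rw [h (p + i) (by omega) (by omega)]
    exact h1 i h0 h2

theorem nbr_congr (h : ∀ i : ℤ, p ≤ i → i < p + 156 → x i = y i) : nbr x p = nbr y p := by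
  cases h1 : nbr y p with
  | none => exact nbr_eq_none.2 fun h2 => nbr_eq_none.1 h1 ((Slot_congr h).1 h2)
  | some c => exact nbr_eq_some.2 ((SC_congr h).2 (nbr_eq_some.1 h1))

theorem Mk_congr (h : ∀ i : ℤ, p ≤ i → i < p + 12 → x i = y i) : Mk x p ↔ Mk y p := by
  constructor
  · intro h1 i h0 h2
    rw [← h (p + i) (by omega) (by omega)]
    exact h1 i h0 h2
  · intro h1 i h0 h2
    rw [h (p + i) (by omega) (by omega)]
    exact h1 i h0 h2

theorem Zs_congr (h : ∀ i : ℤ, a ≤ i → i < b → x i = y i) : Zs x a b ↔ Zs y a b := by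
  constructor
  · intro h1 i h0 h2
    rw [← h i h0 h2]
    exact h1 i h0 h2
  · intro h1 i h0 h2
    rw [h i h0 h2]
    exact h1 i h0 h2

theorem Mk.c0 (h : Mk x p) : x p = true := by
  have := h 0 (by omega) (by omega)
  rw [add_zero] at this
  rw [this]
  simp [Mw]

theorem Mk.c1 (h : Mk x p) : x (p + 1) = true := by
  rw [h 1 (by omega) (by omega)]
  simp [Mw]

theorem Mk.zero (h : Mk x p) (h1 : p + 2 ≤ i) (h2 : i < p + 12) : x i = false := by
  have h3 := h (i - p) (by omega) (by omega)
  have e : p + (i - p) = i := by omega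
  rw [e] at h3
  rw [h3]
  unfold Mw
  rw [decide_eq_false (by omega)]

/-- Markers are not starts of slots. -/
theorem Mk.not_pre (h : Mk x p) : ¬ Pre x p := by
  intro h1
  have h2 := h1.c3
  rw [h.zero (i := p + 3) (by omega) (by omega)] at h2
  exact absurd h2 (by simp)

theorem Mk_iff : Mk x p ↔ x p = true ∧ x (p + 1) = true ∧ Zs x (p + 2) (p + 12) := by
  constructor
  · intro h
    exact ⟨h.c0, h.c1, fun i h1 h2 => h.zero h1 h2⟩
  · rintro ⟨h0, h1, h2⟩ i h3 h4
    unfold Mw
    by_cases e0 : i = 0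
    · subst e0
      simp [h0]
    · by_cases e1 : i = 1
      · subst e1
        simp [h1]
      · rw [h2 (p + i) (by omega) (by omega), decide_eq_false (by omega)]

theorem bit_inj (h : ∀ i : ℤ, 0 ≤ i → i < 12 → bit u i = bit v i) : u = v := by
  apply bl.injective
  funext k
  have hk := k.isLt
  have h1 := h ((k : ℕ) : ℤ) (by omega) (by omega)
  unfold bit at h1
  rw [dif_pos (by omega), dif_pos (by omega)] at h1
  simpa using h1

theorem exists_bit (f : ℤ → Bool) : ∃ u : Dg, ∀ i : ℤ, 0 ≤ i → i < 12 → bit u i = f i := by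
  refine ⟨bl.symm fun k => f ((k : ℕ) : ℤ), ?_⟩
  intro i h0 h1
  unfold bit
  rw [dif_pos ⟨h0, h1⟩, Equiv.apply_symm_apply]
  congr 1
  exact Int.toNat_of_nonneg h0

theorem wr_in (h1 : w ≤ i) (h2 : i < w + 12) : wr x w u i = bit u (i - w) := by
  unfold wr
  rw [if_pos ⟨h1, h2⟩]

theorem wr_out (h : i < w ∨ w + 12 ≤ i) : wr x w u i = x i := by
  unfold wr
  rw [if_neg (by omega)]

/-- A barrier: a pair of ones which is not the start of a slot or of a `Pre`. -/
def Bar (x : Cfg) (b : ℤ) : Prop :=
  x b = true ∧ x (b + 1) = true ∧ (x (b + 2) = true ∨ x (b + 3) = false)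

theorem Bar.not_pre (h : Bar x b) : ¬ Pre x b := by
  intro h1
  rcases h.2.2 with h2 | h2
  · rw [h1.c2] at h2
    exact absurd h2 (by simp)
  · rw [h1.c3] at h2
    exact absurd h2 (by simp)

theorem Bar.not_slot (h : Bar x b) : ¬ Slot x b := fun h1 => h.not_pre h1.pre

theorem Mk.bar (h : Mk x b) : Bar x b :=
  ⟨h.c0, h.c1, Or.inr (h.zero (i := b + 3) (by omega) (by omega))⟩

/-- No slot crosses a barrier. -/
theorem Bar.slot (h : Bar x b) (hp : Slot x p) (hpb : p ≤ b) : p + 156 ≤ b := by
  rcases eq_or_lt_of_le hpb with rfl | h1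
  · exact absurd hp h.not_slot
  · exact hp.after h.1 h.2.1 h1

/-- No `Pre` crosses a barrier. -/
theorem Bar.pre (h : Bar x b) (hp : Pre x p) (hpb : p ≤ b) : p + 144 ≤ b := by
  rcases eq_or_lt_of_le hpb with rfl | h1
  · exact absurd hp h.not_pre
  · exact hp.after h.1 h.2.1 h1

theorem Bar_congr (h : ∀ i : ℤ, b ≤ i → i < b + 4 → x i = y i) : Bar x b ↔ Bar y b := by
  unfold Bar
  rw [h b (by omega) (by omega), h (b + 1) (by omega) (by omega), h (b + 2) (by omega) (by omega),
    h (b + 3) (by omega) (by omega)]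

end Pool.Agent.WU
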