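import Pool.Agent.WU.Slots

/-!
# Slot maps
-/

set_option autoImplicit false

namespace Pool.Agent.WU

open Function

variable {x y : Cfg} {p q a b i w : ℤ} {c c' : Cont}
  {Φ Ψ : Option Cont → Cont → Option Cont → Cont}

/-- Cells of a slot under a slot map. -/
theorem smap_at (h : SC x p c) (h1 : p ≤ i) (h2 : i < p + 156) :
    smap Φ x i = code (Φ (nbr x (p - 156)) c (nbr x (p + 156))) (i - p) := by
  have hex : ∃ p : ℤ, Slot x p ∧ p ≤ i ∧ i < p + 156 := ⟨p, ⟨c, h⟩, h1, h2⟩
  have e : hex.choose = p := by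
    have h3 := hex.choose_spec
    rcases Slot.disj' h3.1 ⟨c, h⟩ with h4 | h4 | h4
    · exact h4
    · exact absurd h3.2.2 (by omega)
    · exact absurd h3.2.1 (by omega)
  have e2 : hex.choose_spec.1.choose = c := by
    refine SC_unique (x := x) (p := p) ?_ h
    intro j hj1 hj2
    have h5 := hex.choose_spec.1.choose_spec j hj1 hj2
    rw [← h5, e]
  unfold smap
  rw [dif_pos hex, e2, e]

theorem smap_SC (h : SC x p c) :
    SC (smap Φ x) p (Φ (nbr x (p - 156)) c (nbr x (p + 156))) := by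
  intro j hj1 hj2
  rw [smap_at h (by omega) (by omega)]
  congr 1
  omega

theorem smap_else (h : ∀ p, Slot x p → i < p ∨ p + 156 ≤ i) : smap Φ x i = x i := by
  unfold smap
  rw [dif_neg]
  rintro ⟨q, h1, h2, h3⟩
  rcases h q h1 with h4 | h4 <;> omega

theorem smap_Slot : Slot (smap Φ x) p ↔ Slot x p := by
  constructor
  · rintro ⟨d, hd⟩
    by_cases hq : ∃ q i : ℤ, Slot x q ∧ q ≤ i ∧ i < q + 156 ∧ p ≤ i ∧ i < p + 156
    · obtain ⟨q, i, ⟨e, he⟩, h1, h2, h3, h4⟩ := hq
      rcases Slot.disj' (x := smap Φ x) ⟨d, hd⟩ ⟨_, smap_SC he⟩ with h5 | h5 | h5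
      · rw [h5]; exact ⟨e, he⟩
      · omega
      · omega
    · refine ⟨d, (SC_congr (x := smap Φ x) (y := x) ?_).1 hd⟩
      intro i h1 h2
      refine smap_else ?_
      intro q h3
      by_contra h4
      exact hq ⟨q, i, h3, by omega, by omega, h1, h2⟩
  · rintro ⟨d, hd⟩
    exact ⟨_, smap_SC hd⟩

theorem nbr_smap : nbr (smap Φ x) p =
    (nbr x p).map (fun c => Φ (nbr x (p - 156)) c (nbr x (p + 156))) := by
  by_cases h : Slot x p
  · obtain ⟨d, hd⟩ := h
    rw [nbr_eq_some.2 hd, nbr_eq_some.2 (smap_SC hd)]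
    rfl
  · rw [nbr_eq_none.2 h, nbr_eq_none.2 (fun h' => h (smap_Slot.1 h'))]
    rfl

/-- Header cells of slots and cells outside slots do not change. -/
theorem smap_head (h : ∀ p, Slot x p → i < p + 5 ∨ p + 156 ≤ i) : smap Φ x i = x i := by
  by_cases hq : ∃ q : ℤ, Slot x q ∧ q ≤ i ∧ i < q + 156
  · obtain ⟨q, ⟨d, hd⟩, h1, h2⟩ := hq
    have h3 : i < q + 5 := by
      rcases h q ⟨d, hd⟩ with h4 | h4
      · exact h4
      · omega
    rw [smap_at hd h1 h2]
    have h4 := hd (i - q) (by omega) (by omega)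
    rw [show q + (i - q) = i by ring] at h4
    rw [h4]
    have h5 : i - q = 0 ∨ i - q = 1 ∨ i - q = 2 ∨ i - q = 3 ∨ i - q = 4 := by omega
    rcases h5 with h5 | h5 | h5 | h5 | h5 <;> rw [h5]
    · rw [code_0, code_0]
    · rw [code_1, code_1]
    · rw [code_2, code_2]
    · rw [code_3, code_3]
    · rw [code_4, code_4]
  · refine smap_else ?_
    intro p hp
    by_contra h4
    exact hq ⟨p, hp, by omega, by omega⟩

theorem smap_smap (H : ∀ (x : Cfg) (p : ℤ) (c : Cont), SC x p c →
      Ψ (nbr (smap Φ x) (p - 156)) (Φ (nbr x (p - 156)) c (nbr x (p + 156)))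
        (nbr (smap Φ x) (p + 156)) = c) (x : Cfg) :
    smap Ψ (smap Φ x) = x := by
  funext i
  by_cases hq : ∃ q : ℤ, Slot x q ∧ q ≤ i ∧ i < q + 156
  · obtain ⟨q, ⟨d, hd⟩, h1, h2⟩ := hq
    rw [smap_at (smap_SC hd) h1 h2, H x q d hd]
    have h4 := hd (i - q) (by omega) (by omega)
    rw [show q + (i - q) = i by ring] at h4
    exact h4.symm
  · have h3 : ∀ p, Slot x p → i < p ∨ p + 156 ≤ i := by
      intro p hp
      by_contra h4
      exact hq ⟨p, hp, by omega, by omega⟩
    rw [smap_else (fun p hp => h3 p (smap_Slot.1 hp)), smap_else h3]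

theorem tau_tau (t : Tok) : tau (tau t) = t := by
  unfold tau
  by_cases h1 : t = tK
  · subst h1
    simp [tK, tN]
  · by_cases h2 : t = tN
    · subst h2
      simp [tK, tN]
    · simp [h1, h2]

theorem smap_H01 : H0 ≠ H1 := by
  intro h
  have := congrArg Cont.h h
  simp [H0, H1] at this

/-- The main part of `gam`. -/
def smapGam (c : Cont) : Cont :=
  match c.L, c.R, c.S0 with
  | none, some (Sum.inr (Sum.inr true)), some (some x) =>
      if x = 4095 then { c with L := tD x, S0 := dd 0 }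
      else { c with L := tD x, R := tN, S0 := dd (x + 1) }
  | none, some (Sum.inr (Sum.inr false)), some (some x) => { c with L := tD x }
  | some (Sum.inl y), some (Sum.inr (Sum.inr true)), some (some x) =>
      if y = 4095 ∧ x = 0 then { c with L := none, S0 := dd y } else c
  | some (Sum.inl y), some (Sum.inr (Sum.inr false)), some (some x) =>
      if x = y then { c with L := none }
      else if y ≠ 4095 ∧ x = y + 1 then { c with L := none, R := tK, S0 := dd y } else c
  | _, _, _ => c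

theorem smapGam_cases (c : Cont) : (smapGam c = c) ∨
    (smapGam (smapGam c) = c ∧ (∃ x : Dg, c.S0 = dd x) ∧ ∃ x : Dg, (smapGam c).S0 = dd x) := by
  obtain ⟨L, R, S0, S1, Q, h⟩ := c
  rcases S0 with _ | (_ | x)
  · left
    rcases L with _ | (u | (v | (_ | _))) <;> rcases R with _ | (u' | (v' | (_ | _))) <;> rfl
  · left
    rcases L with _ | (u | (v | (_ | _))) <;> rcases R with _ | (u' | (v' | (_ | _))) <;> rfl
  · rcases L with _ | (u | (v | (_ | _))) <;> rcases R with _ | (u' | (v' | (_ | _)))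
    all_goals try (left; rfl)
    · right
      refine ⟨?_, ⟨x, rfl⟩, ⟨x, rfl⟩⟩
      simp [smapGam, tD]
    · right
      by_cases hx : x = 4095
      · subst hx
        refine ⟨?_, ⟨4095, rfl⟩, ⟨0, ?_⟩⟩
        · simp [smapGam, tD, dd]
        · simp [smapGam]
      · refine ⟨?_, ⟨x, rfl⟩, ⟨x + 1, ?_⟩⟩
        · simp [smapGam, tD, dd, tN, tK, hx]
        · simp [smapGam, hx]
    · by_cases hx : x = u
      · right
        subst hx
        refine ⟨?_, ⟨x, rfl⟩, ⟨x, ?_⟩⟩
        · simp [smapGam, tD]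
        · simp [smapGam, dd]
      · by_cases h2 : u ≠ 4095 ∧ x = u + 1
        · right
          obtain ⟨h3, h4⟩ := h2
          subst h4
          refine ⟨?_, ⟨u + 1, rfl⟩, ⟨u, ?_⟩⟩
          · simp [smapGam, tD, dd, tN, tK, h3]
          · simp [smapGam, h3]
        · left
          simp only [smapGam]
          rw [if_neg hx, if_neg h2]
    · by_cases h2 : u = 4095 ∧ x = 0
      · right
        obtain ⟨h3, h4⟩ := h2
        subst h3
        subst h4
        refine ⟨?_, ⟨0, rfl⟩, ⟨4095, ?_⟩⟩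
        · simp [smapGam, tD, dd]
        · simp [smapGam]
      · left
        simp only [smapGam]
        rw [if_neg h2]

theorem smap_gam_eq (c : Cont) (h0 : c ≠ H0) (h1 : c ≠ H1) : gam c = smapGam c := by
  unfold gam smapGam
  rw [if_neg h0, if_neg h1]
  rfl

theorem gam_gam (c : Cont) : gam (gam c) = c := by
  by_cases h0 : c = H0
  · subst h0
    have e1 : gam H0 = H1 := by unfold gam; rw [if_pos rfl]
    have e2 : gam H1 = H0 := by unfold gam; rw [if_neg (Ne.symm smap_H01), if_pos rfl]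
    rw [e1, e2]
  · by_cases h1 : c = H1
    · subst h1
      have e1 : gam H0 = H1 := by unfold gam; rw [if_pos rfl]
      have e2 : gam H1 = H0 := by unfold gam; rw [if_neg (Ne.symm smap_H01), if_pos rfl]
      rw [e2, e1]
    · have e := smap_gam_eq c h0 h1
      rcases smapGam_cases c with h | ⟨h, _, x, hx⟩
      · rw [e, h, e, h]
      · have h2 : smapGam c ≠ H0 := by
          intro h3
          rw [h3] at hx
          simp [H0, dd] at hx
        have h3 : smapGam c ≠ H1 := by
          intro h3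
          rw [h3] at hx
          simp [H1, dd] at hx
        rw [e, smap_gam_eq _ h2 h3, h]

theorem smap_gG_gG (x : Cfg) : smap gG (smap gG x) = x := by
  refine smap_smap ?_ x
  intro x p c _
  exact gam_gam c

/-! ### The turning of the head -/

theorem smap_ne12 : t1 ≠ t2 := by
  intro h
  have := congrArg Cont.L h
  simp [t1, t2, tN] at this

theorem smap_ne13 : t1 ≠ t3 := by
  intro h
  have := congrArg Cont.R h
  simp [t1, t3, tN] at this

theorem smap_ne1B : t1 ≠ BL := by
  intro h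
  have := congrArg Cont.R h
  simp [t1, BL, tN] at this

theorem smap_ne23 : t2 ≠ t3 := by
  intro h
  have := congrArg Cont.L h
  simp [t2, t3, tN] at this

theorem smap_ne2B : t2 ≠ BL := by
  intro h
  have := congrArg Cont.L h
  simp [t2, BL, tN] at this

theorem smap_ne3B : t3 ≠ BL := by
  intro h
  have := congrArg Cont.S0 h
  simp [t3, BL, dT] at this

theorem smap_g2a (l : Option Cont) : g2 l t1 (some BL) = t2 := by
  unfold g2
  rw [if_pos ⟨rfl, rfl⟩]

theorem smap_g2b (l : Option Cont) : g2 l t2 (some t3) = t1 := by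
  unfold g2
  rw [if_neg (fun h => smap_ne12 h.1.symm), if_pos ⟨rfl, rfl⟩]

theorem smap_g2c (r : Option Cont) : g2 (some t1) BL r = t3 := by
  unfold g2
  rw [if_neg (fun h => smap_ne1B h.1.symm), if_neg (fun h => smap_ne2B h.1.symm),
    if_pos ⟨rfl, rfl⟩]

theorem smap_g2d (r : Option Cont) : g2 (some t2) t3 r = BL := by
  unfold g2
  rw [if_neg (fun h => smap_ne13 h.1.symm), if_neg (fun h => smap_ne23 h.1.symm),
    if_neg (fun h => smap_ne3B h.1), if_pos ⟨rfl, rfl⟩]

theorem smap_g2e (l : Option Cont) (c : Cont) (r : Option Cont)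
    (h1 : ¬ (c = t1 ∧ r = some BL)) (h2 : ¬ (c = t2 ∧ r = some t3))
    (h3 : ¬ (c = BL ∧ l = some t1)) (h4 : ¬ (c = t3 ∧ l = some t2)) : g2 l c r = c := by
  unfold g2
  rw [if_neg h1, if_neg h2, if_neg h3, if_neg h4]

/-- How a value of `g2` may arise. -/
theorem smap_g2f (l : Option Cont) (c : Cont) (r : Option Cont) :
    (c = t1 ∧ r = some BL ∧ g2 l c r = t2) ∨ (c = t2 ∧ r = some t3 ∧ g2 l c r = t1) ∨
    (c = BL ∧ l = some t1 ∧ g2 l c r = t3) ∨ (c = t3 ∧ l = some t2 ∧ g2 l c r = BL) ∨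
    (¬ (c = t1 ∧ r = some BL) ∧ ¬ (c = t2 ∧ r = some t3) ∧ ¬ (c = BL ∧ l = some t1) ∧
      ¬ (c = t3 ∧ l = some t2) ∧ g2 l c r = c) := by
  by_cases h1 : c = t1 ∧ r = some BL
  · obtain ⟨h2, h3⟩ := h1
    subst h2; subst h3
    exact Or.inl ⟨rfl, rfl, smap_g2a l⟩
  · by_cases h2 : c = t2 ∧ r = some t3
    · obtain ⟨h3, h4⟩ := h2
      subst h3; subst h4
      exact Or.inr (Or.inl ⟨rfl, rfl, smap_g2b l⟩)
    · by_cases h3 : c = BL ∧ l = some t1
      · obtain ⟨h4, h5⟩ := h3
        subst h4; subst h5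
        exact Or.inr (Or.inr (Or.inl ⟨rfl, rfl, smap_g2c r⟩))
      · by_cases h4 : c = t3 ∧ l = some t2
        · obtain ⟨h5, h6⟩ := h4
          subst h5; subst h6
          exact Or.inr (Or.inr (Or.inr (Or.inl ⟨rfl, rfl, smap_g2d r⟩)))
        · exact Or.inr (Or.inr (Or.inr (Or.inr ⟨h1, h2, h3, h4, smap_g2e l c r h1 h2 h3 h4⟩)))

/-- The algebra of `g2`. -/
theorem smap_g2g (ll l : Option Cont) (c : Cont) (r rr : Option Cont) :
    g2 (l.map (fun d => g2 ll d (some c))) (g2 l c r) (r.map (fun d => g2 (some c) d rr)) = c := by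
  rcases smap_g2f l c r with ⟨h1, h2, h3⟩ | ⟨h1, h2, h3⟩ | ⟨h1, h2, h3⟩ | ⟨h1, h2, h3⟩ |
    ⟨h1, h2, h3, h4, h5⟩
  · rw [h3, h1, h2, Option.map_some, smap_g2c, smap_g2b]
  · rw [h3, h1, h2, Option.map_some, smap_g2d, smap_g2a]
  · rw [h3, h1, h2, Option.map_some, smap_g2a, smap_g2d]
  · rw [h3, h1, h2, Option.map_some, smap_g2b, smap_g2c]
  · rw [h5]
    refine smap_g2e _ c _ ?_ ?_ ?_ ?_
    · rintro ⟨h6, h7⟩
      rcases r with _ | d
      · simp at h7
      · rw [Option.map_some, Option.some.injEq] at h7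
        rcases smap_g2f (some c) d rr with ⟨g1, g2, g3⟩ | ⟨g1, g2, g3⟩ | ⟨g1, g2, g3⟩ |
          ⟨g1, g2, g3⟩ | ⟨_, _, _, _, g3⟩
        · exact smap_ne2B (g3.symm.trans h7)
        · exact smap_ne1B (g3.symm.trans h7)
        · exact smap_ne3B (g3.symm.trans h7)
        · rw [h6, Option.some.injEq] at g2
          exact smap_ne12 g2
        · rw [h7] at g3
          exact h1 ⟨h6, by rw [← g3]⟩
    · rintro ⟨h6, h7⟩
      rcases r with _ | d
      · simp at h7
      · rw [Option.map_some, Option.some.injEq] at h7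
        rcases smap_g2f (some c) d rr with ⟨g1, g2, g3⟩ | ⟨g1, g2, g3⟩ | ⟨g1, g2, g3⟩ |
          ⟨g1, g2, g3⟩ | ⟨_, _, _, _, g3⟩
        · exact smap_ne23 (g3.symm.trans h7)
        · exact smap_ne13 (g3.symm.trans h7)
        · rw [h6, Option.some.injEq] at g2
          exact smap_ne12 g2.symm
        · exact smap_ne3B (h7.symm.trans g3)
        · rw [h7] at g3
          exact h2 ⟨h6, by rw [← g3]⟩
    · rintro ⟨h6, h7⟩
      rcases l with _ | d
      · simp at h7
      · rw [Option.map_some, Option.some.injEq] at h7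
        rcases smap_g2f ll d (some c) with ⟨g1, g2, g3⟩ | ⟨g1, g2, g3⟩ | ⟨g1, g2, g3⟩ |
          ⟨g1, g2, g3⟩ | ⟨_, _, _, _, g3⟩
        · exact smap_ne12 (h7.symm.trans g3)
        · rw [h6, Option.some.injEq] at g2
          exact smap_ne3B g2.symm
        · exact smap_ne13 (h7.symm.trans g3)
        · exact smap_ne1B (h7.symm.trans g3)
        · rw [h7] at g3
          exact h3 ⟨h6, by rw [← g3]⟩
    · rintro ⟨h6, h7⟩
      rcases l with _ | d
      · simp at h7
      · rw [Option.map_some, Option.some.injEq] at h7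
        rcases smap_g2f ll d (some c) with ⟨g1, g2, g3⟩ | ⟨g1, g2, g3⟩ | ⟨g1, g2, g3⟩ |
          ⟨g1, g2, g3⟩ | ⟨_, _, _, _, g3⟩
        · rw [h6, Option.some.injEq] at g2
          exact smap_ne3B g2
        · exact smap_ne12 (g3.symm.trans h7)
        · exact smap_ne23 (h7.symm.trans g3)
        · exact smap_ne2B (h7.symm.trans g3)
        · rw [h7] at g3
          exact h4 ⟨h6, by rw [← g3]⟩

/-- The neighbours after a slot map, as the middle slot sees them. -/
theorem smap_nbrs (h : SC x p c) :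
    nbr (smap Φ x) (p - 156) =
      (nbr x (p - 156)).map (fun d => Φ (nbr x (p - 312)) d (some c)) ∧
    nbr (smap Φ x) (p + 156) =
      (nbr x (p + 156)).map (fun d => Φ (some c) d (nbr x (p + 312))) := by
  have e := nbr_eq_some.2 h
  constructor
  · rw [nbr_smap, show p - 156 - 156 = p - 312 by ring, show p - 156 + 156 = p by ring, e]
  · rw [nbr_smap, show p + 156 - 156 = p by ring, show p + 156 + 156 = p + 312 by ring, e]

theorem smap_g2_g2 (x : Cfg) : smap g2 (smap g2 x) = x := by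
  refine smap_smap ?_ x
  intro x p c hc
  obtain ⟨e1, e2⟩ := smap_nbrs (Φ := g2) hc
  rw [e1, e2]
  exact smap_g2g _ _ _ _ _

theorem smap_cvi_cv (x : Cfg) : smap cvi (smap cv x) = x := by
  refine smap_smap ?_ x
  intro x p c hc
  obtain ⟨e1, e2⟩ := smap_nbrs (Φ := cv) hc
  rw [e1, e2]
  rcases nbr x (p - 156) with _ | l <;> rcases nbr x (p + 156) with _ | r <;>
    simp only [Option.map_none, Option.map_some, cv, cvi, tau_tau]

theorem smap_cv_cvi (x : Cfg) : smap cv (smap cvi x) = x := by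
  refine smap_smap ?_ x
  intro x p c hc
  obtain ⟨e1, e2⟩ := smap_nbrs (Φ := cvi) hc
  rw [e1, e2]
  rcases nbr x (p - 156) with _ | l <;> rcases nbr x (p + 156) with _ | r <;>
    simp only [Option.map_none, Option.map_some, cv, cvi, tau_tau]

/-! ### Slot maps and barriers -/

theorem smap_bar (h : Bar x b) (h1 : b ≤ i) (h2 : i < b + 4) : smap Φ x i = x i := by
  refine smap_head ?_
  intro p hp
  by_cases hpb : p ≤ b
  · have := h.slot hp hpb
    omega
  · omega

theorem Bar_smap (h : Bar x b) : Bar (smap Φ x) b :=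
  (Bar_congr (fun _ h1 h2 => smap_bar h h1 h2)).2 h

/-- Agreement of slot maps on a cell, from agreement of the slots over it. -/
theorem smap_agree (h : x i = y i)
    (h1 : ∀ p c, SC x p c → p ≤ i → i < p + 156 → SC y p c ∧
      nbr x (p - 156) = nbr y (p - 156) ∧ nbr x (p + 156) = nbr y (p + 156))
    (h2 : ∀ p, Slot y p → p ≤ i → i < p + 156 → Slot x p) : smap Φ x i = smap Φ y i := by
  by_cases hq : ∃ q : ℤ, Slot x q ∧ q ≤ i ∧ i < q + 156
  · obtain ⟨q, ⟨d, hd⟩, h3, h4⟩ := hq
    obtain ⟨h5, h6, h7⟩ := h1 q d hd h3 h4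
    rw [smap_at hd h3 h4, smap_at h5 h3 h4, h6, h7]
  · rw [smap_else (x := x), smap_else (x := y), h]
    · intro p hp
      by_contra h5
      exact hq ⟨p, h2 p hp (by omega) (by omega), by omega, by omega⟩
    · intro p hp
      by_contra h5
      exact hq ⟨p, hp, by omega, by omega⟩

theorem smap_nbr_zone (ha : Bar x a) (hb : Bar x b) (ha' : Bar y a) (hb' : Bar y b)
    (h : ∀ i, a ≤ i → i < b → x i = y i) (h1 : a - 156 < q) (h2 : q ≤ b) :
    nbr x q = nbr y q := by
  by_cases h3 : a ≤ q ∧ q + 156 ≤ b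
  · exact nbr_congr (fun i h4 h5 => h i (by omega) (by omega))
  · have key : ∀ z : Cfg, Bar z a → Bar z b → ¬ Slot z q := by
      intro z hz1 hz2 hz
      have h4 := hz2.slot hz h2
      by_cases h5 : q ≤ a
      · have h6 := hz1.slot hz h5
        omega
      · omega
    rw [nbr_eq_none.2 (key x ha hb), nbr_eq_none.2 (key y ha' hb')]

/-- The zone between two barriers evolves by itself. -/
theorem smap_zone (ha : Bar x a) (hb : Bar x b) (ha' : Bar y a) (hb' : Bar y b)
    (h : ∀ i, a ≤ i → i < b → x i = y i) : ∀ i, a ≤ i → i < b → smap Φ x i = smap Φ y i := by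
  intro i hi1 hi2
  have loc : ∀ z : Cfg, Bar z a → Bar z b → ∀ p, Slot z p → p ≤ i → i < p + 156 →
      a < p ∧ p + 156 ≤ b := by
    intro z hz1 hz2 p hp h3 h4
    have h5 := hz2.slot hp (by omega)
    by_cases h6 : p ≤ a
    · have h7 := hz1.slot hp h6
      omega
    · omega
  refine smap_agree (h i hi1 hi2) ?_ ?_
  · intro p c hc h3 h4
    obtain ⟨h5, h6⟩ := loc x ha hb p ⟨c, hc⟩ h3 h4
    refine ⟨(SC_congr (fun j h7 h8 => h j (by omega) (by omega))).1 hc, ?_, ?_⟩
    · exact smap_nbr_zone ha hb ha' hb' h (by omega) (by omega)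
    · exact smap_nbr_zone ha hb ha' hb' h (by omega) (by omega)
  · intro p hp h3 h4
    obtain ⟨h5, h6⟩ := loc y ha' hb' p hp h3 h4
    exact (Slot_congr (fun j h7 h8 => h j (by omega) (by omega))).2 hp

theorem smap_nbr_right (ha : Bar x a) (ha' : Bar y a)
    (h : ∀ i, a ≤ i → x i = y i) (h1 : a - 156 < q) : nbr x q = nbr y q := by
  by_cases h3 : a ≤ q
  · exact nbr_congr (fun i h4 h5 => h i (by omega))
  · have key : ∀ z : Cfg, Bar z a → ¬ Slot z q := by
      intro z hz1 hz
      have h6 := hz1.slot hz (by omega)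
      omega
    rw [nbr_eq_none.2 (key x ha), nbr_eq_none.2 (key y ha')]

/-- The part on the right of a barrier evolves by itself. -/
theorem smap_right (ha : Bar x a) (ha' : Bar y a)
    (h : ∀ i, a ≤ i → x i = y i) : ∀ i, a ≤ i → smap Φ x i = smap Φ y i := by
  intro i hi1
  have loc : ∀ z : Cfg, Bar z a → ∀ p, Slot z p → p ≤ i → i < p + 156 → a < p := by
    intro z hz1 p hp h3 h4
    by_cases h6 : p ≤ a
    · have h7 := hz1.slot hp h6
      omega
    · omega
  refine smap_agree (h i hi1) ?_ ?_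
  · intro p c hc h3 h4
    have h5 := loc x ha p ⟨c, hc⟩ h3 h4
    refine ⟨(SC_congr (fun j h7 h8 => h j (by omega))).1 hc, ?_, ?_⟩
    · exact smap_nbr_right ha ha' h (by omega)
    · exact smap_nbr_right ha ha' h (by omega)
  · intro p hp h3 h4
    have h5 := loc y ha' p hp h3 h4
    exact (Slot_congr (fun j h7 h8 => h j (by omega))).2 hp

/-- No slot starts in `[a, c)` and `a` is a barrier: nothing changes there, and the part from `c`
on evolves by itself. -/
theorem smap_gap (ha : Bar x a) (hs : ∀ p, a ≤ p → p < b → ¬ Slot x p)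
    (h1 : a ≤ i) (h2 : i < b) : smap Φ x i = x i := by
  refine smap_else ?_
  intro p hp
  by_cases h3 : p ≤ a
  · have h4 := ha.slot hp h3
    omega
  · by_contra h4
    exact hs p (by omega) (by omega) hp

theorem smap_known (ha : Bar x a) (hab : a ≤ b) (hs : ∀ p, a ≤ p → p < b → ¬ Slot x p)
    (ha' : Bar y a) (hs' : ∀ p, a ≤ p → p < b → ¬ Slot y p)
    (h : ∀ i, b ≤ i → x i = y i) : ∀ i, b ≤ i → smap Φ x i = smap Φ y i := by
  intro i hi1
  have loc : ∀ z : Cfg, Bar z a → (∀ p, a ≤ p → p < b → ¬ Slot z p) →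
      ∀ p, Slot z p → p ≤ i → i < p + 156 → b ≤ p ∧ a < p := by
    intro z hz1 hz2 p hp h3 h4
    have h5 : a < p := by
      by_contra h6
      have h7 := hz1.slot hp (by omega)
      omega
    refine ⟨?_, h5⟩
    by_contra h6
    exact hz2 p (by omega) (by omega) hp
  have nb : ∀ q, b ≤ q ∨ (a - 156 < q ∧ q < b) → nbr x q = nbr y q := by
    intro q hq
    rcases hq with hq | ⟨hq1, hq2⟩
    · exact nbr_congr (fun j h4 h5 => h j (by omega))
    · have key : ∀ z : Cfg, Bar z a → (∀ p, a ≤ p → p < b → ¬ Slot z p) → ¬ Slot z q := by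
        intro z hz1 hz2 hz
        by_cases h3 : a ≤ q
        · exact hz2 q h3 hq2 hz
        · have h6 := hz1.slot hz (by omega)
          omega
      rw [nbr_eq_none.2 (key x ha hs), nbr_eq_none.2 (key y ha' hs')]
  refine smap_agree (h i hi1) ?_ ?_
  · intro p c hc h3 h4
    obtain ⟨h5, h6⟩ := loc x ha hs p ⟨c, hc⟩ h3 h4
    refine ⟨(SC_congr (fun j h7 h8 => h j (by omega))).1 hc, ?_, ?_⟩
    · exact nb _ (by omega)
    · exact nb _ (by omega)
  · intro p hp h3 h4
    obtain ⟨h5, h6⟩ := loc y ha' hs' p hp h3 h4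
    exact (Slot_congr (fun j h7 h8 => h j (by omega))).2 hp

end Pool.Agent.WU
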