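import Pool.Agent.WU.Defs

/-!
# Simultaneous exchange of words: the general lemma
-/

set_option autoImplicit false

namespace Pool.Agent.WU

open Function

/-- Two active windows are equal or disjoint, and the context of an active window does not change
when other windows (or itself) are exchanged. -/
structure Sys.Good (S : Sys) : Prop where
  pos : ∀ r, 0 < S.len r
  disj : ∀ x s s', S.Act x s → S.Act x s' →
    s = s' ∨ s.1 + S.len s.2.1 ≤ s'.1 ∨ s'.1 + S.len s'.2.1 ≤ s.1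
  ctx : ∀ (x : Cfg) (T : Set (ℤ × S.ι × Bool)), (∀ s ∈ T, S.Act x s) → ∀ s, S.Act x s →
    S.ctx (S.flip T x) s.1 s.2.1

variable {S : Sys} {x : Cfg} {T : Set (ℤ × S.ι × Bool)} {s : ℤ × S.ι × Bool} {k : ℤ}

/-- Only disjointness is needed here. -/
theorem Sys.flip_at (hS : ∀ x s s', S.Act x s → S.Act x s' →
      s = s' ∨ s.1 + S.len s.2.1 ≤ s'.1 ∨ s'.1 + S.len s'.2.1 ≤ s.1)
    (hT : ∀ s ∈ T, S.Act x s) (hs : s ∈ T) (h1 : s.1 ≤ k)
    (h2 : k < s.1 + S.len s.2.1) : S.flip T x k = S.word s.2.1 (!s.2.2) (k - s.1) := by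
  have h : ∃ s ∈ T, s.1 ≤ k ∧ k < s.1 + S.len s.2.1 := ⟨s, hs, h1, h2⟩
  have e : S.flip T x k = S.word h.choose.2.1 (!h.choose.2.2) (k - h.choose.1) := dif_pos h
  obtain ⟨h3, h4, h5⟩ := h.choose_spec
  have h6 : h.choose = s := by
    rcases hS x h.choose s (hT _ h3) (hT _ hs) with h7 | h7 | h7
    · exact h7
    · omega
    · omega
  rw [e, h6]

theorem Sys.flip_else (h : ∀ s ∈ T, k < s.1 ∨ s.1 + S.len s.2.1 ≤ k) : S.flip T x k = x k := by
  refine dif_neg ?_
  rintro ⟨s, hs, h1, h2⟩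
  rcases h s hs with h3 | h3 <;> omega

theorem Sys.swap_at (hS : S.Good) (hs : S.Act x s) (h1 : s.1 ≤ k)
    (h2 : k < s.1 + S.len s.2.1) : S.swap x k = S.word s.2.1 (!s.2.2) (k - s.1) :=
  Sys.flip_at hS.disj (T := {s | S.Act x s}) (fun _ h => h) hs h1 h2

theorem Sys.swap_else (h : ∀ s, S.Act x s → k < s.1 ∨ s.1 + S.len s.2.1 ≤ k) :
    S.swap x k = x k :=
  Sys.flip_else (T := {s | S.Act x s}) h

theorem Sys.Act_flip_mem (hS : S.Good) (hT : ∀ s ∈ T, S.Act x s) (hs : s ∈ T) :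
    S.Act (S.flip T x) (s.1, s.2.1, !s.2.2) := by
  refine ⟨?_, hS.ctx x T hT s (hT s hs)⟩
  intro i hi0 hi1
  have h := Sys.flip_at (k := s.1 + i) hS.disj hT hs (by omega)
    (by
      have : i < S.len s.2.1 := hi1
      omega)
  have e : s.1 + i - s.1 = i := by ring
  rw [e] at h
  exact h

theorem Sys.Act_flip_not_mem (hS : S.Good) (hT : ∀ s ∈ T, S.Act x s) (hs : S.Act x s)
    (hn : s ∉ T) : S.Act (S.flip T x) s := by
  refine ⟨?_, hS.ctx x T hT s hs⟩
  intro i hi0 hi1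
  rw [Sys.flip_else, hs.1 i hi0 hi1]
  intro s' hs'
  rcases hS.disj x s' s (hT s' hs') hs with h | h | h
  · exact absurd (h ▸ hs') hn
  · right; omega
  · left; omega

theorem Sys.Act_swap (hS : S.Good) (hs : S.Act x s) :
    S.Act (S.swap x) (s.1, s.2.1, !s.2.2) :=
  Sys.Act_flip_mem hS (T := {s | S.Act x s}) (fun _ h => h) hs

theorem Sys.swap_swap (hS : S.Good) (x : Cfg) : S.swap (S.swap x) = x := by
  set y := S.swap x with hy
  -- flips of the active windows of `x`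
  let T2 : Set (ℤ × S.ι × Bool) := {s' | ∃ s, S.Act x s ∧ s' = (s.1, s.2.1, !s.2.2)}
  have hT2 : ∀ s' ∈ T2, S.Act y s' := by
    rintro s' ⟨s, hs, rfl⟩
    exact Sys.Act_swap hS hs
  have hx : ∀ (s : ℤ × S.ι × Bool), S.Act x s → ∀ k : ℤ, s.1 ≤ k → k < s.1 + S.len s.2.1 →
      S.word s.2.1 s.2.2 (k - s.1) = x k := by
    intro s hs k h1 h2
    have h3 := hs.1 (k - s.1) (by omega) (by omega)
    have e : s.1 + (k - s.1) = k := by ring
    rw [e] at h3
    exact h3.symm
  have hback : S.flip T2 y = x := by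
    funext k
    by_cases h : ∃ s, S.Act x s ∧ s.1 ≤ k ∧ k < s.1 + S.len s.2.1
    · obtain ⟨s, hs, h1, h2⟩ := h
      have h3 := Sys.flip_at (S := S) (x := y) (T := T2) (s := (s.1, s.2.1, !s.2.2)) (k := k)
        hS.disj hT2 ⟨s, hs, rfl⟩ h1 h2
      rw [h3]
      simp only [Bool.not_not]
      exact hx s hs k h1 h2
    · have h3 : S.flip T2 y k = y k := by
        apply Sys.flip_else
        rintro s' ⟨s, hs, rfl⟩
        by_contra hcon
        push Not at hcon
        exact h ⟨s, hs, hcon.1, hcon.2⟩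
      rw [h3, hy]
      apply Sys.swap_else
      intro s hs
      by_contra hcon
      push Not at hcon
      exact h ⟨s, hs, hcon.1, hcon.2⟩
  funext k
  by_cases h : ∃ s, S.Act x s ∧ s.1 ≤ k ∧ k < s.1 + S.len s.2.1
  · obtain ⟨s, hs, h1, h2⟩ := h
    have h3 := Sys.swap_at (S := S) (x := y) (s := (s.1, s.2.1, !s.2.2)) (k := k) hS
      (hT2 _ ⟨s, hs, rfl⟩) h1 h2
    rw [h3]
    simp only [Bool.not_not]
    exact hx s hs k h1 h2
  · have h4 : S.swap y k = y k := by
      apply Sys.swap_else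
      intro s' hs'
      by_contra hcon
      push Not at hcon
      by_cases hm : s' ∈ T2
      · obtain ⟨s, hs, rfl⟩ := hm
        exact h ⟨s, hs, hcon.1, hcon.2⟩
      · have h5 := Sys.Act_flip_not_mem hS hT2 hs' hm
        rw [hback] at h5
        exact h ⟨s', h5, hcon.1, hcon.2⟩
    rw [h4, hy]
    apply Sys.swap_else
    intro s hs
    by_contra hcon
    push Not at hcon
    exact h ⟨s, hs, hcon.1, hcon.2⟩

end Pool.Agent.WU
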