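import Mathlib

/-!
# Layers which swap windows (helper50)

A layer is a family of windows (position `p`, kind `k`, length `len k`); a window of kind `k` carries
the word `word k` and is replaced by the word `word (bar k)`.  If active windows are disjoint and the
swaps of other active windows do not disturb the activity, the layer is an involution.
-/

set_option autoImplicit false

namespace Pool.Agent.WU

/-- a family of swap windows -/
structure Swap50 where
  K : Type
  len : K → ℕ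
  pos : ∀ k, 0 < len k
  word : K → ℕ → Bool
  bar : K → K
  bar_bar : ∀ k, bar (bar k) = k
  len_bar : ∀ k, len (bar k) = len k
  act : (ℤ → Bool) → ℤ × K → Prop

namespace Swap50

variable (T : Swap50)

/-- the cell `i` lies in the window `w` -/
def Mem (w : ℤ × T.K) (i : ℤ) : Prop := w.1 ≤ i ∧ i < w.1 + T.len w.2

/-- the swapped window -/
def brr (w : ℤ × T.K) : ℤ × T.K := (w.1, T.bar w.2)

theorem brr_brr (w : ℤ × T.K) : T.brr (T.brr w) = w := by
  unfold brr
  simp [T.bar_bar]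

theorem mem_brr (w : ℤ × T.K) (i : ℤ) : T.Mem (T.brr w) i ↔ T.Mem w i := by
  unfold Mem brr
  simp [T.len_bar]

open Classical in
/-- `x` with all windows of `S` swapped -/
noncomputable def sw (S : Set (ℤ × T.K)) (x : ℤ → Bool) : ℤ → Bool := fun i =>
  if h : ∃ w, w ∈ S ∧ T.Mem w i then T.word (T.bar h.choose.2) (i - h.choose.1).toNat else x i

/-- the active windows -/
def Act (x : ℤ → Bool) : Set (ℤ × T.K) := {w | T.act x w}

/-- the layer -/
noncomputable def map (x : ℤ → Bool) : ℤ → Bool := T.sw (T.Act x) x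

/-- the windows of `S` are pairwise disjoint -/
def Disj (S : Set (ℤ × T.K)) : Prop := ∀ w ∈ S, ∀ v ∈ S, ∀ i, T.Mem w i → T.Mem v i → w = v

theorem sw_mem {S : Set (ℤ × T.K)} (hS : T.Disj S) (x : ℤ → Bool) {w : ℤ × T.K} (hw : w ∈ S)
    {i : ℤ} (hi : T.Mem w i) : T.sw S x i = T.word (T.bar w.2) (i - w.1).toNat := by
  have h : ∃ w, w ∈ S ∧ T.Mem w i := ⟨w, hw, hi⟩
  unfold sw
  rw [dif_pos h]
  have h1 : h.choose = w := hS _ h.choose_spec.1 _ hw i h.choose_spec.2 hi
  rw [h1]

theorem sw_not_mem {S : Set (ℤ × T.K)} (x : ℤ → Bool) {i : ℤ} (h : ∀ w ∈ S, ¬ T.Mem w i) :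
    T.sw S x i = x i := by
  unfold sw
  rw [dif_neg]
  rintro ⟨w, h1, h2⟩
  exact h w h1 h2

/-- the window `w` of `x` carries its word -/
def Match (x : ℤ → Bool) (w : ℤ × T.K) : Prop :=
  ∀ i, T.Mem w i → x i = T.word w.2 (i - w.1).toNat

/-- if windows which carry their words are swapped twice, nothing changes -/
theorem sw_sw {S : Set (ℤ × T.K)} (hS : T.Disj S) (x : ℤ → Bool)
    (hm : ∀ w ∈ S, T.Match x w) : T.sw (T.brr '' S) (T.sw S x) = x := by
  have hS' : T.Disj (T.brr '' S) := by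
    rintro _ ⟨w, hw, rfl⟩ _ ⟨v, hv, rfl⟩ i h1 h2
    rw [hS w hw v hv i ((T.mem_brr w i).1 h1) ((T.mem_brr v i).1 h2)]
  funext i
  by_cases h : ∃ w ∈ S, T.Mem w i
  · obtain ⟨w, hw, hi⟩ := h
    rw [T.sw_mem hS' _ (Set.mem_image_of_mem _ hw) ((T.mem_brr w i).2 hi)]
    rw [hm w hw i hi]
    unfold brr
    simp [T.bar_bar]
  · have h1 : ∀ w ∈ S, ¬ T.Mem w i := fun w hw hi => h ⟨w, hw, hi⟩
    have h2 : ∀ w ∈ T.brr '' S, ¬ T.Mem w i := by
      rintro _ ⟨w, hw, rfl⟩ hi
      exact h1 w hw ((T.mem_brr w i).1 hi)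
    rw [T.sw_not_mem _ h2, T.sw_not_mem _ h1]

/-- **The involution lemma.** -/
theorem map_map (hm : ∀ x w, T.act x w → T.Match x w)
    (hd : ∀ x, T.Disj (T.Act x))
    (hs : ∀ x (S : Set (ℤ × T.K)), S ⊆ T.Act x → ∀ w, T.act x w →
      (w ∈ S → T.act (T.sw S x) (T.brr w)) ∧ (w ∉ S → T.act (T.sw S x) w))
    (x : ℤ → Bool) : T.map (T.map x) = x := by
  have h1 : T.brr '' (T.Act x) ⊆ T.Act (T.map x) := by
    rintro _ ⟨w, hw, rfl⟩
    exact (hs x (T.Act x) subset_rfl w hw).1 hw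
  have h2 : T.sw (T.brr '' T.Act x) (T.map x) = x := T.sw_sw (hd x) x fun w hw => hm x w hw
  have h3 : T.Act (T.map x) = T.brr '' T.Act x := by
    apply Set.Subset.antisymm _ h1
    intro w hw
    by_contra hc
    have h4 := (hs (T.map x) (T.brr '' T.Act x) h1 w hw).2 hc
    rw [h2] at h4
    have h5 : T.brr w ∈ T.brr '' T.Act x := Set.mem_image_of_mem _ h4
    have h6 : w = T.brr w := by
      refine hd (T.map x) w hw (T.brr w) (h1 h5) w.1 ⟨le_rfl, ?_⟩ ⟨le_rfl, ?_⟩
      · have := T.pos w.2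
        omega
      · have := T.pos (T.brr w).2
        show w.1 < w.1 + (T.len (T.brr w).2 : ℤ)
        omega
    rw [← h6] at h5
    exact hc h5
  calc T.map (T.map x) = T.sw (T.Act (T.map x)) (T.map x) := rfl
    _ = x := by rw [h3, h2]

end Swap50

end Pool.Agent.WU
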