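import Pool.Agent.WU.Frame4
import Pool.Agent.WU.Swap50

/-!
# Swap layers with a local and shift invariant activity are cellular automata
-/

namespace Pool.Agent.WU

namespace Swap50

variable (T : Swap50)

theorem map_mem (hd : ∀ x, T.Disj (T.Act x)) (x : ℤ → Bool) {p : ℤ} {k : T.K}
    (hw : T.act x (p, k)) {i : ℤ} (h1 : p ≤ i) (h2 : i < p + T.len k) :
    T.map x i = T.word (T.bar k) (i - p).toNat :=
  T.sw_mem (hd x) x (w := (p, k)) hw ⟨h1, h2⟩

theorem map_not_mem (x : ℤ → Bool) {i : ℤ}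
    (h : ∀ p k, T.act x (p, k) → ¬ (p ≤ i ∧ i < p + T.len k)) : T.map x i = x i :=
  T.sw_not_mem x fun w hw hi => h w.1 w.2 hw hi

theorem shc4_map (hd : ∀ x, T.Disj (T.Act x))
    (hs : ∀ (x : ℤ → Bool) (p : ℤ) (k : T.K) (c : ℤ), T.act (fun j => x (j + c)) (p, k) ↔
      T.act x (p + c, k)) : Shc4 T.map := by
  intro c x i
  by_cases h : ∃ p k, T.act x (p, k) ∧ p ≤ i + c ∧ i + c < p + T.len k
  · obtain ⟨p, k, h1, h2, h3⟩ := h
    rw [T.map_mem hd x h1 h2 h3]
    have h4 : T.act (fun j => x (j + c)) (p - c, k) := by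
      rw [hs]
      rw [sub_add_cancel]
      exact h1
    rw [T.map_mem hd _ h4 (by omega) (by omega)]
    congr 2
    ring
  · rw [T.map_not_mem x, T.map_not_mem]
    · intro p k h1 h2
      apply h
      refine ⟨p + c, k, (hs x p k c).1 h1, ?_, ?_⟩ <;> omega
    · intro p k h1 h2
      exact h ⟨p, k, h1, h2⟩

theorem loc4_map (hd : ∀ x, T.Disj (T.Act x)) {R N : ℕ} (hlen : ∀ k, T.len k ≤ N)
    (hl : ∀ (x y : ℤ → Bool) (p : ℤ) (k : T.K), (∀ j : ℤ, p - R ≤ j → j ≤ p + R → x j = y j) →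
      T.act x (p, k) → T.act y (p, k)) : Loc4 (R + N) T.map := by
  intro x y i hxy
  by_cases h : ∃ p k, T.act x (p, k) ∧ p ≤ i ∧ i < p + T.len k
  · obtain ⟨p, k, h1, h2, h3⟩ := h
    have h4 : T.act y (p, k) := by
      apply hl x y p k _ h1
      intro j h5 h6
      have := hlen k
      apply hxy <;> push_cast <;> omega
    rw [T.map_mem hd x h1 h2 h3, T.map_mem hd y h4 h2 h3]
  · rw [T.map_not_mem x, T.map_not_mem]
    · apply hxy <;> push_cast <;> omega
    · intro p k h1 h2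
      apply h
      refine ⟨p, k, hl y x p k ?_ h1, h2⟩
      intro j h5 h6
      have := hlen k
      symm
      apply hxy <;> push_cast <;> omega
    · intro p k h1 h2
      exact h ⟨p, k, h1, h2⟩

end Swap50

/-- A map whose value at a cell is read off through a shift invariant, local partial description. -/
theorem loc4_shc4_of_eq {R : ℕ} {G : (ℤ → Bool) → (ℤ → Bool)} (hs : Shc4 G)
    (h0 : ∀ x y : ℤ → Bool, (∀ j : ℤ, -(R : ℤ) ≤ j → j ≤ R → x j = y j) → G x 0 = G y 0) :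
    Loc4 R G ∧ Shc4 G := ⟨hs.loc h0, hs⟩

end Pool.Agent.WU
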