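import Pool.Agent.WU.Slots
import Pool.Agent.WU.Swap

/-!
# The push and pop layers: windows
-/

set_option autoImplicit false

namespace Pool.Agent.WU

open Function

variable {x y z : Cfg} {p q a b c i w w' : ℤ} {u v : Dg} {j : Fin 13} {r r' : Fin 13 × Dg}
  {sd sd' : Bool}

/-- The word of the rule `r`, side `sd`, stands at `w`. -/
def Mt (x : Cfg) (w : ℤ) (r : Fin 13 × Dg) (sd : Bool) : Prop :=
  ∀ i : ℤ, 0 ≤ i → i < el r → x (w + i) = ew r sd i

/-- Position of the marker of a window. -/
def mp (w : ℤ) (sd : Bool) : ℤ := if sd then w + 12 else w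

theorem actA_iff : sysA.Act x (w, r, sd) ↔ Mt x w r sd ∧ Slot x (w + el r) ∧ ¬ TB x w r.2 := Iff.rfl

theorem actB_iff : sysB.Act x (w, r, sd) ↔ Mt x w r sd ∧ Pre x (w + el r) ∧ TB x w r.2 := Iff.rfl

theorem SysE_ewF (j : Fin 13) (u : Dg) (i : ℤ) : ew (j, u) false i =
    (if i < 12 then Mw i
     else if i < 12 + 12 * ((j : ℕ) : ℤ) then false
     else if i < 168 + 12 * ((j : ℕ) : ℤ) then code BL (i - 12 - 12 * ((j : ℕ) : ℤ))
     else code (cD u) (i - 168 - 12 * ((j : ℕ) : ℤ))) := by
  simp [ew]

theorem SysE_ewT (j : Fin 13) (u : Dg) (i : ℤ) : ew (j, u) true i =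
    (if i < 12 then bit u i
     else if i < 24 then Mw (i - 12)
     else if i < 12 + 12 * ((j : ℕ) : ℤ) then false
     else if i < 168 + 12 * ((j : ℕ) : ℤ) then
       (if ((j : ℕ) : ℤ) = 0 then false else code BL (i - 12 - 12 * ((j : ℕ) : ℤ)))
     else code (cE u) (i - 168 - 12 * ((j : ℕ) : ℤ))) := by
  simp [ew]

theorem SysE_el (j : Fin 13) (u : Dg) : el (j, u) = 324 + 12 * ((j : ℕ) : ℤ) := rfl

theorem SysE_j (j : Fin 13) : 0 ≤ ((j : ℕ) : ℤ) ∧ ((j : ℕ) : ℤ) ≤ 12 := by
  have := j.isLt
  omega

theorem Mt_false : Mt x w (j, u) false ↔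
    Mk x w ∧ Zs x (w + 12) (w + 12 + 12 * ((j : ℕ) : ℤ)) ∧
      SC x (w + 12 + 12 * ((j : ℕ) : ℤ)) BL ∧ SC x (w + 168 + 12 * ((j : ℕ) : ℤ)) (cD u) := by
  have hj := SysE_j j
  generalize hJ : ((j : ℕ) : ℤ) = J at hj
  unfold Mt
  rw [SysE_el, hJ]
  simp only [SysE_ewF, hJ]
  constructor
  · intro h
    refine ⟨?_, ?_, ?_, ?_⟩
    · intro i h0 h1
      rw [h i h0 (by omega), if_pos h1]
    · intro i h0 h1
      have := h (i - w) (by omega) (by omega)
      rw [if_neg (by omega), if_pos (by omega)] at this
      rwa [show w + (i - w) = i by ring] at this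
    · intro i h0 h1
      have := h (12 + 12 * J + i) (by omega) (by omega)
      rw [if_neg (by omega), if_neg (by omega), if_pos (by omega)] at this
      rw [show w + (12 + 12 * J + i) = w + 12 + 12 * J + i by ring,
        show 12 + 12 * J + i - 12 - 12 * J = i by ring] at this
      exact this
    · intro i h0 h1
      have := h (168 + 12 * J + i) (by omega) (by omega)
      rw [if_neg (by omega), if_neg (by omega), if_neg (by omega)] at this
      rw [show w + (168 + 12 * J + i) = w + 168 + 12 * J + i by ring,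
        show 168 + 12 * J + i - 168 - 12 * J = i by ring] at this
      exact this
  · rintro ⟨h1, h2, h3, h4⟩ i h0 hi
    by_cases c1 : i < 12
    · rw [if_pos c1]; exact h1 i h0 c1
    rw [if_neg c1]
    by_cases c2 : i < 12 + 12 * J
    · rw [if_pos c2]; exact h2 (w + i) (by omega) (by omega)
    rw [if_neg c2]
    by_cases c3 : i < 168 + 12 * J
    · rw [if_pos c3]
      have := h3 (i - 12 - 12 * J) (by omega) (by omega)
      rwa [show w + 12 + 12 * J + (i - 12 - 12 * J) = w + i by ring] at this
    · rw [if_neg c3]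
      have := h4 (i - 168 - 12 * J) (by omega) (by omega)
      rwa [show w + 168 + 12 * J + (i - 168 - 12 * J) = w + i by ring] at this

theorem Mt_true : Mt x w (j, u) true ↔
    (∀ i : ℤ, 0 ≤ i → i < 12 → x (w + i) = bit u i) ∧ Mk x (w + 12) ∧
      (((j : ℕ) : ℤ) = 0 → Zs x (w + 24) (w + 168)) ∧
      (((j : ℕ) : ℤ) ≠ 0 → Zs x (w + 24) (w + 12 + 12 * ((j : ℕ) : ℤ)) ∧
        SC x (w + 12 + 12 * ((j : ℕ) : ℤ)) BL) ∧
      SC x (w + 168 + 12 * ((j : ℕ) : ℤ)) (cE u) := by
  have hj := SysE_j j
  generalize hJ : ((j : ℕ) : ℤ) = J at hj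
  unfold Mt
  rw [SysE_el, hJ]
  simp only [SysE_ewT, hJ]
  constructor
  · intro h
    refine ⟨?_, ?_, ?_, ?_, ?_⟩
    · intro i h0 h1
      rw [h i h0 (by omega), if_pos h1]
    · intro i h0 h1
      have := h (12 + i) (by omega) (by omega)
      rw [if_neg (by omega), if_pos (by omega)] at this
      rwa [show w + (12 + i) = w + 12 + i by ring, show 12 + i - 12 = i by ring] at this
    · intro hJ0 i h0 h1
      have := h (i - w) (by omega) (by omega)
      rw [if_neg (by omega), if_neg (by omega), if_neg (by omega), if_pos (by omega),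
        if_pos hJ0] at this
      rwa [show w + (i - w) = i by ring] at this
    · intro hJ0
      refine ⟨?_, ?_⟩
      · intro i h0 h1
        have := h (i - w) (by omega) (by omega)
        rw [if_neg (by omega), if_neg (by omega), if_pos (by omega)] at this
        rwa [show w + (i - w) = i by ring] at this
      · intro i h0 h1
        have := h (12 + 12 * J + i) (by omega) (by omega)
        rw [if_neg (by omega), if_neg (by omega), if_neg (by omega), if_pos (by omega),
          if_neg hJ0] at this
        rw [show w + (12 + 12 * J + i) = w + 12 + 12 * J + i by ring,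
          show 12 + 12 * J + i - 12 - 12 * J = i by ring] at this
        exact this
    · intro i h0 h1
      have := h (168 + 12 * J + i) (by omega) (by omega)
      rw [if_neg (by omega), if_neg (by omega), if_neg (by omega), if_neg (by omega)] at this
      rw [show w + (168 + 12 * J + i) = w + 168 + 12 * J + i by ring,
        show 168 + 12 * J + i - 168 - 12 * J = i by ring] at this
      exact this
  · rintro ⟨h1, h2, h3, h4, h5⟩ i h0 hi
    by_cases c1 : i < 12
    · rw [if_pos c1]; exact h1 i h0 c1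
    rw [if_neg c1]
    by_cases c2 : i < 24
    · rw [if_pos c2]
      have := h2 (i - 12) (by omega) (by omega)
      rwa [show w + 12 + (i - 12) = w + i by ring] at this
    rw [if_neg c2]
    by_cases c3 : i < 12 + 12 * J
    · rw [if_pos c3]
      exact (h4 (by omega)).1 (w + i) (by omega) (by omega)
    rw [if_neg c3]
    by_cases c4 : i < 168 + 12 * J
    · rw [if_pos c4]
      by_cases c5 : J = 0
      · rw [if_pos c5]
        exact h3 c5 (w + i) (by omega) (by omega)
      · rw [if_neg c5]
        have := (h4 c5).2 (i - 12 - 12 * J) (by omega) (by omega)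
        rwa [show w + 12 + 12 * J + (i - 12 - 12 * J) = w + i by ring] at this
    · rw [if_neg c4]
      have := h5 (i - 168 - 12 * J) (by omega) (by omega)
      rwa [show w + 168 + 12 * J + (i - 168 - 12 * J) = w + i by ring] at this

theorem el_bounds (r : Fin 13 × Dg) : 324 ≤ el r ∧ el r ≤ 468 := by
  have := SysE_j r.1
  unfold el
  omega

theorem Mt.tok (h : Mt x w r sd) : SC x (w + el r - 156) (if sd then cE r.2 else cD r.2) := by
  obtain ⟨j, u⟩ := r
  cases sd
  · have := (Mt_false.mp h).2.2.2
    rw [SysE_el, show w + (324 + 12 * ((j : ℕ) : ℤ)) - 156 = w + 168 + 12 * ((j : ℕ) : ℤ) by ring]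
    simpa using this
  · have := (Mt_true.mp h).2.2.2.2
    rw [SysE_el, show w + (324 + 12 * ((j : ℕ) : ℤ)) - 156 = w + 168 + 12 * ((j : ℕ) : ℤ) by ring]
    simpa using this

theorem Mt.tokSlot (h : Mt x w r sd) : Slot x (w + el r - 156) := ⟨_, h.tok⟩

theorem Mt.mk (h : Mt x w r sd) : Mk x (mp w sd) := by
  obtain ⟨j, u⟩ := r
  cases sd
  · exact (Mt_false.mp h).1
  · exact (Mt_true.mp h).2.1

theorem Mt.block (h : Mt x w r true) (h0 : 0 ≤ i) (h1 : i < 12) : x (w + i) = bit r.2 i := by
  obtain ⟨j, u⟩ := r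
  exact (Mt_true.mp h).1 i h0 h1

theorem SysE_mk_no (h : Mk x a) (h0 : x q = true) (h1 : x (q + 1) = true) (h2 : a < q)
    (h3 : q < a + 12) : False := by
  by_cases c : a + 2 ≤ q
  · have := h.zero c h3
    rw [this] at h0
    exact absurd h0 (by decide)
  · have := h.zero (i := q + 1) (by omega) (by omega)
    rw [this] at h1
    exact absurd h1 (by decide)

theorem SysE_zs_no (h : Zs x a b) (h0 : x q = true) (h2 : a ≤ q) (h3 : q < b) : False := by
  have := h q h2 h3
  rw [this] at h0
  exact absurd h0 (by decide)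

/-- A pair of ones inside a window, after its marker, is the start of one of its slots. -/
theorem Mt.inner (h : Mt x w r sd) (h0 : x q = true) (h1 : x (q + 1) = true)
    (hq : mp w sd < q) (hq' : q < w + el r) :
    q = w + el r - 156 ∨ (q = w + el r - 312 ∧ SC x q BL) := by
  obtain ⟨j, u⟩ := r
  have hj := SysE_j j
  rw [SysE_el] at hq' ⊢
  cases sd
  · obtain ⟨g1, g2, g3, g4⟩ := Mt_false.mp h
    generalize ((j : ℕ) : ℤ) = J at *
    have hq0 : w < q := hq
    by_cases c1 : q < w + 12
    · exact (SysE_mk_no g1 h0 h1 hq0 c1).elim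
    by_cases c2 : q < w + 12 + 12 * J
    · exact (SysE_zs_no g2 h0 (by omega) c2).elim
    by_cases c3 : q = w + 12 + 12 * J
    · right
      refine ⟨by omega, ?_⟩
      rw [c3]; exact g3
    have c4 := Slot.after ⟨_, g3⟩ h0 h1 (by omega)
    by_cases c5 : q = w + 168 + 12 * J
    · left; omega
    have c6 := Slot.after ⟨_, g4⟩ h0 h1 (by omega)
    omega
  · obtain ⟨-, g1, g2, g3, g4⟩ := Mt_true.mp h
    generalize ((j : ℕ) : ℤ) = J at *
    have hq0 : w + 12 < q := hq
    by_cases c1 : q < w + 12 + 12
    · exact (SysE_mk_no g1 h0 h1 hq0 c1).elim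
    by_cases cJ : J = 0
    · have g2' := g2 cJ
      by_cases c2 : q < w + 168
      · exact (SysE_zs_no g2' h0 (by omega) c2).elim
      by_cases c5 : q = w + 168 + 12 * J
      · left; omega
      have c6 := Slot.after ⟨_, g4⟩ h0 h1 (by omega)
      omega
    · obtain ⟨g3a, g3b⟩ := g3 cJ
      by_cases c2 : q < w + 12 + 12 * J
      · exact (SysE_zs_no g3a h0 (by omega) c2).elim
      by_cases c3 : q = w + 12 + 12 * J
      · right
        refine ⟨by omega, ?_⟩
        rw [c3]; exact g3b
      have c4 := Slot.after ⟨_, g3b⟩ h0 h1 (by omega)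
      by_cases c5 : q = w + 168 + 12 * J
      · left; omega
      have c6 := Slot.after ⟨_, g4⟩ h0 h1 (by omega)
      omega

/-- The first slot of a window starts less than 157 cells behind the marker word; so windows are
long behind their marker. -/
theorem Mt.long (h : Mt x w r sd) : mp w sd + 312 ≤ w + el r := by
  have := el_bounds r
  cases sd
  · change w + 312 ≤ w + el r
    omega
  · change w + 12 + 312 ≤ w + el r
    omega

theorem Mt_congr (h : ∀ i, w ≤ i → i < w + el r → x i = y i) : Mt x w r sd ↔ Mt y w r sd := by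
  constructor
  · intro g i h0 h1
    rw [← h (w + i) (by omega) (by omega)]
    exact g i h0 h1
  · intro g i h0 h1
    rw [h (w + i) (by omega) (by omega)]
    exact g i h0 h1

/-- A window whose marker is before a barrier ends before it. -/
theorem Mt.bar (h : Mt x w r sd) (hb : Bar x b) (hm : mp w sd < b) : w + el r ≤ b := by
  by_contra hcon
  rcases h.inner hb.1 hb.2.1 hm (by omega) with h1 | ⟨-, h1⟩
  · exact hb.not_slot (h1 ▸ h.tokSlot)
  · exact hb.not_slot ⟨_, h1⟩

theorem SysE_BL_ne (sd : Bool) (u : Dg) : BL ≠ (if sd then cE u else cD u) := by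
  cases sd
  · intro h
    have := congrArg Cont.L h
    simp [BL, cD, tD] at this
  · intro h
    have := congrArg Cont.R h
    simp [BL, cE, tE] at this

theorem SysE_tok_inj {sd sd' : Bool} {u v : Dg}
    (h : (if sd then cE u else cD u) = (if sd' then cE v else cD v)) : sd = sd' ∧ u = v := by
  have h1 := congrArg Cont.L h
  have h2 := congrArg Cont.R h
  cases sd <;> cases sd'
  · simp [cD, tD] at h1
    exact ⟨rfl, h1⟩
  · simp [cD, cE, tD] at h1
  · simp [cD, cE, tD] at h1
  · simp [cE, tE] at h2
    exact ⟨rfl, h2⟩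

theorem SysE_end_le (h : Mt x w r sd) (h' : Mt x w' r' sd') (hm : mp w sd = mp w' sd') :
    ¬ w + el r < w' + el r' := by
  intro hlt
  have hl := h.long
  have hs := h.tokSlot
  have h1 : x (w + el r - 156) = true := hs.pre.c0
  have h2 : x (w + el r - 156 + 1) = true := hs.pre.c1
  rcases h'.inner h1 h2 (by omega) (by omega) with h3 | ⟨-, h3⟩
  · omega
  · exact SysE_BL_ne sd r.2 (SC_unique h3 h.tok)

/-- The marker determines the window. -/
theorem Mt_unique (h : Mt x w r sd) (h' : Mt x w' r' sd') (hm : mp w sd = mp w' sd') :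
    w = w' ∧ r = r' ∧ sd = sd' := by
  have he : w + el r = w' + el r' := by
    have h1 := SysE_end_le h h' hm
    have h2 := SysE_end_le h' h hm.symm
    omega
  have ht := h.tok
  have ht' := h'.tok
  rw [← he] at ht'
  obtain ⟨hsd, hu⟩ := SysE_tok_inj (SC_unique ht ht')
  subst hsd
  have hw : w = w' := by
    cases sd
    · exact hm
    · change w + 12 = w' + 12 at hm
      omega
  subst hw
  obtain ⟨j, u⟩ := r
  obtain ⟨j', u'⟩ := r'
  rw [SysE_el, SysE_el] at he
  have hj : j = j' := by
    apply Fin.ext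
    omega
  have hu' : u = u' := hu
  subst hj
  subst hu'
  exact ⟨rfl, rfl, rfl⟩

/-- Two windows with different markers: the second marker is behind the first window. -/
theorem Mt_next (h : Mt x w r sd) (h' : Mt x w' r' sd') (hm : mp w sd < mp w' sd') :
    w + el r ≤ mp w' sd' := h.bar h'.mk.bar hm

theorem wr_block (h : Mt x w r true) : wr x w r.2 = x := by
  funext i
  by_cases c : w ≤ i ∧ i < w + 12
  · rw [wr_in c.1 c.2]
    have := h.block (i := i - w) (by omega) (by omega)
    rw [show w + (i - w) = i by ring] at this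
    exact this.symm
  · exact wr_out (by omega)

theorem TB_of_slot (h : Mt x w r true) (hp : Slot x p) (h1 : w - 156 < p) (h2 : p ≤ w - 144) :
    TB x w r.2 := by
  refine ⟨p, h1, h2, ?_⟩
  rw [wr_block h]
  exact hp

theorem TB_true (h : Mt x w r true) :
    TB x w r.2 ↔ ∃ p : ℤ, w - 156 < p ∧ p ≤ w - 144 ∧ Slot x p := by
  unfold TB
  rw [wr_block h]

/-- `TB` depends only on the cells before the block. -/
theorem TB_congr (h : ∀ i, w - 156 < i → i < w → x i = y i) : TB x w u ↔ TB y w u := by
  unfold TB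
  refine exists_congr fun p => ?_
  constructor
  · rintro ⟨h1, h2, h3⟩
    refine ⟨h1, h2, (Slot_congr ?_).mp h3⟩
    intro i h4 h5
    by_cases c : w ≤ i
    · rw [wr_in c (by omega), wr_in c (by omega)]
    · rw [wr_out (by omega), wr_out (by omega)]
      exact h i (by omega) (by omega)
  · rintro ⟨h1, h2, h3⟩
    refine ⟨h1, h2, (Slot_congr ?_).mpr h3⟩
    intro i h4 h5
    by_cases c : w ≤ i
    · rw [wr_in c (by omega), wr_in c (by omega)]
    · rw [wr_out (by omega), wr_out (by omega)]
      exact h i (by omega) (by omega)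

end Pool.Agent.WU
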