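import Pool.Agent.WU.Slots
import Pool.Agent.WU.Swap

/-!
# The growth layer
-/

set_option autoImplicit false

namespace Pool.Agent.WU

open Function

variable {x y : Cfg} {p q a b i w : ℤ} {c c' : Cont}

theorem SysH_H0_BL : H0 ≠ BL := by decide
theorem SysH_H1_BL : H1 ≠ BL := by decide
theorem SysH_H0_H1 : H0 ≠ H1 := by decide

theorem sysH_act_false : sysH.Act x (p, (), false) ↔ SC x p H0 ∧ Zs x (p + 156) (p + 312) := by
  constructor
  · rintro ⟨h, -⟩
    have h' : ∀ i : ℤ, 0 ≤ i → i < 312 →
        x (p + i) = (if i < 156 then code H0 i else false) := h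
    constructor
    · intro i h0 h1
      rw [h' i h0 (by omega), if_pos h1]
    · intro i h0 h1
      have := h' (i - p) (by omega) (by omega)
      rw [if_neg (by omega), show p + (i - p) = i by ring] at this
      exact this
  · rintro ⟨h1, h2⟩
    refine ⟨?_, trivial⟩
    show ∀ i : ℤ, 0 ≤ i → i < 312 → x (p + i) = (if i < 156 then code H0 i else false)
    intro i h3 h4
    by_cases h5 : i < 156
    · rw [if_pos h5]
      exact h1 i h3 h5
    · rw [if_neg h5]
      exact h2 (p + i) (by omega) (by omega)

theorem sysH_act_true : sysH.Act x (p, (), true) ↔ SC x p BL ∧ SC x (p + 156) H1 := by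
  constructor
  · rintro ⟨h, -⟩
    have h' : ∀ i : ℤ, 0 ≤ i → i < 312 →
        x (p + i) = (if i < 156 then code BL i else code H1 (i - 156)) := h
    constructor
    · intro i h0 h1
      rw [h' i h0 (by omega), if_pos h1]
    · intro i h0 h1
      have := h' (i + 156) (by omega) (by omega)
      rw [if_neg (by omega), show i + 156 - 156 = i by ring,
        show p + (i + 156) = p + 156 + i by ring] at this
      exact this
  · rintro ⟨h1, h2⟩
    refine ⟨?_, trivial⟩
    show ∀ i : ℤ, 0 ≤ i → i < 312 → x (p + i) = (if i < 156 then code BL i else code H1 (i - 156))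
    intro i h3 h4
    by_cases h5 : i < 156
    · rw [if_pos h5]
      exact h1 i h3 h5
    · rw [if_neg h5]
      have := h2 (i - 156) (by omega) (by omega)
      rw [show p + 156 + (i - 156) = p + i by ring] at this
      exact this

theorem SysH_slot {sd : Bool} (h : sysH.Act x (p, (), sd)) : Slot x p := by
  cases sd
  · exact ⟨H0, (sysH_act_false.mp h).1⟩
  · exact ⟨BL, (sysH_act_true.mp h).1⟩

theorem SysH_unique {sd sd' : Bool} (h : sysH.Act x (p, (), sd)) (h' : sysH.Act x (p, (), sd')) :
    sd = sd' := by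
  cases sd <;> cases sd'
  · rfl
  · exact absurd (SC_unique (sysH_act_false.mp h).1 (sysH_act_true.mp h').1) SysH_H0_BL
  · exact absurd (SC_unique (sysH_act_false.mp h').1 (sysH_act_true.mp h).1) SysH_H0_BL
  · rfl

/-- A slot which does not start at `p` and meets the window at `p` is the second slot of it. -/
theorem SysH_next {sd : Bool} (h : sysH.Act x (p, (), sd)) (hq : Slot x q) (hpq : p < q)
    (hq' : q < p + 312) : sd = true ∧ q = p + 156 := by
  have h1 : p + 156 ≤ q := (SysH_slot h).disj hq hpq
  cases sd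
  · have h2 := (sysH_act_false.mp h).2 q h1 hq'
    have h3 := hq.pre.c0
    rw [h2] at h3
    exact absurd h3 (by decide)
  · refine ⟨rfl, ?_⟩
    by_contra hne
    have h3 := Slot.disj ⟨H1, (sysH_act_true.mp h).2⟩ hq (by omega)
    omega

theorem SysH_disj {sd sd' : Bool} (h : sysH.Act x (p, (), sd)) (h' : sysH.Act x (q, (), sd'))
    (hpq : p < q) : p + 312 ≤ q := by
  by_contra hcon
  push Not at hcon
  obtain ⟨hsd, hq⟩ := SysH_next h (SysH_slot h') hpq hcon
  subst hsd
  subst hq
  have h1 := (sysH_act_true.mp h).2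
  cases sd'
  · exact SysH_H0_H1 (SC_unique (sysH_act_false.mp h').1 h1)
  · exact SysH_H1_BL (SC_unique h1 (sysH_act_true.mp h').1)

theorem sysH_good : sysH.Good := by
  refine ⟨fun _ => ?_, ?_, fun _ _ _ _ _ => trivial⟩
  · show (0 : ℤ) < 312
    norm_num
  · rintro x ⟨p, ⟨⟩, sd⟩ ⟨q, ⟨⟩, sd'⟩ h h'
    rcases lt_trichotomy p q with hpq | hpq | hpq
    · exact Or.inr (Or.inl (SysH_disj h h' hpq))
    · subst hpq
      rw [SysH_unique h h']
      exact Or.inl rfl
    · exact Or.inr (Or.inr (SysH_disj h' h hpq))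

theorem swapH_swapH (x : Cfg) : sysH.swap (sysH.swap x) = x := Sys.swap_swap sysH_good x

/-- Nothing but slots and the windows changes. -/
theorem SysH_else (h : ∀ p sd, sysH.Act x (p, (), sd) → i < p ∨ p + 312 ≤ i) :
    sysH.swap x i = x i := by
  apply Sys.swap_else
  rintro ⟨p, ⟨⟩, sd⟩ hs
  exact h p sd hs

theorem SysH_at {sd : Bool} (h : sysH.Act x (p, (), sd)) (h1 : p ≤ i) (h2 : i < p + 312) :
    sysH.swap x i = sysH.word () (!sd) (i - p) :=
  Sys.swap_at (s := (p, (), sd)) sysH_good h h1 h2

/-- Nothing but slots and the windows changes. -/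
theorem swapH_else (h1 : ∀ p, SC x p H0 → Zs x (p + 156) (p + 312) → i < p ∨ p + 312 ≤ i)
    (h2 : ∀ p, SC x p BL → SC x (p + 156) H1 → i < p ∨ p + 312 ≤ i) : sysH.swap x i = x i := by
  apply SysH_else
  intro p sd h
  cases sd
  · exact h1 p (sysH_act_false.mp h).1 (sysH_act_false.mp h).2
  · exact h2 p (sysH_act_true.mp h).1 (sysH_act_true.mp h).2

/-- A slot with content different from `H0`, `H1`, and not blank before a slot `H1`, stays. -/
theorem swapH_SC (h : SC x p c) (h0 : c ≠ H0) (h1 : c ≠ H1)
    (h2 : c = BL → ¬ SC x (p + 156) H1) : SC (sysH.swap x) p c := by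
  intro i hi hi'
  rw [← h i hi hi']
  apply SysH_else
  intro q sd hq
  rcases lt_trichotomy p q with hpq | hpq | hpq
  · have := Slot.disj ⟨c, h⟩ (SysH_slot hq) hpq
    left
    omega
  · subst hpq
    exfalso
    cases sd
    · exact h0 (SC_unique h (sysH_act_false.mp hq).1)
    · exact h2 (SC_unique h (sysH_act_true.mp hq).1) (sysH_act_true.mp hq).2
  · right
    by_contra hcon
    push Not at hcon
    obtain ⟨hsd, hp⟩ := SysH_next hq ⟨c, h⟩ hpq (by omega)
    subst hsd
    subst hp
    exact h1 (SC_unique h (sysH_act_true.mp hq).2)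

theorem swapH_grow (h : SC x p H0) (hz : Zs x (p + 156) (p + 312)) :
    SC (sysH.swap x) p BL ∧ SC (sysH.swap x) (p + 156) H1 := by
  have hact : sysH.Act x (p, (), false) := sysH_act_false.mpr ⟨h, hz⟩
  constructor
  · intro i h0 h1
    rw [SysH_at hact (by omega) (by omega), show p + i - p = i by ring]
    show (if i < 156 then code BL i else code H1 (i - 156)) = _
    rw [if_pos h1]
  · intro i h0 h1
    rw [SysH_at hact (by omega) (by omega), show p + 156 + i - p = i + 156 by ring]
    show (if i + 156 < 156 then code BL (i + 156) else code H1 (i + 156 - 156)) = _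
    rw [if_neg (by omega), show i + 156 - 156 = i by ring]

/-- An active window ends before a barrier or starts behind it. -/
theorem SysH_bar {sd : Bool} (hb : Bar x b) (h : sysH.Act x (q, (), sd)) : q + 312 ≤ b ∨ b < q := by
  by_cases hqb : b < q
  · exact Or.inr hqb
  · left
    push Not at hqb
    have h1 := hb.slot (SysH_slot h) hqb
    by_contra hcon
    push Not at hcon
    cases sd
    · have h2 := (sysH_act_false.mp h).2 b h1 hcon
      have h3 := hb.1
      rw [h2] at h3
      exact absurd h3 (by decide)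
    · have h2 := hb.slot ⟨H1, (sysH_act_true.mp h).2⟩ h1
      omega

theorem swapH_bar (h : Bar x b) (h1 : b ≤ i) (h2 : i < b + 4) : sysH.swap x i = x i := by
  by_cases hex : ∃ q sd, sysH.Act x (q, (), sd) ∧ q ≤ i ∧ i < q + 312
  · obtain ⟨q, sd, hq, h3, h4⟩ := hex
    rw [SysH_at hq h3 h4]
    have h5 : b < q := by
      rcases SysH_bar h hq with h5 | h5
      · omega
      · exact h5
    have h6 := (SysH_slot hq).pre
    have hk : i - q = 0 ∨ i - q = 1 ∨ i - q = 2 := by omega
    have key : ∀ sd' : Bool, ∀ k : ℤ, k < 156 → sysH.word () sd' k = code (if sd' then BL else H0) k := by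
      intro sd' k hk
      show (if sd' then (if k < 156 then code BL k else code H1 (k - 156))
        else (if k < 156 then code H0 k else false)) = _
      rw [if_pos hk, if_pos hk]
      cases sd' <;> rfl
    rw [key _ _ (by omega)]
    rcases hk with hk | hk | hk
    · rw [hk, code_0, show i = q by omega, h6.c0]
    · rw [hk, code_1, show i = q + 1 by omega, h6.c1]
    · rw [hk, code_2, show i = q + 2 by omega, h6.c2]
  · apply SysH_else
    intro q sd hq
    by_contra hcon
    push Not at hcon
    exact hex ⟨q, sd, hq, hcon.1, hcon.2⟩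

theorem Bar_swapH (h : Bar x b) : Bar (sysH.swap x) b :=
  (Bar_congr fun _ h1 h2 => swapH_bar h h1 h2).mpr h

/-- An active window which lies in a region of agreement gives the same result. -/
theorem SysH_same {sd : Bool} (hq : sysH.Act x (q, (), sd)) (h : ∀ k, q ≤ k → k < q + 312 → x k = y k)
    (h1 : q ≤ i) (h2 : i < q + 312) : sysH.swap x i = sysH.swap y i := by
  have hy : sysH.Act y (q, (), sd) := by
    refine ⟨?_, trivial⟩
    intro k h3 h4
    have h4' : k < 312 := h4
    rw [← h (q + k) (by omega) (by omega)]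
    exact hq.1 k h3 h4
  rw [SysH_at hq h1 h2, SysH_at hy h1 h2]

/-- General principle: if all active windows of both configurations which contain `i` lie in a
region of agreement, the results agree at `i`. -/
theorem SysH_region {P : ℤ → Prop} (h : ∀ k, P k → x k = y k) (hi : P i)
    (hx : ∀ q sd, sysH.Act x (q, (), sd) → q ≤ i → i < q + 312 → ∀ k, q ≤ k → k < q + 312 → P k)
    (hy : ∀ q sd, sysH.Act y (q, (), sd) → q ≤ i → i < q + 312 → ∀ k, q ≤ k → k < q + 312 → P k) :
    sysH.swap x i = sysH.swap y i := by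
  by_cases hex : ∃ q sd, sysH.Act x (q, (), sd) ∧ q ≤ i ∧ i < q + 312
  · obtain ⟨q, sd, hq, h3, h4⟩ := hex
    exact SysH_same hq (fun k h5 h6 => h k (hx q sd hq h3 h4 k h5 h6)) h3 h4
  · by_cases hey : ∃ q sd, sysH.Act y (q, (), sd) ∧ q ≤ i ∧ i < q + 312
    · obtain ⟨q, sd, hq, h3, h4⟩ := hey
      exact (SysH_same hq (fun k h5 h6 => (h k (hy q sd hq h3 h4 k h5 h6)).symm) h3 h4).symm
    · rw [SysH_else, SysH_else, h i hi]
      · intro q sd hq
        by_contra hcon
        push Not at hcon
        exact hey ⟨q, sd, hq, hcon.1, hcon.2⟩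
      · intro q sd hq
        by_contra hcon
        push Not at hcon
        exact hex ⟨q, sd, hq, hcon.1, hcon.2⟩

theorem swapH_zone (ha : Bar x a) (hb : Bar x b) (ha' : Bar y a) (hb' : Bar y b)
    (h : ∀ i, a ≤ i → i < b → x i = y i) :
    ∀ i, a ≤ i → i < b → sysH.swap x i = sysH.swap y i := by
  intro i h1 h2
  refine SysH_region (P := fun k => a ≤ k ∧ k < b) (fun k hk => h k hk.1 hk.2) ⟨h1, h2⟩ ?_ ?_
  · intro q sd hq h3 h4 k h5 h6
    rcases SysH_bar ha hq with h7 | h7
    · omega
    · rcases SysH_bar hb hq with h8 | h8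
      · exact ⟨by omega, by omega⟩
      · omega
  · intro q sd hq h3 h4 k h5 h6
    rcases SysH_bar ha' hq with h7 | h7
    · omega
    · rcases SysH_bar hb' hq with h8 | h8
      · exact ⟨by omega, by omega⟩
      · omega

theorem swapH_right (ha : Bar x a) (ha' : Bar y a)
    (h : ∀ i, a ≤ i → x i = y i) : ∀ i, a ≤ i → sysH.swap x i = sysH.swap y i := by
  intro i h1
  refine SysH_region (P := fun k => a ≤ k) (fun k hk => h k hk) h1 ?_ ?_
  · intro q sd hq h3 h4 k h5 h6
    rcases SysH_bar ha hq with h7 | h7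
    · omega
    · show a ≤ k
      omega
  · intro q sd hq h3 h4 k h5 h6
    rcases SysH_bar ha' hq with h7 | h7
    · omega
    · show a ≤ k
      omega

theorem swapH_gap (ha : Bar x a) (hs : ∀ p, a ≤ p → p < b → ¬ Slot x p)
    (h1 : a ≤ i) (h2 : i < b) : sysH.swap x i = x i := by
  apply SysH_else
  intro q sd hq
  rcases SysH_bar ha hq with h7 | h7
  · right
    omega
  · left
    by_contra hcon
    push Not at hcon
    exact hs q h7.le (by omega) (SysH_slot hq)

theorem swapH_known (ha : Bar x a) (hab : a ≤ b) (hs : ∀ p, a ≤ p → p < b → ¬ Slot x p)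
    (ha' : Bar y a) (hs' : ∀ p, a ≤ p → p < b → ¬ Slot y p)
    (h : ∀ i, b ≤ i → x i = y i) : ∀ i, b ≤ i → sysH.swap x i = sysH.swap y i := by
  intro i h1
  refine SysH_region (P := fun k => b ≤ k) (fun k hk => h k hk) h1 ?_ ?_
  · intro q sd hq h3 h4 k h5 h6
    show b ≤ k
    rcases SysH_bar ha hq with h7 | h7
    · omega
    · by_contra hcon
      exact hs q h7.le (by omega) (SysH_slot hq)
  · intro q sd hq h3 h4 k h5 h6
    show b ≤ k
    rcases SysH_bar ha' hq with h7 | h7
    · omega
    · by_contra hcon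
      exact hs' q h7.le (by omega) (SysH_slot hq)

/-- No new slot starts in a gap. -/
theorem swapH_gap_slot (ha : Bar x a) (hs : ∀ p, a ≤ p → p < b → ¬ Slot x p) :
    ∀ p, a ≤ p → p < b → ¬ Slot (sysH.swap x) p := by
  intro p hp hpb hslot
  have ha' := Bar_swapH ha
  -- the slot of the new configuration is not touched by its own active windows
  have key : ∀ q sd, sysH.Act (sysH.swap x) (q, (), sd) → p + 156 ≤ q ∨ q + 312 ≤ p := by
    intro q sd hq
    rcases lt_trichotomy p q with hpq | hpq | hpq
    · exact Or.inl (hslot.disj (SysH_slot hq) hpq)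
    · subst hpq
      exfalso
      apply hs p hp hpb
      have hx : sysH.Act (sysH.swap (sysH.swap x)) (p, (), !sd) := Sys.Act_swap sysH_good hq
      rw [swapH_swapH] at hx
      exact SysH_slot hx
    · right
      by_contra hcon
      push Not at hcon
      obtain ⟨hsd, hpe⟩ := SysH_next hq hslot hpq hcon
      rcases SysH_bar ha' hq with h7 | h7
      · omega
      · apply hs q h7.le (by omega)
        have hx : sysH.Act (sysH.swap (sysH.swap x)) (q, (), !sd) := Sys.Act_swap sysH_good hq
        rw [swapH_swapH] at hx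
        exact SysH_slot hx
  apply hs p hp hpb
  obtain ⟨c, hc⟩ := hslot
  refine ⟨c, fun i h0 h1 => ?_⟩
  rw [← hc i h0 h1]
  have h2 : sysH.swap (sysH.swap x) (p + i) = sysH.swap x (p + i) := by
    apply SysH_else
    intro q sd hq
    rcases key q sd hq with h3 | h3
    · left
      omega
    · right
      omega
  rw [swapH_swapH] at h2
  exact h2

end Pool.Agent.WU
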