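import Pool.Agent.WU.ZoneE
import Pool.Agent.WU.Smap
import Pool.Agent.WU.SysH

/-!
# The automaton between a wall and a marker
-/

set_option autoImplicit false

namespace Pool.Agent.WU

open Function

variable {x y z : Cfg} {p q a b c i w w' : ℤ} {u v : Dg} {j : Fin 13} {r r' : Fin 13 × Dg}
  {sd sd' : Bool}

/-! ### Inverses -/

theorem NNi_NN (x : Cfg) : NNi (NN x) = x := by
  unfold NNi NN
  rw [smap_cvi_cv, smap_g2_g2, smap_gG_gG, swapH_swapH]
theorem NN_NNi (x : Cfg) : NN (NNi x) = x := by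
  unfold NNi NN
  rw [swapH_swapH, smap_gG_gG, smap_g2_g2, smap_cv_cvi]
theorem FFi_FF (x : Cfg) : FFi (FF x) = x := by
  unfold FFi FF
  rw [swapB_swapB, swapA_swapA, NNi_NN]
theorem FF_FFi (x : Cfg) : FF (FFi x) = x := by
  unfold FFi FF
  rw [NN_NNi, swapA_swapA, swapB_swapB]

/-! ### Barriers, zones -/

theorem NN_bar (h : Bar x b) (h1 : b ≤ i) (h2 : i < b + 4) : NN x i = x i := by
  unfold NN
  rw [smap_bar (Bar_smap (Bar_smap (Bar_swapH h))) h1 h2, smap_bar (Bar_smap (Bar_swapH h)) h1 h2,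
    smap_bar (Bar_swapH h) h1 h2, swapH_bar h h1 h2]
theorem NNi_bar (h : Bar x b) (h1 : b ≤ i) (h2 : i < b + 4) : NNi x i = x i := by
  unfold NNi
  rw [swapH_bar (Bar_smap (Bar_smap (Bar_smap h))) h1 h2, smap_bar (Bar_smap (Bar_smap h)) h1 h2,
    smap_bar (Bar_smap h) h1 h2, smap_bar h h1 h2]
theorem Bar_NN (h : Bar x b) : Bar (NN x) b :=
  Bar_smap (Bar_smap (Bar_smap (Bar_swapH h)))
theorem Bar_NNi (h : Bar x b) : Bar (NNi x) b :=
  Bar_swapH (Bar_smap (Bar_smap (Bar_smap h)))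

theorem NN_zone (ha : Bar x a) (hb : Bar x b) (ha' : Bar y a) (hb' : Bar y b)
    (h : ∀ i, a ≤ i → i < b → x i = y i) : ∀ i, a ≤ i → i < b → NN x i = NN y i :=
  smap_zone (Bar_smap (Bar_smap (Bar_swapH ha))) (Bar_smap (Bar_smap (Bar_swapH hb)))
    (Bar_smap (Bar_smap (Bar_swapH ha'))) (Bar_smap (Bar_smap (Bar_swapH hb')))
    (smap_zone (Bar_smap (Bar_swapH ha)) (Bar_smap (Bar_swapH hb))
      (Bar_smap (Bar_swapH ha')) (Bar_smap (Bar_swapH hb'))
      (smap_zone (Bar_swapH ha) (Bar_swapH hb) (Bar_swapH ha') (Bar_swapH hb')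
        (swapH_zone ha hb ha' hb' h)))

theorem NN_right (ha : Bar x a) (ha' : Bar y a)
    (h : ∀ i, a ≤ i → x i = y i) : ∀ i, a ≤ i → NN x i = NN y i :=
  smap_right (Bar_smap (Bar_smap (Bar_swapH ha))) (Bar_smap (Bar_smap (Bar_swapH ha')))
    (smap_right (Bar_smap (Bar_swapH ha)) (Bar_smap (Bar_swapH ha'))
      (smap_right (Bar_swapH ha) (Bar_swapH ha') (swapH_right ha ha' h)))

theorem NN_gap (ha : Bar x a) (hs : ∀ p, a ≤ p → p < b → ¬ Slot x p)
    (h1 : a ≤ i) (h2 : i < b) : NN x i = x i := by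
  have s1 : ∀ p, a ≤ p → p < b → ¬ Slot (sysH.swap x) p := swapH_gap_slot ha hs
  have s2 : ∀ p, a ≤ p → p < b → ¬ Slot (smap gG (sysH.swap x)) p := fun p hp hq hS =>
    s1 p hp hq (smap_Slot.1 hS)
  have s3 : ∀ p, a ≤ p → p < b → ¬ Slot (smap g2 (smap gG (sysH.swap x))) p := fun p hp hq hS =>
    s2 p hp hq (smap_Slot.1 hS)
  unfold NN
  rw [smap_gap (Bar_smap (Bar_smap (Bar_swapH ha))) s3 h1 h2,
    smap_gap (Bar_smap (Bar_swapH ha)) s2 h1 h2, smap_gap (Bar_swapH ha) s1 h1 h2,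
    swapH_gap ha hs h1 h2]

theorem NNi_gap (ha : Bar x a) (hs : ∀ p, a ≤ p → p < b → ¬ Slot x p)
    (h1 : a ≤ i) (h2 : i < b) : NNi x i = x i := by
  have s1 : ∀ p, a ≤ p → p < b → ¬ Slot (smap cvi x) p := fun p hp hq hS =>
    hs p hp hq (smap_Slot.1 hS)
  have s2 : ∀ p, a ≤ p → p < b → ¬ Slot (smap g2 (smap cvi x)) p := fun p hp hq hS =>
    s1 p hp hq (smap_Slot.1 hS)
  have s3 : ∀ p, a ≤ p → p < b → ¬ Slot (smap gG (smap g2 (smap cvi x))) p := fun p hp hq hS =>
    s2 p hp hq (smap_Slot.1 hS)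
  unfold NNi
  rw [swapH_gap (Bar_smap (Bar_smap (Bar_smap ha))) s3 h1 h2,
    smap_gap (Bar_smap (Bar_smap ha)) s2 h1 h2, smap_gap (Bar_smap ha) s1 h1 h2,
    smap_gap ha hs h1 h2]

theorem NNi_known (ha : Bar x a) (hab : a ≤ b) (hs : ∀ p, a ≤ p → p < b → ¬ Slot x p)
    (ha' : Bar y a) (hs' : ∀ p, a ≤ p → p < b → ¬ Slot y p)
    (h : ∀ i, b ≤ i → x i = y i) : ∀ i, b ≤ i → NNi x i = NNi y i := by
  have s1 : ∀ p, a ≤ p → p < b → ¬ Slot (smap cvi x) p := fun p hp hq hS =>
    hs p hp hq (smap_Slot.1 hS)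
  have s2 : ∀ p, a ≤ p → p < b → ¬ Slot (smap g2 (smap cvi x)) p := fun p hp hq hS =>
    s1 p hp hq (smap_Slot.1 hS)
  have s3 : ∀ p, a ≤ p → p < b → ¬ Slot (smap gG (smap g2 (smap cvi x))) p := fun p hp hq hS =>
    s2 p hp hq (smap_Slot.1 hS)
  have t1 : ∀ p, a ≤ p → p < b → ¬ Slot (smap cvi y) p := fun p hp hq hS =>
    hs' p hp hq (smap_Slot.1 hS)
  have t2 : ∀ p, a ≤ p → p < b → ¬ Slot (smap g2 (smap cvi y)) p := fun p hp hq hS =>
    t1 p hp hq (smap_Slot.1 hS)
  have t3 : ∀ p, a ≤ p → p < b → ¬ Slot (smap gG (smap g2 (smap cvi y))) p := fun p hp hq hS =>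
    t2 p hp hq (smap_Slot.1 hS)
  exact swapH_known (Bar_smap (Bar_smap (Bar_smap ha))) hab s3
    (Bar_smap (Bar_smap (Bar_smap ha'))) t3
    (smap_known (Bar_smap (Bar_smap ha)) hab s2 (Bar_smap (Bar_smap ha')) t2
      (smap_known (Bar_smap ha) hab s1 (Bar_smap ha') t1
        (smap_known ha hab hs ha' hs' h)))

/-! ### Walls -/

/-- The wall `1^12 0^12 1 0` at `a`. -/
def Wall (x : Cfg) (a : ℤ) : Prop :=
  (∀ i, a ≤ i → i < a + 12 → x i = true) ∧ Zs x (a + 12) (a + 24) ∧ x (a + 24) = true ∧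
    x (a + 25) = false

/-- Wall at `a`, no pair of ones in `[a + 24, c)`, last cell zero. -/
def Cls (a c : ℤ) (x : Cfg) : Prop :=
  Wall x a ∧ a + 38 ≤ c ∧ x (c - 1) = false ∧
    ∀ i, a + 24 ≤ i → i < c → x i = false ∨ x (i + 1) = false

theorem Wall.bar (h : Wall x a) : Bar x a :=
  ⟨h.1 a (by omega) (by omega), h.1 (a + 1) (by omega) (by omega),
    Or.inl (h.1 (a + 2) (by omega) (by omega))⟩

/-- A pair of ones at or behind the wall, before `a + 26`, starts in `[a, a + 10]`. -/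
theorem Wall.pair (h : Wall x a) (h1 : x q = true) (h2 : x (q + 1) = true) (ha : a ≤ q) :
    q ≤ a + 10 ∨ a + 26 ≤ q := by
  obtain ⟨w1, w2, w3, w4⟩ := h
  by_contra hc
  have e1 : ¬ (a + 12 ≤ q ∧ q < a + 24) := fun e => by
    rw [w2 q e.1 e.2] at h1; exact Bool.false_ne_true h1
  have e2 : q ≠ a + 11 := fun e => by
    rw [w2 (q + 1) (by omega) (by omega)] at h2; exact Bool.false_ne_true h2
  have e3 : q ≠ a + 24 := fun e => by
    rw [e, show a + 24 + 1 = a + 25 by ring, w4] at h2; exact Bool.false_ne_true h2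
  have e4 : q ≠ a + 25 := fun e => by
    rw [e, w4] at h1; exact Bool.false_ne_true h1
  omega

/-- No slot starts at the wall. -/
theorem Wall.noslot (h : Wall x a) (hS : Slot x p) (h1 : a ≤ p) : a + 26 ≤ p := by
  have hP := hS.pre
  rcases h.pair hP.c0 hP.c1 h1 with h2 | h2
  · exfalso
    by_cases h3 : p ≤ a + 9
    · have := h.1 (p + 2) (by omega) (by omega)
      rw [hP.c2] at this
      exact Bool.false_ne_true this
    · have := h.2.1 (p + 3) (by omega) (by omega)
      rw [hP.c3] at this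
      exact Bool.false_ne_true this.symm
  · exact h2

theorem Cls.noslot (h : Cls a c x) : ∀ p, a ≤ p → p < c → ¬ Slot x p := by
  intro p h1 h2 hS
  have h3 := h.1.noslot hS h1
  rcases h.2.2.2 p (by omega) h2 with h4 | h4
  · rw [hS.pre.c0] at h4
    exact Bool.false_ne_true h4.symm
  · rw [hS.pre.c1] at h4
    exact Bool.false_ne_true h4.symm

/-- No window has its marker in the wall. -/
theorem Wall.marker (h : Wall x a) (hM : Mt x w r sd) (h1 : a ≤ mp w sd) :
    a + 26 ≤ mp w sd := by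
  have hk := hM.mk
  rcases h.pair hk.c0 hk.c1 h1 with h2 | h2
  · exfalso
    by_cases h3 : mp w sd ≤ a + 9
    · have e := h.1 (mp w sd + 2) (by omega) (by omega)
      rw [hk.zero (by omega) (by omega)] at e
      exact Bool.false_ne_true e
    · have hq : mp w sd = a + 10 := by omega
      have e1 : x (a + 22) = false := h.2.1 (a + 22) (by omega) (by omega)
      have e2 : x (a + 24) = true := h.2.2.1
      obtain ⟨j, u⟩ := r
      have hj0 : (0 : ℤ) ≤ ((j : ℕ) : ℤ) := by positivity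
      cases sd with
      | false =>
        have hw : w = a + 10 := hq
        obtain ⟨-, m2, m3, -⟩ := Mt_false.1 hM
        by_cases hj : ((j : ℕ) : ℤ) = 0
        · have e3 := m3 0 (by norm_num) (by norm_num)
          rw [code_0, show w + 12 + 12 * ((j : ℕ) : ℤ) + 0 = a + 22 by omega, e1] at e3
          exact Bool.false_ne_true e3
        · have e3 := m2 (a + 24) (by omega) (by omega)
          rw [e2] at e3
          exact Bool.false_ne_true e3.symm
      | true =>
        have hw : w + 12 = a + 10 := hq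
        obtain ⟨-, -, m3, m4, -⟩ := Mt_true.1 hM
        by_cases hj : ((j : ℕ) : ℤ) = 0
        · have e3 := m3 hj (a + 24) (by omega) (by omega)
          rw [e2] at e3
          exact Bool.false_ne_true e3.symm
        · obtain ⟨m5, m6⟩ := m4 hj
          by_cases hj1 : ((j : ℕ) : ℤ) = 1
          · have e3 := m6 0 (by norm_num) (by norm_num)
            rw [code_0, show w + 12 + 12 * ((j : ℕ) : ℤ) + 0 = a + 22 by omega, e1] at e3
            exact Bool.false_ne_true e3
          · have e3 := m5 (a + 24) (by omega) (by omega)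
            rw [e2] at e3
            exact Bool.false_ne_true e3.symm
  · exact h2

/-- No window has its marker between the wall and `c`. -/
theorem Cls.marker (h : Cls a c x) (hM : Mt x w r sd) (h1 : a ≤ mp w sd) : c ≤ mp w sd := by
  have h2 := h.1.marker hM h1
  by_contra h3
  have hk := hM.mk
  rcases h.2.2.2 (mp w sd) (by omega) (by omega) with h4 | h4
  · rw [hk.c0] at h4
    exact Bool.false_ne_true h4.symm
  · rw [hk.c1] at h4
    exact Bool.false_ne_true h4.symm

theorem Cls_imp (h : ∀ i, a ≤ i → i < c → x i = y i) (hx : Cls a c x) : Cls a c y := by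
  obtain ⟨⟨w1, w2, w3, w4⟩, h1, h2, h3⟩ := hx
  have hc : y (c - 1) = false := by rw [← h (c - 1) (by omega) (by omega)]; exact h2
  refine ⟨⟨fun i hi hi' => ?_, fun i hi hi' => ?_, ?_, ?_⟩, h1, hc, fun i hi hi' => ?_⟩
  · rw [← h i hi (by omega)]; exact w1 i hi hi'
  · rw [← h i (by omega) (by omega)]; exact w2 i hi hi'
  · rw [← h _ (by omega) (by omega)]; exact w3
  · rw [← h _ (by omega) (by omega)]; exact w4
  · by_cases h4 : i = c - 1
    · left; rw [h4]; exact hc
    · rw [← h i (by omega) hi', ← h (i + 1) (by omega) (by omega)]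
      exact h3 i hi hi'

theorem Cls_congr (h : ∀ i, a ≤ i → i < c → x i = y i) : Cls a c x ↔ Cls a c y :=
  ⟨Cls_imp h, Cls_imp fun i h1 h2 => (h i h1 h2).symm⟩

theorem Cls_NN (h : Cls a c x) : Cls a c (NN x) :=
  Cls_imp (fun _ h1 h2 => (NN_gap h.1.bar h.noslot h1 h2).symm) h

theorem Cls.NN (h : Cls a c x) : Cls a c (NN x) := Cls_NN h

theorem Cls.mono (h : Cls a c x) (hc : a + 38 ≤ p) (hp : p ≤ c) (h0 : x (p - 1) = false) :
    Cls a p x :=
  ⟨h.1, hc, h0, fun i h1 h2 => h.2.2.2 i h1 (by omega)⟩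

/-! ### Right parts -/

/-- Markers of the right part: marker at `b`, zeros, slots at `p + 156 k` for `k < n`, and no marker
behind them. -/
theorem mk_only {n : ℕ} (h1 : Mk x b) (h2 : Zs x (b + 12) p) (h3 : ∀ k : ℕ, k < n →
      Slot x (p + 156 * (k : ℤ))) (h4 : ∀ q, p + 156 * (n : ℤ) ≤ q → ¬ Mk x q) (hp : b + 12 ≤ p) :
    ∀ q, b ≤ q → Mk x q → q = b := by
  intro q hq hk
  by_contra hne
  have c0 := hk.c0
  have c1 := hk.c1
  have e1 : q ≠ b + 1 := fun e => by
    rw [h1.zero (i := q + 1) (by omega) (by omega)] at c1; exact Bool.false_ne_true c1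
  have e2 : ¬ (b + 2 ≤ q ∧ q < b + 12) := fun e => by
    rw [h1.zero e.1 e.2] at c0; exact Bool.false_ne_true c0
  have e3 : ¬ (b + 12 ≤ q ∧ q < p) := fun e => by
    rw [h2 q e.1 e.2] at c0; exact Bool.false_ne_true c0
  have e4 : p ≤ q := by omega
  by_cases e5 : p + 156 * (n : ℤ) ≤ q
  · exact h4 q e5 hk
  · have k1 : 0 ≤ (q - p) / 156 := Int.ediv_nonneg (by omega) (by norm_num)
    obtain ⟨k, hk'⟩ := Int.eq_ofNat_of_zero_le k1
    have k2 : p + 156 * (k : ℤ) ≤ q ∧ q < p + 156 * (k : ℤ) + 156 := by omega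
    have hS := h3 k (by omega)
    by_cases e6 : p + 156 * (k : ℤ) = q
    · rw [e6] at hS
      exact hk.not_pre hS.pre
    · have := hS.after c0 c1 (by omega)
      omega

/-- Ready, no event at the marker `b`: after `NN` no window has its marker at or behind `b`,
whatever stands on the left of `b`. -/
def RN (b : ℤ) (x : Cfg) : Prop :=
  Bar x b ∧ ∀ z w r sd, (∀ i, b ≤ i → z i = NN x i) → Mt z w r sd → mp w sd < b

/-- Ready for the push of the block `u` at the marker `b`: after `NN` the window `W1` stands at `b`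
with a slot behind it, it is the only window with marker at or behind `b`, and after the exchange
its other side is the only such window. -/
def RP (u : Dg) (b : ℤ) (x : Cfg) : Prop :=
  Bar x b ∧ ∃ r : Fin 13 × Dg, r.2 = u ∧ Mt (NN x) b r false ∧ Slot (NN x) (b + el r) ∧
    (∀ z w r' sd, (∀ i, b ≤ i → z i = NN x i) → Mt z w r' sd → b ≤ mp w sd →
      w = b ∧ r' = r ∧ sd = false) ∧
    (∀ z w r' sd, (∀ i, b ≤ i → i < b + el r → z i = ew r true (i - b)) →
      (∀ i, b + el r ≤ i → z i = NN x i) → Mt z w r' sd → b + 12 ≤ mp w sd →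
      w = b ∧ r' = r ∧ sd = true)

/-- Ones from `b` on. -/
def Ones (b : ℤ) (x : Cfg) : Prop := ∀ i, b ≤ i → x i = true

/-- After a push: block `u` at `b`, marker at `b + 12`, three slots, ones. -/
def CP (u : Dg) (b : ℤ) (x : Cfg) : Prop :=
  (∀ i, b ≤ i → i < b + 12 → x i = bit u (i - b)) ∧ Mk x (b + 12) ∧ SC x (b + 24) BL ∧
    SC x (b + 180) (cE u) ∧ SC x (b + 336) BL ∧ Ones (b + 492) x

end Pool.Agent.WU
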