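import Pool.Agent.WU.GoodE

/-!
# The push and pop layers between two barriers
-/

set_option autoImplicit false

namespace Pool.Agent.WU

open Function

variable {x y z : Cfg} {p q a b c i w w' : ℤ} {u v : Dg} {j : Fin 13} {r r' : Fin 13 × Dg}
  {sd sd' : Bool}

theorem TB_zone_aux (ha : Bar x a) (hw : a + 2 ≤ w)
    (h : ∀ i, a ≤ i → i < w → x i = y i) (ht : TB x w u) : TB y w u := by
  obtain ⟨p, h1, h2, hs⟩ := ht
  have hap : a ≤ p := by
    by_contra hlt
    have e0 : wr x w u a = true := by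
      rw [wr_out (Or.inl (by omega))]; exact ha.1
    have e1 : wr x w u (a + 1) = true := by
      rw [wr_out (Or.inl (by omega))]; exact ha.2.1
    have := Slot.after hs e0 e1 (by omega)
    omega
  refine ⟨p, h1, h2, ?_⟩
  refine (Slot_congr ?_).1 hs
  intro k hk1 hk2
  by_cases hk : k < w
  · rw [wr_out (Or.inl hk), wr_out (Or.inl hk)]
    exact h k (by omega) hk
  · rw [wr_in (by omega) (by omega), wr_in (by omega) (by omega)]

/-- `TB` at `w ≥ a + 2` depends only on the cells from the barrier `a` on. -/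
theorem TB_zone (ha : Bar x a) (ha' : Bar y a) (hw : a + 2 ≤ w)
    (h : ∀ i, a ≤ i → i < w → x i = y i) : TB x w u ↔ TB y w u :=
  ⟨TB_zone_aux ha hw h, TB_zone_aux ha' hw (fun i h1 h2 => (h i h1 h2).symm)⟩

/-- An active window of layer A which meets the zone is inside it, and active in every other
configuration with the same zone. -/
theorem ZoneE_actA (ha : Bar x a) (hb : Bar x b) (ha' : Bar y a)
    (h : ∀ i, a ≤ i → i < b → x i = y i)
    (hx : ∀ w r sd, Mt x w r sd → a ≤ mp w sd → mp w sd < b → a + 2 ≤ w)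
    (hx' : ∀ w r, sysA.Act x (w, r, true) → b ≤ w + 12 → b ≤ w)
    (hi1 : a ≤ i) (hi2 : i < b) (hA : sysA.Act x (w, r, sd)) (h1 : w ≤ i) (h2 : i < w + el r) :
    sysA.Act y (w, r, sd) := by
  have hA' := actA_iff.1 hA
  obtain ⟨hM, hS, hT⟩ := hA'
  have hmb : mp w sd < b := by
    cases sd with
    | false => simp only [mp, Bool.false_eq_true, if_false]; omega
    | true =>
      simp only [mp, if_true]
      by_contra hlt
      have := hx' w r hA (by omega)
      omega
  have hend : w + el r ≤ b := Mt.bar hM hb hmb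
  have ham : a ≤ mp w sd := by
    by_contra hlt
    have := Mt.bar hM ha (by omega)
    omega
  have haw : a + 2 ≤ w := hx w r sd hM ham hmb
  have hne : w + el r ≠ b := by
    intro he
    exact Bar.not_slot hb (he ▸ hS)
  have hS2 : w + el r + 156 ≤ b := Bar.slot hb hS (by omega)
  refine actA_iff.2 ⟨(Mt_congr ?_).1 hM, (Slot_congr ?_).1 hS, ?_⟩
  · intro k hk1 hk2
    exact h k (by omega) (by omega)
  · intro k hk1 hk2
    exact h k (by have := (el_bounds r).1; omega) (by omega)
  · rw [← TB_zone ha ha' haw (fun k hk1 hk2 => h k hk1 (by have := (el_bounds r).1; omega))]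
    exact hT

/-- The same for layer B. -/
theorem ZoneE_actB (ha : Bar x a) (hb : Bar x b) (ha' : Bar y a)
    (h : ∀ i, a ≤ i → i < b → x i = y i)
    (hx : ∀ w r sd, Mt x w r sd → a ≤ mp w sd → mp w sd < b → a + 2 ≤ w)
    (hx' : ∀ w r, sysB.Act x (w, r, true) → b ≤ w + 12 → b ≤ w)
    (hi1 : a ≤ i) (hi2 : i < b) (hA : sysB.Act x (w, r, sd)) (h1 : w ≤ i) (h2 : i < w + el r) :
    sysB.Act y (w, r, sd) := by
  have hA' := actB_iff.1 hA
  obtain ⟨hM, hS, hT⟩ := hA'
  have hmb : mp w sd < b := by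
    cases sd with
    | false => simp only [mp, Bool.false_eq_true, if_false]; omega
    | true =>
      simp only [mp, if_true]
      by_contra hlt
      have := hx' w r hA (by omega)
      omega
  have hend : w + el r ≤ b := Mt.bar hM hb hmb
  have ham : a ≤ mp w sd := by
    by_contra hlt
    have := Mt.bar hM ha (by omega)
    omega
  have haw : a + 2 ≤ w := hx w r sd hM ham hmb
  have hne : w + el r ≠ b := by
    intro he
    exact Bar.not_pre hb (he ▸ hS)
  have hS2 : w + el r + 144 ≤ b := Bar.pre hb hS (by omega)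
  refine actB_iff.2 ⟨(Mt_congr ?_).1 hM, (Pre_congr ?_).1 hS, ?_⟩
  · intro k hk1 hk2
    exact h k (by omega) (by omega)
  · intro k hk1 hk2
    exact h k (by have := (el_bounds r).1; omega) (by omega)
  · rw [← TB_zone ha ha' haw (fun k hk1 hk2 => h k hk1 (by have := (el_bounds r).1; omega))]
    exact hT

/-- Between two barriers layer A depends only on the zone, if no window of the zone starts before
`a + 2` and no active pop window reaches over `b`. -/
theorem swapA_zone (ha : Bar x a) (hb : Bar x b) (ha' : Bar y a) (hb' : Bar y b)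
    (h : ∀ i, a ≤ i → i < b → x i = y i)
    (hx : ∀ w r sd, Mt x w r sd → a ≤ mp w sd → mp w sd < b → a + 2 ≤ w)
    (hy : ∀ w r sd, Mt y w r sd → a ≤ mp w sd → mp w sd < b → a + 2 ≤ w)
    (hx' : ∀ w r, sysA.Act x (w, r, true) → b ≤ w + 12 → b ≤ w)
    (hy' : ∀ w r, sysA.Act y (w, r, true) → b ≤ w + 12 → b ≤ w) :
    ∀ i, a ≤ i → i < b → sysA.swap x i = sysA.swap y i := by
  intro i hi1 hi2
  by_cases hex : ∃ s, sysA.Act x s ∧ s.1 ≤ i ∧ i < s.1 + sysA.len s.2.1
  · obtain ⟨⟨w, r, sd⟩, hA, h1, h2⟩ := hex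
    have hAy : sysA.Act y (w, r, sd) :=
      ZoneE_actA ha hb ha' h hx hx' hi1 hi2 hA h1 h2
    rw [Sys.swap_at sysA_good hA h1 h2, Sys.swap_at sysA_good hAy h1 h2]
  · have hex2 : ∀ s, sysA.Act x s → i < s.1 ∨ s.1 + sysA.len s.2.1 ≤ i := by
      intro s hs
      by_contra hn
      exact hex ⟨s, hs, by omega, by omega⟩
    have hey2 : ∀ s, sysA.Act y s → i < s.1 ∨ s.1 + sysA.len s.2.1 ≤ i := by
      intro s hs
      by_contra hn
      obtain ⟨w, r, sd⟩ := s
      have h1 : w ≤ i := by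
        by_contra hn1
        exact hn (Or.inl (not_le.1 hn1))
      have h2 : i < w + el r := by
        by_contra hn1
        exact hn (Or.inr (not_lt.1 hn1))
      have hAx : sysA.Act x (w, r, sd) :=
        ZoneE_actA ha' hb' ha (fun k hk1 hk2 => (h k hk1 hk2).symm) hy hy' hi1 hi2 hs h1 h2
      rcases hex2 _ hAx with h3 | h3
      · exact hn (Or.inl h3)
      · exact hn (Or.inr h3)
    rw [Sys.swap_else hex2, Sys.swap_else hey2]
    exact h i hi1 hi2

theorem swapB_zone (ha : Bar x a) (hb : Bar x b) (ha' : Bar y a) (hb' : Bar y b)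
    (h : ∀ i, a ≤ i → i < b → x i = y i)
    (hx : ∀ w r sd, Mt x w r sd → a ≤ mp w sd → mp w sd < b → a + 2 ≤ w)
    (hy : ∀ w r sd, Mt y w r sd → a ≤ mp w sd → mp w sd < b → a + 2 ≤ w)
    (hx' : ∀ w r, sysB.Act x (w, r, true) → b ≤ w + 12 → b ≤ w)
    (hy' : ∀ w r, sysB.Act y (w, r, true) → b ≤ w + 12 → b ≤ w) :
    ∀ i, a ≤ i → i < b → sysB.swap x i = sysB.swap y i := by
  intro i hi1 hi2
  by_cases hex : ∃ s, sysB.Act x s ∧ s.1 ≤ i ∧ i < s.1 + sysB.len s.2.1
  · obtain ⟨⟨w, r, sd⟩, hA, h1, h2⟩ := hex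
    have hAy : sysB.Act y (w, r, sd) :=
      ZoneE_actB ha hb ha' h hx hx' hi1 hi2 hA h1 h2
    rw [Sys.swap_at sysB_good hA h1 h2, Sys.swap_at sysB_good hAy h1 h2]
  · have hex2 : ∀ s, sysB.Act x s → i < s.1 ∨ s.1 + sysB.len s.2.1 ≤ i := by
      intro s hs
      by_contra hn
      exact hex ⟨s, hs, by omega, by omega⟩
    have hey2 : ∀ s, sysB.Act y s → i < s.1 ∨ s.1 + sysB.len s.2.1 ≤ i := by
      intro s hs
      by_contra hn
      obtain ⟨w, r, sd⟩ := s
      have h1 : w ≤ i := by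
        by_contra hn1
        exact hn (Or.inl (not_le.1 hn1))
      have h2 : i < w + el r := by
        by_contra hn1
        exact hn (Or.inr (not_lt.1 hn1))
      have hAx : sysB.Act x (w, r, sd) :=
        ZoneE_actB ha' hb' ha (fun k hk1 hk2 => (h k hk1 hk2).symm) hy hy' hi1 hi2 hs h1 h2
      rcases hex2 _ hAx with h3 | h3
      · exact hn (Or.inl h3)
      · exact hn (Or.inr h3)
    rw [Sys.swap_else hex2, Sys.swap_else hey2]
    exact h i hi1 hi2

end Pool.Agent.WU
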